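import Pool.Agent.KO.E.SpecL

set_option autoImplicit false

open Set Filter Topology MvPolynomial

namespace Pool.Agent.KO

/-- The equation of `z = c δ * w`. -/
lemma bd_eq (m : ℕ) (c : ℕ → ℂ) (w : ℂ) (h : ∑ n ∈ Finset.range (m + 2), c n * w ^ n = 0) :
    (c (m + 1) * w) ^ (m + 1) =
      -∑ n ∈ Finset.range (m + 1), c n * c (m + 1) ^ (m - n) * (c (m + 1) * w) ^ n := by
  rw [Finset.sum_range_succ] at h
  have h1 : ∑ n ∈ Finset.range (m + 1), c n * c (m + 1) ^ (m - n) * (c (m + 1) * w) ^ n =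
      c (m + 1) ^ m * ∑ n ∈ Finset.range (m + 1), c n * w ^ n := by
    rw [Finset.mul_sum]
    refine Finset.sum_congr rfl fun n hn => ?_
    have hn' : n ≤ m := by
      have := Finset.mem_range.1 hn
      omega
    have h2 : c (m + 1) ^ m = c (m + 1) ^ (m - n) * c (m + 1) ^ n := by
      rw [← pow_add]
      congr 1
      omega
    rw [h2, mul_pow]
    ring
  rw [h1]
  have h3 : ∑ n ∈ Finset.range (m + 1), c n * w ^ n = -(c (m + 1) * w ^ (m + 1)) :=
    eq_neg_of_add_eq_zero_left h
  rw [h3, mul_pow]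
  ring

theorem sp_M8 : SpM8 := by
  intro δ c w h
  rcases δ with _ | m
  · simp only [zero_add, Finset.range_one, Finset.sum_singleton, pow_zero, mul_one] at h
    simp [h]
  · have he := bd_eq m c w h
    have hm : m + 1 - 1 = m := by omega
    rw [hm]
    set z : ℂ := c (m + 1) * w with hz
    have hS : 0 ≤ ∑ n ∈ Finset.range (m + 1), ‖c n‖ * ‖c (m + 1)‖ ^ (m - n) :=
      Finset.sum_nonneg fun n _ => by positivity
    rcases le_or_gt ‖z‖ 1 with h1 | h1
    · linarith
    · have h2 : ‖z‖ ^ (m + 1) ≤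
          (∑ n ∈ Finset.range (m + 1), ‖c n‖ * ‖c (m + 1)‖ ^ (m - n)) * ‖z‖ ^ m := by
        rw [← norm_pow, he, norm_neg, Finset.sum_mul]
        refine (norm_sum_le _ _).trans (Finset.sum_le_sum fun n hn => ?_)
        have hn' : n ≤ m := by
          have := Finset.mem_range.1 hn
          omega
        rw [norm_mul, norm_mul, norm_pow, norm_pow]
        exact mul_le_mul_of_nonneg_left (pow_le_pow_right₀ h1.le hn') (by positivity)
      have h3 : 0 < ‖z‖ ^ m := by positivity
      have h4 : ‖z‖ ≤ ∑ n ∈ Finset.range (m + 1), ‖c n‖ * ‖c (m + 1)‖ ^ (m - n) := by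
        rw [pow_succ, mul_comm] at h2
        exact le_of_mul_le_mul_right h2 h3
      linarith

end Pool.Agent.KO
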