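import Pool.Agent.KO.E.Crd

/-!
# Block E: coordinates of the fibres, transport of coordinates (helper52)
-/

set_option autoImplicit false

namespace Pool.Agent.KO

open Set Filter Topology

/-- Inverse of a chart with open image. -/
theorem IsChart.exists_inv {X : Type} [TopologicalSpace X] {O : Shf X} {n : ℕ}
    {c : X → Fin n → ℂ} {U : Set X} (h : IsChart O U c (c '' U)) (hne : U.Nonempty) :
    ∃ s : (Fin n → ℂ) → X, ContinuousOn s (c '' U) ∧ (∀ x ∈ U, s (c x) = x) ∧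
      ∀ v ∈ c '' U, s v ∈ U ∧ c (s v) = v := by
  classical
  obtain ⟨x₀, hx₀⟩ := hne
  have hinj : ∀ x ∈ U, ∀ y ∈ U, c x = c y → x = y := fun x hx y hy hxy =>
    congrArg Subtype.val (h.isEmbedding.injective (a₁ := ⟨x, hx⟩) (a₂ := ⟨y, hy⟩) hxy)
  set s : (Fin n → ℂ) → X := fun v => if hv : v ∈ c '' U then hv.choose else x₀ with hs
  have hsv : ∀ v ∈ c '' U, s v ∈ U ∧ c (s v) = v := by
    intro v hv
    simp only [hs, dif_pos hv]
    exact hv.choose_spec
  refine ⟨s, ?_, ?_, hsv⟩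
  · rw [continuousOn_iff_continuous_domRestrict]
    have e1 : Topology.IsInducing (fun x : U => c x) := h.isEmbedding.isInducing
    have e2 : Continuous (fun v : c '' U => (⟨s v, (hsv v v.2).1⟩ : U)) := by
      rw [e1.continuous_iff]
      have : ((fun x : U => c x) ∘ fun v : c '' U => (⟨s v, (hsv v v.2).1⟩ : U)) =
          fun v : c '' U => (v : Fin n → ℂ) := by
        funext v
        exact (hsv v v.2).2
      rw [this]
      exact continuous_subtype_val
    exact continuous_subtype_val.comp e2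
  · intro x hx
    obtain ⟨h1, h2⟩ := hsv (c x) ⟨x, hx, rfl⟩
    exact hinj _ h1 _ hx h2

theorem IsChart.continuousOn {X : Type} [TopologicalSpace X] {O : Shf X} {n : ℕ}
    {c : X → Fin n → ℂ} {U : Set X} {Ω : Set (Fin n → ℂ)} (h : IsChart O U c Ω) :
    ContinuousOn c U := by
  rw [continuousOn_iff_continuous_domRestrict]
  exact h.isEmbedding.continuous

theorem an_snoc {n : ℕ} (s : ℂ) (v : Fin n → ℂ) :
    AnalyticAt ℂ (fun v : Fin n → ℂ => (Fin.snoc v s : Fin (n + 1) → ℂ)) v := by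
  apply AnalyticAt.pi
  intro i
  refine Fin.lastCases ?_ (fun j => ?_) i
  · simp only [Fin.snoc_last]
    exact analyticAt_const
  · simp only [Fin.snoc_castSucc]
    exact Flip.an_coord j v

theorem an_init {n : ℕ} (v : Fin (n + 1) → ℂ) :
    AnalyticAt ℂ (fun v : Fin (n + 1) → ℂ => fun i : Fin n => v i.castSucc) v :=
  AnalyticAt.pi fun i => Flip.an_coord i.castSucc v

/-- Coordinates `(c, g)` of the total space give coordinates `c` of the fibre. -/
theorem IsCoord.fib {X : Type} [TopologicalSpace X] {O : Shf X} {n : ℕ}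
    {c : X → Fin (n + 1) → ℂ} {s : ℂ} {g : X → ℂ} (hg : ∀ y, c y (Fin.last n) = g y) {x : X}
    (hx : g x = s) (hc : IsCoord O c x) :
    IsCoord (res O {x | g x = s}) (fun y i => c y.1 (Fin.castSucc i)) ⟨x, hx⟩ := by
  classical
  obtain ⟨U, hxU, hch⟩ := hc
  obtain ⟨σ, hσ, hσ1, hσ2⟩ := hch.exists_inv ⟨x, hxU⟩
  have hN : IsOpen (c '' U) := hch.isOpenΩ
  have hsn : ∀ y : {x | g x = s}, (Fin.snoc (fun i : Fin n => c y.1 i.castSucc) s :
      Fin (n + 1) → ℂ) = c y.1 := by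
    intro y
    funext i
    refine Fin.lastCases ?_ (fun j => ?_) i
    · rw [Fin.snoc_last, hg, y.2.out]
    · rw [Fin.snoc_castSucc]
  have hsc : Continuous (fun v : Fin n → ℂ => (Fin.snoc v s : Fin (n + 1) → ℂ)) :=
    continuous_iff_continuousAt.2 fun v => (an_snoc s v).continuousAt
  set N : Set (Fin n → ℂ) := (fun v => (Fin.snoc v s : Fin (n + 1) → ℂ)) ⁻¹' (c '' U) with hNdef
  set τ : (Fin n → ℂ) → {x | g x = s} := fun v =>
    if h : g (σ (Fin.snoc v s)) = s then ⟨σ (Fin.snoc v s), h⟩ else ⟨x, hx⟩ with hτ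
  have hgσ : ∀ v ∈ N, g (σ (Fin.snoc v s)) = s := by
    intro v hv
    rw [← hg, (hσ2 _ hv).2]
    exact Fin.snoc_last (α := fun _ => ℂ) _ _
  have hτv : ∀ v (hv : v ∈ N), τ v = ⟨σ (Fin.snoc v s), hgσ v hv⟩ := by
    intro v hv
    simp only [hτ, dif_pos (hgσ v hv)]
  have hres : ∀ y ∈ {y : {x | g x = s} | y.1 ∈ U}, ∀ f : {x | g x = s} → ℂ,
      res O {x | g x = s} f y ↔ ∃ F : (Fin n → ℂ) → ℂ,
        AnalyticAt ℂ F (fun i => c y.1 (Fin.castSucc i)) ∧
          f =ᶠ[𝓝 y] F ∘ fun (y : {x | g x = s}) (i : Fin n) => c y.1 (Fin.castSucc i) := by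
    intro y hy f
    constructor
    · rintro ⟨H, hH, hHf⟩
      obtain ⟨K, hK, hKH⟩ := (hch.hol y.1 hy H).1 hH
      refine ⟨fun v => K (Fin.snoc v s), ?_, ?_⟩
      · have hK' : AnalyticAt ℂ K (Fin.snoc (fun i : Fin n => c y.1 i.castSucc) s) := by
          rw [hsn]; exact hK
        exact hK'.fun_comp (f := fun v : Fin n → ℂ => (Fin.snoc v s : Fin (n + 1) → ℂ))
          (an_snoc s _)
      · filter_upwards [hHf, continuousAt_subtype_val.eventually hKH] with z h1 h2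
        rw [h1, h2]
        show K _ = K (Fin.snoc (fun i : Fin n => c z.1 i.castSucc) s)
        rw [hsn]
    · rintro ⟨K, hK, hKf⟩
      refine ⟨fun z => K (fun i => c z (Fin.castSucc i)), ?_, hKf⟩
      refine (hch.hol y.1 hy _).2 ⟨fun v => K (fun i => v (Fin.castSucc i)), ?_, ?_⟩
      · exact AnalyticAt.fun_comp (f := fun v : Fin (n + 1) → ℂ => fun i : Fin n => v i.castSucc)
          (by exact hK) (an_init _)
      · exact Eventually.of_forall fun z => rfl
  refine ⟨{y | y.1 ∈ U}, hxU, isChart_mk (hch.isOpen.preimage continuous_subtype_val)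
    (hN.preimage hsc) τ ?_ ?_ ?_ ?_ hres⟩
  · rw [continuousOn_iff_continuous_domRestrict]
    have : N.domRestrict τ = fun v : N => (⟨σ (Fin.snoc v.1 s), hgσ v.1 v.2⟩ :
        {x | g x = s}) := by
      funext v
      exact hτv v.1 v.2
    rw [this]
    refine Continuous.subtype_mk ?_ _
    have h1 : ContinuousOn (fun v : Fin n → ℂ => σ (Fin.snoc v s)) N :=
      hσ.comp hsc.continuousOn fun v hv => hv
    exact continuousOn_iff_continuous_domRestrict.1 h1
  · have h1 := hch.continuousOn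
    intro y hy
    refine continuousWithinAt_pi.2 fun i => ?_
    have h2 : ContinuousAt c y.1 := h1.continuousAt (hch.isOpen.mem_nhds hy)
    have h3 : ContinuousAt (fun z => c z (Fin.castSucc i)) y.1 := (continuousAt_pi.1 h2) _
    exact (h3.comp (f := fun y : {x | g x = s} => y.1)
      continuousAt_subtype_val).continuousWithinAt
  · intro y hy
    have hyN : (fun i => c y.1 (Fin.castSucc i)) ∈ N := by
      show (Fin.snoc _ s : Fin (n + 1) → ℂ) ∈ c '' U
      rw [hsn]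
      exact ⟨_, hy, rfl⟩
    refine ⟨hyN, ?_⟩
    rw [hτv _ hyN]
    apply Subtype.ext
    show σ (Fin.snoc (fun i : Fin n => c y.1 i.castSucc) s) = y.1
    rw [hsn]
    exact hσ1 _ hy
  · intro v hv
    rw [hτv v hv]
    refine ⟨(hσ2 _ hv).1, ?_⟩
    funext i
    show c (σ (Fin.snoc v s)) (Fin.castSucc i) = v i
    rw [(hσ2 _ hv).2]
    exact Fin.snoc_castSucc (α := fun _ => ℂ) _ _ _

/-- Transport of coordinates by a local isomorphism. -/
theorem IsCoord.transport {X Y : Type} [TopologicalSpace X] [TopologicalSpace Y] {O : Shf X}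
    {O' : Shf Y} {n : ℕ} {c : X → Fin n → ℂ} {V : Set X} {W : Set Y} (hV : IsOpen V)
    (hW : IsOpen W) {a : X → Y} {b : Y → X} (ha : ContinuousOn a V) (hb : ContinuousOn b W)
    (h1 : ∀ x ∈ V, a x ∈ W ∧ b (a x) = x) (h2 : ∀ y ∈ W, b y ∈ V ∧ a (b y) = y)
    (hol : ∀ x ∈ V, ∀ f : Y → ℂ, O' f (a x) ↔ O (f ∘ a) x)
    (hcongr : ∀ x ∈ V, ∀ f f' : X → ℂ, f =ᶠ[𝓝 x] f' → (O f x ↔ O f' x)) {x : X} (hx : x ∈ V)
    (hc : IsCoord O c x) : IsCoord O' (c ∘ b) (a x) := by
  obtain ⟨U, hxU, hch⟩ := hc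
  obtain ⟨σ, hσ, hσ1, hσ2⟩ := hch.exists_inv ⟨x, hxU⟩
  have hN : IsOpen (c '' U) := hch.isOpenΩ
  -- shrink to `U ∩ V`
  set N : Set (Fin n → ℂ) := c '' U ∩ σ ⁻¹' V with hNdef
  have hNo : IsOpen N := hσ.isOpen_inter_preimage hN hV
  have hbo : IsOpen (W ∩ b ⁻¹' U) := hb.isOpen_inter_preimage hW hch.isOpen
  refine ⟨W ∩ b ⁻¹' U, ⟨(h1 x hx).1, by show b (a x) ∈ U; rw [(h1 x hx).2]; exact hxU⟩,
    isChart_mk hbo hNo (fun v => a (σ v)) ?_ ?_ ?_ ?_ ?_⟩
  · exact ha.comp (hσ.mono inter_subset_left) fun v hv => hv.2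
  · exact hch.continuousOn.comp (hb.mono inter_subset_left) fun y hy => hy.2
  · rintro y ⟨hy1, hy2⟩
    have h3 : σ (c (b y)) = b y := hσ1 _ hy2
    refine ⟨⟨⟨_, hy2, rfl⟩, ?_⟩, ?_⟩
    · show σ (c (b y)) ∈ V
      rw [h3]; exact (h2 y hy1).1
    · show a (σ (c (b y))) = y
      rw [h3]; exact (h2 y hy1).2
  · rintro v ⟨hv1, hv2⟩
    have h3 := h1 _ hv2
    refine ⟨⟨h3.1, ?_⟩, ?_⟩
    · show b (a (σ v)) ∈ U
      rw [h3.2]; exact (hσ2 v hv1).1
    · show c (b (a (σ v))) = v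
      rw [h3.2]; exact (hσ2 v hv1).2
  · rintro y ⟨hy1, hy2⟩ f
    obtain ⟨hbV, hab⟩ := h2 y hy1
    have hac : ContinuousAt a (b y) := ha.continuousAt (hV.mem_nhds hbV)
    have hbc : ContinuousAt b y := hb.continuousAt (hW.mem_nhds hy1)
    have e1 := hol (b y) hbV f
    rw [hab] at e1
    rw [e1, hch.hol (b y) hy2]
    constructor
    · rintro ⟨K, hK, hKf⟩
      refine ⟨K, hK, ?_⟩
      filter_upwards [hbc.eventually hKf, hW.mem_nhds hy1] with z h3 h4
      have h5 : f (a (b z)) = K (c (b z)) := h3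
      rw [(h2 z h4).2] at h5
      exact h5
    · rintro ⟨K, hK, hKf⟩
      refine ⟨K, hK, ?_⟩
      have hac' : Tendsto a (𝓝 (b y)) (𝓝 y) := by
        have := hac.tendsto
        rwa [hab] at this
      filter_upwards [hac'.eventually hKf, hV.mem_nhds hbV] with z h3 h4
      have h5 : f (a z) = K (c (b (a z))) := h3
      rw [(h1 z h4).2] at h5
      exact h5

end Pool.Agent.KO
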