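import Pool.Agent.KO.E.SpecL
import Pool.Agent.KO.E.Fib

/-!
# Project KO, block E, row D7: changes of coordinates (helper82)
-/

set_option autoImplicit false

namespace Pool.Agent.KO

open Set Filter Topology MvPolynomial

theorem cj_det {n : ℕ} (A B : (Fin n → ℂ) →L[ℂ] (Fin n → ℂ))
    (h : A.comp B = ContinuousLinearMap.id ℂ (Fin n → ℂ)) : B.det ≠ 0 := by
  have h1 : A.det * B.det = 1 := by
    show LinearMap.det (A : (Fin n → ℂ) →ₗ[ℂ] (Fin n → ℂ)) *
      LinearMap.det (B : (Fin n → ℂ) →ₗ[ℂ] (Fin n → ℂ)) = 1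
    rw [← LinearMap.det_comp, ← ContinuousLinearMap.toLinearMap_comp, h]
    exact LinearMap.det_id
  exact right_ne_zero_of_mul_eq_one h1

/-- **Row D7**: changes of coordinates. -/
theorem sp_CJac : SpCJac := by
  intro X _ O n c c' χ B hpar ξ hξ hc'
  obtain ⟨U, hxU, hch⟩ := hc'
  have hcont : ContinuousAt χ ξ := hpar.cont.continuousAt (hpar.isOpen.mem_nhds hξ)
  have h1 : AnalyticAt ℂ (c' ∘ χ) ξ := by
    have h2 : ∀ i, AnalyticAt ℂ (fun y => c' (χ y) i) ξ := by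
      intro i
      have h3 : O (fun x => c' x i) (χ ξ) :=
        (hch.hol _ hxU _).2 ⟨fun v => v i, Flip.an_coord i _, Eventually.of_forall fun _ => rfl⟩
      exact (hpar.hol ξ hξ _).1 h3
    exact AnalyticAt.pi h2
  have h4 : ∀ i, ∃ K : (Fin n → ℂ) → ℂ, AnalyticAt ℂ K (c' (χ ξ)) ∧
      (fun x => c x i) =ᶠ[𝓝 (χ ξ)] K ∘ c' := by
    intro i
    refine (hch.hol _ hxU _).1 ((hpar.hol ξ hξ _).2 ?_)
    have h5 : (fun x => c x i) ∘ χ =ᶠ[𝓝 ξ] fun y => y i := by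
      filter_upwards [hpar.isOpen.mem_nhds hξ] with y hy
      exact congrFun (hpar.right y hy) i
    exact (Flip.an_coord i ξ).congr h5.symm
  choose K hK hKc using h4
  have hKan : AnalyticAt ℂ (fun v i => K i v) ((c' ∘ χ) ξ) := AnalyticAt.pi hK
  have hid : (fun v i => K i v) ∘ (c' ∘ χ) =ᶠ[𝓝 ξ] id := by
    have h5 : ∀ᶠ y in 𝓝 ξ, ∀ i, c (χ y) i = K i (c' (χ y)) := by
      rw [eventually_all]
      intro i
      exact hcont.eventually (hKc i)
    filter_upwards [h5, hpar.isOpen.mem_nhds hξ] with y hy hyB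
    funext i
    show K i (c' (χ y)) = y i
    rw [← hy i, hpar.right y hyB]
  have h6 : (fderiv ℂ (fun v i => K i v) ((c' ∘ χ) ξ)).comp (fderiv ℂ (c' ∘ χ) ξ) =
      ContinuousLinearMap.id ℂ (Fin n → ℂ) := by
    rw [← fderiv_comp ξ hKan.differentiableAt h1.differentiableAt, hid.fderiv_eq, fderiv_id]
  exact ⟨h1, cj_det _ _ h6⟩

end Pool.Agent.KO
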