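import Pool.Agent.KO.X.Defs

/-!
# Block E: the affine coordinate functions on `X` (helper52)
-/

set_option autoImplicit false

namespace Pool.Agent.KO

open Set Filter Topology

namespace Flip

variable (F : Flip)

theorem act_apply (l : ℂ) (p : Fin 6 → ℂ) (i : Fin 6) : act l p i = l ^ wgt i * p i := rfl

theorem div_act {l : ℂ} (hl : l ≠ 0) (p : Fin 6 → ℂ) (i : Fin 6) :
    act l p i / act l p 0 ^ wgt i = p i / p 0 ^ wgt i := by
  have h0 : act l p 0 = l * p 0 := by simp [act, wgt]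
  rw [h0, act_apply, mul_pow, mul_div_mul_left _ _ (pow_ne_zero _ hl)]

/-- The affine coordinate functions `p_i / z^{a_i}` on `X`. -/
noncomputable def cX (i : Fin 6) : F.Sp → ℂ :=
  Quot.lift (fun m => Sum.elim (fun p : M1 => p.1 i / p.1 0 ^ wgt i)
    (fun q : F.M2 => F.Φ q.1 i / F.Φ q.1 0 ^ wgt i) m) (by
    rintro (p | q) (p' | q') h
    · obtain ⟨l, hl, h⟩ := h
      simp only [Sum.elim_inl]
      rw [h, div_act hl]
    · obtain ⟨-, l, hl, h⟩ := h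
      simp only [Sum.elim_inl, Sum.elim_inr]
      rw [h, div_act hl]
    · obtain ⟨-, l, hl, h⟩ := h
      simp only [Sum.elim_inl, Sum.elim_inr]
      rw [h, div_act hl]
    · obtain ⟨l, hl, h⟩ := h
      simp only [Sum.elim_inr]
      rw [h, F.Φact l hl q.1 q.2.1, div_act hl])

theorem cX_pi1 (i : Fin 6) (p : M1) : F.cX i (F.pi1 p) = p.1 i / p.1 0 ^ wgt i := rfl

theorem cX_pi2 (i : Fin 6) (q : F.M2) : F.cX i (F.pi2 q) = F.Φ q.1 i / F.Φ q.1 0 ^ wgt i := rfl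

theorem g_pi1 (p : M1) : F.g (F.pi1 p) = p.1 5 := rfl

theorem g_pi2 (q : F.M2) : F.g (F.pi2 q) = F.Φ q.1 5 := rfl

/-- Every point is `pi1 p` or `pi2 q`. -/
theorem cases_pi (x : F.Sp) : (∃ p, F.pi1 p = x) ∨ ∃ q, F.pi2 q = x := by
  induction x using Quot.ind with
  | mk m =>
    rcases m with p | q
    · exact Or.inl ⟨p, rfl⟩
    · exact Or.inr ⟨q, rfl⟩

theorem cX_five (x : F.Sp) : F.cX 5 x = F.g x := by
  rcases F.cases_pi x with ⟨p, rfl⟩ | ⟨q, rfl⟩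
  · rw [cX_pi1, g_pi1]; simp [wgt]
  · rw [cX_pi2, g_pi2]; simp [wgt]

/-- The part of `X` where `z ≠ 0`. -/
def ZX : Set F.Sp := {x | F.cX 0 x ≠ 0}

theorem mem_ZX_pi1 (p : M1) : F.pi1 p ∈ F.ZX ↔ p.1 0 ≠ 0 := by
  show F.cX 0 (F.pi1 p) ≠ 0 ↔ _
  rw [cX_pi1]
  simp [wgt]

theorem mem_ZX_pi2 (q : F.M2) : F.pi2 q ∈ F.ZX ↔ q.1 3 ≠ 0 := by
  show F.cX 0 (F.pi2 q) ≠ 0 ↔ _
  rw [cX_pi2, F.Φz]
  simp [wgt]

theorem continuous_pi1 : Continuous F.pi1 := continuous_quot_mk.comp continuous_inl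

theorem continuous_pi2 : Continuous F.pi2 := continuous_quot_mk.comp continuous_inr

theorem isOpen_iff (s : Set F.Sp) : IsOpen s ↔ IsOpen (F.pi1 ⁻¹' s) ∧ IsOpen (F.pi2 ⁻¹' s) := by
  constructor
  · intro h
    exact ⟨h.preimage F.continuous_pi1, h.preimage F.continuous_pi2⟩
  · rintro ⟨h1, h2⟩
    have : IsOpen ((Quot.mk F.rel) ⁻¹' s) := by
      rw [isOpen_sum_iff]
      exact ⟨h1, h2⟩
    exact this

theorem isOpen_ZX : IsOpen F.ZX := by
  rw [isOpen_iff]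
  constructor
  · have : F.pi1 ⁻¹' F.ZX = {p : M1 | p.1 0 ≠ 0} := by
      ext p; exact F.mem_ZX_pi1 p
    rw [this]
    exact isOpen_ne_fun ((continuous_apply 0).comp continuous_subtype_val) continuous_const
  · have : F.pi2 ⁻¹' F.ZX = {q : F.M2 | q.1 3 ≠ 0} := by
      ext p; exact F.mem_ZX_pi2 p
    rw [this]
    exact isOpen_ne_fun ((continuous_apply 3).comp continuous_subtype_val) continuous_const

theorem dom_isOpen (ρ : ℝ) : IsOpen (Dom ρ) := by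
  have h1 : Continuous nA := by
    unfold nA
    refine (continuous_norm.comp (continuous_apply 0)).max ?_
    refine Continuous.max ?_ ?_
    · exact (continuous_norm.comp (continuous_apply 1)).rpow_const fun _ => Or.inr (by norm_num)
    · exact (continuous_norm.comp (continuous_apply 2)).rpow_const fun _ => Or.inr (by norm_num)
  have h2 : Continuous nZ := by
    unfold nZ
    refine (continuous_norm.comp (continuous_apply 3)).max ?_
    exact (continuous_norm.comp (continuous_apply 4)).rpow_const fun _ => Or.inr (by norm_num)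
  exact isOpen_lt (h1.mul h2) continuous_const

theorem an_Φ {q : Fin 5 → ℂ} (hq : q ∈ Dom F.ρ) : AnalyticAt ℂ F.Φ q :=
  AnalyticAt.pi fun i => F.an i q hq

theorem an_coord {n : ℕ} (i : Fin n) (p : Fin n → ℂ) :
    AnalyticAt ℂ (fun p : Fin n → ℂ => p i) p :=
  (ContinuousLinearMap.proj (R := ℂ) (φ := fun _ : Fin n => ℂ) i).analyticAt p

/-- The criterion for holomorphic functions on `ZX` and beyond: a function which is given in
the charts by functions analytic at all points. -/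
theorem O_cX (i : Fin 6) {x : F.Sp} (hx : x ∈ F.ZX) : F.O (F.cX i) x := by
  constructor
  · rintro p rfl
    have h0 : p.1 0 ≠ 0 := (F.mem_ZX_pi1 p).1 hx
    refine ⟨fun p => p i / p 0 ^ wgt i, ?_, Eventually.of_forall fun p' => F.cX_pi1 i p'⟩
    exact (an_coord i _).div ((an_coord 0 _).pow _) (pow_ne_zero _ h0)
  · rintro q rfl
    have h0 : q.1 3 ≠ 0 := (F.mem_ZX_pi2 q).1 hx
    refine ⟨fun q => F.Φ q i / F.Φ q 0 ^ wgt i, ?_, Eventually.of_forall fun q' => F.cX_pi2 i q'⟩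
    refine (F.an i _ q.2.1).div ((F.an 0 _ q.2.1).pow _) (pow_ne_zero _ ?_)
    rw [F.Φz]; exact h0

theorem contAt_cX (i : Fin 6) {x : F.Sp} (hx : x ∈ F.ZX) : ContinuousAt (F.cX i) x := by
  rw [ContinuousAt, tendsto_def]
  intro s hs
  obtain ⟨V, hVs, hV, hxV⟩ := mem_nhds_iff.1 hs
  have hopen : IsOpen (F.ZX ∩ F.cX i ⁻¹' V) := by
    rw [isOpen_iff]
    constructor
    · have : F.pi1 ⁻¹' (F.ZX ∩ F.cX i ⁻¹' V) =
          {p : M1 | p.1 0 ≠ 0 ∧ p.1 i / p.1 0 ^ wgt i ∈ V} := by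
        ext p
        simp only [mem_preimage, mem_inter_iff, F.mem_ZX_pi1, F.cX_pi1, mem_ofPred_eq]
      rw [this, isOpen_iff_mem_nhds]
      rintro p ⟨hp, hpV⟩
      have c : ContinuousAt (fun p : M1 => p.1 i / p.1 0 ^ wgt i) p := by
        refine ContinuousAt.div ?_ ?_ (pow_ne_zero _ hp)
        · exact ((continuous_apply i).comp continuous_subtype_val).continuousAt
        · exact (((continuous_apply 0).comp continuous_subtype_val).pow _).continuousAt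
      have c0 : ContinuousAt (fun p : M1 => p.1 0) p :=
        ((continuous_apply 0).comp continuous_subtype_val).continuousAt
      filter_upwards [c0.eventually_ne hp, c.preimage_mem_nhds (hV.mem_nhds hpV)] with p' h h'
      exact ⟨h, h'⟩
    · have : F.pi2 ⁻¹' (F.ZX ∩ F.cX i ⁻¹' V) =
          {q : F.M2 | q.1 3 ≠ 0 ∧ F.Φ q.1 i / F.Φ q.1 0 ^ wgt i ∈ V} := by
        ext p
        simp only [mem_preimage, mem_inter_iff, F.mem_ZX_pi2, F.cX_pi2, mem_ofPred_eq]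
      rw [this, isOpen_iff_mem_nhds]
      rintro q ⟨hq, hqV⟩
      have hk : ∀ j, ContinuousAt (fun q : F.M2 => F.Φ q.1 j) q := fun j =>
        (F.an j _ q.2.1).continuousAt.comp (f := fun q : F.M2 => q.1)
          continuous_subtype_val.continuousAt
      have c : ContinuousAt (fun q : F.M2 => F.Φ q.1 i / F.Φ q.1 0 ^ wgt i) q := by
        refine ContinuousAt.div (hk i) ((hk 0).pow _) (pow_ne_zero _ ?_)
        rw [F.Φz]; exact hq
      have c0 : ContinuousAt (fun q : F.M2 => q.1 3) q :=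
        ((continuous_apply 3).comp continuous_subtype_val).continuousAt
      filter_upwards [c0.eventually_ne hq, c.preimage_mem_nhds (hV.mem_nhds hqV)] with p' h h'
      exact ⟨h, h'⟩
  filter_upwards [hopen.mem_nhds ⟨hx, hxV⟩] with y hy
  exact hVs hy.2

/-- The representative of a point of `ZX` with `z = 1`. -/
noncomputable def pt (x : F.Sp) : Fin 6 → ℂ := fun i => F.cX i x

theorem pi1_act {l : ℂ} (hl : l ≠ 0) (p p' : M1) (h : p'.1 = act l p.1) :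
    F.pi1 p' = F.pi1 p := (Quot.sound ⟨l, hl, h⟩).symm

theorem G_act (l : ℂ) (p : Fin 6 → ℂ) : G (act l p) = l ^ 66 * G p := by
  simp only [G, act, wgt]
  simp
  ring

theorem act_cone {l : ℂ} (hl : l ≠ 0) {p : Fin 6 → ℂ} (hp : p ∈ Cone) : act l p ∈ Cone := by
  obtain ⟨h1, ⟨i, hi, h2⟩, h3⟩ := hp
  refine ⟨by rw [G_act, h1, mul_zero], ⟨i, hi, mul_ne_zero (pow_ne_zero _ hl) h2⟩, ?_⟩
  rw [act_five]; exact h3

theorem act_act (l m : ℂ) (p : Fin 6 → ℂ) : act l (act m p) = act (l * m) p := by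
  funext i
  simp only [act, mul_pow, mul_assoc]

theorem act_one (p : Fin 6 → ℂ) : act 1 p = p := by
  funext i; simp [act]

theorem act_Gam {l : ℂ} {p : Fin 6 → ℂ} (hp : p ∈ Gam) : act l p ∈ Gam := by
  obtain ⟨h1, h2, h3, h4⟩ := hp
  refine ⟨by rw [act_five]; exact h1, ?_, ?_, ?_⟩
  · rw [act_apply, h2, mul_zero]
  · simp only [act, wgt]
    simp [h3]
    ring
  · simp only [act, wgt]
    simp [h4]
    ring

theorem act_not_Gam {l : ℂ} (hl : l ≠ 0) {p : Fin 6 → ℂ} (hp : p ∉ Gam) : act l p ∉ Gam := by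
  intro h
  apply hp
  have := act_Gam (l := l⁻¹) h
  rwa [act_act, inv_mul_cancel₀ hl, act_one] at this

/-- The point `Φ q` of the cone, for `(z, w) ≠ 0`. -/
def ofq (q : F.M2) (hq : q.1 3 ≠ 0 ∨ q.1 4 ≠ 0) : M1 := ⟨F.Φ q.1, by
  refine ⟨⟨F.Φeq _ q.2.1, ?_, F.small _ q.2.1⟩, ?_⟩
  · rcases hq with h | h
    · exact ⟨0, by decide, by rw [F.Φz]; exact h⟩
    · exact ⟨2, by decide, by rw [F.Φw]; exact h⟩
  · rw [F.Φgam _ q.2.1 hq]
    rintro ⟨h0, h1, h2⟩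
    rcases q.2.2 with h | h | h
    exacts [h h0, h h1, h h2]⟩

theorem pi1_ofq (q : F.M2) (hq : q.1 3 ≠ 0 ∨ q.1 4 ≠ 0) : F.pi1 (F.ofq q hq) = F.pi2 q :=
  Quot.sound ⟨hq, 1, one_ne_zero, by rw [act_one]; rfl⟩

theorem exists_rep' {x : F.Sp} (hx : x ∈ F.ZX) : ∃ p : M1, p.1 0 ≠ 0 ∧ F.pi1 p = x := by
  rcases F.cases_pi x with ⟨p, rfl⟩ | ⟨q, rfl⟩
  · exact ⟨p, (F.mem_ZX_pi1 p).1 hx, rfl⟩
  · have h := (F.mem_ZX_pi2 q).1 hx
    refine ⟨F.ofq q (Or.inl h), ?_, F.pi1_ofq q _⟩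
    show F.Φ q.1 0 ≠ 0
    rw [F.Φz]; exact h

theorem exists_rep {x : F.Sp} (hx : x ∈ F.ZX) : ∃ p : M1, p.1 0 = 1 ∧ F.pi1 p = x := by
  obtain ⟨p, hp, rfl⟩ := F.exists_rep' hx
  have hl : (p.1 0)⁻¹ ≠ 0 := inv_ne_zero hp
  refine ⟨⟨act (p.1 0)⁻¹ p.1, act_cone hl p.2.1, act_not_Gam hl p.2.2⟩, ?_, ?_⟩
  · show (p.1 0)⁻¹ ^ wgt 0 * p.1 0 = 1
    simp [wgt, inv_mul_cancel₀ hp]
  · exact F.pi1_act hl _ _ rfl

theorem rep_eq (p : M1) (hp : p.1 0 = 1) : p.1 = F.pt (F.pi1 p) := by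
  funext i
  rw [pt, cX_pi1, hp, one_pow, div_one]

theorem pt_mem {x : F.Sp} (hx : x ∈ F.ZX) : F.pt x ∈ Cone ∧ F.pt x ∉ Gam := by
  obtain ⟨p, hp, rfl⟩ := F.exists_rep hx
  rw [← F.rep_eq p hp]
  exact p.2

theorem pi1_pt {x : F.Sp} (hx : x ∈ F.ZX) : F.pi1 ⟨F.pt x, F.pt_mem hx⟩ = x := by
  obtain ⟨p, hp, rfl⟩ := F.exists_rep hx
  congr 1
  exact Subtype.ext (F.rep_eq p hp).symm

theorem pt_zero {x : F.Sp} (hx : x ∈ F.ZX) : F.cX 0 x = 1 := by
  obtain ⟨p, hp, rfl⟩ := F.exists_rep hx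
  rw [cX_pi1, hp]; simp

theorem G_pt {x : F.Sp} (hx : x ∈ F.ZX) : G (F.pt x) = 0 := (F.pt_mem hx).1.1

end Flip

end Pool.Agent.KO
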