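import Pool.Agent.KO.A.Sec
import Pool.Agent.KO.E.XF
import Pool.Agent.KO.Key.Defs

/-!
# KO, block E (the end): definitions (helper92)

Local coordinates of the total space of the projective model near a manifold point of its central
fibre: `ξ : Fin 4 → ℂ`, `ξ 3 = t`.
-/

set_option autoImplicit false

namespace Pool.Agent.KO

open Set Filter Topology MvPolynomial

/-- The affine equation. -/
def gA (t : ℂ) (a : Fin 4 → ℂ) : ℂ :=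
  a 3 ^ 2 + a 2 ^ 3 + t * a 1 ^ 11 + a 0 * a 1 ^ 10 + a 0 ^ 12 * a 1 - 1 - a 1 ^ 9

section abs

variable {X : Type} [TopologicalSpace X]

/-- `χ` is the inverse of the local coordinates `c` on the open set `B`. -/
structure IsPar (O : Shf X) {n : ℕ} (c : X → Fin n → ℂ) (χ : (Fin n → ℂ) → X)
    (B : Set (Fin n → ℂ)) : Prop where
  isOpen : IsOpen B
  right : ∀ ξ ∈ B, c (χ ξ) = ξ
  left : ∀ ξ ∈ B, ∀ᶠ x in 𝓝 (χ ξ), c x ∈ B ∧ χ (c x) = x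
  cont : ContinuousOn χ B
  opn : ∀ U ⊆ B, IsOpen U → IsOpen (χ '' U)
  hol : ∀ ξ ∈ B, ∀ f : X → ℂ, O f (χ ξ) ↔ AnalyticAt ℂ (f ∘ χ) ξ
  coord : ∀ ξ ∈ B, IsCoord O c (χ ξ)

end abs

namespace Flip

variable (F : Flip)

/-- The affine coordinates `u, w, x, y` on `X`. -/
noncomputable def aff (x : F.Sp) : Fin 4 → ℂ := ![F.cX 1 x, F.cX 2 x, F.cX 3 x, F.cX 4 x]

end Flip

section rel

variable {F : Flip} {r : ℝ} {N : ℕ} {S : Set (PN N × ℂ)} {b : Bimer F.O F.g r S}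

/-- The good points of `X`. -/
def goodX (σ : Sec F b) (j : Fin (N + 1)) : Set F.Sp :=
  {x | x ∉ b.A ∧ ‖F.g x‖ < σ.r2 ∧ x ∈ F.ZX ∧ F.cX 4 x ≠ 0 ∧ evQ (σ.s j) (F.aff x) (F.g x) ≠ 0}

open Classical in
/-- The inverse of the bimeromorphic map, off `A'`. -/
noncomputable def invS [Nonempty F.Sp] (b : Bimer F.O F.g r S) (p : S) : F.Sp :=
  if h : (p : PN N × ℂ) ∈ S \ b.A' then (b.e.symm ⟨p, h⟩).1 else Classical.arbitrary _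

/-- The good points of `S`. -/
def goodS [Nonempty F.Sp] (σ : Sec F b) (j : Fin (N + 1)) : Set S :=
  {p | (p : PN N × ℂ) ∉ b.A' ∧ invS b p ∈ goodX σ j}

end rel

/-- The Jacobian determinant of the first three functions in the first three variables. -/
noncomputable def J3 (W : Fin 4 → (Fin 4 → ℂ) → ℂ) (y : Fin 4 → ℂ) : ℂ :=
  Matrix.det (fun i k : Fin 3 => fderiv ℂ (W i.castSucc) y (Pi.single k.castSucc 1))

/-- The local data of `S` near a manifold point of the central fibre: `W = (u, w, x, y)` as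
functions of `ξ`, `f i` the functions `x_i / x_j`. -/
structure Loc {F : Flip} {r : ℝ} {N : ℕ} {S : Set (PN N × ℂ)} {b : Bimer F.O F.g r S}
    (σ : Sec F b) (j : Fin (N + 1)) where
  B : Set (Fin 4 → ℂ)
  isOpen : IsOpen B
  good : Set (Fin 4 → ℂ)
  gopen : IsOpen good
  gsub : good ⊆ B
  small : ∀ ξ ∈ B, ‖ξ 3‖ < σ.r2
  W : Fin 4 → (Fin 4 → ℂ) → ℂ
  an : ∀ i, ∀ ξ ∈ good, AnalyticAt ℂ (W i) ξ
  eq : ∀ ξ ∈ good, gA (ξ 3) (fun i => W i ξ) = 0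
  y_ne : ∀ ξ ∈ good, W 3 ξ ≠ 0
  J_ne : ∀ ξ ∈ good, J3 W ξ ≠ 0
  s_ne : ∀ ξ ∈ good, evQ (σ.s j) (fun i => W i ξ) (ξ 3) ≠ 0
  dense : ∀ ξ ∈ B, ξ ∈ closure (good ∩ {ξ' | ξ' 3 = ξ 3})
  mer : ∀ ξ ∈ B, ∃ (b : (Fin 4 → ℂ) → ℂ) (a : Fin 4 → (Fin 4 → ℂ) → ℂ),
    AnalyticAt ℂ b ξ ∧ (∀ i, AnalyticAt ℂ (a i) ξ) ∧ (¬ ∀ᶠ y in 𝓝 ξ, b y = 0) ∧
      ∀ᶠ y in 𝓝 ξ, y ∈ good → ∀ i, b y * W i y = a i y
  f : Fin (N + 1) → (Fin 4 → ℂ) → ℂ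
  fan : ∀ i, ∀ ξ ∈ B, AnalyticAt ℂ (f i) ξ
  rel : ∀ i, ∀ ξ ∈ good, evQ (σ.s i) (fun i => W i ξ) (ξ 3) =
    f i ξ * evQ (σ.s j) (fun i => W i ξ) (ξ 3)

/-- The coefficient of the form `(Ω ∧ dt)^m / s_j`. -/
noncomputable def Loc.kap {F : Flip} {r : ℝ} {N : ℕ} {S : Set (PN N × ℂ)} {b : Bimer F.O F.g r S}
    {σ : Sec F b} {j : Fin (N + 1)} (L : Loc σ j) (ξ : Fin 4 → ℂ) : ℂ :=
  (J3 L.W ξ / (2 * L.W 3 ξ)) ^ σ.m / evQ (σ.s j) (fun i => L.W i ξ) (ξ 3)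

end Pool.Agent.KO
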