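import Pool.Agent.KO.E.Fib
import Pool.Agent.KO.Xa.Defs

/-!
# Block E: the bimeromorphic map on the fibres (helper52)
-/

set_option autoImplicit false

namespace Pool.Agent.KO

open Set Filter Topology

/-- Analytic sets are closed. -/
theorem IsAn.isOpen_diff {X : Type} [TopologicalSpace X] {O : Shf X}
    (hO : ∀ (f : X → ℂ) (x : X), O f x → ContinuousAt f x) {Ω A : Set X} (hΩ : IsOpen Ω) (h : IsAn O Ω A) : IsOpen (Ω \ A) := by
  rw [isOpen_iff_mem_nhds]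
  rintro x ⟨hx, hxA⟩
  obtain ⟨V, hV, hxV, k, f, hf, hA⟩ := h.2 x hx
  have h1 : ∃ i, f i x ≠ 0 := by
    by_contra hcon
    push Not at hcon
    have : x ∈ A ∩ V := by rw [hA]; exact ⟨hxV, hcon⟩
    exact hxA this.1
  obtain ⟨i, hi⟩ := h1
  filter_upwards [hV.mem_nhds hxV, hΩ.mem_nhds hx, (hO _ _ (hf i x hxV)).eventually_ne hi]
    with y h2 h3 h4
  refine ⟨h3, fun h5 => ?_⟩
  have : y ∈ A ∩ V := ⟨h5, h2⟩
  rw [hA] at this
  exact h4 (this.2 i)

/-- Iterated restriction. -/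
theorem res_res_iff {X : Type} [TopologicalSpace X] {O : Shf X} {S : Set X} {T : Set S}
    {f : T → ℂ} {y : T} : res (res O S) T f y ↔
      ∃ H : X → ℂ, O H y.1.1 ∧ ∀ᶠ z in 𝓝 y, f z = H z.1.1 := by
  constructor
  · rintro ⟨K, ⟨H, hH, h1⟩, h2⟩
    refine ⟨H, hH, ?_⟩
    filter_upwards [h2, continuousAt_subtype_val.eventually h1] with z h3 h4
    rw [h3, h4]
  · rintro ⟨H, hH, h1⟩
    exact ⟨fun z => H z.1, ⟨H, hH, Eventually.of_forall fun z => rfl⟩, h1⟩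

theorem res_congr {X : Type} [TopologicalSpace X] {O : Shf X} {S : Set X} {f f' : S → ℂ} {x : S}
    (h : f =ᶠ[𝓝 x] f') : res O S f x ↔ res O S f' x := by
  constructor
  · rintro ⟨H, hH, h1⟩
    exact ⟨H, hH, by filter_upwards [h, h1] with y h2 h3; rw [← h2, h3]⟩
  · rintro ⟨H, hH, h1⟩
    exact ⟨H, hH, by filter_upwards [h, h1] with y h2 h3; rw [h2, h3]⟩

section

variable {F : Flip} {r : ℝ} {N : ℕ} {S : Set (PN N × ℂ)} (b : Bimer F.O F.g r S)

/-- The fibre of `X` over `s`. -/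
abbrev FX (F : Flip) (s : ℂ) : Type := {x : F.Sp | F.g x = s}

/-- The fibre of `S` over `s`. -/
abbrev FS {N : ℕ} (S : Set (PN N × ℂ)) (s : ℂ) : Type := {p : S | p.1.2 = s}

/-- The map of the fibres, off `A`. -/
noncomputable def mapF (s : ℂ) (hs : ‖s‖ < r) (y₀ : FS S s) (x : FX F s) : FS S s :=
  open Classical in
  if h : x.1 ∈ b.A then y₀ else
    ⟨⟨(b.e.toFun ⟨x.1, show ‖F.g x.1‖ < r by rw [x.2.out]; exact hs, h⟩).1,
      (b.e.toFun ⟨x.1, show ‖F.g x.1‖ < r by rw [x.2.out]; exact hs, h⟩).2.1⟩, by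
      show (b.e.toFun _).1.2 = s
      rw [b.base]
      exact x.2⟩

/-- The inverse map of the fibres, off `A'`. -/
noncomputable def invF (s : ℂ) (x₀ : FX F s) (y : FS S s) : FX F s :=
  open Classical in
  if h : y.1.1 ∈ b.A' then x₀ else
    ⟨(b.e.invFun ⟨y.1.1, y.1.2, h⟩).1, by
      have h1 := b.base (b.e.invFun ⟨y.1.1, y.1.2, h⟩)
      rw [b.e.right_inv] at h1
      rw [mem_ofPred_eq, ← h1]
      exact y.2⟩

theorem mapF_of {s : ℂ} (hs : ‖s‖ < r) (y₀ : FS S s) (x : FX F s) (h : x.1 ∉ b.A) :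
    (mapF b s hs y₀ x).1.1 = (b.e.toFun ⟨x.1, show ‖F.g x.1‖ < r by rw [x.2.out]; exact hs, h⟩).1 := by
  rw [mapF, dif_neg h]

theorem invF_of {s : ℂ} (x₀ : FX F s) (y : FS S s) (h : y.1.1 ∉ b.A') :
    (invF b s x₀ y).1 = (b.e.invFun ⟨y.1.1, y.1.2, h⟩).1 := by
  rw [invF, dif_neg h]

theorem mapF_inv {s : ℂ} (hs : ‖s‖ < r) (y₀ : FS S s) (x₀ : FX F s) (x : FX F s)
    (h : x.1 ∉ b.A) : (mapF b s hs y₀ x).1.1 ∉ b.A' ∧ invF b s x₀ (mapF b s hs y₀ x) = x := by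
  have h1 : (mapF b s hs y₀ x).1.1 ∉ b.A' := by
    rw [mapF_of b hs y₀ x h]
    exact (b.e.toFun _).2.2
  refine ⟨h1, ?_⟩
  apply Subtype.ext
  rw [invF_of b x₀ _ h1]
  have h2 : (⟨(mapF b s hs y₀ x).1.1, (mapF b s hs y₀ x).1.2, h1⟩ : ↥(S \ b.A')) =
      b.e.toFun ⟨x.1, show ‖F.g x.1‖ < r by rw [x.2.out]; exact hs, h⟩ :=
    Subtype.ext (mapF_of b hs y₀ x h)
  rw [h2, b.e.left_inv]

theorem invF_map {s : ℂ} (hs : ‖s‖ < r) (y₀ : FS S s) (x₀ : FX F s) (y : FS S s)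
    (h : y.1.1 ∉ b.A') : (invF b s x₀ y).1 ∉ b.A ∧ mapF b s hs y₀ (invF b s x₀ y) = y := by
  have h1 : (invF b s x₀ y).1 ∉ b.A := by
    rw [invF_of b x₀ y h]
    exact (b.e.invFun _).2.2
  refine ⟨h1, ?_⟩
  apply Subtype.ext
  apply Subtype.ext
  rw [mapF_of b hs y₀ _ h1]
  have h2 : (⟨(invF b s x₀ y).1, by rw [mem_ofPred_eq, (invF b s x₀ y).2.out]; exact hs, h1⟩ :
      ↥({x | ‖F.g x‖ < r} \ b.A)) = b.e.invFun ⟨y.1.1, y.1.2, h⟩ :=
    Subtype.ext (invF_of b x₀ y h)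
  rw [h2, b.e.right_inv]

theorem contOn_mapF {s : ℂ} (hs : ‖s‖ < r) (y₀ : FS S s) :
    ContinuousOn (mapF b s hs y₀) {x | x.1 ∉ b.A} := by
  rw [continuousOn_iff_continuous_domRestrict, IsInducing.subtypeVal.continuous_iff,
    IsInducing.subtypeVal.continuous_iff]
  have h1 : Continuous fun x : {x : FX F s | x.1 ∉ b.A} =>
      (b.e.toFun ⟨x.1.1, show ‖F.g x.1.1‖ < r by rw [x.1.2.out]; exact hs, x.2⟩).1 := by
    refine continuous_subtype_val.comp (b.e.continuous_toFun.comp ?_)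
    exact Continuous.subtype_mk (continuous_subtype_val.comp continuous_subtype_val) _
  refine h1.congr fun x => ?_
  exact (mapF_of b hs y₀ x.1 x.2).symm

theorem contOn_invF {s : ℂ} (x₀ : FX F s) :
    ContinuousOn (invF b s x₀) {y : FS S s | y.1.1 ∉ b.A'} := by
  rw [continuousOn_iff_continuous_domRestrict, IsInducing.subtypeVal.continuous_iff]
  have h1 : Continuous fun y : {y : FS S s | y.1.1 ∉ b.A'} =>
      (b.e.invFun ⟨y.1.1.1, y.1.1.2, y.2⟩).1 := by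
    refine continuous_subtype_val.comp (b.e.continuous_invFun.comp ?_)
    exact Continuous.subtype_mk (continuous_subtype_val.comp
      (continuous_subtype_val.comp continuous_subtype_val)) _
  refine h1.congr fun y => ?_
  exact (invF_of b x₀ y.1 y.2).symm

/-- Holomorphic functions correspond. -/
theorem hol_mapF {s : ℂ} (hs : ‖s‖ < r) (y₀ : FS S s) (x₀ : FX F s)
    (hV : IsOpen {x : FX F s | x.1 ∉ b.A}) (hW : IsOpen {y : FS S s | y.1.1 ∉ b.A'})
    {x : FX F s} (hx : x.1 ∉ b.A) (f : FS S s → ℂ) :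
    res (res (stdP N) S) {p : S | p.1.2 = s} f (mapF b s hs y₀ x) ↔
      res F.O {x : F.Sp | F.g x = s} (f ∘ mapF b s hs y₀) x := by
  have hmem : ∀ z : FX F s, z.1 ∉ b.A → z.1 ∈ {x | ‖F.g x‖ < r} \ b.A := fun z hz =>
    ⟨show ‖F.g z.1‖ < r by rw [z.2.out]; exact hs, hz⟩
  have hc : ContinuousAt (mapF b s hs y₀) x := (contOn_mapF b hs y₀).continuousAt (hV.mem_nhds hx)
  have hax := mapF_of b hs y₀ x hx
  rw [res_res_iff]
  constructor
  · rintro ⟨H, hH, h1⟩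
    have h2 : res (stdP N) (S \ b.A') (fun q => H q.1) (b.e.toFun ⟨x.1, hmem x hx⟩) := by
      refine ⟨H, ?_, Eventually.of_forall fun z => rfl⟩
      rw [← hax]; exact hH
    rw [b.e.hol] at h2
    obtain ⟨M, hM, h3⟩ := h2
    refine ⟨M, hM, ?_⟩
    rw [nhds_subtype_eq_comap, eventually_comap] at h3
    filter_upwards [hc.eventually h1, continuousAt_subtype_val.eventually h3,
      hV.mem_nhds hx] with z h4 h5 h6
    show f (mapF b s hs y₀ z) = M z.1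
    rw [h4, mapF_of b hs y₀ z h6]
    exact h5 ⟨z.1, hmem z h6⟩ rfl
  · rintro ⟨M, hM, h1⟩
    have h2 : res F.O ({x | ‖F.g x‖ < r} \ b.A) (fun z => M z.1) ⟨x.1, hmem x hx⟩ :=
      ⟨M, hM, Eventually.of_forall fun z => rfl⟩
    have h3 : res (stdP N) (S \ b.A') (fun q => M (b.e.invFun q).1)
        (b.e.toFun ⟨x.1, hmem x hx⟩) := by
      rw [b.e.hol]
      refine (res_congr ?_).2 h2
      refine Eventually.of_forall fun z => ?_
      show M (b.e.invFun (b.e.toFun z)).1 = M z.1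
      rw [b.e.left_inv]
    obtain ⟨H, hH, h4⟩ := h3
    refine ⟨H, by rw [hax]; exact hH, ?_⟩
    rw [nhds_subtype_eq_comap, eventually_comap] at h4
    have hb : ContinuousAt (invF b s x₀) (mapF b s hs y₀ x) :=
      (contOn_invF b x₀).continuousAt (hW.mem_nhds (mapF_inv b hs y₀ x₀ x hx).1)
    have hb' : Tendsto (invF b s x₀) (𝓝 (mapF b s hs y₀ x)) (𝓝 x) := by
      have := hb.tendsto
      rwa [(mapF_inv b hs y₀ x₀ x hx).2] at this
    have hv : Tendsto (fun z : FS S s => z.1.1) (𝓝 (mapF b s hs y₀ x))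
        (𝓝 (b.e.toFun ⟨x.1, hmem x hx⟩).1) := by
      have : ContinuousAt (fun z : FS S s => z.1.1) (mapF b s hs y₀ x) :=
        (continuous_subtype_val.comp continuous_subtype_val).continuousAt
      have h5 := this.tendsto
      rwa [hax] at h5
    filter_upwards [hb'.eventually h1, hv.eventually h4,
      hW.mem_nhds (mapF_inv b hs y₀ x₀ x hx).1] with z h5 h6 h7
    have h8 := invF_map b hs y₀ x₀ z h7
    have h9 : f (mapF b s hs y₀ (invF b s x₀ z)) = M (invF b s x₀ z).1 := h5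
    rw [h8.2] at h9
    rw [h9, invF_of b x₀ z h7]
    exact h6 ⟨z.1.1, z.1.2, h7⟩ rfl

/-- Coordinates of the fibre of `X` give coordinates of the fibre of `S`. -/
theorem isCoord_invF {s : ℂ} (hs : ‖s‖ < r) (y₀ : FS S s) (x₀ : FX F s)
    (hV : IsOpen {x : FX F s | x.1 ∉ b.A}) (hW : IsOpen {y : FS S s | y.1.1 ∉ b.A'})
    {n : ℕ} {c : FX F s → Fin n → ℂ} {x : FX F s} (hx : x.1 ∉ b.A)
    (hc : IsCoord (res F.O {x : F.Sp | F.g x = s}) c x) :
    IsCoord (res (res (stdP N) S) {p : S | p.1.2 = s}) (c ∘ invF b s x₀)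
      (mapF b s hs y₀ x) :=
  hc.transport hV hW (contOn_mapF b hs y₀) (contOn_invF b x₀)
    (fun z hz => mapF_inv b hs y₀ x₀ z hz) (fun z hz => invF_map b hs y₀ x₀ z hz)
    (fun _ hz f => hol_mapF b hs y₀ x₀ hV hW hz f) (fun _ _ _ _ h => res_congr h) hx

end

end Pool.Agent.KO
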