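import Pool.Agent.KO.E.DensX
import Pool.Agent.KO.E.Tr
import Pool.Agent.KO.E.Defs
import Pool.Agent.KO.A.Spec

/-!
# Block E: density of the good points in the fibres of `X` (helper52)
-/

set_option autoImplicit false

namespace Pool.Agent.KO

open Set Filter Topology MvPolynomial

namespace Flip

variable (F : Flip)

theorem affPt_pt (x : F.Sp) : affPt (F.pt x) = F.aff x := rfl

theorem evP_pt {r : ℝ} (P : MvPolynomial (Fin 4) (AnR r)) (x : F.Sp) :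
    evP P (F.pt x) = evQ P (F.aff x) (F.g x) := by
  unfold evP
  rw [F.affPt_pt]
  have : F.pt x 5 = F.g x := F.cX_five x
  rw [this]

theorem contAt_pt {x : F.Sp} (hx : x ∈ F.ZX) : ContinuousAt F.pt x := by
  rw [continuousAt_pi]
  exact fun i => F.contAt_cX i hx

theorem contAt_ev (hE : EvFacts) {r : ℝ} (P : MvPolynomial (Fin 4) (AnR r)) {x : F.Sp}
    (hx : x ∈ F.ZX) (hr : ‖F.g x‖ < r) :
    ContinuousAt (fun x => evQ P (F.aff x) (F.g x)) x := by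
  have h1 : ContinuousAt (evP P) (F.pt x) := by
    refine (hE.anP r P (F.pt x) ?_).continuousAt
    have : F.pt x 5 = F.g x := F.cX_five x
    rw [this]; exact hr
  have h2 := ContinuousAt.comp (g := evP P) (f := F.pt) h1 (F.contAt_pt hx)
  refine h2.congr (Eventually.of_forall fun y => ?_)
  exact F.evP_pt P y

/-- One step. -/
theorem dens_step (hD : SpDenF) {r : ℝ} (P : MvPolynomial (Fin 4) (AnR r)) (hP : NF P)
    {s : ℂ} (hs : ‖s‖ < r) (hc : ∃ a, evR ⟨s, by simpa using hs⟩ (P.coeff a) ≠ 0)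
    {W : Set F.Sp} (hW : IsOpen W) {x : F.Sp} (hx : F.g x = s) (hxW : x ∈ W) :
    ∃ x' ∈ W, F.g x' = s ∧ x' ∈ F.ZX ∧ evQ P (F.aff x') s ≠ 0 := by
  obtain ⟨x1, h1W, h1g, h1Z⟩ := mem_closure_iff.1 (F.dens_ZX s hx) W hW hxW
  have h1g : F.g x1 = s := h1g
  have h5 : F.pt x1 5 = s := by
    rw [← h1g]; exact F.cX_five x1
  have hV : F.pt x1 ∈ Vaff r := ⟨F.G_pt h1Z, F.pt_zero h1Z, by rw [h5]; exact hs⟩
  have h2 := hD r P hP ⟨s, by simpa using hs⟩ hc (F.pt x1) hV h5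
  have h3 := F.nhds_pi1 hW (p := ⟨F.pt x1, F.pt_mem h1Z⟩) (by rw [F.pi1_pt h1Z]; exact h1W)
  obtain ⟨p', ⟨hp1, hp2, hp3⟩, hp4⟩ :=
    ((mem_closure_iff_frequently.1 h2).and_eventually h3).exists
  obtain ⟨h, hpW⟩ := hp4 hp1.1
  have hZ : F.pi1 ⟨p', h⟩ ∈ F.ZX := by
    rw [mem_ZX_pi1]
    show p' 0 ≠ 0
    rw [hp1.2.1]; exact one_ne_zero
  refine ⟨_, hpW, hp2, hZ, ?_⟩
  have h6 : p' = F.pt (F.pi1 ⟨p', h⟩) := F.rep_eq ⟨p', h⟩ hp1.2.1
  have h7 : F.g (F.pi1 ⟨p', h⟩) = s := hp2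
  have h8 := F.evP_pt P (F.pi1 ⟨p', h⟩)
  rw [h7, ← h6] at h8
  rw [← h8]
  exact hp3

/-- The points with `z ≠ 0`, `y ≠ 0`, `P ≠ 0` are dense in the fibre. -/
theorem dens_good (hE : EvFacts) (hD : SpDenF) {r : ℝ} (P : MvPolynomial (Fin 4) (AnR r))
    (hP : NF P) {s : ℂ} (hs : ‖s‖ < r) (hc : ∃ a, evR ⟨s, by simpa using hs⟩ (P.coeff a) ≠ 0)
    {W : Set F.Sp} (hW : IsOpen W) {x : F.Sp} (hx : F.g x = s) (hxW : x ∈ W) :
    ∃ x' ∈ W, F.g x' = s ∧ x' ∈ F.ZX ∧ F.cX 4 x' ≠ 0 ∧ evQ P (F.aff x') s ≠ 0 := by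
  obtain ⟨x1, h1W, h1g, h1Z, h1P⟩ := F.dens_step hD P hP hs hc hW hx hxW
  have hcont : ∀ᶠ x' in 𝓝 x1, evQ P (F.aff x') (F.g x') ≠ 0 ∧ x' ∈ W := by
    refine ((F.contAt_ev hE P h1Z (by rw [h1g]; exact hs)).eventually_ne ?_).and
      (hW.mem_nhds h1W)
    rw [h1g]; exact h1P
  obtain ⟨W', hW'1, hW'o, hxW'⟩ := eventually_nhds_iff.1 hcont
  have hNFX : NF (X 3 : MvPolynomial (Fin 4) (AnR r)) := by
    intro a ha
    have h0 : a = Finsupp.single 3 1 := by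
      by_contra hne
      rw [mem_support_iff, coeff_X', if_neg (fun h => hne h.symm)] at ha
      exact ha rfl
    rw [h0]
    simp
  obtain ⟨x2, h2W, h2g, h2Z, h2P⟩ := F.dens_step hD (X 3) hNFX hs
    ⟨Finsupp.single 3 1, by rw [coeff_X', if_pos rfl, map_one]; exact one_ne_zero⟩ hW'o h1g hxW'
  refine ⟨x2, (hW'1 _ h2W).2, h2g, h2Z, ?_, ?_⟩
  · intro h0
    apply h2P
    unfold evQ
    rw [dif_pos hs, eval₂_X]
    exact h0
  · have := (hW'1 _ h2W).1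
    rwa [h2g] at this

end Flip

end Pool.Agent.KO
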