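import Pool.Agent.KO.E.SpecL
import Pool.Agent.KO.E.DensF
import Pool.Agent.KO.A.Ev

/-!
# Project KO, block E, row M3: density of the good points in the fibres of `X`
-/

set_option autoImplicit false

namespace Pool.Agent.KO

open Set Filter Topology MvPolynomial

/-- Row M3. -/
theorem sp_M3 : SpM3 := by
  intro hD F _ r _ s hs c hc x hx
  have hc' : ‖(c : ℂ)‖ < r := mem_ball_zero_iff.1 c.2
  rw [mem_closure_iff]
  intro W hW hxW
  obtain ⟨x', h1, h2, h3, h4, h5⟩ := F.dens_good sp_ev hD s hs hc' hc hW hx hxW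
  exact ⟨x', h1, h2, h3, h4, h5⟩

end Pool.Agent.KO
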