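import Pool.Agent.KO.E.Crd
import Pool.Agent.KO.C.Inv

/-!
# Block E: density of `z ≠ 0` in the fibres of `X` (helper52)
-/

set_option autoImplicit false

namespace Pool.Agent.KO

open Set Filter Topology

/-- Square roots depend continuously on the number. -/
theorem exists_sqrt_near (y₀ : ℂ) {ε : ℝ} (hε : 0 < ε) :
    ∀ᶠ v in 𝓝 (y₀ ^ 2), ∃ y : ℂ, y ^ 2 = v ∧ ‖y - y₀‖ < ε := by
  have h1 : Tendsto (fun v : ℂ => ‖v - y₀ ^ 2‖) (𝓝 (y₀ ^ 2)) (𝓝 0) := by
    have : ContinuousAt (fun v : ℂ => ‖v - y₀ ^ 2‖) (y₀ ^ 2) :=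
      ((continuous_id.sub continuous_const).norm).continuousAt
    simpa [ContinuousAt] using this
  filter_upwards [h1.eventually (gt_mem_nhds (show (0 : ℝ) < ε * ε by positivity))] with v hv
  obtain ⟨y, hy⟩ := IsAlgClosed.exists_pow_nat_eq v (n := 2) (by norm_num)
  by_cases h : ‖y - y₀‖ < ε
  · exact ⟨y, hy, h⟩
  · refine ⟨-y, by rw [neg_sq]; exact hy, ?_⟩
    have e : v - y₀ ^ 2 = (y - y₀) * (y + y₀) := by rw [← hy]; ring
    rw [e, norm_mul] at hv
    have h2 : ‖-y - y₀‖ = ‖y + y₀‖ := by rw [← norm_neg]; congr 1; ring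
    rw [h2]
    by_contra h3
    push Not at h h3
    exact absurd hv (not_lt.2 (mul_le_mul h h3 hε.le (norm_nonneg _)))

theorem freq_ne_zero : ∃ᶠ z in 𝓝 (0 : ℂ), z ≠ 0 :=
  ((eventually_mem_nhdsWithin (a := (0 : ℂ)) (s := {0}ᶜ)).frequently).filter_mono
    nhdsWithin_le_nhds

/-- The set `Cone \ Gam` over the open disc is open in `{G = 0}`. -/
theorem ev_M1 {p : Fin 6 → ℂ} (hp : p ∈ Cone) (hg : p ∉ Gam) :
    ∀ᶠ p' in 𝓝 p, G p' = 0 → p' ∈ Cone ∧ p' ∉ Gam := by
  obtain ⟨h1, ⟨i, hi, h2⟩, h3⟩ := hp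
  have e1 : ∀ᶠ p' in 𝓝 p, p' ∉ Gam := Gam_isClosed.isOpen_compl.mem_nhds hg
  have e2 : ∀ᶠ p' : Fin 6 → ℂ in 𝓝 p, p' i ≠ 0 :=
    (continuous_apply i).continuousAt.eventually_ne h2
  have e3 : ∀ᶠ p' : Fin 6 → ℂ in 𝓝 p, ‖p' 5‖ < 1 :=
    ((continuous_apply 5).norm.continuousAt (x := p)).eventually (gt_mem_nhds h3)
  filter_upwards [e1, e2, e3] with p' a b c hG
  exact ⟨⟨hG, ⟨i, hi, b⟩, c⟩, a⟩

namespace Flip

variable (F : Flip)

theorem isOpen_M2 : IsOpen {q : Fin 5 → ℂ | q ∈ Dom F.ρ ∧ (q 0 ≠ 0 ∨ q 1 ≠ 0 ∨ q 2 ≠ 0)} := by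
  have h : ∀ i : Fin 5, IsOpen {q : Fin 5 → ℂ | q i ≠ 0} := fun i =>
    isOpen_ne_fun (continuous_apply i) continuous_const
  exact (dom_isOpen F.ρ).inter ((h 0).union ((h 1).union (h 2)))

theorem nhds_pi1 {W : Set F.Sp} (hW : IsOpen W) {p : M1} (hp : F.pi1 p ∈ W) :
    ∀ᶠ p' in 𝓝 p.1, G p' = 0 → ∃ h : p' ∈ Cone ∧ p' ∉ Gam, F.pi1 ⟨p', h⟩ ∈ W := by
  have h1 : ∀ᶠ p' in 𝓝 p, F.pi1 p' ∈ W := F.continuous_pi1.continuousAt.preimage_mem_nhds
    (hW.mem_nhds hp)
  rw [nhds_subtype_eq_comap, eventually_comap] at h1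
  filter_upwards [h1, ev_M1 p.2.1 p.2.2] with p' a b hG
  exact ⟨b hG, a ⟨p', b hG⟩ rfl⟩

theorem nhds_pi2 {W : Set F.Sp} (hW : IsOpen W) {q : F.M2} (hq : F.pi2 q ∈ W) :
    ∀ᶠ q' in 𝓝 q.1, ∃ h : q' ∈ Dom F.ρ ∧ (q' 0 ≠ 0 ∨ q' 1 ≠ 0 ∨ q' 2 ≠ 0),
      F.pi2 ⟨q', h⟩ ∈ W := by
  have h1 : ∀ᶠ p' in 𝓝 q, F.pi2 p' ∈ W := F.continuous_pi2.continuousAt.preimage_mem_nhds
    (hW.mem_nhds hq)
  rw [nhds_subtype_eq_comap, eventually_comap] at h1
  filter_upwards [h1, F.isOpen_M2.mem_nhds q.2] with p' a b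
  exact ⟨b, a ⟨p', b⟩ rfl⟩

/-- Density of `z ≠ 0` near the points of the cone. -/
theorem dens_pi1 {W : Set F.Sp} (hW : IsOpen W) {p : M1} (hp : F.pi1 p ∈ W) :
    ∃ x ∈ W, x ∈ F.ZX ∧ F.g x = p.1 5 := by
  obtain ⟨ε, hε, hball⟩ := Metric.eventually_nhds_iff.1 (F.nhds_pi1 hW hp)
  set C : ℂ → ℂ := fun z => p.1 4 ^ 2 - G (Function.update p.1 0 z) with hC
  have hCc : Continuous C := by
    simp only [hC, G]
    have hu : Continuous fun z : ℂ => Function.update p.1 0 z :=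
      continuous_const.update 0 continuous_id
    have h : ∀ i : Fin 6, Continuous fun z : ℂ => Function.update p.1 0 z i := fun i =>
      (continuous_apply i).comp hu
    have h0 := h 0
    have h1 := h 1
    have h2 := h 2
    have h3 := h 3
    have h4 := h 4
    have h5 := h 5
    fun_prop
  have hC0 : C (p.1 0) = p.1 4 ^ 2 := by
    simp only [hC, Function.update_eq_self]
    rw [p.2.1.1, sub_zero]
  have e1 := hCc.continuousAt.eventually (show ∀ᶠ v in 𝓝 (C (p.1 0)), ∃ y : ℂ, y ^ 2 = v ∧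
    ‖y - p.1 4‖ < ε by rw [hC0]; exact exists_sqrt_near _ hε)
  have e2 : ∀ᶠ z in 𝓝 (p.1 0), ‖z - p.1 0‖ < ε := by
    have := Metric.ball_mem_nhds (p.1 0) hε
    filter_upwards [this] with z hz
    rwa [mem_ball_iff_norm] at hz
  have e3 : ∃ᶠ z in 𝓝 (p.1 0), z ≠ 0 := by
    by_cases h0 : p.1 0 = 0
    · rw [h0]
      exact freq_ne_zero
    · exact (eventually_ne_nhds h0).frequently
  obtain ⟨z, hz0, ⟨y, hy, hy'⟩, hz⟩ := (e3.and_eventually (e1.and e2)).exists
  set p' : Fin 6 → ℂ := Function.update (Function.update p.1 0 z) 4 y with hp'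
  have hG : G p' = 0 := by
    have a4 : p' 4 = y := by simp [hp']
    have a : ∀ i : Fin 6, i ≠ 4 → p' i = Function.update p.1 0 z i := fun i hi => by
      simp [hp', Function.update_of_ne hi]
    have hy2 : y ^ 2 = p.1 4 ^ 2 - G (Function.update p.1 0 z) := hy
    have b4 : Function.update p.1 0 z 4 = p.1 4 := by simp
    simp only [G] at hy2 ⊢
    rw [a4, a 0 (by decide), a 1 (by decide), a 2 (by decide), a 3 (by decide), a 5 (by decide),
      hy2, b4]
    ring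
  have hd : dist p' p.1 < ε := by
    rw [dist_pi_lt_iff hε]
    intro i
    by_cases h4 : i = 4
    · subst h4
      rw [dist_eq_norm]
      simpa [hp'] using hy'
    · by_cases h0 : i = 0
      · subst h0
        rw [dist_eq_norm]
        simpa [hp'] using hz
      · simp [hp', Function.update_of_ne h4, Function.update_of_ne h0, hε]
  obtain ⟨h, hW'⟩ := hball hd hG
  refine ⟨_, hW', ?_, ?_⟩
  · rw [mem_ZX_pi1]
    simpa [hp'] using hz0
  · rw [g_pi1]
    simp [hp']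

/-- The set `z ≠ 0` is dense in every fibre. -/
theorem dens_ZX (s : ℂ) : {x | F.g x = s} ⊆ closure ({x | F.g x = s} ∩ F.ZX) := by
  intro x hx
  rw [mem_closure_iff]
  intro W hW hxW
  rcases F.cases_pi x with ⟨p, rfl⟩ | ⟨q, rfl⟩
  · obtain ⟨x', h1, h2, h3⟩ := F.dens_pi1 hW hxW
    exact ⟨x', h1, h3.trans hx, h2⟩
  · by_cases hq : q.1 3 ≠ 0 ∨ q.1 4 ≠ 0
    · rw [← F.pi1_ofq q hq] at hxW
      obtain ⟨x', h1, h2, h3⟩ := F.dens_pi1 hW hxW
      exact ⟨x', h1, h3.trans hx, h2⟩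
    · push Not at hq
      obtain ⟨hq3, hq4⟩ := hq
      have hs : s = 0 := by
        rw [← hx.out, g_pi2, (F.Φ0 q.1 q.2.1 hq3).2.2.2, hq4]
        ring
      obtain ⟨T, hT, hTo, hqT⟩ := eventually_nhds_iff.1 (F.nhds_pi2 hW hxW)
      -- first perturb `A`
      obtain ⟨q', hq'T, h3, h4, hs'⟩ : ∃ q' ∈ T, q' 3 = 0 ∧ q' 4 = 0 ∧
          q' 1 ^ 3 / 27 - q' 2 ^ 2 / 4 ≠ 0 := by
        by_cases h0 : q.1 1 ^ 3 / 27 - q.1 2 ^ 2 / 4 = 0
        · have hc : ContinuousAt (fun δ : ℂ => Function.update q.1 2 (q.1 2 + δ)) 0 :=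
            (continuous_const.update 2 (continuous_const.add continuous_id)).continuousAt
          have e1 : ∀ᶠ δ in 𝓝 (0 : ℂ), Function.update q.1 2 (q.1 2 + δ) ∈ T := by
            apply hc.preimage_mem_nhds
            apply hTo.mem_nhds
            simpa using hqT
          have e2 : ∃ᶠ δ in 𝓝 (0 : ℂ), δ ≠ 0 ∧ 2 * q.1 2 + δ ≠ 0 := by
            by_cases h2 : q.1 2 = 0
            · refine freq_ne_zero.mono fun z hz => ⟨hz, ?_⟩
              simpa [h2] using hz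
            · have h5 : ∀ᶠ δ in 𝓝 (0 : ℂ), 2 * q.1 2 + δ ≠ 0 := by
                have hc : ContinuousAt (fun δ : ℂ => 2 * q.1 2 + δ) 0 :=
                  (continuous_const.add continuous_id).continuousAt
                apply hc.eventually_ne
                simpa using h2
              exact freq_ne_zero.and_eventually h5
          obtain ⟨δ, ⟨hδ, hδ2⟩, hδT⟩ := (e2.and_eventually e1).exists
          refine ⟨_, hδT, by simpa using hq3, by simpa using hq4, ?_⟩
          have : Function.update q.1 2 (q.1 2 + δ) 1 ^ 3 / 27 -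
              Function.update q.1 2 (q.1 2 + δ) 2 ^ 2 / 4 =
              (q.1 1 ^ 3 / 27 - q.1 2 ^ 2 / 4) - δ * (2 * q.1 2 + δ) / 4 := by
            simp
            ring
          rw [this, h0, zero_sub]
          exact neg_ne_zero.2 (div_ne_zero (mul_ne_zero hδ hδ2) (by norm_num))
        · exact ⟨q.1, hqT, hq3, hq4, h0⟩
      -- the implicit function
      have hq'D : q' ∈ Dom F.ρ := (hT _ hq'T).choose.1
      set γ : ℂ × ℂ → (Fin 5 → ℂ) := fun v => ![q' 0, q' 1, q' 2, v.1, v.2] with hγ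
      have hγ0 : γ (0, 0) = q' := by
        funext i
        fin_cases i
        · rfl
        · rfl
        · rfl
        · exact h3.symm
        · exact h4.symm
      have hγa : AnalyticAt ℂ γ (0, 0) := by
        apply AnalyticAt.pi
        intro i
        fin_cases i
        · exact analyticAt_const
        · exact analyticAt_const
        · exact analyticAt_const
        · exact analyticAt_fst
        · exact analyticAt_snd
      set H : ℂ × ℂ → ℂ := fun v => F.Φ (γ v) 5 with hH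
      have hHa : AnalyticAt ℂ H (0, 0) := by
        have := F.an 5 q' hq'D
        rw [← hγ0] at this
        exact this.fun_comp hγa
      have hH0 : H (0, 0) = 0 := by
        simp only [hH, hγ0]
        rw [(F.Φ0 q' hq'D h3).2.2.2, h4]
        ring
      have hder : HasFDerivAt (fun w : ℂ => H (0, w))
          ((q' 1 ^ 3 / 27 - q' 2 ^ 2 / 4) • ContinuousLinearMap.id ℂ ℂ) 0 := by
        have h1 := F.dT q' h3 h4
        rw [← hγ0] at h1
        have h2 : HasFDerivAt (fun w : ℂ => γ (0, w))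
            (ContinuousLinearMap.pi ![0, 0, 0, 0, ContinuousLinearMap.id ℂ ℂ]) 0 := by
          rw [hasFDerivAt_pi']
          intro i
          fin_cases i
          · exact hasFDerivAt_const _ _
          · exact hasFDerivAt_const _ _
          · exact hasFDerivAt_const _ _
          · exact hasFDerivAt_const _ _
          · exact hasFDerivAt_id _
        have h5 := HasFDerivAt.comp (g := fun q => F.Φ q 5) (0 : ℂ) h1 h2
        refine h5.congr_fderiv ?_
        ext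
        simp [hγ]
      have hfd : (fderiv ℂ H (0, 0)).comp (ContinuousLinearMap.inr ℂ ℂ ℂ) =
          (q' 1 ^ 3 / 27 - q' 2 ^ 2 / 4) • ContinuousLinearMap.id ℂ ℂ := by
        have h1 := hHa.differentiableAt.hasFDerivAt
        have h2 : HasFDerivAt (fun w : ℂ => ((0 : ℂ), w)) (ContinuousLinearMap.inr ℂ ℂ ℂ) 0 :=
          (ContinuousLinearMap.inr ℂ ℂ ℂ).hasFDerivAt
        exact (h1.comp (0 : ℂ) h2).unique hder
      obtain ⟨φ, hφa, hφ0, hφ⟩ := C.imp (a := (0 : ℂ)) (b := (0 : ℂ)) hHa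
        (ContinuousLinearEquiv.unitsEquivAut ℂ (Units.mk0 _ hs')) (by
          rw [hfd]
          ext
          simp)
      have hc : ContinuousAt (fun z : ℂ => (z, φ z)) 0 :=
        continuousAt_id.prodMk hφa.continuousAt
      have e1 : ∀ᶠ z in 𝓝 (0 : ℂ), H (z, φ z) = 0 := by
        have h1 : ∀ᶠ z in 𝓝 (0 : ℂ), (H (z, φ z) = H (0, 0) ↔ φ z = φ z) := by
          have : Tendsto (fun z : ℂ => (z, φ z)) (𝓝 0) (𝓝 (0, 0)) := by
            have := hc.tendsto
            rwa [hφ0] at this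
          exact this.eventually hφ
        filter_upwards [h1] with z hz
        rw [hz.2 rfl, hH0]
      have e2 : ∀ᶠ z in 𝓝 (0 : ℂ), γ (z, φ z) ∈ T := by
        have h1 : ContinuousAt (fun z : ℂ => γ (z, φ z)) 0 := by
          have h2 : ContinuousAt γ (0, φ 0) := by rw [hφ0]; exact hγa.continuousAt
          exact ContinuousAt.comp (g := γ) (f := fun z : ℂ => (z, φ z)) h2 hc
        apply h1.preimage_mem_nhds
        apply hTo.mem_nhds
        rw [hφ0, hγ0]
        exact hq'T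
      have e3 : ∃ᶠ z in 𝓝 (0 : ℂ), z ≠ 0 :=
        ((eventually_mem_nhdsWithin (a := (0 : ℂ)) (s := {0}ᶜ)).frequently).filter_mono
          nhdsWithin_le_nhds
      obtain ⟨z, hz0, hz1, hz2⟩ := (e3.and_eventually (e1.and e2)).exists
      obtain ⟨h, hW'⟩ := hT _ hz2
      refine ⟨_, hW', ?_, ?_⟩
      · show F.g _ = s
        rw [hs, g_pi2]
        exact hz1
      · rw [mem_ZX_pi2]
        exact hz0

end Flip

end Pool.Agent.KO
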