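import Pool.Agent.KO.E.SpecL
import Pool.Agent.KO.E.DensX

/-!
# Block E, row M3b: density of `P ≠ 0` in the total space (helper9)
-/

set_option autoImplicit false

namespace Pool.Agent.KO

open Set Filter Topology MvPolynomial

/-- The affine coordinates of `pi1 p` for `p 0 = 1`. -/
theorem dt_aff (F : Flip) (p : Flip.M1) (h : p.1 0 = 1) : F.aff (F.pi1 p) = affPt p.1 := by
  funext i
  fin_cases i <;> simp [Flip.aff, Flip.cX_pi1, affPt, h]

theorem sp_M3b : SpM3b := by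
  intro hden F _ r _ _ P hP x hx hxr
  obtain ⟨p, hp0, rfl⟩ := F.exists_rep hx
  have hpV : p.1 ∈ Vaff r := ⟨p.2.1.1, hp0, hxr⟩
  have hcl := hden r P hP hpV
  intro hne
  have h1 : ∀ᶠ p' in 𝓝 p, ¬ evQ P (F.aff (F.pi1 p')) (F.g (F.pi1 p')) ≠ 0 :=
    F.continuous_pi1.continuousAt.eventually hne
  rw [nhds_subtype_eq_comap, eventually_comap] at h1
  obtain ⟨p', ⟨hV, he⟩, h2, h3⟩ := ((mem_closure_iff_frequently.1 hcl).and_eventually
    (h1.and (ev_M1 p.2.1 p.2.2))).exists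
  refine h2 ⟨p', h3 hV.1⟩ rfl ?_
  rw [dt_aff F _ hV.2.1, Flip.g_pi1]
  exact he

end Pool.Agent.KO
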