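import Pool.Agent.KO.E.SpecL

/-!
# KO, block E, row G1: the good points, first facts
-/

set_option autoImplicit false

namespace Pool.Agent.KO

open Set Filter Topology MvPolynomial

/-- The function `s_j` in the affine coordinates is continuous. -/
theorem g1_evQ (h0 : SpL0b) (F : Flip) (hX : F.XaFacts) {r : ℝ}
    (P : MvPolynomial (Fin 4) (AnR r)) {x : F.Sp} (hx : x ∈ F.ZX) (hr : ‖F.g x‖ < r) :
    ContinuousAt (fun y => evQ P (F.aff y) (F.g y)) x := by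
  have hc : ∀ i : Fin 5, ContinuousAt
      (fun y : F.Sp => (![F.cX 1 y, F.cX 2 y, F.cX 3 y, F.cX 4 y, F.g y] : Fin 5 → ℂ) i) x := by
    intro i
    fin_cases i
    · exact F.contAt_cX 1 hx
    · exact F.contAt_cX 2 hx
    · exact F.contAt_cX 3 hx
    · exact F.contAt_cX 4 hx
    · exact hX.shf.cont F.g x (hX.hol x)
  have hc' : ContinuousAt
      (fun y : F.Sp => (![F.cX 1 y, F.cX 2 y, F.cX 3 y, F.cX 4 y, F.g y] : Fin 5 → ℂ)) x :=
    continuousAt_pi.2 hc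
  have han : ∀ i : Fin 5, AnalyticAt ℂ (fun y : Fin 5 → ℂ => y i)
      (![F.cX 1 x, F.cX 2 x, F.cX 3 x, F.cX 4 x, F.g x] : Fin 5 → ℂ) := fun i =>
    (ContinuousLinearMap.proj (R := ℂ) (φ := fun _ : Fin 5 => ℂ) i).analyticAt _
  have h1 := h0 r 4 5 P (fun y => y 4) (fun i y => y i.castSucc)
    (![F.cX 1 x, F.cX 2 x, F.cX 3 x, F.cX 4 x, F.g x] : Fin 5 → ℂ) (han 4) hr
    (fun i => han i.castSucc)
  have h2 := ContinuousAt.comp (f := fun y : F.Sp =>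
    (![F.cX 1 y, F.cX 2 y, F.cX 3 y, F.cX 4 y, F.g y] : Fin 5 → ℂ)) (x := x)
    h1.continuousAt hc'
  refine h2.congr (Eventually.of_forall fun y => ?_)
  show evQ P (fun i : Fin 4 =>
    (![F.cX 1 y, F.cX 2 y, F.cX 3 y, F.cX 4 y, F.g y] : Fin 5 → ℂ) i.castSucc) (F.g y) =
      evQ P (F.aff y) (F.g y)
  congr 1
  funext i
  fin_cases i <;> rfl

variable {F : Flip} {r : ℝ} {N : ℕ} {S : Set (PN N × ℂ)} {b : Bimer F.O F.g r S}

theorem g1_goodX (h0 : SpL0b) [Nonempty F.Sp] (hM : HypM F b) (hI : InvFacts b) (σ : Sec F b)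
    (j : Fin (N + 1)) {x : F.Sp} (hx : x ∈ goodX σ j) : goodX σ j ∈ 𝓝 x := by
  obtain ⟨h1, h2, h3, h4, h5⟩ := hx
  have hr : ‖F.g x‖ < r := h2.trans_le (σ.le.trans σ.le_r)
  have hg : ContinuousAt F.g x := hM.xa.shf.cont F.g x (hM.xa.hol x)
  have hg2 : ∀ᶠ y in 𝓝 x, ‖F.g y‖ < σ.r2 :=
    hg.norm.eventually (isOpen_Iio.mem_nhds h2)
  have he : ContinuousAt (fun y => evQ (σ.s j) (F.aff y) (F.g y)) x :=
    g1_evQ h0 F hM.xa (σ.s j) h3 (h2.trans_le σ.le)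
  filter_upwards [hI.opnX.mem_nhds ⟨hr, h1⟩, hg2, F.isOpen_ZX.mem_nhds h3,
    (F.contAt_cX 4 h3).eventually_ne h4, he.eventually_ne h5] with y a1 a2 a3 a4 a5
  exact ⟨a1.2, a2, a3, a4, a5⟩

theorem sp_G1 : SpG1 := by
  intro h0 F _ r N S b hM hI σ j K
  have hthird : ∀ ξ ∈ K.B, ξ 3 = (K.χ ξ).1.2 := by
    intro ξ hξ
    rw [← K.last, K.par.right ξ hξ]
  have hgp : ∀ ξ ∈ K.good, F.g (invS b (K.χ ξ)) = ξ 3 := by
    intro ξ hξ
    rw [(hI.mem (K.χ ξ) hξ.2.1).2.2, hthird ξ hξ.1]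
  refine ⟨hthird, ?_, ?_, ?_, ?_, ?_⟩
  · rw [isOpen_iff_mem_nhds]
    intro ξ hξ
    have hB : K.B ∈ 𝓝 ξ := K.par.isOpen.mem_nhds hξ.1
    have hχ : ContinuousAt K.χ ξ := K.par.cont.continuousAt hB
    have hA : ∀ᶠ y in 𝓝 ξ, (K.χ y).1 ∉ b.A' :=
      hχ.eventually (hI.opn.mem_nhds (show (K.χ ξ) ∈ {p : S | p.1 ∉ b.A'} from hξ.2.1))
    have hinv : ContinuousAt (fun y => invS b (K.χ y)) ξ :=
      ContinuousAt.comp (f := K.χ) (g := invS b) (hI.cont (K.χ ξ) hξ.2.1) hχ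
    have hG : ∀ᶠ y in 𝓝 ξ, invS b (K.χ y) ∈ goodX σ j :=
      hinv.eventually (g1_goodX h0 hM hI σ j hξ.2.2)
    filter_upwards [hB, hA, hG] with y a1 a2 a3
    exact ⟨a1, a2, a3⟩
  · intro i ξ hξ
    have hx : invS b (K.χ ξ) ∈ F.ZX := hξ.2.2.2.2.1
    have hO : F.O (fun x => F.aff x i) (invS b (K.χ ξ)) := by
      fin_cases i
      · exact F.O_cX 1 hx
      · exact F.O_cX 2 hx
      · exact F.O_cX 3 hx
      · exact F.O_cX 4 hx
    have h1 := (hI.hol (K.χ ξ) hξ.2.1 _).1 hO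
    exact (K.par.hol ξ hξ.1 _).1 h1
  · intro ξ hξ
    have hx : invS b (K.χ ξ) ∈ F.ZX := hξ.2.2.2.2.1
    have h1 := F.G_pt hx
    have h2 := hgp ξ hξ
    rw [← F.cX_five] at h2
    have h3 := F.pt_zero hx
    unfold G Flip.pt at h1
    rw [h3, h2] at h1
    show gA (ξ 3) (fun i => F.aff (invS b (K.χ ξ)) i) = 0
    unfold gA Flip.aff
    simp only [Matrix.cons_val]
    linear_combination h1
  · intro ξ hξ
    exact hξ.2.2.2.2.2.1
  · intro ξ hξ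
    have h1 := hξ.2.2.2.2.2.2
    rw [hgp ξ hξ] at h1
    exact h1

end Pool.Agent.KO
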