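import Pool.Agent.KO.E.XF

/-!
# Block E: `(u, w, x, t)` are coordinates of `X` where `z ≠ 0`, `y ≠ 0` (helper52)
-/

set_option autoImplicit false

namespace Pool.Agent.KO

open Set Filter Topology

/-- Construction of charts with open image. -/
theorem isChart_mk {X : Type} [TopologicalSpace X] {O : Shf X} {n : ℕ} {c : X → Fin n → ℂ}
    {U : Set X} (hU : IsOpen U) {N : Set (Fin n → ℂ)} (hN : IsOpen N) (s : (Fin n → ℂ) → X)
    (hs : ContinuousOn s N) (hc : ContinuousOn c U) (h1 : ∀ x ∈ U, c x ∈ N ∧ s (c x) = x)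
    (h2 : ∀ v ∈ N, s v ∈ U ∧ c (s v) = v)
    (hol : ∀ x ∈ U, ∀ f : X → ℂ, O f x ↔
      ∃ F : (Fin n → ℂ) → ℂ, AnalyticAt ℂ F (c x) ∧ f =ᶠ[𝓝 x] F ∘ c) :
    IsChart O U c (c '' U) := by
  have him : c '' U = N := by
    ext v
    constructor
    · rintro ⟨x, hx, rfl⟩; exact (h1 x hx).1
    · intro hv; exact ⟨s v, (h2 v hv).1, (h2 v hv).2⟩
  refine ⟨hU, by rw [him]; exact hN, ?_, ?_, hol⟩
  · have e1 : IsEmbedding (fun x : U => (⟨c x, (h1 x x.2).1⟩ : N)) := by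
      refine Function.LeftInverse.isEmbedding (f := fun v : N => (⟨s v, (h2 v v.2).1⟩ : U)) ?_ ?_ ?_
      · intro x; exact Subtype.ext (h1 x x.2).2
      · exact Continuous.subtype_mk (continuousOn_iff_continuous_domRestrict.1 hs) _
      · exact Continuous.subtype_mk (continuousOn_iff_continuous_domRestrict.1 hc) _
    exact (IsEmbedding.subtypeVal (p := fun v => v ∈ N)).comp e1
  · refine ⟨subset_rfl, fun v hv => ⟨N, hN, him ▸ hv, 0, fun i => i.elim0, fun i => i.elim0, ?_⟩⟩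
    rw [him, inter_self]
    ext v
    simp

/-- Analytic square roots. -/
theorem exists_sqrt {n : ℕ} {R : (Fin n → ℂ) → ℂ} {v₀ : Fin n → ℂ} (hR : AnalyticAt ℂ R v₀)
    {y₀ : ℂ} (hy : y₀ ≠ 0) (h : y₀ ^ 2 = R v₀) :
    ∃ Y : (Fin n → ℂ) → ℂ, AnalyticAt ℂ Y v₀ ∧ Y v₀ = y₀ ∧ ∀ᶠ v in 𝓝 v₀, Y v ^ 2 = R v := by
  have hy2 : y₀ ^ 2 ≠ 0 := pow_ne_zero _ hy
  have h1 : R v₀ / y₀ ^ 2 = 1 := by rw [← h, div_self hy2]
  have hq : AnalyticAt ℂ (fun v => R v / y₀ ^ 2) v₀ := hR.div analyticAt_const hy2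
  have hl : AnalyticAt ℂ (fun v => Complex.log (R v / y₀ ^ 2)) v₀ :=
    hq.clog (by rw [h1]; exact Complex.one_mem_slitPlane)
  refine ⟨fun v => y₀ * Complex.exp (Complex.log (R v / y₀ ^ 2) / 2), ?_, ?_, ?_⟩
  · exact analyticAt_const.mul (hl.div analyticAt_const two_ne_zero).cexp
  · simp [h1]
  · have hne : ∀ᶠ v in 𝓝 v₀, R v ≠ 0 :=
      hR.continuousAt.eventually_ne (by rw [← h]; exact hy2)
    filter_upwards [hne] with v hv
    have : Complex.exp (Complex.log (R v / y₀ ^ 2) / 2) ^ 2 = R v / y₀ ^ 2 := by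
      rw [← Complex.exp_nat_mul]
      rw [show ((2 : ℕ) : ℂ) * (Complex.log (R v / y₀ ^ 2) / 2) = Complex.log (R v / y₀ ^ 2) by
        push_cast; ring]
      exact Complex.exp_log (div_ne_zero hv hy2)
    rw [mul_pow, this]
    field_simp

/-- `y² = Rr(u, w, x, t)` at `z = 1`. -/
def Rr (v : Fin 4 → ℂ) : ℂ :=
  -(v 2 ^ 3 + v 3 * v 1 ^ 11 + v 0 * v 1 ^ 10 + v 0 ^ 12 * v 1 - 1 - v 1 ^ 9)

theorem an_Rr (v : Fin 4 → ℂ) : AnalyticAt ℂ Rr v := by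
  unfold Rr
  have h := fun i => Flip.an_coord (n := 4) i v
  exact ((((((h 2).pow 3).add ((h 3).mul ((h 1).pow 11))).add ((h 0).mul ((h 1).pow 10))).add
    (((h 0).pow 12).mul (h 1))).sub analyticAt_const |>.sub ((h 1).pow 9)).neg

/-- The point of the cone with `z = 1` and the given coordinates. -/
def mk6 (v : Fin 4 → ℂ) (y : ℂ) : Fin 6 → ℂ := ![1, v 0, v 1, v 2, y, v 3]

theorem G_mk6 (v : Fin 4 → ℂ) (y : ℂ) : G (mk6 v y) = y ^ 2 - Rr v := by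
  simp only [G, mk6, Rr]
  simp
  ring

theorem an_mk6 {Y : (Fin 4 → ℂ) → ℂ} {v : Fin 4 → ℂ} (hY : AnalyticAt ℂ Y v) :
    AnalyticAt ℂ (fun v => mk6 v (Y v)) v := by
  apply AnalyticAt.pi
  intro i
  have h := fun i => Flip.an_coord (n := 4) i v
  fin_cases i
  · exact analyticAt_const
  · exact h 0
  · exact h 1
  · exact h 2
  · exact hY
  · exact h 3

theorem Gam_isClosed : IsClosed Gam := by
  unfold Gam
  have h := fun i => continuous_apply (A := fun _ : Fin 6 => ℂ) i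
  refine (isClosed_eq (h 5) continuous_const).inter
    ((isClosed_eq (h 1) continuous_const).inter
    ((isClosed_eq (h 3) (((h 0).pow 4).mul ((h 2).pow 3))).inter
    (isClosed_eq (h 4) ((h 0).pow 33))))

namespace Flip

variable (F : Flip)

/-- The coordinates `u, w, x, t`. -/
noncomputable def c4 (x : F.Sp) : Fin 4 → ℂ := ![F.cX 1 x, F.cX 2 x, F.cX 3 x, F.cX 5 x]

theorem pt_eq {x : F.Sp} (hx : x ∈ F.ZX) : F.pt x = mk6 (F.c4 x) (F.cX 4 x) := by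
  funext i
  fin_cases i
  · exact F.pt_zero hx
  all_goals rfl

theorem Rr_c4 {x : F.Sp} (hx : x ∈ F.ZX) : F.cX 4 x ^ 2 = Rr (F.c4 x) := by
  have := F.G_pt hx
  rw [F.pt_eq hx, G_mk6] at this
  exact sub_eq_zero.1 this

theorem c4_pi1 (p : M1) (v : Fin 4 → ℂ) (y : ℂ) (h : p.1 = mk6 v y) : F.c4 (F.pi1 p) = v := by
  unfold c4
  simp only [F.cX_pi1, h]
  funext i
  fin_cases i <;> simp [mk6]

theorem contAt_c4 {x : F.Sp} (hx : x ∈ F.ZX) : ContinuousAt F.c4 x := by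
  rw [continuousAt_pi]
  intro i
  fin_cases i
  · exact F.contAt_cX 1 hx
  · exact F.contAt_cX 2 hx
  · exact F.contAt_cX 3 hx
  · exact F.contAt_cX 5 hx

/-- The local inverse of `(u, w, x, t)`. -/
theorem exists_branch {x₀ : F.Sp} (hx : x₀ ∈ F.ZX) (hy : F.cX 4 x₀ ≠ 0) :
    ∃ (Y : (Fin 4 → ℂ) → ℂ) (N : Set (Fin 4 → ℂ)) (U : Set F.Sp), IsOpen N ∧ IsOpen U ∧
      x₀ ∈ U ∧ U ⊆ F.ZX ∩ {x | F.cX 4 x ≠ 0} ∧ (∀ v ∈ N, AnalyticAt ℂ Y v) ∧
      (∀ v ∈ N, ∃ h : mk6 v (Y v) ∈ Cone ∧ mk6 v (Y v) ∉ Gam, F.pi1 ⟨_, h⟩ ∈ U) ∧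
      (∀ x ∈ U, F.c4 x ∈ N ∧ Y (F.c4 x) = F.cX 4 x) := by
  obtain ⟨Y, hY, hY0, hYR⟩ := exists_sqrt (an_Rr (F.c4 x₀)) hy (F.Rr_c4 hx)
  have hpos : 0 < ‖F.cX 4 x₀‖ / 3 := by
    have := norm_pos_iff.2 hy
    positivity
  have e1 : ∀ᶠ v in 𝓝 (F.c4 x₀), ‖Y v - F.cX 4 x₀‖ < ‖F.cX 4 x₀‖ / 3 := by
    have : Tendsto (fun v => ‖Y v - F.cX 4 x₀‖) (𝓝 (F.c4 x₀)) (𝓝 0) := by
      have := (hY.continuousAt.sub (continuousAt_const (y := F.cX 4 x₀))).norm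
      simpa [ContinuousAt, hY0] using this
    exact this.eventually (gt_mem_nhds hpos)
  have e2 : ∀ᶠ v in 𝓝 (F.c4 x₀), mk6 v (Y v) ∉ Gam := by
    have hc : ContinuousAt (fun v => mk6 v (Y v)) (F.c4 x₀) := (an_mk6 hY).continuousAt
    have hm : mk6 (F.c4 x₀) (Y (F.c4 x₀)) ∈ Gamᶜ := by
      rw [hY0, ← F.pt_eq hx]; exact (F.pt_mem hx).2
    exact hc.preimage_mem_nhds (Gam_isClosed.isOpen_compl.mem_nhds hm)
  have e3 : ∀ᶠ v in 𝓝 (F.c4 x₀), ‖v 3‖ < 1 := by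
    have hc : ContinuousAt (fun v : Fin 4 → ℂ => ‖v 3‖) (F.c4 x₀) :=
      ((continuous_apply 3).norm).continuousAt
    have : ‖F.c4 x₀ 3‖ < 1 := (F.pt_mem hx).1.2.2
    exact hc.eventually (gt_mem_nhds this)
  have e4 : ∀ᶠ v in 𝓝 (F.c4 x₀), AnalyticAt ℂ Y v := hY.eventually_analyticAt
  obtain ⟨N, hNs, hN, hxN⟩ := eventually_nhds_iff.1 (e1.and (e2.and (e3.and (e4.and hYR))))
  refine ⟨Y, N, F.ZX ∩ {x | F.c4 x ∈ N ∧ ‖F.cX 4 x - F.cX 4 x₀‖ < ‖F.cX 4 x₀‖ / 3}, hN, ?_,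
    ⟨hx, hxN, by simpa using hpos⟩, ?_, fun v hv => (hNs v hv).2.2.2.1, ?_, ?_⟩
  · rw [isOpen_iff_mem_nhds]
    rintro x ⟨h1, h2, h3⟩
    have hc : ContinuousAt (fun x => ‖F.cX 4 x - F.cX 4 x₀‖) x :=
      ((F.contAt_cX 4 h1).sub continuousAt_const).norm
    filter_upwards [F.isOpen_ZX.mem_nhds h1,
      (F.contAt_c4 h1).preimage_mem_nhds (hN.mem_nhds h2), hc.eventually (gt_mem_nhds h3)]
      with x' a b c
    exact ⟨a, b, c⟩
  · rintro x ⟨h1, -, h3⟩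
    refine ⟨h1, fun h0 : F.cX 4 x = 0 => ?_⟩
    rw [h0, zero_sub, norm_neg] at h3
    linarith
  · intro v hv
    obtain ⟨a1, a2, a3, a4, a5⟩ := hNs v hv
    have hC : mk6 v (Y v) ∈ Cone := by
      refine ⟨by rw [G_mk6, a5, sub_self], ⟨0, by decide, ?_⟩, a3⟩
      show (1 : ℂ) ≠ 0
      exact one_ne_zero
    refine ⟨⟨hC, a2⟩, ?_, ?_, ?_⟩
    · rw [F.mem_ZX_pi1]
      show (1 : ℂ) ≠ 0
      exact one_ne_zero
    · rw [F.c4_pi1 _ v (Y v) rfl]; exact hv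
    · have : F.cX 4 (F.pi1 ⟨mk6 v (Y v), hC, a2⟩) = Y v := by
        rw [F.cX_pi1]
        simp [mk6]
      rw [this]; exact a1
  · rintro x ⟨h1, h2, h3⟩
    refine ⟨h2, ?_⟩
    obtain ⟨a1, a2, a3, a4, a5⟩ := hNs _ h2
    have h4 : Y (F.c4 x) ^ 2 = F.cX 4 x ^ 2 := by rw [a5, F.Rr_c4 h1]
    rcases sq_eq_sq_iff_eq_or_eq_neg.1 h4 with h | h
    · exact h
    · exfalso
      rw [h] at a1
      have : (2 : ℂ) * F.cX 4 x₀ =
          -(-F.cX 4 x - F.cX 4 x₀) - (F.cX 4 x - F.cX 4 x₀) := by ring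
      have h5 : ‖(2 : ℂ) * F.cX 4 x₀‖ ≤ ‖-F.cX 4 x - F.cX 4 x₀‖ + ‖F.cX 4 x - F.cX 4 x₀‖ := by
        rw [this]
        refine (norm_sub_le _ _).trans ?_
        rw [norm_neg]
      rw [norm_mul] at h5
      have h6 : ‖(2 : ℂ)‖ = 2 := by simp
      rw [h6] at h5
      linarith

/-- `(u, w, x, t)` are coordinates. -/
theorem isCoord_c4 {x₀ : F.Sp} (hx : x₀ ∈ F.ZX) (hy : F.cX 4 x₀ ≠ 0) :
    IsCoord F.O F.c4 x₀ := by
  obtain ⟨Y, N, U, hN, hU, hxU, hUZ, hY, h1, h2⟩ := F.exists_branch hx hy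
  classical
  set s : (Fin 4 → ℂ) → F.Sp := fun v => if h : mk6 v (Y v) ∈ Cone ∧ mk6 v (Y v) ∉ Gam then
    F.pi1 ⟨_, h⟩ else x₀ with hs
  have hsN : ∀ v (hv : v ∈ N), ∃ h, s v = F.pi1 ⟨mk6 v (Y v), h⟩ := by
    intro v hv
    obtain ⟨h, -⟩ := h1 v hv
    exact ⟨h, by simp only [hs, dif_pos h]⟩
  have hpt : ∀ x ∈ U, F.pt x = mk6 (F.c4 x) (Y (F.c4 x)) := by
    intro x hx
    rw [F.pt_eq (hUZ hx).1, (h2 x hx).2]
  refine ⟨U, hxU, isChart_mk hU hN s ?_ ?_ ?_ ?_ ?_⟩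
  · have : ContinuousOn (fun v => mk6 v (Y v)) N := fun v hv =>
      (an_mk6 (hY v hv)).continuousAt.continuousWithinAt
    rw [continuousOn_iff_continuous_domRestrict] at this ⊢
    have h3 : N.domRestrict s = fun v : N => F.pi1 ⟨mk6 v.1 (Y v.1), (h1 v.1 v.2).1⟩ := by
      funext v
      obtain ⟨h, h'⟩ := hsN v.1 v.2
      exact h'
    rw [h3]
    exact F.continuous_pi1.comp (this.subtype_mk _)
  · exact fun x hx => (F.contAt_c4 (hUZ hx).1).continuousWithinAt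
  · intro x hx
    refine ⟨(h2 x hx).1, ?_⟩
    obtain ⟨h, h'⟩ := hsN _ (h2 x hx).1
    rw [h']
    have := F.pi1_pt (hUZ hx).1
    refine Eq.trans ?_ this
    congr 1
    apply Subtype.ext
    show mk6 _ _ = F.pt _
    rw [hpt x hx]
  · intro v hv
    obtain ⟨h, h'⟩ := hsN v hv
    obtain ⟨h3, h4⟩ := h1 v hv
    rw [h']
    exact ⟨h4, F.c4_pi1 _ v (Y v) rfl⟩
  · intro x hx f
    have hxZ := (hUZ hx).1
    constructor
    · intro hf
      obtain ⟨H, hH, hHf⟩ := hf.1 ⟨F.pt x, F.pt_mem hxZ⟩ (F.pi1_pt hxZ)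
      have hxe := hpt x hx
      refine ⟨fun v => H (mk6 v (Y v)), ?_, ?_⟩
      · have hH' : AnalyticAt ℂ H (mk6 (F.c4 x) (Y (F.c4 x))) := by rw [← hxe]; exact hH
        exact hH'.fun_comp (f := fun v => mk6 v (Y v)) (an_mk6 (hY _ (h2 x hx).1))
      · have hpc : ContinuousAt F.pt x := by
          rw [continuousAt_pi]
          exact fun i => F.contAt_cX i hxZ
        rw [nhds_subtype_eq_comap, eventually_comap] at hHf
        filter_upwards [hpc.eventually hHf, hU.mem_nhds hx] with x' h3 h4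
        have h5 := h3 ⟨F.pt x', F.pt_mem (hUZ h4).1⟩ rfl
        rw [F.pi1_pt (hUZ h4).1] at h5
        rw [h5]
        show H (F.pt x') = H _
        rw [hpt x' h4]
    · rintro ⟨K, hK, hKf⟩
      constructor
      · rintro p rfl
        have h0 : p.1 0 ≠ 0 := (F.mem_ZX_pi1 p).1 hxZ
        refine ⟨fun p => K ![p 1 / p 0 ^ wgt 1, p 2 / p 0 ^ wgt 2, p 3 / p 0 ^ wgt 3,
          p 5 / p 0 ^ wgt 5], ?_, ?_⟩
        · refine AnalyticAt.fun_comp (f := fun p : Fin 6 → ℂ => ![p 1 / p 0 ^ wgt 1,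
            p 2 / p 0 ^ wgt 2, p 3 / p 0 ^ wgt 3, p 5 / p 0 ^ wgt 5]) hK ?_
          apply AnalyticAt.pi
          have hd : ∀ i : Fin 6, AnalyticAt ℂ (fun p : Fin 6 → ℂ => p i / p 0 ^ wgt i) p.1 :=
            fun i => (an_coord i _).div ((an_coord 0 _).pow _) (pow_ne_zero _ h0)
          intro i
          fin_cases i
          exacts [hd 1, hd 2, hd 3, hd 5]
        · have := F.continuous_pi1.continuousAt.eventually hKf
          filter_upwards [this] with p' h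
          exact h
      · rintro q rfl
        have h0 : F.Φ q.1 0 ≠ 0 := by rw [F.Φz]; exact (F.mem_ZX_pi2 q).1 hxZ
        refine ⟨fun p => K ![F.Φ p 1 / F.Φ p 0 ^ wgt 1, F.Φ p 2 / F.Φ p 0 ^ wgt 2,
          F.Φ p 3 / F.Φ p 0 ^ wgt 3, F.Φ p 5 / F.Φ p 0 ^ wgt 5], ?_, ?_⟩
        · refine AnalyticAt.fun_comp (f := fun p : Fin 5 → ℂ => ![F.Φ p 1 / F.Φ p 0 ^ wgt 1,
            F.Φ p 2 / F.Φ p 0 ^ wgt 2, F.Φ p 3 / F.Φ p 0 ^ wgt 3,
            F.Φ p 5 / F.Φ p 0 ^ wgt 5]) hK ?_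
          apply AnalyticAt.pi
          have hd : ∀ i : Fin 6, AnalyticAt ℂ (fun p : Fin 5 → ℂ =>
              F.Φ p i / F.Φ p 0 ^ wgt i) q.1 :=
            fun i => (F.an i _ q.2.1).div ((F.an 0 _ q.2.1).pow _) (pow_ne_zero _ h0)
          intro i
          fin_cases i
          exacts [hd 1, hd 2, hd 3, hd 5]
        · have := F.continuous_pi2.continuousAt.eventually hKf
          filter_upwards [this] with p' h
          exact h

end Flip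

end Pool.Agent.KO
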