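import Pool.Agent.KO.E.SpecL
import Pool.Agent.KO.E.Crd

/-!
# KO, block E, row G2: the Jacobian determinant does not vanish at the good points (helper86)
-/

set_option autoImplicit false

namespace Pool.Agent.KO

open Set Filter Topology MvPolynomial

theorem sp_G2 : SpG2 := by
  intro hC hJ F _ r N S b hM hI σ j K h1 ξ hξ
  obtain ⟨hB, hA, hX⟩ := hξ
  have hX' := hX
  obtain ⟨_, _, hZ, hy, _⟩ := hX'
  have c1 : IsCoord F.O F.c4 (invS b (K.χ ξ)) := F.isCoord_c4 hZ hy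
  have c2 : IsCoord (res (stdP N) S) (F.c4 ∘ invS b) (K.χ ξ) := hI.coord _ hA 4 _ c1
  obtain ⟨hV, hd⟩ := hC S (res (stdP N) S) 4 K.c (F.c4 ∘ invS b) K.χ K.B K.par ξ hB c2
  have hn : ∀ᶠ y in 𝓝 ξ, y ∈ K.good := h1.opn.mem_nhds ⟨hB, hA, hX⟩
  rw [← hJ K.W ((F.c4 ∘ invS b) ∘ K.χ) ξ hV ?_ ?_]
  · exact hd
  · filter_upwards [hn] with y hy'
    have e1 : F.cX 5 (invS b (K.χ y)) = F.g (invS b (K.χ y)) := F.cX_five _
    have e2 := (hI.mem _ hy'.2.1).2.2
    have e3 := h1.third y hy'.1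
    change F.cX 5 (invS b (K.χ y)) = y 3
    rw [e1, e2, e3]
  · intro i
    refine Filter.Eventually.of_forall fun y => ?_
    fin_cases i <;> rfl

end Pool.Agent.KO
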