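import Pool.Agent.KO.E.SpecL

/-!
# KO, block E: row G3, density of the good points in the fibres (helper12)
-/

set_option autoImplicit false

namespace Pool.Agent.KO

open Set Filter Topology MvPolynomial

theorem g3_zero {r : ℝ} (P : MvPolynomial (Fin 4) (AnR r)) (x : Fin 4 → ℂ)
    (c : Metric.ball (0 : ℂ) r) (h : ∀ a, evR c (P.coeff a) = 0) : evQ P x c = 0 := by
  unfold evQ
  split_ifs with hc
  · rw [MvPolynomial.eval₂_eq']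
    exact Finset.sum_eq_zero fun a _ => by
      rw [show evR (⟨(c : ℂ), by simpa using hc⟩ : Metric.ball (0 : ℂ) r) (P.coeff a) = 0 from h a,
        zero_mul]
  · rfl

theorem sp_G3 : SpG3 := by
  intro hD hM3 hM7 F _ r N S b hM inv σ j K G1 ξ hξ
  rw [mem_closure_iff]
  intro o ho hξo
  set t : ℂ := ξ 3 with ht
  have hr1 : σ.r1 ≤ 1 := σ.le_r.trans hM.le
  have hpt : (K.χ ξ).1.2 = t := (G1.third ξ hξ).symm
  have htr2 : ‖t‖ < σ.r2 := by rw [← hpt]; exact K.small ξ hξ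
  have htr1 : ‖t‖ < σ.r1 := htr2.trans_le σ.le
  have htr : ‖t‖ < r := htr1.trans_le σ.le_r
  have hVo : IsOpen (K.χ '' (o ∩ K.B)) :=
    K.par.opn _ inter_subset_right (ho.inter K.par.isOpen)
  obtain ⟨U, hU, hUV⟩ := isOpen_induced_iff.1 hVo
  have hpU : (K.χ ξ).1 ∈ U := by
    have : K.χ ξ ∈ Subtype.val ⁻¹' U := by
      rw [hUV]
      exact ⟨ξ, ⟨hξo, hξ⟩, rfl⟩
    exact this
  have hcl := (hM.fib t htr).2 (show (K.χ ξ).1 ∈ {p : PN N × ℂ | p ∈ S ∧ p.2 = t} from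
    ⟨(K.χ ξ).2, hpt⟩)
  obtain ⟨q0, hq0U, ⟨hq0S, hq0t⟩, hq0A⟩ := mem_closure_iff.1 hcl U hU hpU
  let q : S := ⟨q0, hq0S⟩
  have hqV : q ∈ K.χ '' (o ∩ K.B) := by
    rw [← hUV]
    exact hq0U
  let T : Set S := (K.χ '' (o ∩ K.B)) ∩ {q' : S | q'.1 ∉ b.A'}
  have hT : T ∈ 𝓝 q := (hVo.inter inv.opn).mem_nhds ⟨hqV, hq0A⟩
  have hTx : invS b '' T ∈ 𝓝 (invS b q) := by
    rw [← inv.opnMap q hq0A]
    exact image_mem_map hT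
  have hgx : F.g (invS b q) = t := (inv.mem q hq0A).2.2.trans hq0t
  let c : Metric.ball (0 : ℂ) σ.r1 := ⟨t, by simpa using htr1⟩
  have hfind : ∀ i, (∃ a, evR c ((σ.s i).coeff a) ≠ 0) → ∃ ξ' ∈ o ∩ K.B, (K.χ ξ').1 ∉ b.A' ∧
      (K.χ ξ').1.2 = t ∧ F.g (invS b (K.χ ξ')) = t ∧ invS b (K.χ ξ') ∈ F.ZX ∧
      F.cX 4 (invS b (K.χ ξ')) ≠ 0 ∧ evQ (σ.s i) (F.aff (invS b (K.χ ξ'))) t ≠ 0 := by
    intro i hi
    have h1 := hM3 hD F hM.xa σ.r1 hr1 (σ.s i) (σ.nf i) c hi (invS b q) hgx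
    obtain ⟨y, ⟨q', ⟨⟨ξ', hξ', rfl⟩, hq'A⟩, rfl⟩, hy1, hy2, hy3, hy4⟩ :=
      mem_closure_iff_nhds.1 h1 _ hTx
    exact ⟨ξ', hξ', hq'A, (inv.mem _ hq'A).2.2.symm.trans hy1, hy1, hy2, hy3, hy4⟩
  have hj : ∃ a, evR c ((σ.s j).coeff a) ≠ 0 := by
    by_contra hcon
    push Not at hcon
    obtain ⟨i, hi⟩ := σ.nz c htr2
    obtain ⟨ξ', hξ', hA', h2, h3, hZ, h4, h5⟩ := hfind i hi
    obtain ⟨l, hl, hl2⟩ := hM7 F r N S b inv σ (K.χ ξ') hA' (by rw [h2]; exact htr2) hZ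
      ⟨i, by rw [h2]; exact h5⟩
    have h6 := hl2 j
    rw [h2, g3_zero (σ.s j) _ c hcon] at h6
    exact K.ne ξ' hξ'.2 ((mul_eq_zero.1 h6.symm).resolve_left hl)
  obtain ⟨ξ', hξ', hA', h2, h3, hZ, h4, h5⟩ := hfind j hj
  refine ⟨ξ', hξ'.1, ⟨hξ'.2, hA', (inv.mem _ hA').1, ?_, hZ, h4, ?_⟩, ?_⟩
  · rw [h3]; exact htr2
  · rw [h3]; exact h5
  · exact (G1.third ξ' hξ'.2).trans h2

end Pool.Agent.KO
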