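import Pool.Agent.KO.E.SpecL

/-!
# KO, block E, row G4: the complement of the good points is thin in two steps (helper72)
-/

set_option autoImplicit false

namespace Pool.Agent.KO

open Set Filter Topology MvPolynomial

theorem sp_G4 : SpG4 := by
  intro hthin hres hshf hM2 F _ r N S b H I σ j K g1 g3 ξ hξ
  obtain ⟨hS, hSan⟩ := hres (PN N × ℂ) (stdP N) (hshf N) S
  have hfreq : ∀ y ∈ K.B, ∃ᶠ z in 𝓝 y, z ∈ K.good := by
    intro y hy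
    have h1 := mem_closure_iff_frequently.1 (g3 y hy)
    exact h1.mono fun z hz => hz.1
  have hcont : ∀ y ∈ K.B, ContinuousAt K.χ y := fun y hy =>
    K.par.cont.continuousAt (K.par.isOpen.mem_nhds hy)
  have hr2 : ∀ y ∈ K.B, ‖(K.χ y).1.2‖ < r := fun y hy =>
    lt_of_lt_of_le (K.small y hy) (σ.le.trans σ.le_r)
  have hfA : ∃ᶠ x in 𝓝 (K.χ ξ), x ∉ (Subtype.val ⁻¹' b.A' : Set S) := by
    refine (hcont ξ hξ).tendsto.frequently ?_
    exact (hfreq ξ hξ).mono fun z hz => hz.2.1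
  obtain ⟨b0, hb0, hb0n, hb0A⟩ := hthin S (res (stdP N) S) hS 4 K.c K.χ K.B K.par
    (Subtype.val ⁻¹' overDisc N r) (Subtype.val ⁻¹' b.A') (hSan _ _ b.anA') ξ hξ
    (hr2 ξ hξ) hfA
  refine ⟨b0, hb0, hb0n, ?_⟩
  filter_upwards [hb0A, K.par.isOpen.mem_nhds hξ] with y hyA hyB hy0
  have hA' : (K.χ y).1 ∉ b.A' := hyA hy0
  obtain ⟨-, hgr, hgy⟩ := I.mem (K.χ y) hA'
  have hg1 : ‖F.g (invS b (K.χ y))‖ < σ.r1 := by
    rw [hgy]
    exact lt_of_lt_of_le (K.small y hyB) σ.le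
  obtain ⟨h, hO, hiff⟩ := hM2 F H.xa σ.r1 (σ.s j) σ.m (σ.deg j) (invS b (K.χ y)) hg1
  have hc1 : ContinuousAt (fun z => invS b (K.χ z)) y :=
    ContinuousAt.comp (f := K.χ) (g := invS b) (I.cont (K.χ y) hA') (hcont y hyB)
  have hiff2 := hc1.eventually hiff
  have hAev : ∀ᶠ z in 𝓝 y, (K.χ z).1 ∉ b.A' :=
    (hcont y hyB).eventually (I.opn.mem_nhds hA')
  refine ⟨(h ∘ invS b) ∘ K.χ, ?_, ?_, ?_⟩
  · exact (K.par.hol y hyB (h ∘ invS b)).1 ((I.hol (K.χ y) hA' h).1 hO)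
  · intro h0
    obtain ⟨z, hz, hz1, hz2⟩ := ((hfreq y hyB).and_eventually (h0.and hiff2)).exists
    obtain ⟨-, -, hzX, hz4, hzs⟩ := hz.2.2
    exact hz2.2 ⟨hzX, hz4, hzs⟩ hz1
  · filter_upwards [hiff2, hAev, K.par.isOpen.mem_nhds hyB] with z hz1 hz2 hz3 hz4
    obtain ⟨hm1, hm2, hm3⟩ := I.mem (K.χ z) hz2
    obtain ⟨k1, k2, k3⟩ := hz1.1 hz4
    refine ⟨hz3, hz2, hm1, ?_, k1, k2, k3⟩
    rw [hm3]
    exact K.small z hz3

end Pool.Agent.KO
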