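import Pool.Agent.KO.S.Defs

/-!
# Projective space times a disc: topology, structure sheaf, affine charts

`isSpace_res`: a closed analytic subset of `ℙ^N × Δ_r` is a complex space.
-/

set_option autoImplicit false

namespace Pool.Agent.KO

open Set Filter Topology Projectivization

section top

variable {N : ℕ}

/-- The projection from the vectors. -/
theorem mk_eq_quot (v : Fin (N + 1) → ℂ) (h : v ≠ 0) :
    (Projectivization.mk ℂ v h : PN N) =
      (Quotient.mk (projectivizationSetoid ℂ (Fin (N + 1) → ℂ)) ⟨v, h⟩ :) := rfl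

/-- The projection `q : {v // v ≠ 0} → ℙ^N`. -/
noncomputable def qmap (N : ℕ) (v : {v : Fin (N + 1) → ℂ // v ≠ 0}) : PN N := Projectivization.mk ℂ v.1 v.2

theorem qmap_quot : IsQuotientMap (qmap N) :=
  isQuotientMap_quotient_mk' (s := projectivizationSetoid ℂ (Fin (N + 1) → ℂ))

theorem qmap_cont : Continuous (qmap N) := qmap_quot.continuous

theorem qmap_surj : Function.Surjective (qmap N) := qmap_quot.surjective

theorem qmap_open : IsOpenMap (qmap N) := by
  intro W hW
  rw [← qmap_quot.isOpen_preimage]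
  have h1 : qmap N ⁻¹' (qmap N '' W) =
      ⋃ a : ℂˣ, {v | (⟨(a : ℂ) • v.1, smul_ne_zero a.ne_zero v.2⟩ : {v : Fin (N + 1) → ℂ // v ≠ 0})
        ∈ W} := by
    ext v
    simp only [mem_preimage, mem_image, mem_iUnion, mem_ofPred_eq]
    constructor
    · rintro ⟨w, hw, hwv⟩
      obtain ⟨a, ha⟩ := (Projectivization.mk_eq_mk_iff ℂ w.1 v.1 w.2 v.2).1 hwv
      refine ⟨a, ?_⟩
      have : (⟨(a : ℂ) • v.1, smul_ne_zero a.ne_zero v.2⟩ : {v : Fin (N + 1) → ℂ // v ≠ 0}) = w :=
        Subtype.ext ha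
      rw [this]
      exact hw
    · rintro ⟨a, ha⟩
      exact ⟨_, ha, (Projectivization.mk_eq_mk_iff ℂ _ v.1 _ v.2).2 ⟨a, rfl⟩⟩
  rw [h1]
  apply isOpen_iUnion
  intro a
  apply hW.preimage
  apply Continuous.subtype_mk
  exact (continuous_const_smul (a : ℂ)).comp continuous_subtype_val

/-- The projection from the non-zero vectors times `ℂ`. -/
noncomputable def qm (N : ℕ) (q : {v : Fin (N + 1) → ℂ // v ≠ 0} × ℂ) : PN N × ℂ := (qmap N q.1, q.2)

theorem qm_cont : Continuous (qm N) := by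
  unfold qm
  exact (qmap_cont.comp continuous_fst).prodMk continuous_snd

theorem qm_open : IsOpenMap (qm N) := by
  have : qm N = Prod.map (qmap N) id := by
    funext q
    rfl
  rw [this]
  exact qmap_open.prodMap IsOpenMap.id

theorem nhds_qm (q : {v : Fin (N + 1) → ℂ // v ≠ 0} × ℂ) : map (qm N) (𝓝 q) = 𝓝 (qm N q) :=
  le_antisymm qm_cont.continuousAt (qm_open.nhds_le q)

theorem nhds_sub (v : Fin (N + 1) → ℂ) (h : v ≠ 0) (t : ℂ) :
    map (fun q : {v : Fin (N + 1) → ℂ // v ≠ 0} × ℂ => (q.1.1, q.2)) (𝓝 (⟨v, h⟩, t)) = 𝓝 (v, t) := by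
  have h1 : IsOpenEmbedding (fun v : {v : Fin (N + 1) → ℂ // v ≠ 0} => v.1) :=
    (isOpen_ne : IsOpen {v : Fin (N + 1) → ℂ | v ≠ 0}).isOpenEmbedding_subtypeVal
  have h2 : IsOpenEmbedding (Prod.map (fun v : {v : Fin (N + 1) → ℂ // v ≠ 0} => v.1) (id : ℂ → ℂ)) :=
    h1.prodMap IsOpenEmbedding.id
  exact h2.map_nhds_eq (⟨v, h⟩, t)

/-- Near a point of `ℙ^N × ℂ`: properties in terms of vectors. -/
theorem eventually_mk_iff {P : PN N × ℂ → Prop} {v : Fin (N + 1) → ℂ} {h : v ≠ 0} {t : ℂ} :
    (∀ᶠ p in 𝓝 ((Projectivization.mk ℂ v h, t) : PN N × ℂ), P p) ↔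
      ∀ᶠ q in 𝓝 (v, t), ∀ h : q.1 ≠ 0, P (Projectivization.mk ℂ q.1 h, q.2) := by
  have h1 : ((Projectivization.mk ℂ v h, t) : PN N × ℂ) = qm N (⟨v, h⟩, t) := rfl
  rw [h1, ← nhds_qm, ← nhds_sub v h t, eventually_map, eventually_map]
  constructor
  · intro h2
    filter_upwards [h2] with q hq _
    exact hq
  · intro h2
    filter_upwards [h2] with q hq
    exact hq q.1.2

/-- The structure sheaf in terms of an arbitrary vector. -/
theorem stdP_iff {f : PN N × ℂ → ℂ} {v : Fin (N + 1) → ℂ} {h : v ≠ 0} {t : ℂ} :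
    stdP N f (Projectivization.mk ℂ v h, t) ↔ ∃ F : (Fin (N + 1) → ℂ) × ℂ → ℂ,
      AnalyticAt ℂ F (v, t) ∧
        ∀ᶠ q in 𝓝 (v, t), ∀ h : q.1 ≠ 0, f (Projectivization.mk ℂ q.1 h, q.2) = F q := by
  set w := (Projectivization.mk ℂ v h).rep with hw
  have hw0 : w ≠ 0 := Projectivization.rep_nonzero _
  have hmk : Projectivization.mk ℂ w hw0 = Projectivization.mk ℂ v h := Projectivization.mk_rep _
  obtain ⟨a, ha⟩ := (Projectivization.mk_eq_mk_iff ℂ w v hw0 h).1 hmk
  have key : ∀ (a : ℂˣ) (v w : Fin (N + 1) → ℂ), a • v = w →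
      (∃ F : (Fin (N + 1) → ℂ) × ℂ → ℂ, AnalyticAt ℂ F (w, t) ∧
        ∀ᶠ q in 𝓝 (w, t), ∀ h : q.1 ≠ 0, f (Projectivization.mk ℂ q.1 h, q.2) = F q) →
      ∃ F : (Fin (N + 1) → ℂ) × ℂ → ℂ, AnalyticAt ℂ F (v, t) ∧
        ∀ᶠ q in 𝓝 (v, t), ∀ h : q.1 ≠ 0, f (Projectivization.mk ℂ q.1 h, q.2) = F q := by
    rintro a v w ha ⟨F, hF, hFf⟩
    have han : AnalyticAt ℂ (fun q : (Fin (N + 1) → ℂ) × ℂ => ((a : ℂ) • q.1, q.2)) (v, t) :=
      (((a : ℂ) • ContinuousLinearMap.fst ℂ (Fin (N + 1) → ℂ) ℂ).analyticAt _).prod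
        analyticAt_snd
    have hval : ((a : ℂ) • v, t) = (w, t) := by
      rw [← ha]
      rfl
    refine ⟨fun q => F ((a : ℂ) • q.1, q.2), ?_, ?_⟩
    · apply AnalyticAt.comp (g := F)
        (f := fun q : (Fin (N + 1) → ℂ) × ℂ => ((a : ℂ) • q.1, q.2)) _ han
      simp only [hval]
      exact hF
    · have hc : Tendsto (fun q : (Fin (N + 1) → ℂ) × ℂ => ((a : ℂ) • q.1, q.2)) (𝓝 (v, t))
          (𝓝 (w, t)) := by
        have := han.continuousAt.tendsto
        simp only [hval] at this
        exact this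
      filter_upwards [hc.eventually hFf] with q hq h
      have h1 := hq (smul_ne_zero a.ne_zero h)
      rw [← h1]
      congr 2
      exact (Projectivization.mk_eq_mk_iff ℂ _ _ _ _).2 ⟨a⁻¹, by
        simp [Units.smul_def, smul_smul]⟩
  constructor
  · intro h1
    exact key a v w ha h1
  · intro h1
    refine key a⁻¹ w v ?_ h1
    rw [← ha, inv_smul_smul]

/-- Functions of the structure sheaf are continuous. -/
theorem stdP_cont {f : PN N × ℂ → ℂ} {p : PN N × ℂ} (hf : stdP N f p) : ContinuousAt f p := by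
  obtain ⟨⟨v, hv⟩, hvp⟩ := qmap_surj p.1
  have hp : p = (Projectivization.mk ℂ v hv, p.2) := by
    rw [Prod.ext_iff]
    exact ⟨hvp.symm, rfl⟩
  rw [hp] at hf ⊢
  obtain ⟨F, hF, hFf⟩ := stdP_iff.1 hf
  have hval : f (Projectivization.mk ℂ v hv, p.2) = F (v, p.2) := hFf.self_of_nhds hv
  rw [ContinuousAt, hval]
  intro s hs
  rw [mem_map]
  have h1 : ∀ᶠ q in 𝓝 (v, p.2), ∀ h : q.1 ≠ 0,
      (Projectivization.mk ℂ q.1 h, q.2) ∈ f ⁻¹' s := by
    filter_upwards [hFf, hF.continuousAt.eventually hs] with q hq hq' h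
    show f (Projectivization.mk ℂ q.1 h, q.2) ∈ s
    rw [hq h]
    exact hq'
  exact (eventually_mk_iff (P := fun p => p ∈ f ⁻¹' s)).2 h1

/-- The affine coordinates `(v / v i, t)`. -/
noncomputable def affc (i : Fin (N + 1)) (p : PN N × ℂ) : Fin (N + 2) → ℂ :=
  Fin.snoc (α := fun _ => ℂ) (fun j => p.1.rep j / p.1.rep i) p.2

/-- The same formula on vectors. -/
noncomputable def affv (i : Fin (N + 1)) (q : (Fin (N + 1) → ℂ) × ℂ) : Fin (N + 2) → ℂ :=
  Fin.snoc (α := fun _ => ℂ) (fun j => q.1 j / q.1 i) q.2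

theorem affc_mk (i : Fin (N + 1)) (v : Fin (N + 1) → ℂ) (h : v ≠ 0) (t : ℂ) :
    affc i ((Projectivization.mk ℂ v h, t) : PN N × ℂ) = affv i (v, t) := by
  obtain ⟨a, ha⟩ := (Projectivization.mk_eq_mk_iff ℂ (Projectivization.mk ℂ v h).rep v
    (Projectivization.rep_nonzero _) h).1 (Projectivization.mk_rep _)
  unfold affc affv
  congr 1
  funext j
  show (Projectivization.mk ℂ v h).rep j / (Projectivization.mk ℂ v h).rep i = v j / v i
  rw [← ha]
  simp only [Units.smul_def, Pi.smul_apply, smul_eq_mul]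
  rw [mul_div_mul_left _ _ a.ne_zero]

theorem affv_an {i : Fin (N + 1)} {q : (Fin (N + 1) → ℂ) × ℂ} (h : q.1 i ≠ 0) :
    AnalyticAt ℂ (affv i) q := by
  rw [analyticAt_pi_iff]
  intro j
  have hcoord : ∀ k : Fin (N + 1), AnalyticAt ℂ (fun q : (Fin (N + 1) → ℂ) × ℂ => q.1 k) q := by
    intro k
    apply AnalyticAt.comp (g := fun v : Fin (N + 1) → ℂ => v k)
      (f := fun q : (Fin (N + 1) → ℂ) × ℂ => q.1) _ analyticAt_fst
    exact (ContinuousLinearMap.proj (R := ℂ) (φ := fun _ : Fin (N + 1) => ℂ) k).analyticAt _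
  refine Fin.lastCases ?_ ?_ j
  · simp only [affv, Fin.snoc_last]
    exact analyticAt_snd
  · intro k
    simp only [affv, Fin.snoc_castSucc]
    exact (hcoord k).div (hcoord i) h

theorem rep_ne_iff (i : Fin (N + 1)) (v : Fin (N + 1) → ℂ) (h : v ≠ 0) :
    (Projectivization.mk ℂ v h).rep i ≠ 0 ↔ v i ≠ 0 := by
  obtain ⟨a, ha⟩ := (Projectivization.mk_eq_mk_iff ℂ (Projectivization.mk ℂ v h).rep v
    (Projectivization.rep_nonzero _) h).1 (Projectivization.mk_rep _)
  rw [← ha]
  simp [Units.smul_def]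

/-- The coordinate open set. -/
def affU (i : Fin (N + 1)) : Set (PN N × ℂ) := {p | p.1.rep i ≠ 0}

theorem affU_open (i : Fin (N + 1)) : IsOpen (affU (N := N) i) := by
  rw [isOpen_iff_mem_nhds]
  intro p hp
  obtain ⟨⟨v, hv⟩, hvp⟩ := qmap_surj p.1
  have hp' : p = (Projectivization.mk ℂ v hv, p.2) := by
    rw [Prod.ext_iff]
    exact ⟨hvp.symm, rfl⟩
  rw [hp'] at hp ⊢
  apply (eventually_mk_iff (P := fun p => p ∈ affU i)).2
  have hvi : v i ≠ 0 := (rep_ne_iff i v hv).1 hp
  have hc : ContinuousAt (fun q : (Fin (N + 1) → ℂ) × ℂ => q.1 i) (v, p.2) := by fun_prop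
  filter_upwards [hc.eventually_ne hvi] with q hq h
  exact (rep_ne_iff i q.1 h).2 hq

theorem affc_an {i : Fin (N + 1)} {p : PN N × ℂ} (hp : p ∈ affU i) (F : (Fin (N + 2) → ℂ) → ℂ)
    (hF : AnalyticAt ℂ F (affc i p)) : stdP N (fun p => F (affc i p)) p := by
  obtain ⟨⟨v, hv⟩, hvp⟩ := qmap_surj p.1
  have hp' : p = (Projectivization.mk ℂ v hv, p.2) := by
    rw [Prod.ext_iff]
    exact ⟨hvp.symm, rfl⟩
  rw [hp'] at hp hF ⊢
  have hvi : v i ≠ 0 := (rep_ne_iff i v hv).1 hp
  rw [affc_mk] at hF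
  refine stdP_iff.2 ⟨fun q => F (affv i q), hF.comp (affv_an hvi), Eventually.of_forall fun q h => ?_⟩
  rw [affc_mk]

theorem affc_cont {i : Fin (N + 1)} {p : PN N × ℂ} (hp : p ∈ affU i) :
    ContinuousAt (affc i) p := by
  rw [continuousAt_pi]
  intro j
  exact stdP_cont (affc_an hp (fun a => a j)
    ((ContinuousLinearMap.proj (R := ℂ) (φ := fun _ : Fin (N + 2) => ℂ) j).analyticAt _))

/-- The inverse of the affine coordinates. -/
noncomputable def affi (i : Fin (N + 1)) (a : Fin (N + 2) → ℂ) : PN N × ℂ :=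
  open Classical in
  if h : (fun j : Fin (N + 1) => a j.castSucc) ≠ 0 then
    (Projectivization.mk ℂ (fun j : Fin (N + 1) => a j.castSucc) h, a (Fin.last _))
  else (Projectivization.mk ℂ (fun _ => 1) (by
    intro h
    exact one_ne_zero (congrFun h i)), 0)

theorem affi_eq (i : Fin (N + 1)) {a : Fin (N + 2) → ℂ}
    (h : (fun j : Fin (N + 1) => a j.castSucc) ≠ 0) : affi i a =
      (Projectivization.mk ℂ (fun j : Fin (N + 1) => a j.castSucc) h, a (Fin.last _)) := by
  unfold affi
  rw [dif_pos h]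

theorem affi_affc {i : Fin (N + 1)} {p : PN N × ℂ} (hp : p ∈ affU i) :
    affi i (affc i p) = p := by
  have hpi : p.1.rep i ≠ 0 := hp
  have h1 : (fun j : Fin (N + 1) => affc i p j.castSucc) = (p.1.rep i)⁻¹ • p.1.rep := by
    funext j
    simp only [affc, Fin.snoc_castSucc, Pi.smul_apply, smul_eq_mul]
    rw [div_eq_inv_mul]
  have h2 : (fun j : Fin (N + 1) => affc i p j.castSucc) ≠ 0 := by
    rw [h1]
    exact smul_ne_zero (inv_ne_zero hpi) p.1.rep_nonzero
  rw [affi_eq i h2]
  have h3 : affc i p (Fin.last _) = p.2 := by simp only [affc, Fin.snoc_last]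
  rw [h3]
  refine Prod.ext_iff.2 ⟨?_, rfl⟩
  show Projectivization.mk ℂ _ h2 = p.1
  conv_rhs => rw [← p.1.mk_rep]
  rw [Projectivization.mk_eq_mk_iff]
  exact ⟨Units.mk0 _ (inv_ne_zero hpi), by rw [h1]; rfl⟩

theorem affc_affi {i : Fin (N + 1)} {a : Fin (N + 2) → ℂ} (h : a i.castSucc = 1) :
    affc i (affi i a) = a := by
  have h0 : (fun j : Fin (N + 1) => a j.castSucc) ≠ 0 := by
    intro h1
    have := congrFun h1 i
    simp only [h, Pi.zero_apply] at this
    exact one_ne_zero this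
  rw [affi_eq i h0, affc_mk]
  funext j
  refine Fin.lastCases ?_ ?_ j
  · simp only [affv, Fin.snoc_last]
  · intro k
    simp only [affv, Fin.snoc_castSucc, h, div_one]

theorem affc_i {i : Fin (N + 1)} {p : PN N × ℂ} (hp : p ∈ affU i) :
    affc i p i.castSucc = 1 := by
  simp only [affc, Fin.snoc_castSucc]
  exact div_self hp

theorem affi_cont {i : Fin (N + 1)} {a : Fin (N + 2) → ℂ}
    (h : (fun j : Fin (N + 1) => a j.castSucc) ≠ 0) : ContinuousAt (affi i) a := by
  have h1 : ContinuousOn (affi i) {a | (fun j : Fin (N + 1) => a j.castSucc) ≠ 0} := by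
    rw [continuousOn_iff_continuous_domRestrict]
    have h2 : Continuous (fun a : {a : Fin (N + 2) → ℂ | (fun j : Fin (N + 1) => a j.castSucc) ≠ 0} =>
        qm N (⟨fun j : Fin (N + 1) => a.1 j.castSucc, a.2⟩, a.1 (Fin.last _))) := by
      apply qm_cont.comp
      apply Continuous.prodMk
      · apply Continuous.subtype_mk
        exact continuous_pi fun j => (continuous_apply _).comp continuous_subtype_val
      · exact (continuous_apply _).comp continuous_subtype_val
    convert! h2 using 1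
    funext a
    exact affi_eq i a.2
  apply h1.continuousAt
  apply IsOpen.mem_nhds _ h
  have h3 : Continuous (fun a : Fin (N + 2) → ℂ => fun j : Fin (N + 1) => a j.castSucc) := by
    fun_prop
  exact isOpen_ne.preimage h3

theorem affi_an {i : Fin (N + 1)} {a : Fin (N + 2) → ℂ}
    (h : (fun j : Fin (N + 1) => a j.castSucc) ≠ 0) {f : PN N × ℂ → ℂ}
    (hf : stdP N f (affi i a)) : AnalyticAt ℂ (fun a => f (affi i a)) a := by
  rw [affi_eq i h] at hf
  obtain ⟨F, hF, hFf⟩ := stdP_iff.1 hf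
  let L : (Fin (N + 2) → ℂ) →L[ℂ] (Fin (N + 1) → ℂ) × ℂ :=
    (ContinuousLinearMap.pi fun j : Fin (N + 1) =>
      ContinuousLinearMap.proj (R := ℂ) (φ := fun _ : Fin (N + 2) => ℂ) j.castSucc).prod
      (ContinuousLinearMap.proj (R := ℂ) (φ := fun _ : Fin (N + 2) => ℂ) (Fin.last _))
  have hL : ∀ a, L a = (fun j : Fin (N + 1) => a j.castSucc, a (Fin.last _)) := fun a => rfl
  have h1 : AnalyticAt ℂ (fun a => F (L a)) a := by
    apply AnalyticAt.comp (g := F) (f := fun a => L a) _ (L.analyticAt a)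
    simp only [hL]
    exact hF
  refine h1.congr ?_
  have hc : Tendsto (fun a => L a) (𝓝 a) (𝓝 (fun j : Fin (N + 1) => a j.castSucc, a (Fin.last _))) :=
    L.continuous.tendsto a
  have hopen : IsOpen {a : Fin (N + 2) → ℂ | (fun j : Fin (N + 1) => a j.castSucc) ≠ 0} := by
    have h3 : Continuous (fun a : Fin (N + 2) → ℂ => fun j : Fin (N + 1) => a j.castSucc) := by
      fun_prop
    exact isOpen_ne.preimage h3
  filter_upwards [hc.eventually hFf, hopen.mem_nhds h] with b hb hb'
  rw [affi_eq i hb']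
  exact (hb hb').symm

theorem mem_affU_affi {i : Fin (N + 1)} {a : Fin (N + 2) → ℂ} (h : a i.castSucc ≠ 0) :
    affi i a ∈ affU i := by
  have h0 : (fun j : Fin (N + 1) => a j.castSucc) ≠ 0 := by
    intro h1
    exact h (congrFun h1 i)
  rw [affi_eq i h0]
  exact (rep_ne_iff i _ h0).2 h

theorem exists_affU (p : PN N × ℂ) : ∃ i, p ∈ affU i := by
  by_contra hcon
  push Not at hcon
  apply p.1.rep_nonzero
  funext i
  have := hcon i
  simp only [affU, mem_ofPred_eq, not_not] at this
  exact this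

/-- The affine charts of a closed analytic subset of `ℙ^N × Δ_r`. -/
theorem isChart_affc {r : ℝ} {S : Set (PN N × ℂ)} (hS : IsAn (stdP N) (overDisc N r) S)
    (i : Fin (N + 1)) : IsChart (res (stdP N) S) {y : S | y.1 ∈ affU i}
      (fun y : S => affc i y.1) {a | ‖a (Fin.last _)‖ < r ∧ a i.castSucc ≠ 0} := by
  have hinit : ∀ a : Fin (N + 2) → ℂ, a i.castSucc ≠ 0 →
      (fun j : Fin (N + 1) => a j.castSucc) ≠ 0 := by
    intro a h h1
    exact h (congrFun h1 i)
  have hcont : ∀ y : S, y.1 ∈ affU i → ContinuousAt (fun y : S => affc i y.1) y := by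
    intro y hy
    exact ContinuousAt.comp (g := affc i) (f := fun y : S => y.1) (affc_cont hy)
      continuous_subtype_val.continuousAt
  have hlast : ∀ p : PN N × ℂ, affc i p (Fin.last _) = p.2 := by
    intro p
    simp only [affc, Fin.snoc_last]
  have hΩ : IsOpen {a : Fin (N + 2) → ℂ | ‖a (Fin.last _)‖ < r ∧ a i.castSucc ≠ 0} := by
    apply IsOpen.inter
    · exact isOpen_lt (continuous_norm.comp (continuous_apply _)) continuous_const
    · exact isOpen_ne.preimage (continuous_apply _)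
  refine ⟨(affU_open i).preimage continuous_subtype_val, hΩ, ?_, ?_, ?_⟩
  · refine ⟨isInducing_iff_nhds.2 fun y => le_antisymm ?_ ?_, ?_⟩
    · have h1 : ContinuousAt (fun y : {y : S | y.1 ∈ affU i} => affc i y.1.1) y :=
        ContinuousAt.comp (g := fun y : S => affc i y.1) (f := fun y : {y : S | y.1 ∈ affU i} => y.1)
          (hcont y.1 y.2) continuous_subtype_val.continuousAt
      exact h1.tendsto.le_comap
    · have hval : IsEmbedding (fun y : {y : S | y.1 ∈ affU i} => y.1.1) :=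
        IsEmbedding.subtypeVal.comp IsEmbedding.subtypeVal
      rw [hval.isInducing.nhds_eq_comap y]
      have h1 : ContinuousAt (affi i) (affc i y.1.1) := by
        apply affi_cont
        apply hinit
        rw [affc_i y.2]
        exact one_ne_zero
      have h2 : (fun y : {y : S | y.1 ∈ affU i} => y.1.1) =
          affi i ∘ (fun y : {y : S | y.1 ∈ affU i} => affc i y.1.1) := by
        funext z
        exact (affi_affc z.2).symm
      have h3 : comap (fun y : {y : S | y.1 ∈ affU i} => y.1.1) (𝓝 y.1.1) =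
          comap (fun y : {y : S | y.1 ∈ affU i} => affc i y.1.1)
            (comap (affi i) (𝓝 (affi i (affc i y.1.1)))) := by
        rw [comap_comap, ← h2, affi_affc y.2]
      rw [h3]
      exact comap_mono h1.tendsto.le_comap
    · intro y y' h
      apply Subtype.ext
      apply Subtype.ext
      rw [← affi_affc y.2, ← affi_affc y'.2]
      exact congrArg (affi i) h
  · refine ⟨?_, ?_⟩
    · rintro _ ⟨y, hy, rfl⟩
      refine ⟨?_, ?_⟩
      · show ‖affc i y.1 (Fin.last _)‖ < r
        rw [hlast]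
        exact hS.1 y.2
      · show affc i y.1 i.castSucc ≠ 0
        rw [affc_i hy]
        exact one_ne_zero
    · intro a ha
      have hp : affi i a ∈ overDisc N r := by
        rw [affi_eq i (hinit a ha.2)]
        exact ha.1
      obtain ⟨V, hV, haV, k, F, hF, hFV⟩ := hS.2 _ hp
      set V' : Set (Fin (N + 2) → ℂ) :=
        {a | ‖a (Fin.last _)‖ < r ∧ a i.castSucc ≠ 0} ∩ affi i ⁻¹' V with hV'
      refine ⟨V', ?_, ⟨ha, haV⟩, k + 1,
        Fin.cons (α := fun _ => (Fin (N + 2) → ℂ) → ℂ) (fun a => a i.castSucc - 1)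
          (fun l a => F l (affi i a)), ?_, ?_⟩
      · rw [isOpen_iff_mem_nhds]
        rintro b ⟨hb, hbV⟩
        exact inter_mem (hΩ.mem_nhds hb)
          ((affi_cont (hinit b hb.2)).preimage_mem_nhds (hV.mem_nhds hbV))
      · intro l y hy
        refine Fin.cases ?_ ?_ l
        · simp only [Fin.cons_zero]
          exact ((ContinuousLinearMap.proj (R := ℂ) (φ := fun _ : Fin (N + 2) => ℂ)
            i.castSucc).analyticAt y).sub analyticAt_const
        · intro l
          simp only [Fin.cons_succ]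
          exact affi_an (hinit y hy.1.2) (hF l _ hy.2)
      · ext b
        constructor
        · rintro ⟨⟨y, hy, rfl⟩, hbV'⟩
          refine ⟨hbV', ?_⟩
          intro l
          refine Fin.cases ?_ ?_ l
          · simp only [Fin.cons_zero]
            rw [affc_i hy, sub_self]
          · intro l
            simp only [Fin.cons_succ]
            rw [affi_affc hy]
            have h1 : y.1 ∈ S ∩ V := by
              refine ⟨y.2, ?_⟩
              have := hbV'.2
              rw [mem_preimage, affi_affc hy] at this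
              exact this
            rw [hFV] at h1
            exact h1.2 l
        · rintro ⟨hbV', hb⟩
          have h0 : b i.castSucc = 1 := by
            have := hb 0
            simp only [Fin.cons_zero] at this
            exact sub_eq_zero.1 this
          have h1 : affi i b ∈ S ∩ V := by
            rw [hFV]
            refine ⟨hbV'.2, fun l => ?_⟩
            have := hb l.succ
            simp only [Fin.cons_succ] at this
            exact this
          refine ⟨⟨⟨affi i b, h1.1⟩, mem_affU_affi (by rw [h0]; exact one_ne_zero), ?_⟩, hbV'⟩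
          exact affc_affi h0
  · intro y hy f
    constructor
    · rintro ⟨f', hf', hff'⟩
      refine ⟨fun a => f' (affi i a), ?_, ?_⟩
      · apply affi_an
        · apply hinit
          rw [affc_i hy]
          exact one_ne_zero
        · rw [affi_affc hy]
          exact hf'
      · have h1 : ∀ᶠ z : S in 𝓝 y, z.1 ∈ affU i :=
          ((affU_open i).preimage continuous_subtype_val).mem_nhds hy
        filter_upwards [hff', h1] with z hz hz'
        rw [hz]
        show f' z.1 = f' (affi i (affc i z.1))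
        rw [affi_affc hz']
    · rintro ⟨F, hF, hFf⟩
      exact ⟨fun p => F (affc i p), affc_an hy F hF, hFf⟩

/-- A closed analytic subset of `ℙ^N × Δ_r` is a complex space. -/
theorem isSpace_res {r : ℝ} {S : Set (PN N × ℂ)} (hS : IsAn (stdP N) (overDisc N r) S) :
    IsSpace (res (stdP N) S) := by
  intro x
  obtain ⟨i, hi⟩ := exists_affU x.1
  exact ⟨N + 2, _, _, _, hi, isChart_affc hS i⟩

/-- The projection to the disc is holomorphic. -/
theorem stdP_snd (p : PN N × ℂ) : stdP N (fun p => p.2) p :=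
  ⟨fun q => q.2, analyticAt_snd, Eventually.of_forall fun _ _ => rfl⟩

/-- The projection to the disc is holomorphic on `S`. -/
theorem res_snd {S : Set (PN N × ℂ)} (x : S) : res (stdP N) S (fun p => p.1.2) x :=
  ⟨fun p => p.2, stdP_snd x.1, Eventually.of_forall fun _ => rfl⟩

end top

end Pool.Agent.KO
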