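import Pool.Agent.KO.E.SpecL
import Pool.Agent.KO.E.PSpace

/-!
# Project KO, block E, row G5: the functions `x_i / x_j` in the coordinates
-/

set_option autoImplicit false

namespace Pool.Agent.KO

open Set Filter Topology MvPolynomial

theorem g5_std {N : ℕ} (i j : Fin (N + 1)) {p : PN N × ℂ} (hp : p.1.rep j ≠ 0) :
    stdP N (fun p => p.1.rep i / p.1.rep j) p := by
  have h1 := affc_an (i := j) (p := p) hp (fun a => a i.castSucc)
    ((ContinuousLinearMap.proj (R := ℂ) (φ := fun _ : Fin (N + 2) => ℂ) i.castSucc).analyticAt _)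
  have h2 : (fun p : PN N × ℂ => affc j p i.castSucc) = fun p => p.1.rep i / p.1.rep j := by
    funext p
    simp only [affc, Fin.snoc_castSucc]
  rw [h2] at h1
  exact h1

/-- Row G5. -/
theorem sp_G5 : SpG5 := by
  intro h7 F _ r N S b hM hI σ j K hG
  constructor
  · intro i ξ hξ
    have h1 : res (stdP N) S (fun p : S => p.1.1.rep i / p.1.1.rep j) (K.χ ξ) :=
      ⟨fun p => p.1.rep i / p.1.rep j, g5_std i j (K.ne ξ hξ), Eventually.of_forall fun _ => rfl⟩
    exact (K.par.hol ξ hξ _).1 h1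
  · intro i ξ hξ
    obtain ⟨hB, hA', hgX⟩ := hξ
    obtain ⟨-, hr2, hZ, -, hs⟩ := hgX
    have hg : F.g (invS b (K.χ ξ)) = (K.χ ξ).1.2 := (hI.mem _ hA').2.2
    rw [hg] at hr2 hs
    obtain ⟨l, -, hl⟩ := h7 F r N S b hI σ (K.χ ξ) hA' hr2 hZ ⟨j, hs⟩
    have hW : (fun i => K.W i ξ) = F.aff (invS b (K.χ ξ)) := rfl
    rw [hW, hG.third ξ hB, hl i, hl j]
    have hj : (K.χ ξ).1.1.rep j ≠ 0 := K.ne ξ hB
    show _ = (K.χ ξ).1.1.rep i / (K.χ ξ).1.1.rep j * _
    field_simp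

end Pool.Agent.KO
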