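import Pool.Agent.KO.E.SpecL

/-!
# KO, block E: row G6, generic position of the good points (helper67)
-/

set_option autoImplicit false

namespace Pool.Agent.KO

open Set Filter Topology MvPolynomial

theorem sp_G6 : SpG6 := by
  intro hD hM3 F _ r N S b hM inv σ j K G1 G3 P hP ξ hξ
  have : Fact (0 < σ.r1) := σ.pos1
  have hr1 : σ.r1 ≤ 1 := σ.le_r.trans hM.le
  rw [frequently_nhds_iff]
  intro o hξo ho
  obtain ⟨ξ', hξ'o, hξ'g, -⟩ := mem_closure_iff.1 (G3 ξ hξ) o ho hξo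
  have hsub : o ∩ K.good ⊆ K.B := fun y hy => hy.2.1
  have hVo : IsOpen (K.χ '' (o ∩ K.good)) := K.par.opn _ hsub (ho.inter G1.opn)
  have hV : K.χ '' (o ∩ K.good) ∈ 𝓝 (K.χ ξ') := hVo.mem_nhds ⟨ξ', ⟨hξ'o, hξ'g⟩, rfl⟩
  obtain ⟨-, hA', -, hg2, hZ, -, -⟩ := hξ'g
  have hx1 : ‖F.g (invS b (K.χ ξ'))‖ < σ.r1 := hg2.trans_le σ.le
  have hfr := hM3 hD F hM.xa σ.r1 hr1 P hP (invS b (K.χ ξ')) hZ hx1
  have hmap : invS b '' (K.χ '' (o ∩ K.good)) ∈ 𝓝 (invS b (K.χ ξ')) := by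
    rw [← inv.opnMap (K.χ ξ') hA']
    exact image_mem_map hV
  obtain ⟨y, hy, ⟨p, ⟨η, hη, rfl⟩, rfl⟩⟩ := (hfr.and_eventually hmap).exists
  refine ⟨η, hη.1, hη.2, ?_⟩
  have h3 : F.g (invS b (K.χ η)) = η 3 :=
    ((inv.mem _ hη.2.2.1).2.2).trans (G1.third η hη.2.1).symm
  rw [h3] at hy
  exact hy

end Pool.Agent.KO
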