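import Pool.Agent.KO.C.Ext
import Pool.Agent.KO.C.Iden

/-!
# Project KO, block E: division by a coordinate and the order along a coordinate hyperplane
-/

set_option autoImplicit false

namespace Pool.Agent.KO.C

open Set Filter Topology

variable {n : ℕ}

theorem coord_analytic (j : Fin n) (p : Fin n → ℂ) : AnalyticAt ℂ (fun x : Fin n → ℂ => x j) p :=
  (ContinuousLinearMap.proj (R := ℂ) (φ := fun _ : Fin n => ℂ) j).analyticAt p

/-- The coordinate does not vanish identically near any point. -/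
theorem coord_freq (j : Fin n) (p : Fin n → ℂ) : ∃ᶠ x in 𝓝 p, x j ≠ 0 := by
  have hc : Tendsto (fun ζ : ℂ => Function.update p j ζ) (𝓝 (p j)) (𝓝 p) := by
    have h1 : Continuous (fun ζ : ℂ => Function.update p j ζ) := by fun_prop
    have h2 := h1.tendsto (p j)
    rwa [Function.update_eq_self] at h2
  have h0 : ∃ᶠ ζ in 𝓝 (p j), ζ ≠ (0 : ℂ) := by
    by_cases hp : p j = 0
    · rw [hp]
      have : (𝓝[≠] (0 : ℂ)).NeBot := inferInstance
      exact (frequently_mem_iff_neBot (l := 𝓝 (0 : ℂ)) (s := {0}ᶜ)).2 this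
    · exact (continuousAt_id.eventually_ne hp).frequently
  refine hc.frequently (h0.mono fun ζ hζ => ?_)
  rw [Function.update_self]
  exact hζ

theorem coord_not (j : Fin n) (p : Fin n → ℂ) : ¬ ∀ᶠ x in 𝓝 p, x j = 0 := fun h =>
  coord_freq j p (h.mono fun _ hx => not_not.2 hx)

/-- Division: an analytic function that vanishes on the hyperplane is divisible. -/
theorem div_coord (j : Fin n) {p : Fin n → ℂ} (hp : p j = 0) {f : (Fin n → ℂ) → ℂ}
    (hf : AnalyticAt ℂ f p) (h : ∀ᶠ x in 𝓝 p, x j = 0 → f x = 0) :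
    ∃ g : (Fin n → ℂ) → ℂ, AnalyticAt ℂ g p ∧ ∀ᶠ x in 𝓝 p, f x = x j * g x := by
  obtain ⟨K, T, hT, hK⟩ := (hf.contDiffAt (n := 1)).exists_lipschitzOnWith
  have hup : Tendsto (fun x : Fin n → ℂ => Function.update x j 0) (𝓝 p) (𝓝 p) := by
    have h1 : Continuous (fun x : Fin n → ℂ => Function.update x j (0 : ℂ)) := by fun_prop
    have h2 := h1.tendsto p
    have h3 : Function.update p j (0 : ℂ) = p := by
      rw [← hp, Function.update_eq_self]
    rwa [h3] at h2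
  have hbd : ∀ᶠ x in 𝓝 p, x j ≠ 0 → ‖f x / x j‖ ≤ K := by
    filter_upwards [hT, hup.eventually hT, hup.eventually h] with x h1 h2 h3 h4
    have h5 : f (Function.update x j 0) = 0 := h3 (Function.update_self ..)
    have h6 := hK.norm_sub_le h1 h2
    rw [h5, sub_zero] at h6
    have h7 : ‖x - Function.update x j 0‖ = ‖x j‖ := by
      have h8 : x - Function.update x j 0 = Pi.single j (x j) := by
        funext i
        by_cases hi : i = j
        · subst hi; simp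
        · simp [hi]
      rw [h8, Pi.norm_single]
    rw [h7] at h6
    rw [norm_div, div_le_iff₀ (norm_pos_iff.2 h4)]
    exact h6
  obtain ⟨g, hg, hg2⟩ := riemann_loc (b := fun x : Fin n → ℂ => x j) (f := fun x => f x / x j)
    (coord_analytic j p) (coord_not j p)
    (by
      filter_upwards [hf.eventually_analyticAt] with x h1 h2
      exact h1.div (coord_analytic j x) h2)
    ⟨K, hbd⟩
  refine ⟨g, hg, ?_⟩
  filter_upwards [hg2, h] with x h1 h2
  by_cases h3 : x j = 0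
  · rw [h2 h3, h3, zero_mul]
  · rw [h1 h3, mul_div_cancel₀ _ h3]

/-- The order along the hyperplane is bounded. -/
theorem order_bound (j : Fin n) {p : Fin n → ℂ} (hp : p j = 0) {f : (Fin n → ℂ) → ℂ}
    (hf : AnalyticAt ℂ f p) (hne : ¬ ∀ᶠ x in 𝓝 p, f x = 0) :
    ∃ N : ℕ, ∀ (k : ℕ) (g : (Fin n → ℂ) → ℂ), AnalyticAt ℂ g p →
      (∀ᶠ x in 𝓝 p, f x = x j ^ k * g x) → k ≤ N := by
  obtain ⟨v, hv⟩ := line hf hne
  set φ : ℂ → ℂ := fun ζ => f (p + ζ • v) with hφ
  have hlin : ∀ z : ℂ, AnalyticAt ℂ (fun ζ : ℂ => p + ζ • v) z := fun z =>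
    analyticAt_const.add (analyticAt_id.smul analyticAt_const)
  have h00 : p + (0 : ℂ) • v = p := by simp
  have hφa : AnalyticAt ℂ φ 0 := by
    refine AnalyticAt.fun_comp (g := f) ?_ (hlin 0)
    rw [h00]; exact hf
  have htop : analyticOrderAt φ 0 ≠ ⊤ := by
    rw [Ne, analyticOrderAt_eq_top]
    exact hv
  obtain ⟨N, hN⟩ := ENat.ne_top_iff_exists.1 htop
  refine ⟨N, fun k g hg h => ?_⟩
  have h1 : (k : ℕ∞) ≤ analyticOrderAt φ 0 := by
    rw [natCast_le_analyticOrderAt hφa]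
    refine ⟨fun ζ => v j ^ k * g (p + ζ • v), ?_, ?_⟩
    · refine analyticAt_const.mul (AnalyticAt.fun_comp (g := g) ?_ (hlin 0))
      rw [h00]; exact hg
    · have htd : Tendsto (fun ζ : ℂ => p + ζ • v) (𝓝 0) (𝓝 p) := by
        have := (hlin 0).continuousAt.tendsto
        rwa [h00] at this
      filter_upwards [htd.eventually h] with ζ hζ
      rw [hφ]
      simp only
      rw [hζ, sub_zero, Pi.add_apply, Pi.smul_apply, hp, zero_add, smul_eq_mul, smul_eq_mul,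
        mul_pow]
      ring
  rw [← hN] at h1
  exact_mod_cast h1

/-- Division of a finite family by the largest common power of the coordinate. -/
theorem exists_div_gen (j : Fin n) {ι : Type*} [Finite ι] (σ : ι → (Fin n → ℂ) → ℂ)
    {p : Fin n → ℂ} (hp : p j = 0) (hσ : ∀ i, AnalyticAt ℂ (σ i) p)
    (hne : ∃ i, ¬ ∀ᶠ x in 𝓝 p, σ i x = 0) :
    ∃ (k : ℕ) (τ : ι → (Fin n → ℂ) → ℂ), (∀ i, AnalyticAt ℂ (τ i) p) ∧
      (∀ i, ∀ᶠ x in 𝓝 p, σ i x = x j ^ k * τ i x) ∧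
      ∃ i, ¬ ∀ᶠ x in 𝓝 p, x j = 0 → τ i x = 0 := by
  classical
  obtain ⟨i₀, hi₀⟩ := hne
  obtain ⟨N, hN⟩ := order_bound j hp (hσ i₀) hi₀
  let P : ℕ → Prop := fun k => ∃ τ : ι → (Fin n → ℂ) → ℂ, (∀ i, AnalyticAt ℂ (τ i) p) ∧
      ∀ i, ∀ᶠ x in 𝓝 p, σ i x = x j ^ k * τ i x
  have hP0 : P 0 := ⟨σ, hσ, fun i => Eventually.of_forall fun x => by simp⟩
  have hPN : ∀ k, P k → k ≤ N := fun k ⟨τ, h1, h2⟩ => hN k (τ i₀) (h1 i₀) (h2 i₀)
  have hk := Nat.findGreatest_spec (P := P) (n := N) (hPN 0 hP0) hP0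
  set k := Nat.findGreatest P N with hkdef
  obtain ⟨τ, h1, h2⟩ := hk
  refine ⟨k, τ, h1, h2, ?_⟩
  by_contra hcon
  push Not at hcon
  have h3 : ∀ i, ∃ g : (Fin n → ℂ) → ℂ, AnalyticAt ℂ g p ∧ ∀ᶠ x in 𝓝 p, τ i x = x j * g x :=
    fun i => div_coord j hp (h1 i) (hcon i)
  choose g hg1 hg2 using h3
  have h4 : P (k + 1) := ⟨g, hg1, fun i => by
    filter_upwards [h2 i, hg2 i] with x h5 h6
    rw [h5, h6]; ring⟩
  have h5 := Nat.le_findGreatest (hPN _ h4) h4
  omega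

end Pool.Agent.KO.C
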