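import Pool.Agent.KO.Key.Val

/-!
# Project KO, block E: fields of fractions, the valuation of a prime and derivations
-/

set_option autoImplicit false

namespace Pool.Agent.KO.Ger

section frac

variable {R K : Type} [CommRing R] [IsDomain R] [Field K] [Algebra R K] [IsFractionRing R K]

omit [IsDomain R] in
theorem am_ne {a : R} (ha : a ≠ 0) : algebraMap R K a ≠ 0 := by
  intro h
  rw [← map_zero (algebraMap R K)] at h
  exact ha (IsFractionRing.injective R K h)

/-- Every element is a quotient. -/
theorem exists_div_rep (x : K) : ∃ a b : R, b ≠ 0 ∧ algebraMap R K a / algebraMap R K b = x := by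
  obtain ⟨a, b, hb, h⟩ := IsFractionRing.div_surjective (A := R) x
  exact ⟨a, b, nonZeroDivisors.ne_zero hb, h⟩

theorem exists_div_rep' {x : K} (hx : x ≠ 0) :
    ∃ a b : R, a ≠ 0 ∧ b ≠ 0 ∧ algebraMap R K a / algebraMap R K b = x := by
  obtain ⟨a, b, hb, h⟩ := exists_div_rep (R := R) x
  refine ⟨a, b, ?_, hb, h⟩
  rintro rfl
  apply hx
  rw [← h, map_zero, zero_div]

omit [IsDomain R] in
theorem eq_cross {a b c d : R} (hb : b ≠ 0) (hd : d ≠ 0)
    (h : algebraMap R K a / algebraMap R K b = algebraMap R K c / algebraMap R K d) :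
    a * d = c * b := by
  rw [div_eq_div_iff (am_ne hb) (am_ne hd), ← map_mul, ← map_mul] at h
  exact IsFractionRing.injective R K h

/-- The numerator. -/
noncomputable def nu (x : K) : R := (exists_div_rep (R := R) x).choose

/-- The denominator. -/
noncomputable def de (x : K) : R := (exists_div_rep (R := R) x).choose_spec.choose

theorem de_ne (x : K) : (de x : R) ≠ 0 :=
  (exists_div_rep (R := R) x).choose_spec.choose_spec.1

theorem nu_div_de (x : K) : algebraMap R K (nu x) / algebraMap R K (de x) = x :=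
  (exists_div_rep (R := R) x).choose_spec.choose_spec.2

/-- The quotient rule. -/
noncomputable def fd (d : R → R) (x : K) : K :=
  (algebraMap R K (d (nu x)) * algebraMap R K (de x) -
    algebraMap R K (nu x) * algebraMap R K (d (de x))) / algebraMap R K (de x) ^ 2

variable {d : R → R}

theorem fd_div (hmul : ∀ a b, d (a * b) = a * d b + b * d a) (a : R) {b : R} (hb : b ≠ 0) :
    fd d (algebraMap R K a / algebraMap R K b) = (algebraMap R K (d a) * algebraMap R K b -
      algebraMap R K a * algebraMap R K (d b)) / algebraMap R K b ^ 2 := by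
  set x : K := algebraMap R K a / algebraMap R K b with hx
  have h1 : (nu x : R) * b = a * de x := eq_cross (de_ne x) hb ((nu_div_de x).trans hx)
  have h2 : (nu x : R) * d b + b * d (nu x) = a * d (de x) + de x * d a := by
    rw [← hmul, ← hmul, h1]
  unfold fd
  rw [div_eq_div_iff (pow_ne_zero 2 (am_ne (de_ne x))) (pow_ne_zero 2 (am_ne hb))]
  have e1 := congrArg (algebraMap R K) h1
  have e2 := congrArg (algebraMap R K) h2
  simp only [map_mul, map_add] at e1 e2
  linear_combination (algebraMap R K b * algebraMap R K (de x)) * e2 -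
    (algebraMap R K (d b) * algebraMap R K (de x) + algebraMap R K b * algebraMap R K (d (de x))) * e1

theorem fd_am (hmul : ∀ a b, d (a * b) = a * d b + b * d a) (a : R) :
    fd d (algebraMap R K a) = algebraMap R K (d a) := by
  have h1 : d 1 = 0 := by
    have := hmul 1 1
    simp only [mul_one, one_mul] at this
    have h2 : d 1 + d 1 = d 1 + 0 := by rw [add_zero]; exact this.symm
    exact add_left_cancel h2
  have h2 : algebraMap R K a = algebraMap R K a / algebraMap R K 1 := by simp
  rw [h2, fd_div hmul a one_ne_zero, h1]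
  simp

theorem fd_add (hadd : ∀ a b, d (a + b) = d a + d b) (hmul : ∀ a b, d (a * b) = a * d b + b * d a)
    (x y : K) : fd d (x + y) = fd d x + fd d y := by
  obtain ⟨a, b, hb, rfl⟩ := exists_div_rep (R := R) x
  obtain ⟨a', b', hb', rfl⟩ := exists_div_rep (R := R) y
  have h1 := am_ne (K := K) hb
  have h2 := am_ne (K := K) hb'
  have h3 : algebraMap R K a / algebraMap R K b + algebraMap R K a' / algebraMap R K b' =
      algebraMap R K (a * b' + b * a') / algebraMap R K (b * b') := by
    rw [div_add_div _ _ h1 h2]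
    simp only [map_add, map_mul]
  rw [h3, fd_div hmul _ (mul_ne_zero hb hb'), fd_div hmul _ hb, fd_div hmul _ hb', hadd, hmul, hmul,
    hmul]
  simp only [map_mul, map_add]
  field_simp
  ring

theorem fd_mul (hmul : ∀ a b, d (a * b) = a * d b + b * d a) (x y : K) :
    fd d (x * y) = x * fd d y + y * fd d x := by
  obtain ⟨a, b, hb, rfl⟩ := exists_div_rep (R := R) x
  obtain ⟨a', b', hb', rfl⟩ := exists_div_rep (R := R) y
  have h1 := am_ne (K := K) hb
  have h2 := am_ne (K := K) hb'
  have h3 : algebraMap R K a / algebraMap R K b * (algebraMap R K a' / algebraMap R K b') =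
      algebraMap R K (a * a') / algebraMap R K (b * b') := by
    rw [div_mul_div_comm]
    simp only [map_mul]
  rw [h3, fd_div hmul _ (mul_ne_zero hb hb'), fd_div hmul _ hb, fd_div hmul _ hb', hmul, hmul]
  simp only [map_mul, map_add]
  field_simp
  ring

/-- The order at the prime `p`. -/
noncomputable def fv (p : R) (x : K) : ℤ :=
  open Classical in
  if x = 0 then 0 else (multiplicity p (nu x : R) : ℤ) - multiplicity p (de x : R)

variable {p : R}

theorem fv_zero : fv p (0 : K) = 0 := by simp [fv]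

theorem mult_mul (hp : Prime p) (hfin : ∀ a : R, a ≠ 0 → FiniteMultiplicity p a) {a b : R}
    (ha : a ≠ 0) (hb : b ≠ 0) :
    multiplicity p (a * b) = multiplicity p a + multiplicity p b :=
  multiplicity_mul hp (hfin _ (mul_ne_zero ha hb))

theorem fv_div (hp : Prime p) (hfin : ∀ a : R, a ≠ 0 → FiniteMultiplicity p a) {a b : R}
    (ha : a ≠ 0) (hb : b ≠ 0) :
    fv p (algebraMap R K a / algebraMap R K b) = (multiplicity p a : ℤ) - multiplicity p b := by
  set x : K := algebraMap R K a / algebraMap R K b with hx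
  have hx0 : x ≠ 0 := div_ne_zero (am_ne ha) (am_ne hb)
  have h1 : (nu x : R) * b = a * de x := eq_cross (de_ne x) hb ((nu_div_de x).trans hx)
  have h2 : (nu x : R) ≠ 0 := by
    intro h
    apply hx0
    rw [← nu_div_de (R := R) x, h, map_zero, zero_div]
  have h3 := congrArg (multiplicity p) h1
  rw [mult_mul hp hfin h2 hb, mult_mul hp hfin ha (de_ne x)] at h3
  unfold fv
  rw [if_neg hx0]
  omega

theorem fv_am (hp : Prime p) (hfin : ∀ a : R, a ≠ 0 → FiniteMultiplicity p a) {a : R}
    (ha : a ≠ 0) : fv p (algebraMap R K a) = (multiplicity p a : ℤ) := by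
  have h2 : algebraMap R K a = algebraMap R K a / algebraMap R K 1 := by simp
  have h3 : multiplicity p (1 : R) = 0 := by
    rw [multiplicity_eq_zero]
    exact hp.not_dvd_one
  rw [h2, fv_div hp hfin ha one_ne_zero, h3]
  simp

theorem fv_mul (hp : Prime p) (hfin : ∀ a : R, a ≠ 0 → FiniteMultiplicity p a) {x y : K}
    (hx : x ≠ 0) (hy : y ≠ 0) : fv p (x * y) = fv p x + fv p y := by
  obtain ⟨a, b, ha, hb, rfl⟩ := exists_div_rep' (R := R) hx
  obtain ⟨a', b', ha', hb', rfl⟩ := exists_div_rep' (R := R) hy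
  have h3 : algebraMap R K a / algebraMap R K b * (algebraMap R K a' / algebraMap R K b') =
      algebraMap R K (a * a') / algebraMap R K (b * b') := by
    rw [div_mul_div_comm]
    simp only [map_mul]
  rw [h3, fv_div hp hfin (mul_ne_zero ha ha') (mul_ne_zero hb hb'), fv_div hp hfin ha hb,
    fv_div hp hfin ha' hb', mult_mul hp hfin ha ha', mult_mul hp hfin hb hb']
  push_cast
  ring

/-- The elements of order at least `n`. -/
theorem le_fv_iff (hp : Prime p) (hfin : ∀ a : R, a ≠ 0 → FiniteMultiplicity p a) {a b : R}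
    (ha : a ≠ 0) (hb : b ≠ 0) (hpb : ¬ p ∣ b) (n : ℕ) :
    (n : ℤ) ≤ fv p (algebraMap R K a / algebraMap R K b) ↔ p ^ n ∣ a := by
  have h3 : multiplicity p b = 0 := by
    rw [multiplicity_eq_zero]
    exact hpb
  rw [fv_div hp hfin ha hb, h3, (hfin a ha).pow_dvd_iff_le_multiplicity]
  omega

/-- A common form of the elements: `p ^ n * (a / b)` with `a`, `b` prime to `p`. -/
theorem exists_form (hp : Prime p) (hfin : ∀ a : R, a ≠ 0 → FiniteMultiplicity p a) {x : K}
    (hx : x ≠ 0) : ∃ a b : R, ¬ p ∣ a ∧ ¬ p ∣ b ∧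
      x = algebraMap R K p ^ fv p x * (algebraMap R K a / algebraMap R K b) := by
  obtain ⟨a, b, ha, hb, rfl⟩ := exists_div_rep' (R := R) hx
  obtain ⟨a', ha', hpa⟩ := (hfin a ha).exists_eq_pow_mul_and_not_dvd
  obtain ⟨b', hb', hpb⟩ := (hfin b hb).exists_eq_pow_mul_and_not_dvd
  refine ⟨a', b', hpa, hpb, ?_⟩
  rw [fv_div hp hfin ha hb]
  have hp0 : algebraMap R K p ≠ 0 := am_ne hp.ne_zero
  have hb'0 : b' ≠ 0 := by
    rintro rfl
    exact hpb (dvd_zero _)
  rw [zpow_sub₀ hp0, zpow_natCast, zpow_natCast]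
  conv_lhs => rw [ha', hb']
  simp only [map_mul, map_pow]
  have := am_ne (K := K) hb'0
  field_simp

theorem fv_add (hp : Prime p) (hfin : ∀ a : R, a ≠ 0 → FiniteMultiplicity p a) {x y : K}
    (hx : x ≠ 0) (hy : y ≠ 0) (hxy : x + y ≠ 0) : min (fv p x) (fv p y) ≤ fv p (x + y) := by
  obtain ⟨a, b, ha, hb, rfl⟩ := exists_div_rep' (R := R) hx
  obtain ⟨a', b', ha', hb', rfl⟩ := exists_div_rep' (R := R) hy
  have h1 := am_ne (K := K) hb
  have h2 := am_ne (K := K) hb'
  have h3 : algebraMap R K a / algebraMap R K b + algebraMap R K a' / algebraMap R K b' =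
      algebraMap R K (a * b' + b * a') / algebraMap R K (b * b') := by
    rw [div_add_div _ _ h1 h2]
    simp only [map_add, map_mul]
  have h4 : a * b' + b * a' ≠ 0 := by
    intro h
    apply hxy
    rw [h3, h, map_zero, zero_div]
  rw [h3, fv_div hp hfin h4 (mul_ne_zero hb hb'), fv_div hp hfin ha hb, fv_div hp hfin ha' hb',
    mult_mul hp hfin hb hb']
  have h5 : min (multiplicity p (a * b')) (multiplicity p (b * a')) ≤
      multiplicity p (a * b' + b * a') := by
    rw [← (hfin _ h4).pow_dvd_iff_le_multiplicity]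
    exact dvd_add ((pow_dvd_pow _ (min_le_left _ _)).trans (pow_multiplicity_dvd _ _))
      ((pow_dvd_pow _ (min_le_right _ _)).trans (pow_multiplicity_dvd _ _))
  rw [mult_mul hp hfin ha hb', mult_mul hp hfin hb ha'] at h5
  omega

theorem fv_ge_add (hp : Prime p) (hfin : ∀ a : R, a ≠ 0 → FiniteMultiplicity p a) {x y : K}
    {c : ℤ} (hx : x = 0 ∨ c ≤ fv p x) (hy : y = 0 ∨ c ≤ fv p y) :
    x + y = 0 ∨ c ≤ fv p (x + y) := by
  by_cases h1 : x = 0
  · subst h1; simpa using hy
  by_cases h2 : y = 0
  · subst h2; simpa using hx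
  by_cases h3 : x + y = 0
  · exact Or.inl h3
  · exact Or.inr (le_trans (le_min (hx.resolve_left h1) (hy.resolve_left h2))
      (fv_add hp hfin h1 h2 h3))

theorem fv_ge_mul (hp : Prime p) (hfin : ∀ a : R, a ≠ 0 → FiniteMultiplicity p a) {x y : K}
    {c c' : ℤ} (hx : x = 0 ∨ c ≤ fv p x) (hy : y = 0 ∨ c' ≤ fv p y) :
    x * y = 0 ∨ c + c' ≤ fv p (x * y) := by
  by_cases h1 : x = 0
  · left; simp [h1]
  by_cases h2 : y = 0
  · left; simp [h2]
  right
  rw [fv_mul hp hfin h1 h2]
  exact add_le_add (hx.resolve_left h1) (hy.resolve_left h2)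

theorem fv_ge_am (hp : Prime p) (hfin : ∀ a : R, a ≠ 0 → FiniteMultiplicity p a) {a : R} {n : ℕ}
    (h : p ^ n ∣ a) : algebraMap R K a = 0 ∨ (n : ℤ) ≤ fv p (algebraMap R K a) := by
  by_cases ha : a = 0
  · left; rw [ha, map_zero]
  · right
    rw [fv_am hp hfin ha]
    exact_mod_cast (hfin a ha).le_multiplicity_of_pow_dvd h

theorem dvd_of_fv (hp : Prime p) (hfin : ∀ a : R, a ≠ 0 → FiniteMultiplicity p a) {a : R} {n : ℕ}
    (h : algebraMap R K a = 0 ∨ (n : ℤ) ≤ fv p (algebraMap R K a)) : p ^ n ∣ a := by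
  rcases h with h | h
  · have : a = 0 := by
      by_contra ha
      exact am_ne ha h
    rw [this]; exact dvd_zero _
  · by_cases ha : a = 0
    · rw [ha]; exact dvd_zero _
    · rw [fv_am hp hfin ha] at h
      rw [(hfin a ha).pow_dvd_iff_le_multiplicity]
      exact_mod_cast h

end frac

/-- The data: a domain with a prime element of finite multiplicity, three derivations. -/
structure Dat (R : Type) [CommRing R] (p : R) where
  prime : Prime p
  fin : ∀ a : R, a ≠ 0 → FiniteMultiplicity p a
  d : Fin 3 → R → R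
  add : ∀ i a b, d i (a + b) = d i a + d i b
  mul : ∀ i a b, d i (a * b) = a * d i b + b * d i a
  d0 : d 0 p = 0
  d1 : d 1 p = 0
  d2 : d 2 p = p
  dvd2 : ∀ a, p ∣ d 2 a

namespace Dat

variable {R : Type} [CommRing R] {p : R} (D : Dat R p)

theorem one (i : Fin 3) : D.d i 1 = 0 := by
  have := D.mul i 1 1
  simp only [mul_one, one_mul] at this
  have h2 : D.d i 1 + D.d i 1 = D.d i 1 + 0 := by rw [add_zero]; exact this.symm
  exact add_left_cancel h2

/-- `ε = 0, 0, 1` -/
theorem d_p (i : Fin 3) : D.d i p = (if i = 2 then 1 else 0) * p := by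
  fin_cases i
  · simpa using D.d0
  · simpa using D.d1
  · simpa using D.d2

theorem d_pow (i : Fin 3) (n : ℕ) : D.d i (p ^ n) = n * ((if i = 2 then 1 else 0) * p ^ n) := by
  induction n with
  | zero => simp [D.one]
  | succ n ih =>
    rw [pow_succ, D.mul, ih, D.d_p]
    push_cast
    ring

theorem d_pow_mul (i : Fin 3) (n : ℕ) (h : R) : D.d i (p ^ n * h) =
    p ^ n * (D.d i h) + n * (if i = 2 then 1 else 0) * (p ^ n * h) := by
  rw [D.mul, D.d_pow]
  ring

theorem dvd (i : Fin 3) {n : ℕ} {a : R} (h : p ^ n ∣ a) : p ^ n ∣ D.d i a := by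
  obtain ⟨b, rfl⟩ := h
  rw [D.d_pow_mul]
  exact dvd_add (dvd_mul_right _ _) ((dvd_mul_right _ _).mul_left _)

theorem dvd_log {n : ℕ} {a : R} (h : p ^ n ∣ a) : p ^ (n + 1) ∣ D.d 2 a - n * a := by
  obtain ⟨b, rfl⟩ := h
  rw [D.d_pow_mul]
  simp only [if_true, mul_one, add_sub_cancel_right]
  rw [pow_succ]
  exact mul_dvd_mul_left _ (D.dvd2 b)

variable [IsDomain R] {K : Type} [Field K] [Algebra R K] [IsFractionRing R K] {k : Type} [Field k]
  [Algebra k K]

/-- The derivation of the field. -/
noncomputable def der (hc : ∀ (i : Fin 3) (c : k), fd (D.d i) (algebraMap k K c) = 0)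
    (i : Fin 3) : Derivation k K K :=
  Derivation.mk'
    { toFun := fd (D.d i)
      map_add' := fd_add (D.add i) (D.mul i)
      map_smul' := fun c x => by
        rw [Algebra.smul_def, fd_mul (D.mul i), hc, mul_zero, add_zero, RingHom.id_apply,
          Algebra.smul_def] }
    (fun a b => by
      simp only [LinearMap.coe_mk, AddHom.coe_mk, smul_eq_mul]
      exact fd_mul (D.mul i) a b)

theorem der_apply (hc : ∀ (i : Fin 3) (c : k), fd (D.d i) (algebraMap k K c) = 0) (i : Fin 3)
    (x : K) : D.der hc i x = fd (D.d i) x := rfl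

/-- The logarithmic valuation. -/
noncomputable def logVal (hc : ∀ (i : Fin 3) (c : k), fd (D.d i) (algebraMap k K c) = 0)
    (hv : ∀ c : k, c ≠ 0 → fv p (algebraMap k K c) = 0) : LogVal k K where
  v := fv p
  zero := fv_zero
  mul x y hx hy := fv_mul D.prime D.fin hx hy
  add x y hx hy hxy := fv_add D.prime D.fin hx hy hxy
  const := hv
  δ := D.der hc
  log := by
    intro i x hx hdx
    rw [D.der_apply] at hdx ⊢
    obtain ⟨a, b, ha, hb, rfl⟩ := exists_div_rep' (R := R) hx
    have h1 : fv p (algebraMap R K a / algebraMap R K b) =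
      (multiplicity p a : ℤ) - multiplicity p b := fv_div D.prime D.fin ha hb
    set α := multiplicity p a
    set β := multiplicity p b
    have hbb : fv p ((algebraMap R K b ^ 2)⁻¹) = -(2 * (β : ℤ)) := by
      have h2 : (algebraMap R K b ^ 2)⁻¹ = algebraMap R K 1 / algebraMap R K (b * b) := by
        simp [pow_two]
      have h3 : multiplicity p (1 : R) = 0 := by
        rw [multiplicity_eq_zero]
        exact D.prime.not_dvd_one
      rw [h2, fv_div D.prime D.fin one_ne_zero (mul_ne_zero hb hb), h3,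
        mult_mul D.prime D.fin hb hb]
      push_cast
      ring
    have h2 : algebraMap R K (D.d i a * b - a * D.d i b) = 0 ∨ ((α + β : ℕ) : ℤ) ≤
        fv p (algebraMap R K (D.d i a * b - a * D.d i b)) := by
      apply fv_ge_am D.prime D.fin
      rw [pow_add]
      exact dvd_sub (mul_dvd_mul (D.dvd i (pow_multiplicity_dvd _ _)) (pow_multiplicity_dvd _ _))
        (mul_dvd_mul (pow_multiplicity_dvd _ _) (D.dvd i (pow_multiplicity_dvd _ _)))
    have h3 := fv_ge_mul (K := K) D.prime D.fin h2 (Or.inr hbb.ge)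
    rw [fd_div (D.mul i) a hb] at hdx ⊢
    have h4 : (algebraMap R K (D.d i a) * algebraMap R K b -
        algebraMap R K a * algebraMap R K (D.d i b)) / algebraMap R K b ^ 2 =
        algebraMap R K (D.d i a * b - a * D.d i b) * (algebraMap R K b ^ 2)⁻¹ := by
      rw [div_eq_mul_inv]
      simp only [map_sub, map_mul]
    rw [h4] at hdx ⊢
    have h5 := h3.resolve_left hdx
    rw [h1, Nat.cast_add] at *
    linarith
  log1 := by
    intro x hx
    rw [D.der_apply]
    obtain ⟨a, b, ha, hb, rfl⟩ := exists_div_rep' (R := R) hx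
    have h1 : fv p (algebraMap R K a / algebraMap R K b) =
      (multiplicity p a : ℤ) - multiplicity p b := fv_div D.prime D.fin ha hb
    have h0b := am_ne (K := K) hb
    set α := multiplicity p a with hα
    set β := multiplicity p b with hβ
    have hbb : fv p ((algebraMap R K b ^ 2)⁻¹) = -(2 * (β : ℤ)) := by
      have h2 : (algebraMap R K b ^ 2)⁻¹ = algebraMap R K 1 / algebraMap R K (b * b) := by
        simp [pow_two]
      have h3 : multiplicity p (1 : R) = 0 := by
        rw [multiplicity_eq_zero]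
        exact D.prime.not_dvd_one
      rw [h2, fv_div D.prime D.fin one_ne_zero (mul_ne_zero hb hb), h3,
        mult_mul D.prime D.fin hb hb]
      push_cast
      ring
    have h2 : algebraMap R K ((D.d 2 a - α * a) * b - a * (D.d 2 b - β * b)) = 0 ∨
        ((α + 1 + β : ℕ) : ℤ) ≤
        fv p (algebraMap R K ((D.d 2 a - α * a) * b - a * (D.d 2 b - β * b))) := by
      apply fv_ge_am D.prime D.fin
      refine dvd_sub ?_ ?_
      · rw [pow_add]
        exact mul_dvd_mul (D.dvd_log (pow_multiplicity_dvd _ _)) (pow_multiplicity_dvd _ _)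
      · rw [add_assoc, pow_add, add_comm 1 β]
        exact mul_dvd_mul (pow_multiplicity_dvd _ _) (D.dvd_log (pow_multiplicity_dvd _ _))
    have h3 := fv_ge_mul (K := K) D.prime D.fin h2 (Or.inr hbb.ge)
    have h4 : fd (D.d 2) (algebraMap R K a / algebraMap R K b) -
        ((fv p (algebraMap R K a / algebraMap R K b) : ℤ) : K) *
          (algebraMap R K a / algebraMap R K b) =
        algebraMap R K ((D.d 2 a - α * a) * b - a * (D.d 2 b - β * b)) *
          (algebraMap R K b ^ 2)⁻¹ := by
      rw [fd_div (D.mul 2) a hb, h1]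
      simp only [map_sub, map_mul, map_natCast]
      push_cast
      field_simp
      ring
    rw [h4, h1]
    rcases h3 with h3 | h3
    · exact Or.inl h3
    · right
      rw [Nat.cast_add, Nat.cast_add, Nat.cast_one] at h3
      linarith

end Dat

end Pool.Agent.KO.Ger
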