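import Pool.Agent.KO.E.GerA
import Pool.Agent.KO.E.Frac
import Pool.Agent.KO.E.Div

/-!
# Project KO, block E: the logarithmic valuation of the field of germs
-/

set_option autoImplicit false

namespace Pool.Agent.KO.Ger

open Set Filter Topology

/-- The coordinate `x 3` as a germ. -/
noncomputable def X3 : AnG := ofAn (fun x => x 3) (C.coord_analytic 3 0)

theorem ofAn_pow (n : ℕ) {F : (Fin 4 → ℂ) → ℂ} (hF : AnalyticAt ℂ F 0) :
    ofAn (fun x => F x ^ n) (hF.pow n) = ofAn F hF ^ n := rfl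

theorem X3_pow_dvd (n : ℕ) {F : (Fin 4 → ℂ) → ℂ} {hF : AnalyticAt ℂ F 0} :
    X3 ^ n ∣ ofAn F hF ↔ ∃ g : (Fin 4 → ℂ) → ℂ, AnalyticAt ℂ g 0 ∧
      ∀ᶠ x in 𝓝 0, F x = x 3 ^ n * g x := by
  constructor
  · rintro ⟨b, hb⟩
    obtain ⟨g, hg, rfl⟩ := exists_ofAn b
    refine ⟨g, hg, ?_⟩
    rw [X3, ← ofAn_pow, ← ofAn_mul, ofAn_eq] at hb
    exact hb
  · rintro ⟨g, hg, h⟩
    refine ⟨ofAn g hg, ?_⟩
    rw [X3, ← ofAn_pow, ← ofAn_mul, ofAn_eq]
    exact h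

theorem X3_dvd {F : (Fin 4 → ℂ) → ℂ} {hF : AnalyticAt ℂ F 0} :
    X3 ∣ ofAn F hF ↔ ∀ᶠ x in 𝓝 (0 : Fin 4 → ℂ), x 3 = 0 → F x = 0 := by
  have h1 := X3_pow_dvd 1 (hF := hF)
  rw [pow_one] at h1
  rw [h1]
  constructor
  · rintro ⟨g, -, h⟩
    filter_upwards [h] with x hx h0
    rw [hx, h0]; ring
  · intro h
    obtain ⟨g, hg, h2⟩ := C.div_coord 3 rfl hF h
    exact ⟨g, hg, h2.mono fun x hx => by rw [hx, pow_one]⟩

/-- The projection to the hyperplane. -/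
noncomputable def pr3 (x : Fin 4 → ℂ) : Fin 4 → ℂ := x - Pi.single 3 (x 3)

theorem pr3_an (p : Fin 4 → ℂ) : AnalyticAt ℂ pr3 p := by
  unfold pr3
  refine analyticAt_id.sub ?_
  exact ((ContinuousLinearMap.single ℂ (fun _ : Fin 4 => ℂ) 3).comp
    (ContinuousLinearMap.proj (R := ℂ) (φ := fun _ : Fin 4 => ℂ) 3)).analyticAt p

theorem pr3_zero : pr3 0 = 0 := by simp [pr3]

theorem pr3_three (x : Fin 4 → ℂ) : pr3 x 3 = 0 := by simp [pr3]

theorem pr3_of {x : Fin 4 → ℂ} (h : x 3 = 0) : pr3 x = x := by simp [pr3, h]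

theorem pr3_tendsto : Tendsto pr3 (𝓝 0) (𝓝 0) := by
  have := (pr3_an 0).continuousAt.tendsto
  rwa [pr3_zero] at this

theorem X3_prime : Prime X3 := by
  refine ⟨?_, ?_, ?_⟩
  · intro h
    rw [X3, ofAn_zero] at h
    exact C.coord_not 3 0 h
  · intro h
    obtain ⟨b, hb⟩ := h.exists_right_inv
    obtain ⟨g, hg, rfl⟩ := exists_ofAn b
    have h1 : ofAn (fun x => x 3 * g x) ((C.coord_analytic 3 0).mul hg) =
      ofAn (fun _ => 1) analyticAt_const := hb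
    rw [ofAn_eq] at h1
    have h2 := h1.self_of_nhds
    simp at h2
  · intro a b h
    obtain ⟨F, hF, rfl⟩ := exists_ofAn a
    obtain ⟨G, hG, rfl⟩ := exists_ofAn b
    rw [← ofAn_mul, X3_dvd] at h
    have hF' : AnalyticAt ℂ (fun x => F (pr3 x)) 0 :=
      AnalyticAt.fun_comp (g := F) (by rw [pr3_zero]; exact hF) (pr3_an 0)
    have hG' : AnalyticAt ℂ (fun x => G (pr3 x)) 0 :=
      AnalyticAt.fun_comp (g := G) (by rw [pr3_zero]; exact hG) (pr3_an 0)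
    have h1 : ∀ᶠ x in 𝓝 (0 : Fin 4 → ℂ), F (pr3 x) * G (pr3 x) = 0 := by
      filter_upwards [pr3_tendsto.eventually h] with x hx
      exact hx (pr3_three x)
    rcases C.germ_mul hF' hG' h1 with h2 | h2
    · left
      rw [X3_dvd]
      filter_upwards [h2] with x hx h0
      rwa [pr3_of h0] at hx
    · right
      rw [X3_dvd]
      filter_upwards [h2] with x hx h0
      rwa [pr3_of h0] at hx

theorem X3_fin (a : AnG) (ha : a ≠ 0) : FiniteMultiplicity X3 a := by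
  obtain ⟨F, hF, rfl⟩ := exists_ofAn a
  have hne : ¬ ∀ᶠ x in 𝓝 (0 : Fin 4 → ℂ), F x = 0 := fun h => ha (ofAn_zero.2 h)
  obtain ⟨N, hN⟩ := C.order_bound 3 rfl hF hne
  refine ⟨N, fun h => ?_⟩
  obtain ⟨g, hg, h2⟩ := (X3_pow_dvd (N + 1)).1 h
  have := hN (N + 1) g hg h2
  omega

/-- The partial derivative of a germ. -/
noncomputable def pG (k : Fin 4) (a : AnG) : AnG :=
  ofAn (pd k (exists_ofAn a).choose) (pd_an (exists_ofAn a).choose_spec.choose)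

theorem pd_congr (k : Fin 4) {F G : (Fin 4 → ℂ) → ℂ} {p : Fin 4 → ℂ} (h : F =ᶠ[𝓝 p] G) :
    pd k F =ᶠ[𝓝 p] pd k G := by
  filter_upwards [h.fderiv (𝕜 := ℂ)] with x hx
  show fderiv ℂ F x _ = fderiv ℂ G x _
  rw [hx]

theorem pG_ofAn (k : Fin 4) (F : (Fin 4 → ℂ) → ℂ) (hF : AnalyticAt ℂ F 0) :
    pG k (ofAn F hF) = ofAn (pd k F) (pd_an hF) := by
  rw [pG, ofAn_eq]
  apply pd_congr
  have h := (exists_ofAn (ofAn F hF)).choose_spec.choose_spec
  rw [ofAn_eq] at h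
  exact h.symm

theorem pd_add (k : Fin 4) {F G : (Fin 4 → ℂ) → ℂ} {x : Fin 4 → ℂ} (hF : AnalyticAt ℂ F x)
    (hG : AnalyticAt ℂ G x) : pd k (fun x => F x + G x) x = pd k F x + pd k G x := by
  show fderiv ℂ (fun x => F x + G x) x _ = _
  rw [fderiv_fun_add hF.differentiableAt hG.differentiableAt]
  rfl

theorem pd_mul (k : Fin 4) {F G : (Fin 4 → ℂ) → ℂ} {x : Fin 4 → ℂ} (hF : AnalyticAt ℂ F x)
    (hG : AnalyticAt ℂ G x) :
    pd k (fun x => F x * G x) x = F x * pd k G x + G x * pd k F x := by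
  show fderiv ℂ (fun x => F x * G x) x _ = _
  rw [fderiv_fun_mul hF.differentiableAt hG.differentiableAt]
  rfl

theorem pG_add (k : Fin 4) (a b : AnG) : pG k (a + b) = pG k a + pG k b := by
  obtain ⟨F, hF, rfl⟩ := exists_ofAn a
  obtain ⟨G, hG, rfl⟩ := exists_ofAn b
  rw [← ofAn_add, pG_ofAn, pG_ofAn, pG_ofAn, ← ofAn_add, ofAn_eq]
  filter_upwards [hF.eventually_analyticAt, hG.eventually_analyticAt] with x h1 h2
  exact pd_add k h1 h2

theorem pG_mul (k : Fin 4) (a b : AnG) : pG k (a * b) = a * pG k b + b * pG k a := by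
  obtain ⟨F, hF, rfl⟩ := exists_ofAn a
  obtain ⟨G, hG, rfl⟩ := exists_ofAn b
  rw [← ofAn_mul, pG_ofAn, pG_ofAn, pG_ofAn, ← ofAn_mul, ← ofAn_mul, ← ofAn_add, ofAn_eq]
  filter_upwards [hF.eventually_analyticAt, hG.eventually_analyticAt] with x h1 h2
  exact pd_mul k h1 h2

theorem pd_coord (k : Fin 4) (x : Fin 4 → ℂ) :
    pd k (fun x => x 3) x = (Pi.single k 1 : Fin 4 → ℂ) 3 := by
  show fderiv ℂ (fun x : Fin 4 → ℂ => x 3) x (Pi.single k 1) = _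
  have h1 : HasFDerivAt (fun x : Fin 4 → ℂ => x 3)
      (ContinuousLinearMap.proj (R := ℂ) (φ := fun _ : Fin 4 => ℂ) 3) x :=
    (ContinuousLinearMap.proj (R := ℂ) (φ := fun _ : Fin 4 => ℂ) 3).hasFDerivAt
  rw [h1.fderiv]
  rfl

theorem pG_X3_ne {k : Fin 4} (hk : k ≠ 3) : pG k X3 = 0 := by
  rw [X3, pG_ofAn, ofAn_zero]
  filter_upwards with x
  rw [pd_coord, Pi.single_eq_of_ne hk.symm]

theorem pG_X3 : pG 3 X3 = 1 := by
  rw [X3, pG_ofAn]
  show _ = ofAn (fun _ => 1) analyticAt_const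
  rw [ofAn_eq]
  filter_upwards with x
  rw [pd_coord, Pi.single_eq_same]

/-- The data of the ring of germs. -/
noncomputable def dat : Dat AnG X3 where
  prime := X3_prime
  fin := X3_fin
  d := ![pG 0, pG 1, fun a => X3 * pG 3 a]
  add i a b := by
    fin_cases i
    · exact pG_add 0 a b
    · exact pG_add 1 a b
    · show X3 * pG 3 (a + b) = X3 * pG 3 a + X3 * pG 3 b
      rw [pG_add]; ring
  mul i a b := by
    fin_cases i
    · exact pG_mul 0 a b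
    · exact pG_mul 1 a b
    · show X3 * pG 3 (a * b) = a * (X3 * pG 3 b) + b * (X3 * pG 3 a)
      rw [pG_mul]; ring
  d0 := pG_X3_ne (by decide)
  d1 := pG_X3_ne (by decide)
  d2 := by
    show X3 * pG 3 X3 = X3
    rw [pG_X3, mul_one]
  dvd2 a := ⟨pG 3 a, rfl⟩

section field

variable {r : ℝ} (t0 : Metric.ball (0 : ℂ) r)

noncomputable instance : Algebra AnG (GE t0) := inferInstanceAs (Algebra AnG GF)

instance : IsFractionRing AnG (GE t0) := inferInstanceAs (IsFractionRing AnG GF)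

theorem toGE_eq (a : AnG) : toGE t0 a = algebraMap AnG (GE t0) a := rfl

variable {t0}

theorem pG_embA {k : Fin 4} (hk : k ≠ 2) (f : AnR r) : pG k (embA t0 f) = 0 := by
  show pG k (ofAn (fun x => fe f (t0 + x 2)) (embA_an t0 f)) = 0
  rw [pG_ofAn, ofAn_zero]
  filter_upwards [ev_t0 t0] with x hx
  show fderiv ℂ (fun x : Fin 4 → ℂ => fe f (t0 + x 2)) x (Pi.single k 1) = 0
  have h1 : HasFDerivAt (fun x : Fin 4 → ℂ => (t0 : ℂ) + x 2)
      (ContinuousLinearMap.proj (R := ℂ) (φ := fun _ : Fin 4 => ℂ) 2) x :=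
    (ContinuousLinearMap.proj (R := ℂ) (φ := fun _ : Fin 4 => ℂ) 2).hasFDerivAt.const_add _
  have h2 := (fe_an f _ hx).differentiableAt.hasFDerivAt
  have h3 := HasFDerivAt.comp x h2 h1
  have h4 : fderiv ℂ (fun x : Fin 4 → ℂ => fe f (t0 + x 2)) x = _ := h3.fderiv
  rw [h4]
  show fderiv ℂ (fe f) (t0 + x 2) ((Pi.single k 1 : Fin 4 → ℂ) 2) = 0
  rw [Pi.single_eq_of_ne hk.symm, map_zero]

theorem d_embA (i : Fin 3) (f : AnR r) : dat.d i (embA t0 f) = 0 := by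
  fin_cases i
  · exact pG_embA (by decide) f
  · exact pG_embA (by decide) f
  · show X3 * pG 3 (embA t0 f) = 0
    rw [pG_embA (by decide), mul_zero]

theorem not_dvd_embA {f : AnR r} (hf : f ≠ 0) : ¬ X3 ∣ embA t0 f := by
  intro h
  have h1 : X3 ∣ ofAn (fun x => fe f (t0 + x 2)) (embA_an t0 f) := h
  rw [X3_dvd] at h1
  have h2 : ∀ᶠ s in 𝓝 (t0 : ℂ), fe f s = 0 := by
    have hc : Tendsto (fun s : ℂ => (Pi.single (2 : Fin 4) (s - t0) : Fin 4 → ℂ)) (𝓝 (t0 : ℂ))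
        (𝓝 0) := by
      have : Continuous fun s : ℂ => (Pi.single (2 : Fin 4) (s - t0) : Fin 4 → ℂ) :=
        (continuous_single (A := fun _ : Fin 4 => ℂ) 2).comp (continuous_id.sub continuous_const)
      have h3 := this.tendsto (t0 : ℂ)
      simpa using h3
    filter_upwards [hc.eventually h1] with s hs
    have h4 := hs (by simp)
    simpa using h4
  have h3 := (fe_an f).eqOn_zero_of_preconnected_of_eventuallyEq_zero
    (convex_ball (0 : ℂ) r).isPreconnected t0.2 h2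
  exact hf (anR_zero.2 fun s => (fe_eq f s).trans (h3 s.2))

variable [Fact (0 < r)]

theorem algMap_div (f g : AnR r) : algebraMap (Kr r) (GE t0)
    (algebraMap (AnR r) (Kr r) f / algebraMap (AnR r) (Kr r) g) =
    algebraMap AnG (GE t0) (embA t0 f) / algebraMap AnG (GE t0) (embA t0 g) := by
  rw [map_div₀, algMap_GE, algMap_GE]
  rfl

theorem fd_const (i : Fin 3) (c : Kr r) : fd (dat.d i) (algebraMap (Kr r) (GE t0) c) = 0 := by
  obtain ⟨f, g, hg, rfl⟩ := IsFractionRing.div_surjective (A := AnR r) c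
  have hg0 : g ≠ 0 := nonZeroDivisors.ne_zero hg
  have hG : embA t0 g ≠ 0 := fun h => hg0 (embA_inj t0 (h.trans (map_zero _).symm))
  rw [algMap_div, fd_div (dat.mul i) _ hG, d_embA, d_embA]
  simp

theorem fv_const (c : Kr r) (hc : c ≠ 0) : fv X3 (algebraMap (Kr r) (GE t0) c) = 0 := by
  obtain ⟨f, g, hg, rfl⟩ := IsFractionRing.div_surjective (A := AnR r) c
  have hg0 : g ≠ 0 := nonZeroDivisors.ne_zero hg
  have hf0 : f ≠ 0 := by
    rintro rfl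
    apply hc
    rw [map_zero, zero_div]
  have hG : embA t0 g ≠ 0 := fun h => hg0 (embA_inj t0 (h.trans (map_zero _).symm))
  have hF : embA t0 f ≠ 0 := fun h => hf0 (embA_inj t0 (h.trans (map_zero _).symm))
  rw [algMap_div, fv_div X3_prime X3_fin hF hG, multiplicity_eq_zero.2 (not_dvd_embA hf0),
    multiplicity_eq_zero.2 (not_dvd_embA hg0)]
  simp

end field

end Pool.Agent.KO.Ger

namespace Pool.Agent.KO

open Set Filter Topology Ger

section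

variable (r : ℝ) [Fact (0 < r)] (t0 : Metric.ball (0 : ℂ) r)

/-- The order along `x 3 = 0` and the derivations `∂ 0`, `∂ 1`, `x 3 * ∂ 3`. -/
noncomputable def germLV : LogVal (Kr r) (GE t0) :=
  dat.logVal (fun i c => fd_const i c) (fun c hc => fv_const c hc)

variable {r t0}

theorem germLV_v_def (e : GE t0) : (germLV r t0).v e = fv X3 e := rfl

theorem germLV_d_ofAn (i : Fin 3) (a : AnG) :
    (germLV r t0).δ i (toGE t0 a) = toGE t0 (dat.d i a) := by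
  show fd (dat.d i) (algebraMap AnG (GE t0) a) = algebraMap AnG (GE t0) (dat.d i a)
  exact fd_am (dat.mul i) a

theorem germLV_δ0 (F : (Fin 4 → ℂ) → ℂ) (hF : AnalyticAt ℂ F 0) :
    (germLV r t0).δ 0 (toGE t0 (ofAn F hF)) = toGE t0 (ofAn (pd 0 F) (pd_an hF)) := by
  rw [germLV_d_ofAn]
  exact congrArg _ (pG_ofAn 0 F hF)

theorem germLV_δ1 (F : (Fin 4 → ℂ) → ℂ) (hF : AnalyticAt ℂ F 0) :
    (germLV r t0).δ 1 (toGE t0 (ofAn F hF)) = toGE t0 (ofAn (pd 1 F) (pd_an hF)) := by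
  rw [germLV_d_ofAn]
  exact congrArg _ (pG_ofAn 1 F hF)

theorem germLV_δ2 (F : (Fin 4 → ℂ) → ℂ) (hF : AnalyticAt ℂ F 0) :
    (germLV r t0).δ 2 (toGE t0 (ofAn F hF)) =
      toGE t0 (ofAn (fun x => x 3 * pd 3 F x) ((C.coord_analytic 3 0).mul (pd_an hF))) := by
  rw [germLV_d_ofAn]
  show toGE t0 (X3 * pG 3 (ofAn F hF)) = _
  rw [pG_ofAn, X3, ← ofAn_mul]

/-- The order of an analytic function. -/
theorem germLV_v {F g : (Fin 4 → ℂ) → ℂ} (hF : AnalyticAt ℂ F 0) (hg : AnalyticAt ℂ g 0) {n : ℕ}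
    (h : ∀ᶠ x in 𝓝 (0 : Fin 4 → ℂ), F x = x 3 ^ n * g x)
    (hne : ¬ ∀ᶠ x in 𝓝 (0 : Fin 4 → ℂ), x 3 = 0 → g x = 0) :
    (germLV r t0).v (toGE t0 (ofAn F hF)) = n := by
  have h1 : ofAn F hF = X3 ^ n * ofAn g hg := by
    rw [X3, ← ofAn_pow, ← ofAn_mul, ofAn_eq]
    exact h
  have h2 : ofAn g hg ≠ 0 := by
    intro h3
    exact hne ((ofAn_zero.1 h3).mono fun x hx _ => hx)
  have h3 : ofAn F hF ≠ 0 := by
    rw [h1]
    exact mul_ne_zero (pow_ne_zero _ X3_prime.ne_zero) h2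
  rw [germLV_v_def, toGE_eq, fv_am X3_prime X3_fin h3]
  have h4 : multiplicity X3 (ofAn F hF) = n := by
    rw [h1, mult_mul X3_prime X3_fin (pow_ne_zero _ X3_prime.ne_zero) h2,
      multiplicity_eq_zero.2 (fun h5 => hne (X3_dvd.1 h5)), add_zero]
    exact multiplicity_pow_self_of_prime X3_prime n
  rw [h4]

theorem germLV_v_const {F : (Fin 4 → ℂ) → ℂ} (hF : AnalyticAt ℂ F 0)
    (hne : ¬ ∀ᶠ x in 𝓝 (0 : Fin 4 → ℂ), x 3 = 0 → F x = 0) :
    (germLV r t0).v (toGE t0 (ofAn F hF)) = 0 := by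
  have := germLV_v (r := r) (t0 := t0) hF hF (n := 0) (by simp) hne
  simpa using this

/-- Every germ that is not zero is a power of `x 3` times a germ not zero on the hyperplane. -/
theorem germ_form {F : (Fin 4 → ℂ) → ℂ} (hF : AnalyticAt ℂ F 0)
    (hne : ¬ ∀ᶠ x in 𝓝 (0 : Fin 4 → ℂ), F x = 0) :
    ∃ (n : ℕ) (g : (Fin 4 → ℂ) → ℂ), AnalyticAt ℂ g 0 ∧
      (∀ᶠ x in 𝓝 (0 : Fin 4 → ℂ), F x = x 3 ^ n * g x) ∧
      ¬ ∀ᶠ x in 𝓝 (0 : Fin 4 → ℂ), x 3 = 0 → g x = 0 := by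
  obtain ⟨k, τ, h1, h2, i, h3⟩ := C.exists_div_gen (3 : Fin 4) (fun _ : Unit => F) (p := 0) rfl
    (fun _ => hF) ⟨(), hne⟩
  exact ⟨k, τ (), h1 (), h2 (), h3⟩

/-- A quotient of analytic functions and its order. -/
theorem germLV_v_div {a b : (Fin 4 → ℂ) → ℂ} (ha : AnalyticAt ℂ a 0) (hb : AnalyticAt ℂ b 0)
    (ha0 : ¬ ∀ᶠ x in 𝓝 (0 : Fin 4 → ℂ), a x = 0) (hb0 : ¬ ∀ᶠ x in 𝓝 (0 : Fin 4 → ℂ), b x = 0)
    {n m : ℕ} (h : (germLV r t0).v (toGE t0 (ofAn a ha) / toGE t0 (ofAn b hb)) = (n : ℤ) - m) :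
    ∃ a' b' : (Fin 4 → ℂ) → ℂ, AnalyticAt ℂ a' 0 ∧ AnalyticAt ℂ b' 0 ∧
      (¬ ∀ᶠ x in 𝓝 (0 : Fin 4 → ℂ), x 3 = 0 → a' x = 0) ∧
      (¬ ∀ᶠ x in 𝓝 (0 : Fin 4 → ℂ), x 3 = 0 → b' x = 0) ∧
      ∀ᶠ x in 𝓝 (0 : Fin 4 → ℂ), x 3 ^ m * (a x * b' x) = x 3 ^ n * (a' x * b x) := by
  obtain ⟨i, a', ha', h1, h2⟩ := germ_form ha ha0
  obtain ⟨j, b', hb', h3, h4⟩ := germ_form hb hb0
  have hA : toGE t0 (ofAn a ha) ≠ 0 := by
    intro h5
    exact ha0 (ofAn_zero.1 (toGE_inj t0 (h5.trans (map_zero _).symm)))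
  have hB : toGE t0 (ofAn b hb) ≠ 0 := by
    intro h5
    exact hb0 (ofAn_zero.1 (toGE_inj t0 (h5.trans (map_zero _).symm)))
  rw [(germLV r t0).div' hA hB, germLV_v ha ha' h1 h2, germLV_v hb hb' h3 h4] at h
  have h5 : i + m = n + j := by omega
  refine ⟨a', b', ha', hb', h2, h4, ?_⟩
  filter_upwards [h1, h3] with x h6 h7
  rw [h6, h7]
  have h8 : x 3 ^ i * x 3 ^ m = x 3 ^ n * x 3 ^ j := by rw [← pow_add, ← pow_add, h5]
  linear_combination (a' x * b' x) * h8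

/-- The elements of order at least `n`. -/
theorem germLV_ge {e : GE t0} {n : ℕ} (he : e = 0 ∨ (n : ℤ) ≤ (germLV r t0).v e) :
    ∃ (a b : (Fin 4 → ℂ) → ℂ) (ha : AnalyticAt ℂ a 0) (hb : AnalyticAt ℂ b 0),
      e * toGE t0 (ofAn b hb) = toGE t0 (ofAn (fun x => x 3 ^ n * a x)
        (((C.coord_analytic 3 0).pow n).mul ha)) ∧
      ¬ ∀ᶠ x in 𝓝 (0 : Fin 4 → ℂ), x 3 = 0 → b x = 0 := by
  by_cases he0 : e = 0
  · refine ⟨fun _ => 0, fun _ => 1, analyticAt_const, analyticAt_const, ?_, ?_⟩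
    · rw [he0, zero_mul]
      symm
      rw [map_eq_zero_iff _ (toGE_inj t0), ofAn_zero]
      filter_upwards with x
      rw [mul_zero]
    · intro h
      have := h.self_of_nhds rfl
      exact one_ne_zero this
  have hv := he.resolve_left he0
  obtain ⟨a, b, ha, hb, h⟩ := exists_form (R := AnG) X3_prime X3_fin he0
  obtain ⟨A, hA, rfl⟩ := exists_ofAn a
  obtain ⟨B, hB, rfl⟩ := exists_ofAn b
  obtain ⟨m, hm⟩ : ∃ m : ℕ, fv X3 e = n + m := ⟨(fv X3 e - n).toNat, by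
    rw [germLV_v_def] at hv
    omega⟩
  have hB0 : algebraMap AnG (GE t0) (ofAn B hB) ≠ 0 := by
    apply am_ne
    intro h1
    rw [h1] at hb
    exact hb (dvd_zero _)
  refine ⟨fun x => x 3 ^ m * A x, B, ((C.coord_analytic 3 0).pow m).mul hA, hB, ?_,
    fun h1 => hb (X3_dvd.2 h1)⟩
  rw [h, hm, toGE_eq, toGE_eq]
  have h2 : ofAn (fun x => x 3 ^ n * (x 3 ^ m * A x))
      (((C.coord_analytic 3 0).pow n).mul (((C.coord_analytic 3 0).pow m).mul hA)) =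
      X3 ^ (n + m) * ofAn A hA := by
    rw [X3, ← ofAn_pow, ← ofAn_mul, ofAn_eq]
    filter_upwards with x
    ring
  rw [h2, map_mul, map_pow]
  have h3 : ((n : ℤ) + m) = ((n + m : ℕ) : ℤ) := by push_cast; ring
  rw [h3, zpow_natCast]
  field_simp

end

end Pool.Agent.KO
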