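import Pool.Agent.KO.E.SpecL
import Pool.Agent.KO.E.Germ

/-!
# Project KO, block E: the field of germs, row L8
-/

set_option autoImplicit false

namespace Pool.Agent.KO

open Set Filter Topology Ger

/-- The valuation and the derivations of the field of germs. -/
theorem germLV_facts (r : ℝ) [Fact (0 < r)] (t0 : Metric.ball (0 : ℂ) r) :
    GermLV r t0 (germLV r t0) where
  d0 f hf := germLV_δ0 f hf
  d1 f hf := germLV_δ1 f hf
  d2 f hf h3 := by
    rw [germLV_δ2, ← map_mul, ← ofAn_mul]
  nonneg f hf := by
    by_cases h : ofAn f hf = 0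
    · rw [h, map_zero, (germLV r t0).zero]
    · rw [germLV_v_def, toGE_eq, fv_am X3_prime X3_fin h]
      positivity
  unit f hf h0 := germLV_v_const hf fun h => h0 (h.self_of_nhds rfl)
  coord h3 := by
    have h := germLV_v (r := r) (t0 := t0) h3 (analyticAt_const (v := (1 : ℂ))) (n := 1)
      (Eventually.of_forall fun x => by simp) (fun h => one_ne_zero (h.self_of_nhds rfl))
    simpa using h

/-- Row L8. -/
theorem spGerm : SpGerm := fun r _ t0 => ⟨germLV r t0, germLV_facts r t0⟩

end Pool.Agent.KO
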