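import Pool.Agent.KO.E.SpecL

/-!
# Project KO, block E, row L12: the horizontal case
-/

set_option autoImplicit false

namespace Pool.Agent.KO

open Set Filter Topology MvPolynomial

theorem Rep.pow {r : ℝ} {t0 : Metric.ball (0 : ℂ) r} {G : Set (Fin 4 → ℂ)} (R : RepFacts t0 G)
    {e : GE t0} {w : (Fin 4 → ℂ) → ℂ} (h : Rep t0 G e w) (m : ℕ) :
    Rep t0 G (e ^ m) (fun x => w x ^ m) := by
  induction m with
  | zero =>
    have h1 := R.an (fun _ => (1 : ℂ)) analyticAt_const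
    have h2 : toGE t0 (ofAn (fun _ => (1 : ℂ)) analyticAt_const) = 1 := map_one (toGE t0)
    rw [h2] at h1
    simpa using h1
  | succ n ih =>
    have h1 := R.mul _ _ _ _ ih h
    simpa [pow_succ] using h1

theorem evQ_gAff {r : ℝ} (w : Fin 4 → ℂ) (s : ℂ) (h : ‖s‖ < r) :
    evQ (gAff (tR r)) w s = gA s w := by
  unfold evQ gAff gA
  rw [dif_pos h]
  simp only [eval₂_add, eval₂_sub, eval₂_mul, eval₂_pow, eval₂_X, eval₂_C, eval₂_one]
  rfl

theorem map_gAff_t (r : ℝ) [Fact (0 < r)] :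
    (gAff (tR r)).map (algebraMap (AnR r) (Kr r)) = gAff (tK r) := by
  unfold gAff
  simp only [map_add, map_sub, map_mul, map_pow, map_one, map_X, map_C]

theorem hor_alg (z J y S : ℂ) (e m : ℕ) (hy : y ≠ 0) (hS : S ≠ 0) :
    z ^ e * (z * J) ^ m = z ^ e * ((J / (2 * y)) ^ m / S) * S * (2 * y * z) ^ m := by
  have h1 : z ^ e * ((J / (2 * y)) ^ m / S) * S * (2 * y * z) ^ m =
      z ^ e * ((J / (2 * y) * (2 * y * z)) ^ m) * (S / S) := by
    rw [mul_pow (J / (2 * y))]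
    ring
  rw [h1, div_self hS, mul_one]
  congr 2
  field_simp

/-- Row L12. -/
theorem spHor : SpHor := by
  intro hK h6 hQ hG hD hJ hT r _ N s m hnf hs htop hcop j t0 G hGo hGd W hWan hmer hgood f hf hrel
    e u he hu hu0 hx
  have R := h6 r t0 G hGo hGd
  obtain ⟨D, hDV⟩ := hG r t0
  obtain ⟨b, a', hb, ha', hb0, hba⟩ := hmer
  -- the germs of the functions
  have hB : toGE t0 (ofAn b hb) ≠ 0 := by
    intro h
    have h1 : ofAn b hb = 0 := toGE_inj t0 (by rw [h, map_zero])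
    exact hb0 (ofAn_zero.1 h1)
  set a : Fin 4 → GE t0 := fun i => toGE t0 (ofAn (a' i) (ha' i)) / toGE t0 (ofAn b hb) with ha
  have hrep : ∀ i, Rep t0 G (a i) (W i) := by
    intro i
    refine ⟨b, a' i, hb, ha' i, hb0, mul_div_cancel₀ _ hB, ?_⟩
    filter_upwards [hba] with x h1 h2
    exact h1 h2 i
  -- the equation
  have h0 : aeval a (gAff (tK r)) = 0 := by
    have h1 := hQ r t0 G R 4 a W hrep (gAff (tR r))
    rw [map_gAff_t] at h1
    refine R.zero _ _ h1 fun x hx => ?_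
    rw [evQ_gAff _ _ (hgood x hx).1]
    exact (hgood x hx).2.1
  -- the determinant
  have hdet := hJ hD r t0 G hGo R D hDV a W hrep hWan
  have hdet0 : (Matrix.of fun i j : Fin 3 => D.δ j (a i.castSucc)).det ≠ 0 :=
    R.ne _ _ hdet fun x hx => mul_ne_zero (hgood x hx).2.2.2.2.1 (hgood x hx).2.2.2.1
  set J := (Matrix.of fun i j : Fin 3 => D.δ j (a i.castSucc)).det with hJdef
  -- the sections
  set s' : Fin (N + 1) → MvPolynomial (Fin 4) (Kr r) := fun i =>
    (s i).map (algebraMap (AnR r) (Kr r)) with hs'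
  have hsupp : ∀ i, (s' i).support = (s i).support := fun i =>
    support_map_of_injective _ (IsFractionRing.injective (AnR r) (Kr r))
  have hS : ∀ i, Rep t0 G (aeval a (s' i)) (fun x => evQ (s i) (fun i => W i x) (t0 + x 2)) :=
    fun i => hQ r t0 G R 4 a W hrep (s i)
  have hSj : aeval a (s' j) ≠ 0 := R.ne _ _ (hS j) fun x hx => (hgood x hx).2.2.2.2.2
  have hF : ∀ i, aeval a (s' i) = toGE t0 (ofAn (f i) (hf i)) * aeval a (s' j) := by
    intro i
    rw [← sub_eq_zero]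
    refine R.zero _ _ (R.sub _ _ _ _ (hS i) (R.mul _ _ _ _ (R.an (f i) (hf i)) (hS j)))
      fun x hx => ?_
    rw [sub_eq_zero]
    exact hrel i x hx
  have hkey := hK (Kr r) (GE t0) D (tK r) (hT r) a h0 hdet0 N s' m
    (fun i c hc => hnf i c (by rw [← hsupp i]; exact hc))
    (fun i c hc => hs i c (by rw [← hsupp i]; exact hc))
    (by
      obtain ⟨i, c, hc, hcm⟩ := htop
      exact ⟨i, c, by rw [hsupp i]; exact hc, hcm⟩)
    (fun p hp => hcop p fun i => hp i) j hSj (fun i => toGE t0 (ofAn (f i) (hf i)))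
    (fun i => Or.inr (hDV.nonneg _ _)) hF
  -- the coordinate
  have h3 : AnalyticAt ℂ (fun x : Fin 4 → ℂ => x 3) 0 :=
    (ContinuousLinearMap.proj (R := ℂ) (φ := fun _ : Fin 4 => ℂ) 3).analyticAt 0
  have h2 : AnalyticAt ℂ (fun _ : Fin 4 → ℂ => (2 : ℂ)) 0 := analyticAt_const
  set c := toGE t0 (ofAn (fun x : Fin 4 → ℂ => x 3) h3) with hc
  set two := toGE t0 (ofAn (fun _ : Fin 4 → ℂ => (2 : ℂ)) h2) with htwo
  set U := toGE t0 (ofAn u hu) with hU
  have hcr : Rep t0 G c (fun x => x 3) := R.an _ _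
  have htr : Rep t0 G two (fun _ => 2) := R.an _ _
  have hUr : Rep t0 G U u := R.an _ _
  have hc0 : c ≠ 0 := R.ne _ _ hcr fun x hx => (hgood x hx).2.2.2.2.1
  have ht0 : two ≠ 0 := R.ne _ _ htr fun x hx => two_ne_zero
  have ha3 : a 3 ≠ 0 := R.ne _ _ (hrep 3) fun x hx => (hgood x hx).2.2.1
  have hU0 : U ≠ 0 := by
    intro h
    have h1 : ofAn u hu = 0 := toGE_inj t0 (by rw [← hU, h, map_zero])
    exact hu0 (ofAn_zero.1 h1).self_of_nhds
  -- the relation
  have hmain : c ^ e * J ^ m = U * aeval a (s' j) * (two * a 3 * c) ^ m := by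
    rw [← sub_eq_zero]
    refine R.zero _ _ (R.sub _ _ _ _ (R.mul _ _ _ _ (hcr.pow R e) (hdet.pow R m))
      (R.mul _ _ _ _ (R.mul _ _ _ _ hUr (hS j))
        ((R.mul _ _ _ _ (R.mul _ _ _ _ htr (hrep 3)) hcr).pow R m))) fun x hxG => ?_
    obtain ⟨-, -, hy, hJx, hx3, hsx⟩ := hgood x hxG
    rw [← hx x hxG, sub_eq_zero]
    exact hor_alg _ _ _ _ e m hy hsx
  have hv := congrArg D.v hmain
  rw [D.mul _ _ (pow_ne_zero _ hc0) (pow_ne_zero _ hdet0), D.pow hc0, D.pow hdet0,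
    D.mul _ _ (mul_ne_zero hU0 hSj) (pow_ne_zero _ (mul_ne_zero (mul_ne_zero ht0 ha3) hc0)),
    D.mul _ _ hU0 hSj, D.pow (mul_ne_zero (mul_ne_zero ht0 ha3) hc0),
    D.mul _ _ (mul_ne_zero ht0 ha3) hc0, D.mul _ _ ht0 ha3, hDV.unit u hu hu0,
    hDV.unit _ h2 two_ne_zero, hDV.coord h3] at hv
  have he' : (1 : ℤ) ≤ e := by exact_mod_cast he
  have h5 : (m : ℤ) * (D.v J - D.v (a 3) - 1) = m * D.v J - m * (D.v (a 3) + 1) := by ring
  rw [h5] at hkey
  have h6 : (m : ℤ) * (0 + D.v (a 3) + 1) = m * (D.v (a 3) + 1) := by ring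
  rw [h6] at hv
  linarith

end Pool.Agent.KO
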