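import Pool.Agent.KO.E.SpecL
import Pool.Agent.KO.E.PSpace

/-!
# Block E, row M6: the inverse of the bimeromorphic map (helper26)
-/

set_option autoImplicit false

namespace Pool.Agent.KO

open Set Filter Topology MvPolynomial

section

variable {F : Flip} {r : ℝ} {N : ℕ} {S : Set (PN N × ℂ)}

/-- The source of the bimeromorphic map. -/
abbrev iv_V (b : Bimer F.O F.g r S) : Set F.Sp := {x | ‖F.g x‖ < r} \ b.A

/-- The target, in `S`. -/
abbrev iv_W (b : Bimer F.O F.g r S) : Set S := {p | p.1 ∉ b.A'}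

/-- The bimeromorphic map, off `A`. -/
noncomputable def iv_a (b : Bimer F.O F.g r S) (p₀ : S) (x : F.Sp) : S :=
  open Classical in
  if h : x ∈ iv_V b then ⟨(b.e.toFun ⟨x, h⟩).1, (b.e.toFun ⟨x, h⟩).2.1⟩ else p₀

theorem iv_a_of (b : Bimer F.O F.g r S) (p₀ : S) {x : F.Sp} (h : x ∈ iv_V b) :
    iv_a b p₀ x = ⟨(b.e.toFun ⟨x, h⟩).1, (b.e.toFun ⟨x, h⟩).2.1⟩ := by
  rw [iv_a, dif_pos h]

theorem iv_b_of [Nonempty F.Sp] (b : Bimer F.O F.g r S) {p : S} (h : p ∈ iv_W b) :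
    invS b p = (b.e.invFun ⟨p.1, p.2, h⟩).1 := by
  have h' : (p : PN N × ℂ) ∈ S \ b.A' := ⟨p.2, h⟩
  rw [invS, dif_pos h']
  rfl

theorem iv_ab [Nonempty F.Sp] (b : Bimer F.O F.g r S) (p₀ : S) (x : F.Sp) (h : x ∈ iv_V b) :
    iv_a b p₀ x ∈ iv_W b ∧ invS b (iv_a b p₀ x) = x := by
  have h1 : iv_a b p₀ x ∈ iv_W b := by
    rw [iv_a_of b p₀ h]
    exact (b.e.toFun ⟨x, h⟩).2.2
  refine ⟨h1, ?_⟩
  rw [iv_b_of b h1]
  have h2 : (⟨(iv_a b p₀ x).1, (iv_a b p₀ x).2, h1⟩ : ↥(S \ b.A')) = b.e.toFun ⟨x, h⟩ := by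
    apply Subtype.ext
    show (iv_a b p₀ x).1 = _
    rw [iv_a_of b p₀ h]
  rw [h2, b.e.left_inv]

theorem iv_ba [Nonempty F.Sp] (b : Bimer F.O F.g r S) (p₀ : S) (p : S) (h : p ∈ iv_W b) :
    invS b p ∈ iv_V b ∧ iv_a b p₀ (invS b p) = p := by
  have h1 : invS b p ∈ iv_V b := by
    rw [iv_b_of b h]
    exact (b.e.invFun ⟨p.1, p.2, h⟩).2
  refine ⟨h1, ?_⟩
  rw [iv_a_of b p₀ h1]
  have h2 : (⟨invS b p, h1⟩ : ↥(iv_V b)) = b.e.invFun ⟨p.1, p.2, h⟩ :=
    Subtype.ext (iv_b_of b h)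
  apply Subtype.ext
  show (b.e.toFun ⟨invS b p, h1⟩).1 = p.1
  rw [h2, b.e.right_inv]

theorem iv_conta (b : Bimer F.O F.g r S) (p₀ : S) : ContinuousOn (iv_a b p₀) (iv_V b) := by
  rw [continuousOn_iff_continuous_domRestrict, IsInducing.subtypeVal.continuous_iff]
  have h1 : Continuous fun x : iv_V b => (b.e.toFun x).1 :=
    continuous_subtype_val.comp b.e.continuous_toFun
  refine h1.congr fun x => ?_
  show _ = (iv_a b p₀ x.1).1
  rw [iv_a_of b p₀ x.2]

theorem iv_contb [Nonempty F.Sp] (b : Bimer F.O F.g r S) : ContinuousOn (invS b) (iv_W b) := by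
  rw [continuousOn_iff_continuous_domRestrict]
  have h1 : Continuous fun y : iv_W b => (b.e.invFun ⟨y.1.1, y.1.2, y.2⟩).1 := by
    refine continuous_subtype_val.comp (b.e.continuous_invFun.comp ?_)
    exact Continuous.subtype_mk (continuous_subtype_val.comp continuous_subtype_val) _
  refine h1.congr fun y => ?_
  exact (iv_b_of b y.2).symm

theorem iv_Vopen (hF : F.XaFacts) (b : Bimer F.O F.g r S) : IsOpen (iv_V b) := by
  have hg : Continuous F.g := continuous_iff_continuousAt.2 fun x => hF.shf.cont _ _ (hF.hol x)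
  exact IsAn.isOpen_diff (fun f x h => hF.shf.cont f x h)
    (isOpen_lt (continuous_norm.comp hg) continuous_const) b.anA

theorem iv_Wopen (b : Bimer F.O F.g r S) (hS : S ⊆ overDisc N r) : IsOpen (iv_W b) := by
  have h1 : IsOpen (overDisc N r \ b.A') :=
    IsAn.isOpen_diff (fun f x h => stdP_cont h)
      (isOpen_lt (continuous_norm.comp continuous_snd) continuous_const) b.anA'
  have h2 : iv_W b = Subtype.val ⁻¹' (overDisc N r \ b.A') := by
    ext p
    exact ⟨fun h => ⟨hS p.2, h⟩, fun h => h.2⟩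
  rw [h2]
  exact h1.preimage continuous_subtype_val

/-- Holomorphic functions correspond. -/
theorem iv_hol (hF : F.XaFacts) (b : Bimer F.O F.g r S) (hS : S ⊆ overDisc N r) (p₀ : S)
    (x : F.Sp) (hx : x ∈ iv_V b) (f : S → ℂ) :
    res (stdP N) S f (iv_a b p₀ x) ↔ F.O (f ∘ iv_a b p₀) x := by
  have hV := iv_Vopen hF b
  have hW := iv_Wopen b hS
  have hc : ContinuousAt (iv_a b p₀) x := (iv_conta b p₀).continuousAt (hV.mem_nhds hx)
  have hax := iv_a_of b p₀ hx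
  have hax' : (iv_a b p₀ x).1 = (b.e.toFun ⟨x, hx⟩).1 := by rw [hax]
  constructor
  · rintro ⟨H, hH, h1⟩
    have h2 : res (stdP N) (S \ b.A') (fun q => H q.1) (b.e.toFun ⟨x, hx⟩) :=
      ⟨H, by rw [← hax']; exact hH, Eventually.of_forall fun z => rfl⟩
    rw [b.e.hol] at h2
    obtain ⟨M, hM, h3⟩ := h2
    refine hF.shf.congr _ _ _ ?_ hM
    rw [nhds_subtype_eq_comap, eventually_comap] at h3
    filter_upwards [hc.eventually h1, h3, hV.mem_nhds hx] with z h4 h5 h6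
    show M z = f (iv_a b p₀ z)
    rw [h4, iv_a_of b p₀ h6]
    exact (h5 ⟨z, h6⟩ rfl).symm
  · intro hM
    have h3 : res (stdP N) (S \ b.A') (fun q => f ⟨q.1, q.2.1⟩) (b.e.toFun ⟨x, hx⟩) := by
      rw [b.e.hol]
      refine ⟨f ∘ iv_a b p₀, hM, Eventually.of_forall fun z => ?_⟩
      show _ = f (iv_a b p₀ z.1)
      rw [iv_a_of b p₀ z.2]
      rfl
    obtain ⟨H, hH, h4⟩ := h3
    refine ⟨H, by rw [hax']; exact hH, ?_⟩
    rw [nhds_subtype_eq_comap, eventually_comap] at h4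
    have hv : Tendsto (fun z : S => z.1) (𝓝 (iv_a b p₀ x)) (𝓝 (b.e.toFun ⟨x, hx⟩).1) := by
      rw [← hax']
      exact continuous_subtype_val.continuousAt
    have hxW : iv_W b ∈ 𝓝 (iv_a b p₀ x) := by
      refine hW.mem_nhds ?_
      rw [hax]
      exact (b.e.toFun ⟨x, hx⟩).2.2
    filter_upwards [hv.eventually h4, hxW] with z h6 h7
    exact h6 ⟨z.1, z.2, h7⟩ rfl

end

/-- Row M6. -/
theorem sp_M6 : SpM6 := by
  intro F hF _ r N S b hS
  have hV := iv_Vopen hF b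
  have hW := iv_Wopen b hS.1
  have hbc : ∀ p ∈ iv_W b, ContinuousAt (invS b) p := fun p hp =>
    (iv_contb b).continuousAt (hW.mem_nhds hp)
  have hbase : ∀ p ∈ iv_W b, F.g (invS b p) = p.1.2 := by
    intro p hp
    have h1 := (iv_ba b p p hp).1
    have h2 := b.base ⟨invS b p, h1⟩
    have h3 : (b.e.toFun ⟨invS b p, h1⟩).1 = p.1 := by
      have := (iv_ba b p p hp).2
      rw [iv_a_of b p h1] at this
      exact congrArg Subtype.val this
    rw [← h2, h3]
  have hnear : ∀ p ∈ iv_W b, ∀ᶠ x in 𝓝 (invS b p), invS b (iv_a b p x) = x := by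
    intro p hp
    filter_upwards [hV.mem_nhds (iv_ba b p p hp).1] with x hx
    exact (iv_ab b p x hx).2
  refine ⟨hW, hV, ?_, ?_, ?_, ?_, ?_, ?_, ?_, ?_⟩
  · intro p hp
    have h1 := (iv_ba b p p hp).1
    exact ⟨h1.2, h1.1, hbase p hp⟩
  · intro p hp h
    have := (iv_ba b p p hp).2
    rw [iv_a_of b p h] at this
    exact congrArg Subtype.val this
  · intro x hx hxA
    have hxV : x ∈ iv_V b := ⟨hx, hxA⟩
    set p₀ : S := ⟨(b.e.toFun ⟨x, hxV⟩).1, (b.e.toFun ⟨x, hxV⟩).2.1⟩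
    exact ⟨iv_a b p₀ x, (iv_ab b p₀ x hxV).1, (iv_ab b p₀ x hxV).2⟩
  · intro p hp
    exact hbc p hp
  · intro p hp
    apply le_antisymm
    · exact hbc p hp
    · have h1 := iv_ba b p p hp
      have h2 : Tendsto (iv_a b p) (𝓝 (invS b p)) (𝓝 p) := by
        have := ((iv_conta b p).continuousAt (hV.mem_nhds h1.1)).tendsto
        rwa [h1.2] at this
      have h3 : Filter.map (invS b) (Filter.map (iv_a b p) (𝓝 (invS b p))) = 𝓝 (invS b p) := by
        rw [Filter.map_map]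
        have : (invS b ∘ iv_a b p) =ᶠ[𝓝 (invS b p)] id := hnear p hp
        rw [Filter.map_congr this, Filter.map_id]
      calc 𝓝 (invS b p) = Filter.map (invS b) (Filter.map (iv_a b p) (𝓝 (invS b p))) := h3.symm
        _ ≤ Filter.map (invS b) (𝓝 p) := Filter.map_mono h2
  · intro p p' hp hp' h
    rw [← (iv_ba b p p hp).2, h, (iv_ba b p p' hp').2]
  · intro p hp f
    have h1 := iv_ba b p p hp
    have h2 := iv_hol hF b hS.1 p (invS b p) h1.1 (f ∘ invS b)
    rw [h1.2] at h2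
    rw [h2]
    constructor
    · refine fun h => hF.shf.congr _ _ _ ?_ h
      filter_upwards [hnear p hp] with x hx
      show f x = f (invS b (iv_a b p x))
      rw [hx]
    · refine fun h => hF.shf.congr _ _ _ ?_ h
      filter_upwards [hnear p hp] with x hx
      show f (invS b (iv_a b p x)) = f x
      rw [hx]
  · intro p hp n c hc
    have h1 := iv_ba b p p hp
    have h2 := IsCoord.transport (O' := res (stdP N) S) hV hW (iv_conta b p) (iv_contb b)
      (iv_ab b p) (iv_ba b p) (iv_hol hF b hS.1 p)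
      (fun x _ f f' h => ⟨hF.shf.congr _ _ _ h, hF.shf.congr _ _ _ h.symm⟩) h1.1 hc
    rwa [h1.2] at h2

end Pool.Agent.KO
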