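import Pool.Agent.KO.E.SpecL

/-!
# Project KO, block E, row D8: the determinant of a map that keeps the last coordinate
-/

set_option autoImplicit false

namespace Pool.Agent.KO

open Set Filter Topology MvPolynomial

/-- The entries of the derivative. -/
theorem jd_entry {V : (Fin 4 → ℂ) → (Fin 4 → ℂ)} {ξ : Fin 4 → ℂ} (hV : DifferentiableAt ℂ V ξ)
    {w : (Fin 4 → ℂ) → ℂ} {i : Fin 4} (hw : ∀ᶠ y in 𝓝 ξ, V y i = w y) (v : Fin 4 → ℂ) :
    fderiv ℂ V ξ v i = fderiv ℂ w ξ v := by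
  have h1 : w =ᶠ[𝓝 ξ] fun y => V y i := hw.mono fun y hy => hy.symm
  rw [h1.fderiv_eq]
  have h2 : HasFDerivAt (fun y => V y i)
      ((ContinuousLinearMap.proj (R := ℂ) (φ := fun _ : Fin 4 => ℂ) i).comp (fderiv ℂ V ξ)) ξ :=
    (ContinuousLinearMap.proj (R := ℂ) (φ := fun _ : Fin 4 => ℂ) i).hasFDerivAt.comp ξ
      hV.hasFDerivAt
  rw [h2.fderiv]
  rfl

/-- The determinant of a linear map is the determinant of its matrix. -/
theorem jd_det (L : (Fin 4 → ℂ) →L[ℂ] (Fin 4 → ℂ)) :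
    L.det = Matrix.det (Matrix.of fun i k : Fin 4 => L (Pi.single k 1) i) := by
  rw [ContinuousLinearMap.det, ← LinearMap.det_toMatrix']
  congr 1

theorem sp_JDet : SpJDet := by
  intro W V ξ hV h3 hW
  have hd := hV.differentiableAt
  rw [jd_det, Matrix.det_succ_row _ (Fin.last 3), Fin.sum_univ_castSucc]
  have hz : ∀ k : Fin 3, (Matrix.of fun i k : Fin 4 => fderiv ℂ V ξ (Pi.single k 1) i)
      (Fin.last 3) k.castSucc = 0 := by
    intro k
    rw [Matrix.of_apply]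
    have h1 := jd_entry hd (i := Fin.last 3) (w := fun y => y (Fin.last 3)) h3
      (Pi.single k.castSucc 1)
    have h2 : fderiv ℂ (fun y : Fin 4 → ℂ => y (Fin.last 3)) ξ =
        ContinuousLinearMap.proj (R := ℂ) (φ := fun _ : Fin 4 => ℂ) (Fin.last 3) :=
      (ContinuousLinearMap.proj (R := ℂ) (φ := fun _ : Fin 4 => ℂ) (Fin.last 3)).hasFDerivAt.fderiv
    rw [h1, h2]
    change (Pi.single k.castSucc (1 : ℂ) : Fin 4 → ℂ) (Fin.last 3) = 0
    exact Pi.single_eq_of_ne (Fin.castSucc_lt_last k).ne' 1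
  have ho : (Matrix.of fun i k : Fin 4 => fderiv ℂ V ξ (Pi.single k 1) i)
      (Fin.last 3) (Fin.last 3) = 1 := by
    rw [Matrix.of_apply]
    have h1 := jd_entry hd (i := Fin.last 3) (w := fun y => y (Fin.last 3)) h3
      (Pi.single (Fin.last 3) 1)
    have h2 : fderiv ℂ (fun y : Fin 4 → ℂ => y (Fin.last 3)) ξ =
        ContinuousLinearMap.proj (R := ℂ) (φ := fun _ : Fin 4 => ℂ) (Fin.last 3) :=
      (ContinuousLinearMap.proj (R := ℂ) (φ := fun _ : Fin 4 => ℂ) (Fin.last 3)).hasFDerivAt.fderiv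
    rw [h1, h2]
    change (Pi.single (Fin.last 3) (1 : ℂ) : Fin 4 → ℂ) (Fin.last 3) = 1
    exact Pi.single_eq_same _ _
  rw [Finset.sum_eq_zero (fun k _ => by rw [hz k]; ring), ho, zero_add]
  have hs : ((-1 : ℂ) ^ ((Fin.last 3 : Fin 4).val + (Fin.last 3 : Fin 4).val)) = 1 := by
    norm_num
  rw [hs, one_mul, one_mul, J3]
  congr 1
  ext i k
  rw [Matrix.submatrix_apply, Matrix.of_apply, Fin.succAbove_last]
  exact jd_entry hd (hW i) _

end Pool.Agent.KO
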