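import Pool.Agent.KO.S.Defs
import Pool.Agent.KO.C.Inv
import Pool.Agent.KO.C.Iden
import Pool.Agent.KO.C.Ext

/-!
# Manifold points of the fibre are manifold points of the total space
-/

set_option autoImplicit false

namespace Pool.Agent.KO

open Set Filter Topology

/-- Division by a coordinate. -/
theorem div_coord {n : ℕ} {e : (Fin n → ℂ) → ℂ} {a₀ : Fin n → ℂ} (he : AnalyticAt ℂ e a₀)
    (j : Fin n) (h0 : ∀ᶠ a in 𝓝 a₀, a j = a₀ j → e a = 0) :
    ∃ e₁, AnalyticAt ℂ e₁ a₀ ∧ ∀ᶠ a in 𝓝 a₀, e a = (a j - a₀ j) * e₁ a := by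
  have hb : AnalyticAt ℂ (fun a : Fin n → ℂ => a j - a₀ j) a₀ := by
    apply AnalyticAt.sub _ analyticAt_const
    exact (ContinuousLinearMap.proj (R := ℂ) (φ := fun _ : Fin n => ℂ) j).analyticAt a₀
  have hne : ¬ ∀ᶠ a in 𝓝 a₀, (fun a : Fin n → ℂ => a j - a₀ j) a = 0 := by
    intro h
    have hc : Tendsto (fun t : ℂ => Function.update a₀ j t) (𝓝 (a₀ j)) (𝓝 a₀) := by
      have h1 : Continuous (fun t : ℂ => Function.update a₀ j t) := by fun_prop
      have h2 := h1.tendsto (a₀ j)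
      simpa using h2
    have h3 : ∀ᶠ t in 𝓝 (a₀ j), t = a₀ j := by
      filter_upwards [hc.eventually h] with t ht
      simpa [sub_eq_zero] using ht
    have h5 : ∀ᶠ t in 𝓝[≠] (a₀ j), t = a₀ j := h3.filter_mono nhdsWithin_le_nhds
    have h6 : ∀ᶠ t in 𝓝[≠] (a₀ j), t ≠ a₀ j := eventually_mem_nhdsWithin
    obtain ⟨t, ht, ht'⟩ := (h5.and h6).exists
    exact ht' ht
  have han : ∀ᶠ a in 𝓝 a₀, (fun a : Fin n → ℂ => a j - a₀ j) a ≠ 0 →
      AnalyticAt ℂ (fun a => e a / (a j - a₀ j)) a := by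
    filter_upwards [he.eventually_analyticAt] with a ha hne'
    apply ha.div _ hne'
    apply AnalyticAt.sub _ analyticAt_const
    exact (ContinuousLinearMap.proj (R := ℂ) (φ := fun _ : Fin n => ℂ) j).analyticAt a
  have hbd : ∃ C : ℝ, ∀ᶠ a in 𝓝 a₀, (fun a : Fin n → ℂ => a j - a₀ j) a ≠ 0 →
      ‖e a / (a j - a₀ j)‖ ≤ C := by
    obtain ⟨K, s, hs, hK⟩ := (he.contDiffAt (n := 1)).exists_lipschitzOnWith
    refine ⟨K, ?_⟩
    have hu : Tendsto (fun a : Fin n → ℂ => Function.update a j (a₀ j)) (𝓝 a₀) (𝓝 a₀) := by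
      have h1 : Continuous (fun a : Fin n → ℂ => Function.update a j (a₀ j)) := by fun_prop
      have h2 := h1.tendsto a₀
      simpa using h2
    filter_upwards [hs, hu.eventually hs, hu.eventually h0] with a ha ha' ha0 hne'
    have h1 : e (Function.update a j (a₀ j)) = 0 := ha0 (by simp)
    have h2 := hK.dist_le_mul a ha _ ha'
    rw [dist_eq_norm, h1, sub_zero] at h2
    have h3 : dist a (Function.update a j (a₀ j)) ≤ ‖a j - a₀ j‖ := by
      rw [dist_pi_le_iff (norm_nonneg _)]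
      intro k
      by_cases hk : k = j
      · subst hk
        simp [dist_eq_norm]
      · simp [Function.update_of_ne hk]
    rw [norm_div, div_le_iff₀ (norm_pos_iff.2 hne')]
    exact h2.trans (mul_le_mul_of_nonneg_left h3 K.2)
  obtain ⟨g, hg, hgf⟩ := C.riemann_loc hb hne han hbd
  refine ⟨g, hg, ?_⟩
  filter_upwards [hgf, h0] with a ha ha0
  by_cases h : a j - a₀ j = 0
  · rw [h, zero_mul]
    exact ha0 (sub_eq_zero.1 h)
  · rw [ha h, mul_div_cancel₀ _ h]

/-- A germ that is divisible by all powers of a function vanishing at the point is zero. -/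
theorem zero_of_div {n : ℕ} {e b : (Fin n → ℂ) → ℂ} {a₀ : Fin n → ℂ} (he : AnalyticAt ℂ e a₀)
    (hb : AnalyticAt ℂ b a₀) (hb0 : b a₀ = 0)
    (h : ∀ k : ℕ, ∃ e₁, AnalyticAt ℂ e₁ a₀ ∧ ∀ᶠ a in 𝓝 a₀, e a = b a ^ k * e₁ a) :
    ∀ᶠ a in 𝓝 a₀, e a = 0 := by
  by_contra hne
  obtain ⟨v, hv⟩ := C.line he hne
  have hlin : ∀ f : (Fin n → ℂ) → ℂ, AnalyticAt ℂ f a₀ →
      AnalyticAt ℂ (fun ζ : ℂ => f (a₀ + ζ • v)) 0 := by
    intro f hf
    apply AnalyticAt.comp (g := f) (f := fun ζ : ℂ => a₀ + ζ • v)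
    · simpa using hf
    · exact analyticAt_const.add (analyticAt_id.smul analyticAt_const)
  have hcont : Tendsto (fun ζ : ℂ => a₀ + ζ • v) (𝓝 0) (𝓝 a₀) := by
    have h1 : Continuous (fun ζ : ℂ => a₀ + ζ • v) := by fun_prop
    have h2 := h1.tendsto 0
    simpa using h2
  have h1 : AnalyticAt ℂ (fun ζ : ℂ => e (a₀ + ζ • v)) 0 := hlin e he
  have htop : analyticOrderAt (fun ζ : ℂ => e (a₀ + ζ • v)) 0 ≠ ⊤ := by
    intro h2
    exact hv (analyticOrderAt_eq_top.1 h2)
  obtain ⟨m, hm⟩ := ENat.ne_top_iff_exists.1 htop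
  obtain ⟨e₁, he₁, hee⟩ := h (m + 1)
  have hbl := hlin b hb
  have hel := hlin e₁ he₁
  have h3 : analyticOrderAt (fun ζ : ℂ => e (a₀ + ζ • v)) 0 =
      analyticOrderAt ((fun ζ : ℂ => b (a₀ + ζ • v)) ^ (m + 1) * fun ζ : ℂ => e₁ (a₀ + ζ • v)) 0 := by
    apply analyticOrderAt_congr
    filter_upwards [hcont.eventually hee] with ζ hζ
    simpa using hζ
  rw [analyticOrderAt_mul (hbl.pow _) hel, analyticOrderAt_pow hbl] at h3
  have h4 : 1 ≤ analyticOrderAt (fun ζ : ℂ => b (a₀ + ζ • v)) 0 := by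
    rw [Order.one_le_iff_ne_zero]
    intro h5
    rw [hbl.analyticOrderAt_eq_zero] at h5
    apply h5
    simpa using hb0
  have h6 : ((m + 1 : ℕ) : ℕ∞) ≤ analyticOrderAt (fun ζ : ℂ => e (a₀ + ζ • v)) 0 := by
    rw [h3]
    calc ((m + 1 : ℕ) : ℕ∞) = (m + 1) • (1 : ℕ∞) := by simp
      _ ≤ (m + 1) • analyticOrderAt (fun ζ : ℂ => b (a₀ + ζ • v)) 0 := by
          exact nsmul_le_nsmul_right h4 _
      _ ≤ _ := le_self_add
  rw [← hm] at h6
  have h7 : m + 1 ≤ m := by exact_mod_cast h6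
  omega

/-- Coordinate functions are analytic. -/
theorem an_coord {n : ℕ} (j : Fin n) (a : Fin n → ℂ) : AnalyticAt ℂ (fun a : Fin n → ℂ => a j) a :=
  (ContinuousLinearMap.proj (R := ℂ) (φ := fun _ : Fin n => ℂ) j).analyticAt a

/-- **Manifold points of the fibre are manifold points of the total space**, with coordinates
`(c, g)`. -/
theorem reg_of_fib {X : Type} [TopologicalSpace X] {O : Shf X} (hO : IsSpace O) {g : X → ℂ}
    (hg : ∀ x, O g x) (hflat : IsFlat O g) {s : ℂ} (hred : RedFib O g s) {n : ℕ}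
    {c₀ : {x | g x = s} → Fin n → ℂ} {x : {x | g x = s}}
    (hc : IsCoord (res O {x | g x = s}) c₀ x) :
    ∃ c : X → Fin (n + 1) → ℂ, IsCoord O c x.1 ∧
      (∀ᶠ y in 𝓝 x, ∀ i : Fin n, c y.1 i.castSucc = c₀ y i) ∧ ∀ y, c y (Fin.last n) = g y := by
  obtain ⟨U₀, hxU₀, hU₀⟩ := hc
  obtain ⟨N, U, C, Ω, hxU, hU⟩ := hO x.1
  -- the coordinates of the fibre extend
  have hD : ∀ i : Fin n, ∃ D : X → ℂ, O D x.1 ∧ ∀ᶠ y in 𝓝 x, c₀ y i = D y.1 := fun i =>
    (hU₀.hol x hxU₀ (fun y => c₀ y i)).2 ⟨fun a => a i, an_coord i _, Eventually.of_forall fun _ => rfl⟩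
  choose D hDO hDc using hD
  let d : Fin (n + 1) → X → ℂ := Fin.snoc (α := fun _ => X → ℂ) D g
  have hdO : ∀ j, O (d j) x.1 := by
    intro j
    refine Fin.lastCases ?_ ?_ j
    · simpa [d] using hg x.1
    · intro i
      simpa [d] using hDO i
  have hdlast : d (Fin.last n) = g := by simp [d]
  have hdcast : ∀ i : Fin n, d i.castSucc = D i := by intro i; simp [d]
  let c : X → Fin (n + 1) → ℂ := fun y j => d j y
  have hF : ∀ j, ∃ F : (Fin N → ℂ) → ℂ, AnalyticAt ℂ F (C x.1) ∧ d j =ᶠ[𝓝 x.1] F ∘ C := fun j =>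
    (hU.hol x.1 hxU (d j)).1 (hdO j)
  choose F hFan hFd using hF
  have hCcont : ∀ y ∈ U, ContinuousAt C y := by
    intro y hy
    have h1 : Continuous (fun x : U => C x) := hU.isEmbedding.continuous
    exact (continuousOn_iff_continuous_domRestrict.2 h1).continuousAt (hU.isOpen.mem_nhds hy)
  -- the coordinates of the chart on the fibre
  have hG : ∀ k : Fin N, ∃ G : (Fin n → ℂ) → ℂ, AnalyticAt ℂ G (c₀ x) ∧
      (fun y : {x | g x = s} => C y.1 k) =ᶠ[𝓝 x] G ∘ c₀ := by
    intro k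
    apply (hU₀.hol x hxU₀ _).1
    exact ⟨fun y => C y k, (hU.hol x.1 hxU _).2 ⟨fun z => z k, an_coord k _,
      Eventually.of_forall fun _ => rfl⟩, Eventually.of_forall fun _ => rfl⟩
  choose G hGan hGc using hG
  have hDx : ∀ i, F i.castSucc (C x.1) = c₀ x i := by
    intro i
    have h1 := (hFd i.castSucc).self_of_nhds
    rw [hdcast] at h1
    have h2 := (hDc i).self_of_nhds
    rw [h2]
    exact h1.symm
  have hFx : (fun i : Fin n => F i.castSucc (C x.1)) = c₀ x := funext hDx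
  have hH : ∀ k : Fin N, ∃ H : (Fin N → ℂ) → ℂ, AnalyticAt ℂ H (C x.1) ∧
      ∀ᶠ y in 𝓝 x.1, C y k - G k (fun i => D i y) = (g y - s) * H (C y) := by
    intro k
    have h1 : O (fun y => C y k - G k (fun i => D i y)) x.1 := by
      rw [hU.hol x.1 hxU]
      refine ⟨fun z => z k - G k (fun i => F i.castSucc z), ?_, ?_⟩
      · apply (an_coord k _).sub
        apply AnalyticAt.comp (g := G k) (f := fun z => fun i : Fin n => F i.castSucc z)
        · rw [hFx]
          exact hGan k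
        · rw [analyticAt_pi_iff]
          intro i
          exact hFan i.castSucc
      · have h2 : ∀ᶠ y in 𝓝 x.1, ∀ i : Fin n, D i y = F i.castSucc (C y) := by
          rw [eventually_all]
          intro i
          have h3 := hFd i.castSucc
          rw [hdcast] at h3
          exact h3
        filter_upwards [h2] with y hy
        simp only [Function.comp_apply, hy]
    have h2 : ∀ᶠ y in 𝓝 x.1, g y = s → C y k - G k (fun i => D i y) = 0 := by
      have h3 : ∀ᶠ y : {x | g x = s} in 𝓝 x, C y.1 k - G k (fun i => D i y.1) = 0 := by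
        have h4 : ∀ᶠ y : {x | g x = s} in 𝓝 x, ∀ i : Fin n, c₀ y i = D i y.1 :=
          eventually_all.2 hDc
        filter_upwards [h4, hGc k] with y hy hy'
        rw [hy']
        simp only [Function.comp_apply, ← hy]
        rw [sub_self]
      rw [nhds_subtype_eq_comap] at h3
      obtain ⟨t, ht, ht'⟩ := h3
      filter_upwards [ht] with y hy hys
      exact ht' (a := ⟨y, hys⟩) hy
    obtain ⟨h, hh, hh'⟩ := hred x.1 x.2 _ h1 h2
    obtain ⟨H, hHan, hHe⟩ := (hU.hol x.1 hxU h).1 hh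
    refine ⟨H, hHan, ?_⟩
    filter_upwards [hh', hHe] with y hy hy'
    rw [hy, hy']
    rfl
  choose H hHan hHe using hH
  -- the implicit function
  set a₀ : Fin (n + 1) → ℂ := c x.1 with ha₀
  have ha₀c : ∀ i : Fin n, a₀ i.castSucc = c₀ x i := by
    intro i
    have h2 := (hDc i).self_of_nhds
    rw [h2]
    show d i.castSucc x.1 = D i x.1
    rw [hdcast]
  have ha₀l : a₀ (Fin.last n) = s := by
    show d (Fin.last n) x.1 = s
    rw [hdlast]
    exact x.2
  let Hf : (Fin (n + 1) → ℂ) × (Fin N → ℂ) → (Fin N → ℂ) := fun q k =>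
    q.2 k - G k (fun i => q.1 i.castSucc) - (q.1 (Fin.last n) - s) * H k q.2
  have hproj1 : ∀ (j : Fin (n + 1)) (q : (Fin (n + 1) → ℂ) × (Fin N → ℂ)),
      AnalyticAt ℂ (fun q : (Fin (n + 1) → ℂ) × (Fin N → ℂ) => q.1 j) q := fun j q =>
    AnalyticAt.comp (g := fun a : Fin (n + 1) → ℂ => a j)
      (f := fun q : (Fin (n + 1) → ℂ) × (Fin N → ℂ) => q.1) (an_coord j _) analyticAt_fst
  have hHfan : AnalyticAt ℂ Hf (a₀, C x.1) := by
    rw [analyticAt_pi_iff]
    intro k
    apply AnalyticAt.sub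
    · apply AnalyticAt.sub
      · exact AnalyticAt.comp (g := fun z : Fin N → ℂ => z k)
          (f := fun q : (Fin (n + 1) → ℂ) × (Fin N → ℂ) => q.2) (an_coord k _) analyticAt_snd
      · apply AnalyticAt.comp (g := G k)
          (f := fun q : (Fin (n + 1) → ℂ) × (Fin N → ℂ) => fun i : Fin n => q.1 i.castSucc)
        · have : (fun i : Fin n => a₀ i.castSucc) = c₀ x := funext ha₀c
          rw [this]
          exact hGan k
        · rw [analyticAt_pi_iff]
          intro i
          exact hproj1 _ _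
    · apply AnalyticAt.mul
      · exact (hproj1 _ _).sub analyticAt_const
      · exact AnalyticAt.comp (g := H k)
          (f := fun q : (Fin (n + 1) → ℂ) × (Fin N → ℂ) => q.2) (hHan k) analyticAt_snd
  have hHf0 : Hf (a₀, C x.1) = 0 := by
    funext k
    show C x.1 k - G k (fun i => a₀ i.castSucc) - (a₀ (Fin.last n) - s) * H k (C x.1) = 0
    have h1 := (hGc k).self_of_nhds
    have : (fun i : Fin n => a₀ i.castSucc) = c₀ x := funext ha₀c
    rw [this, ha₀l, sub_self, zero_mul, sub_zero]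
    simp only [Function.comp_apply] at h1
    rw [h1, sub_self]
  have hderiv : (fderiv ℂ Hf (a₀, C x.1)).comp
      (ContinuousLinearMap.inr ℂ (Fin (n + 1) → ℂ) (Fin N → ℂ)) =
      (ContinuousLinearEquiv.refl ℂ (Fin N → ℂ) : (Fin N → ℂ) →L[ℂ] (Fin N → ℂ)) := by
    have h1 : HasFDerivAt (fun z : Fin N → ℂ => Hf (a₀, z)) ((fderiv ℂ Hf (a₀, C x.1)).comp
        (ContinuousLinearMap.inr ℂ (Fin (n + 1) → ℂ) (Fin N → ℂ))) (C x.1) := by
      have h2 : HasFDerivAt (fun z : Fin N → ℂ => (a₀, z))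
          (ContinuousLinearMap.inr ℂ (Fin (n + 1) → ℂ) (Fin N → ℂ)) (C x.1) :=
        hasFDerivAt_prodMk_right a₀ (C x.1)
      exact hHfan.differentiableAt.hasFDerivAt.comp (C x.1) h2
    have h3 : (fun z : Fin N → ℂ => Hf (a₀, z)) =
        fun z => z - fun k => G k (fun i => a₀ i.castSucc) := by
      funext z k
      show z k - G k (fun i => a₀ i.castSucc) - (a₀ (Fin.last n) - s) * H k z = _
      rw [ha₀l, sub_self, zero_mul, sub_zero]
      rfl
    have h4 : HasFDerivAt (fun z : Fin N → ℂ => Hf (a₀, z))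
        (ContinuousLinearMap.id ℂ (Fin N → ℂ)) (C x.1) := by
      rw [h3]
      exact (hasFDerivAt_id _).sub_const _
    have h5 := h1.unique h4
    rw [h5]
    rfl
  obtain ⟨φ, hφan, hφ0, hφe⟩ := Pool.Agent.KO.C.imp hHfan (ContinuousLinearEquiv.refl ℂ (Fin N → ℂ)) hderiv
  -- continuity and the relation between the two systems of functions near `x`
  have hccont : ContinuousAt c x.1 := by
    rw [continuousAt_pi]
    intro j
    have h1 : ContinuousAt (F j ∘ C) x.1 := (hFan j).continuousAt.comp (hCcont _ hxU)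
    exact h1.congr (hFd j).symm
  have hrel : ∀ᶠ y in 𝓝 x.1, C y = φ (c y) := by
    have h1 : Tendsto (fun y => (c y, C y)) (𝓝 x.1) (𝓝 (a₀, C x.1)) :=
      hccont.prodMk_nhds (hCcont _ hxU)
    have h2 : ∀ᶠ y in 𝓝 x.1, Hf (c y, C y) = 0 := by
      have h3 : ∀ᶠ y in 𝓝 x.1, ∀ k, C y k - G k (fun i => D i y) = (g y - s) * H k (C y) :=
        eventually_all.2 hHe
      filter_upwards [h3] with y hy
      funext k
      show C y k - G k (fun i => d i.castSucc y) - (d (Fin.last n) y - s) * H k (C y) = 0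
      rw [hdlast]
      simp only [hdcast]
      rw [hy k, sub_self]
    filter_upwards [h1.eventually hφe, h2] with y hy hy2
    rw [hHf0] at hy
    exact hy.1 hy2
  -- analytic functions of `c` that vanish on `X` near `x` are zero
  have hOc : ∀ e : (Fin (n + 1) → ℂ) → ℂ, AnalyticAt ℂ e a₀ → O (fun y => e (c y)) x.1 := by
    intro e he
    rw [hU.hol x.1 hxU]
    refine ⟨fun z => e (fun j => F j z), ?_, ?_⟩
    · apply AnalyticAt.comp (g := e) (f := fun z => fun j => F j z)
      · have : (fun j => F j (C x.1)) = a₀ := by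
          funext j
          exact ((hFd j).self_of_nhds).symm
        rw [this]
        exact he
      · rw [analyticAt_pi_iff]
        exact hFan
    · have h2 : ∀ᶠ y in 𝓝 x.1, ∀ j, d j y = F j (C y) := eventually_all.2 hFd
      filter_upwards [h2] with y hy
      show e (fun j => d j y) = e (fun j => F j (C y))
      simp only [hy]
  have hopen : ∀ P : (Fin n → ℂ) → Prop, (∀ᶠ y in 𝓝 x, P (c₀ y)) → ∀ᶠ a in 𝓝 (c₀ x), P a := by
    intro P hP
    have h1 : IsOpenEmbedding (fun y : U₀ => c₀ y) := by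
      refine ⟨hU₀.isEmbedding, ?_⟩
      have h2 : range (fun y : U₀ => c₀ y) = c₀ '' U₀ := by
        ext a
        simp
      rw [h2]
      exact hU₀.isOpenΩ
    have h3 : ∀ᶠ y : U₀ in 𝓝 (⟨x, hxU₀⟩ : U₀), P (c₀ y) := by
      have h4 : Tendsto (fun y : U₀ => (y : {x | g x = s})) (𝓝 (⟨x, hxU₀⟩ : U₀)) (𝓝 x) :=
        continuous_subtype_val.tendsto _
      exact h4.eventually hP
    have h5 := h1.map_nhds_eq ⟨x, hxU₀⟩
    have h6 : ∀ᶠ a in map (fun y : U₀ => c₀ y) (𝓝 (⟨x, hxU₀⟩ : U₀)), P a := h3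
    rw [h5] at h6
    exact h6
  have hstep : ∀ e : (Fin (n + 1) → ℂ) → ℂ, AnalyticAt ℂ e a₀ → (∀ᶠ y in 𝓝 x.1, e (c y) = 0) →
      ∃ e₁ : (Fin (n + 1) → ℂ) → ℂ, AnalyticAt ℂ e₁ a₀ ∧ (∀ᶠ y in 𝓝 x.1, e₁ (c y) = 0) ∧
        ∀ᶠ a in 𝓝 a₀, e a = (a (Fin.last n) - a₀ (Fin.last n)) * e₁ a := by
    intro e he hv
    have h0 : ∀ᶠ a in 𝓝 a₀, a (Fin.last n) = a₀ (Fin.last n) → e a = 0 := by
      have h1 : ∀ᶠ a : Fin n → ℂ in 𝓝 (c₀ x), e (Fin.snoc (α := fun _ => ℂ) a s) = 0 := by
        apply hopen (fun a => e (Fin.snoc (α := fun _ => ℂ) a s) = 0)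
        have h2 : Tendsto (fun y : {x | g x = s} => y.1) (𝓝 x) (𝓝 x.1) :=
          continuous_subtype_val.tendsto _
        have h4 : ∀ᶠ y : {x | g x = s} in 𝓝 x, ∀ i : Fin n, c₀ y i = D i y.1 :=
          eventually_all.2 hDc
        filter_upwards [h2.eventually hv, h4] with y hy hy4
        have h5 : Fin.snoc (α := fun _ => ℂ) (c₀ y) s = c y.1 := by
          funext j
          refine Fin.lastCases ?_ ?_ j
          · simp only [Fin.snoc_last]
            show s = d (Fin.last n) y.1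
            rw [hdlast]
            exact y.2.symm
          · intro i
            simp only [Fin.snoc_castSucc]
            show c₀ y i = d i.castSucc y.1
            rw [hdcast, hy4]
        rw [h5]
        exact hy
      have h6 : Tendsto (fun a : Fin (n + 1) → ℂ => fun i : Fin n => a i.castSucc) (𝓝 a₀)
          (𝓝 (c₀ x)) := by
        have h7 : Continuous (fun a : Fin (n + 1) → ℂ => fun i : Fin n => a i.castSucc) := by
          fun_prop
        have h8 := h7.tendsto a₀
        have h9 : (fun i : Fin n => a₀ i.castSucc) = c₀ x := funext ha₀c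
        simp only [h9] at h8
        exact h8
      filter_upwards [h6.eventually h1] with a ha hal
      have h10 : Fin.snoc (α := fun _ => ℂ) (fun i : Fin n => a i.castSucc) s = a := by
        funext j
        refine Fin.lastCases ?_ ?_ j
        · simp only [Fin.snoc_last]
          rw [hal, ha₀l]
        · intro i
          simp only [Fin.snoc_castSucc]
      rw [h10] at ha
      exact ha
    obtain ⟨e₁, he₁, hee⟩ := div_coord he (Fin.last n) h0
    refine ⟨e₁, he₁, ?_, hee⟩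
    apply hflat x.1 (fun y => e₁ (c y)) (hOc e₁ he₁)
    filter_upwards [hccont.eventually hee, hv] with y hy hy0
    have h11 : g x.1 = a₀ (Fin.last n) := by rw [ha₀l]; exact x.2
    have h12 : c y (Fin.last n) = g y := by
      show d (Fin.last n) y = g y
      rw [hdlast]
    rw [h11, ← h12, ← hy, hy0]
  have hzero : ∀ e : (Fin (n + 1) → ℂ) → ℂ, AnalyticAt ℂ e a₀ → (∀ᶠ y in 𝓝 x.1, e (c y) = 0) →
      ∀ᶠ a in 𝓝 a₀, e a = 0 := by
    intro e he hv
    apply zero_of_div (b := fun a => a (Fin.last n) - a₀ (Fin.last n)) he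
      ((an_coord _ _).sub analyticAt_const) (sub_self _)
    intro k
    have hk : ∃ e₁ : (Fin (n + 1) → ℂ) → ℂ, AnalyticAt ℂ e₁ a₀ ∧ (∀ᶠ y in 𝓝 x.1, e₁ (c y) = 0) ∧
        ∀ᶠ a in 𝓝 a₀, e a = (a (Fin.last n) - a₀ (Fin.last n)) ^ k * e₁ a := by
      induction k with
      | zero => exact ⟨e, he, hv, Eventually.of_forall fun a => by simp⟩
      | succ k ih =>
        obtain ⟨e₁, he₁, hv₁, hee⟩ := ih
        obtain ⟨e₂, he₂, hv₂, hee₂⟩ := hstep e₁ he₁ hv₁
        refine ⟨e₂, he₂, hv₂, ?_⟩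
        filter_upwards [hee, hee₂] with a h1 h2
        rw [h1, h2, pow_succ, mul_assoc]
    obtain ⟨e₁, he₁, -, hee⟩ := hk
    exact ⟨e₁, he₁, hee⟩
  -- the equations of the chart
  obtain ⟨V₁, hV₁, hxV₁, k, E, hE, hEV⟩ := hU.isAn.2 (C x.1) (hU.isAn.1 (mem_image_of_mem C hxU))
  have hφc : ContinuousAt φ a₀ := hφan.continuousAt
  have f1 : ∀ᶠ a in 𝓝 a₀, φ a ∈ V₁ := by
    have := hφc.tendsto
    rw [hφ0] at this
    exact this.eventually (hV₁.mem_nhds hxV₁)
  have f2 : ∀ᶠ a in 𝓝 a₀, ∀ l, E l (φ a) = 0 := by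
    rw [eventually_all]
    intro l
    apply hzero
    · apply AnalyticAt.comp (g := E l) (f := φ) _ hφan
      rw [hφ0]
      exact hE l _ hxV₁
    · have hCV₁ : ∀ᶠ y in 𝓝 x.1, C y ∈ V₁ := (hCcont _ hxU).eventually (hV₁.mem_nhds hxV₁)
      filter_upwards [hrel, hCV₁, hU.isOpen.mem_nhds hxU] with y h1 h2 h3
      rw [← h1]
      have h4 : C y ∈ C '' U ∩ V₁ := ⟨mem_image_of_mem C h3, h2⟩
      rw [hEV] at h4
      exact h4.2 l
  have f3 : ∀ᶠ a in 𝓝 a₀, ∀ j, F j (φ a) = a j := by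
    rw [eventually_all]
    intro j
    have h1 : ∀ᶠ a in 𝓝 a₀, F j (φ a) - a j = 0 := by
      apply hzero (fun a => F j (φ a) - a j)
      · apply AnalyticAt.sub _ (an_coord j _)
        apply AnalyticAt.comp (g := F j) (f := φ) _ hφan
        rw [hφ0]
        exact hFan j
      · filter_upwards [hrel, hFd j] with y h1 h2
        rw [← h1, sub_eq_zero]
        exact h2.symm
    exact h1.mono fun a ha => sub_eq_zero.1 ha
  -- the open set `V'`
  have g1 : ∀ᶠ y in 𝓝 x.1, y ∈ U ∧ C y = φ (c y) ∧ (∀ j, d j =ᶠ[𝓝 y] F j ∘ C) ∧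
      (∀ j, AnalyticAt ℂ (F j) (C y)) ∧ AnalyticAt ℂ φ (c y) := by
    have g0 : ∀ᶠ y in 𝓝 x.1, y ∈ U := hU.isOpen.mem_nhds hxU
    refine Eventually.and g0 (Eventually.and hrel ?_)
    refine Eventually.and ?_ (Eventually.and ?_ ?_)
    · rw [eventually_all]
      intro j
      exact (hFd j).eventually_nhds
    · rw [eventually_all]
      intro j
      exact (hCcont _ hxU).eventually (hFan j).eventually_analyticAt
    · exact hccont.eventually hφan.eventually_analyticAt
  obtain ⟨V', hV'sub, hV', hxV'⟩ := mem_nhds_iff.1 g1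
  have hcV' : ∀ y ∈ V', ContinuousAt c y := by
    intro y hy
    obtain ⟨hyU, -, hyd, hyF, -⟩ := hV'sub hy
    rw [continuousAt_pi]
    intro j
    have h1 : ContinuousAt (F j ∘ C) y := (hyF j).continuousAt.comp (hCcont _ hyU)
    exact h1.congr (hyd j).symm
  have hV'U : V' ⊆ U := fun y hy => (hV'sub hy).1
  obtain ⟨T, hT, hTV'⟩ : ∃ T, IsOpen T ∧ (fun u : U => C u) ⁻¹' T = {u : U | u.1 ∈ V'} :=
    hU.isEmbedding.isInducing.isOpen_iff.1 (hV'.preimage continuous_subtype_val)
  have hCT : C x.1 ∈ T := by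
    have : (⟨x.1, hxU⟩ : U) ∈ (fun u : U => C u) ⁻¹' T := by
      rw [hTV']
      exact hxV'
    exact this
  have f4 : ∀ᶠ a in 𝓝 a₀, φ a ∈ T := by
    have := hφc.tendsto
    rw [hφ0] at this
    exact this.eventually (hT.mem_nhds hCT)
  obtain ⟨B, hBsub, hB, haB⟩ := mem_nhds_iff.1 (f1.and (f2.and (f3.and f4)))
  set V : Set X := V' ∩ c ⁻¹' B with hVdef
  have hV : IsOpen V := by
    rw [isOpen_iff_mem_nhds]
    rintro y ⟨hy, hyB⟩
    exact inter_mem (hV'.mem_nhds hy) ((hcV' y hy).preimage_mem_nhds (hB.mem_nhds hyB))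
  have hxV : x.1 ∈ V := ⟨hxV', haB⟩
  have hVU : V ⊆ U := fun y hy => hV'U hy.1
  have himg : c '' V = B := by
    apply Subset.antisymm
    · rintro _ ⟨y, hy, rfl⟩
      exact hy.2
    · intro a ha
      obtain ⟨h1, h2, h3, h4⟩ := hBsub ha
      have h5 : φ a ∈ C '' U ∩ V₁ := by
        rw [hEV]
        exact ⟨h1, h2⟩
      obtain ⟨⟨y, hyU, hy⟩, -⟩ := h5
      have h6 : y ∈ V' := by
        have : (⟨y, hyU⟩ : U) ∈ (fun u : U => C u) ⁻¹' T := by
          show C y ∈ T
          rw [hy]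
          exact h4
        rw [hTV'] at this
        exact this
      have h7 : c y = a := by
        funext j
        have h8 := ((hV'sub h6).2.2.1 j).self_of_nhds
        show d j y = a j
        rw [h8]
        show F j (C y) = a j
        rw [hy]
        exact h3 j
      exact ⟨y, ⟨h6, by show c y ∈ B; rw [h7]; exact ha⟩, h7⟩
  have hemb : IsEmbedding (fun y : V => c y) := by
    have hCV : IsEmbedding (fun y : V => C y) := hU.isEmbedding.comp (IsEmbedding.inclusion hVU)
    refine ⟨isInducing_iff_nhds.2 fun y => le_antisymm ?_ ?_, ?_⟩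
    · have h1 : ContinuousAt (fun y : V => c y) y :=
        ContinuousAt.comp (g := c) (f := fun y : V => (y : X)) (hcV' y.1 y.2.1)
          continuous_subtype_val.continuousAt
      exact h1.tendsto.le_comap
    · rw [hCV.isInducing.nhds_eq_comap y]
      have h1 : ContinuousAt φ (c y) := (hV'sub y.2.1).2.2.2.2.continuousAt
      have h2 : (fun y : V => C y) = φ ∘ (fun y : V => c y) := by
        funext z
        exact (hV'sub z.2.1).2.1
      have h3 : comap (fun y : V => C y) (𝓝 (C y)) =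
          comap (fun y : V => c y) (comap φ (𝓝 (φ (c y)))) := by
        rw [h2, ← comap_comap, (hV'sub y.2.1).2.1]
      rw [h3]
      exact comap_mono h1.tendsto.le_comap
    · intro y y' h
      have h1 : C y = C y' := by
        rw [(hV'sub y.2.1).2.1, (hV'sub y'.2.1).2.1]
        exact congrArg φ h
      exact hCV.injective h1
  refine ⟨c, ⟨V, hxV, ?_⟩, ?_, ?_⟩
  · refine ⟨hV, ?_, hemb, ?_, ?_⟩
    · rw [himg]
      exact hB
    · refine ⟨subset_rfl, fun a _ => ⟨c '' V, ?_, ‹_›, 0, fun i => i.elim0, fun i => i.elim0, ?_⟩⟩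
      · rw [himg]
        exact hB
      · ext b
        simp
    · intro y hy f
      obtain ⟨hyU, hyφ, hyd, hyF, hyan⟩ := hV'sub hy.1
      constructor
      · intro hf
        obtain ⟨F', hF', hfF'⟩ := (hU.hol y hyU f).1 hf
        refine ⟨F' ∘ φ, ?_, ?_⟩
        · apply AnalyticAt.comp _ hyan
          rw [← hyφ]
          exact hF'
        · filter_upwards [hfF', hV'.mem_nhds hy.1] with z hz hz'
          rw [hz]
          show F' (C z) = F' (φ (c z))
          rw [← (hV'sub hz').2.1]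
      · rintro ⟨F', hF', hfF'⟩
        refine (hU.hol y hyU f).2 ⟨fun z => F' (fun j => F j z), ?_, ?_⟩
        · apply AnalyticAt.comp (g := F') (f := fun z => fun j => F j z)
          · have : (fun j => F j (C y)) = c y := by
              funext j
              exact ((hyd j).self_of_nhds).symm
            rw [this]
            exact hF'
          · rw [analyticAt_pi_iff]
            exact hyF
        · have h2 : ∀ᶠ z in 𝓝 y, ∀ j, d j z = F j (C z) := eventually_all.2 hyd
          filter_upwards [hfF', h2] with z hz hz'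
          rw [hz]
          show F' (fun j => d j z) = F' (fun j => F j (C z))
          simp only [hz']
  · have h4 : ∀ᶠ y : {x | g x = s} in 𝓝 x, ∀ i : Fin n, c₀ y i = D i y.1 :=
      eventually_all.2 hDc
    filter_upwards [h4] with y hy i
    show d i.castSucc y.1 = c₀ y i
    rw [hdcast, hy]
  · intro y
    show d (Fin.last n) y = g y
    rw [hdlast]

end Pool.Agent.KO
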