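import Pool.Agent.KO.E.SpecL
import Pool.Agent.KO.E.PSpace
import Pool.Agent.KO.E.RegFib

/-!
# Project KO, block E: the result of the parts L, M, D (row M11, helper92)
-/

set_option autoImplicit false

namespace Pool.Agent.KO

open Set Filter Topology MvPolynomial

/-- The determinant of a continuous linear map in coordinates. -/
theorem kp_det {n : ℕ} (A : (Fin n → ℂ) →L[ℂ] (Fin n → ℂ)) :
    A.det = Matrix.det (fun i k : Fin n => A (Pi.single k 1) i) := by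
  rw [ContinuousLinearMap.det, ← LinearMap.det_toMatrix']
  congr 1

section

variable {F : Flip} {r : ℝ} {N : ℕ} {S : Set (PN N × ℂ)} {b : Bimer F.O F.g r S}
  {σ : Sec F b} {j : Fin (N + 1)} [Nonempty F.Sp]

/-- The local data. -/
noncomputable def kpLoc (K : Crd σ j) (g : GoodFacts K)
    (hmer : ∀ ξ ∈ K.B, ∃ (b : (Fin 4 → ℂ) → ℂ) (a : Fin 4 → (Fin 4 → ℂ) → ℂ),
      AnalyticAt ℂ b ξ ∧ (∀ i, AnalyticAt ℂ (a i) ξ) ∧ (¬ ∀ᶠ y in 𝓝 ξ, b y = 0) ∧
        ∀ᶠ y in 𝓝 ξ, y ∈ K.good → ∀ i, b y * K.W i y = a i y) : Loc σ j where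
  B := K.B
  isOpen := K.par.isOpen
  good := K.good
  gopen := g.opn
  gsub := fun ξ h => h.1
  small := fun ξ h => by rw [g.third ξ h]; exact K.small ξ h
  W := K.W
  an := g.an
  eq := g.eq
  y_ne := g.y_ne
  J_ne := g.g2
  s_ne := g.s_ne
  dense := g.g3
  mer := hmer
  f := K.f
  fan := g.fan
  rel := g.rel

/-- The Jacobian determinant in the fibre. -/
theorem kp_J3 (K : Crd σ j) (g : GoodFacts K) {y : FS S 0} (hy : K.c y.1 ∈ K.good)
    (hχ : K.χ (K.c y.1) = y.1) {c₀ : FS S 0 → Fin 3 → ℂ}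
    (hc₀ : ∀ᶠ z in 𝓝 y, ∀ i : Fin 3, K.c z.1 i.castSucc = c₀ z i)
    {Ψ : (Fin 3 → ℂ) → (Fin 3 → ℂ)} (hΨa : AnalyticAt ℂ Ψ (c₀ y))
    (hΨ : (fun z : FS S 0 => ![F.cX 1 (invS b z.1), F.cX 2 (invS b z.1), F.cX 3 (invS b z.1)])
      =ᶠ[𝓝 y] Ψ ∘ c₀) : J3 K.W (K.c y.1) = (fderiv ℂ Ψ (c₀ y)).det := by
  have hB : K.c y.1 ∈ K.B := hy.1
  have hsn : (Fin.snoc (c₀ y) 0 : Fin 4 → ℂ) = K.c y.1 := by
    funext i
    refine Fin.lastCases ?_ (fun l => ?_) i
    · rw [Fin.snoc_last]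
      have := K.last y.1
      rw [show (Fin.last 3 : Fin 4) = 3 from rfl, this]
      exact y.2.symm
    · rw [Fin.snoc_castSucc]
      exact (hc₀.self_of_nhds l).symm
  have hcon : ContinuousAt (fun v : Fin 3 → ℂ => (Fin.snoc v 0 : Fin 4 → ℂ)) (c₀ y) :=
    (an_snoc 0 _).continuousAt
  have hnb : ∀ᶠ v in 𝓝 (c₀ y), (Fin.snoc v 0 : Fin 4 → ℂ) ∈ K.B := by
    apply hcon.preimage_mem_nhds
    rw [hsn]
    exact K.par.isOpen.mem_nhds hB
  -- the points of the fibre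
  have hfib : ∀ v : Fin 3 → ℂ, (Fin.snoc v 0 : Fin 4 → ℂ) ∈ K.B →
      (K.χ (Fin.snoc v 0)).1.2 = 0 := by
    intro v hv
    rw [← K.last, K.par.right _ hv]
    exact Fin.snoc_last (α := fun _ => ℂ) _ _
  classical
  set τ : (Fin 3 → ℂ) → FS S 0 := fun v =>
    if h : (K.χ (Fin.snoc v 0)).1.2 = 0 then ⟨K.χ (Fin.snoc v 0), h⟩ else y with hτ
  have hτ1 : ∀ v, (Fin.snoc v 0 : Fin 4 → ℂ) ∈ K.B → (τ v).1 = K.χ (Fin.snoc v 0) := by
    intro v hv
    simp only [hτ, dif_pos (hfib v hv)]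
  have hτy : τ (c₀ y) = y := by
    apply Subtype.ext
    rw [hτ1 _ (by rw [hsn]; exact hB), hsn, hχ]
  have hτc : Tendsto τ (𝓝 (c₀ y)) (𝓝 y) := by
    rw [IsInducing.subtypeVal.nhds_eq_comap, tendsto_comap_iff]
    have h1 : Tendsto (fun v : Fin 3 → ℂ => K.χ (Fin.snoc v 0)) (𝓝 (c₀ y)) (𝓝 y.1) := by
      have h2 : ContinuousAt K.χ (Fin.snoc (c₀ y) 0) := by
        rw [hsn]
        exact K.par.cont.continuousAt (K.par.isOpen.mem_nhds hB)
      have h3 := ContinuousAt.comp (g := K.χ) (f := fun v : Fin 3 → ℂ => (Fin.snoc v 0 : Fin 4 → ℂ))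
        h2 hcon
      have h4 := h3.tendsto
      simp only [Function.comp_def, hsn, hχ] at h4
      exact h4
    refine h1.congr' ?_
    filter_upwards [hnb] with v hv
    exact (hτ1 v hv).symm
  have hW : ∀ i : Fin 3, (fun v : Fin 3 → ℂ => K.W i.castSucc (Fin.snoc v 0)) =ᶠ[𝓝 (c₀ y)]
      fun v => Ψ v i := by
    intro i
    filter_upwards [hnb, hτc.eventually hΨ, hτc.eventually hc₀] with v h1 h2 h3
    have h4 : c₀ (τ v) = v := by
      funext l
      rw [← h3 l, hτ1 v h1, K.par.right _ h1, Fin.snoc_castSucc]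
    have h5 : ![F.cX 1 (invS b (τ v).1), F.cX 2 (invS b (τ v).1), F.cX 3 (invS b (τ v).1)] =
      Ψ (c₀ (τ v)) := h2
    rw [h4, hτ1 v h1] at h5
    rw [← h5]
    show F.aff (invS b (K.χ (Fin.snoc v 0))) i.castSucc = _
    unfold Flip.aff
    fin_cases i <;> rfl
  rw [kp_det, J3]
  congr 1
  funext i k
  have hd : DifferentiableAt ℂ (K.W i.castSucc) (Fin.snoc (c₀ y) 0) := by
    rw [hsn]
    exact (g.an _ _ hy).differentiableAt
  have hs : HasFDerivAt (fun v : Fin 3 → ℂ => (Fin.snoc v 0 : Fin 4 → ℂ))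
      (fderiv ℂ (fun v : Fin 3 → ℂ => (Fin.snoc v 0 : Fin 4 → ℂ)) (c₀ y)) (c₀ y) :=
    (an_snoc 0 _).differentiableAt.hasFDerivAt
  have h1 : fderiv ℂ (fun v : Fin 3 → ℂ => K.W i.castSucc (Fin.snoc v 0)) (c₀ y)
      (Pi.single k 1) = fderiv ℂ (K.W i.castSucc) (K.c y.1) (Pi.single k.castSucc 1) := by
    have h2 := (hd.hasFDerivAt.comp (c₀ y) hs).fderiv
    have h3 : fderiv ℂ (fun v : Fin 3 → ℂ => (Fin.snoc v 0 : Fin 4 → ℂ)) (c₀ y)
        (Pi.single k 1) = Pi.single k.castSucc 1 := by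
      funext l
      have h4 : fderiv ℂ (fun v : Fin 3 → ℂ => (Fin.snoc v 0 : Fin 4 → ℂ)) (c₀ y)
          (Pi.single k 1) l = fderiv ℂ (fun v : Fin 3 → ℂ => (Fin.snoc v 0 : Fin 4 → ℂ) l) (c₀ y)
          (Pi.single k 1) := by
        rw [fderiv_pi fun l => (analyticAt_pi_iff.1 (an_snoc 0 (c₀ y)) l).differentiableAt]
        rfl
      rw [h4]
      refine Fin.lastCases ?_ (fun l' => ?_) l
      · have : (fun v : Fin 3 → ℂ => (Fin.snoc v 0 : Fin 4 → ℂ) (Fin.last 3)) = fun _ => 0 := by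
          funext v
          exact Fin.snoc_last (α := fun _ => ℂ) _ _
        rw [this, fderiv_fun_const]
        rw [Pi.single_eq_of_ne (Fin.castSucc_lt_last k).ne']
        rfl
      · have : (fun v : Fin 3 → ℂ => (Fin.snoc v 0 : Fin 4 → ℂ) l'.castSucc) = fun v => v l' := by
          funext v
          exact Fin.snoc_castSucc (α := fun _ => ℂ) _ _ _
        rw [this]
        have h5 : fderiv ℂ (fun v : Fin 3 → ℂ => v l') (c₀ y) =
          ContinuousLinearMap.proj (R := ℂ) (φ := fun _ : Fin 3 => ℂ) l' :=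
          (ContinuousLinearMap.proj (R := ℂ) (φ := fun _ : Fin 3 => ℂ) l').fderiv
        rw [h5]
        simp [Pi.single_apply]
    have h6 : (fun v : Fin 3 → ℂ => K.W i.castSucc (Fin.snoc v 0)) =
        K.W i.castSucc ∘ fun v : Fin 3 → ℂ => (Fin.snoc v 0 : Fin 4 → ℂ) := rfl
    rw [h6, h2, ContinuousLinearMap.comp_apply, h3, hsn]
  rw [← h1, (hW i).fderiv_eq]
  rw [fderiv_pi fun l => (analyticAt_pi_iff.1 hΨa l).differentiableAt]
  rfl

end

/-- The result of the parts L, M, D. -/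
theorem sp_Kap (hLoc : SpLoc) (hPar : SpPar) (hThin : SpThin) (hRes : SpResAn) (hShf : SpShfP)
    (hCJ : SpCJac) (hJD : SpJDet) (h0b : SpL0b) (hM1 : SpM1) (hM2 : SpM2) (hDenF : SpDenF)
    (hDen : SpDen) (hM3 : SpM3) (hM3b : SpM3b) (hM6 : SpM6) (hM7 : SpM7) (hM8 : SpM8)
    (hG1 : SpG1) (hG2 : SpG2) (hG3 : SpG3) (hG4 : SpG4) (hG5 : SpG5) (hG6 : SpG6) (hB : SpB)
    (hM10 : SpM10) : SpKap := by
  intro F _ r N S b hM hflat hred σ j y hyj c₀ hc₀
  obtain ⟨c, hc, hcc, hcl⟩ := reg_of_fib (isSpace_res hM.an) (fun x => res_snd x) hflat hred hc₀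
  have hVn : {p : S | p.1.1.rep j ≠ 0 ∧ ‖p.1.2‖ < σ.r2} ∈ 𝓝 y.1 := by
    have h1 : {p : S | p.1 ∈ affU j} ∈ 𝓝 y.1 :=
      ((affU_open j).preimage continuous_subtype_val).mem_nhds hyj
    have h2 : {p : S | ‖p.1.2‖ < σ.r2} ∈ 𝓝 y.1 := by
      refine IsOpen.mem_nhds (isOpen_lt ?_ continuous_const) ?_
      · exact (continuous_snd.comp continuous_subtype_val).norm
      · have : y.1.1.2 = 0 := y.2
        simp only [mem_ofPred_eq, this, norm_zero]
        exact σ.pos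
    filter_upwards [h1, h2] with p h3 h4
    exact ⟨h3, h4⟩
  obtain ⟨χ, B, hpar, hcB, hχ, hV⟩ := hPar S (res (stdP N) S) 4 c y.1 hc _ hVn
  let K : Crd σ j := ⟨c, χ, B, hpar, fun p => hcl p, fun ξ h => (hV ξ h).2, fun ξ h => (hV ξ h).1⟩
  have hI := hM6 F hM.xa r N S b hM.an
  have g1 := hG1 h0b F r N S b hM hI σ j K
  have g3 := hG3 hDenF hM3 hM7 F r N S b hM hI σ j K g1
  have g : GoodFacts K :=
    { toGood1 := g1
      toGood5 := hG5 hM7 F r N S b hM hI σ j K g1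
      g2 := hG2 hCJ hJD F r N S b hM hI σ j K g1
      g3 := g3
      g4 := hG4 hThin hRes hShf hM2 F r N S b hM hI σ j K g1 g3
      g6 := hG6 hDen hM3b F r N S b hM hI σ j K g1 g3 }
  have hmer := hM10 hB hM1 hM8 h0b F r N S b hM σ j K g
  obtain ⟨h0, hh0, hkap⟩ := hLoc F r N S b σ j (kpLoc K g hmer) (c y.1) hcB
  have hsnoc : ∀ z : FS S 0, (∀ i : Fin 3, c z.1 i.castSucc = c₀ z i) →
      (Fin.snoc (c₀ z) 0 : Fin 4 → ℂ) = c z.1 := by
    intro z hz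
    funext i
    refine Fin.lastCases ?_ (fun l => ?_) i
    · rw [Fin.snoc_last, hcl z.1]
      exact z.2.symm
    · rw [Fin.snoc_castSucc]
      exact (hz l).symm
  refine ⟨fun v => h0 (Fin.snoc v 0), ?_, ?_⟩
  · have h1 : AnalyticAt ℂ h0 (Fin.snoc (c₀ y) 0) := by
      rw [hsnoc y hcc.self_of_nhds]; exact hh0
    exact h1.fun_comp (f := fun v : Fin 3 → ℂ => (Fin.snoc v 0 : Fin 4 → ℂ)) (an_snoc 0 _)
  · have hcont : ContinuousAt (fun z : FS S 0 => c z.1) y := by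
      obtain ⟨U, hyU, hU⟩ := hc
      have h1 : ContinuousAt c y.1 := hU.continuousOn.continuousAt (hU.isOpen.mem_nhds hyU)
      exact ContinuousAt.comp (g := c) (f := fun z : FS S 0 => z.1) h1
        continuous_subtype_val.continuousAt
    have hleft : ∀ᶠ z : FS S 0 in 𝓝 y, c z.1 ∈ B ∧ χ (c z.1) = z.1 := by
      have h1 := hpar.left _ hcB
      rw [hχ] at h1
      exact continuous_subtype_val.continuousAt.eventually h1
    filter_upwards [hleft, hcont.eventually hkap, hcc.eventually_nhds] with z h1 h2 h3 hz Ψ hΨa hΨ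
    have hzg : c z.1 ∈ K.good := by
      refine ⟨h1.1, ?_⟩
      show χ (c z.1) ∈ goodS σ j
      rw [h1.2]; exact hz
    have h4 := h2 hzg
    have h5 : K.χ (K.c z.1) = z.1 := h1.2
    have h6 : (kpLoc K g hmer).kap (c z.1) = (J3 K.W (K.c z.1) / (2 * K.W 3 (K.c z.1))) ^ σ.m /
      evQ (σ.s j) (fun i => K.W i (K.c z.1)) (K.c z.1 3) := rfl
    rw [hsnoc z h3.self_of_nhds, ← h4, h6, kp_J3 K g hzg h5 h3 hΨa hΨ, K.last, z.2.out]
    have h7 : ∀ i, K.W i (K.c z.1) = F.aff (invS b z.1) i := by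
      intro i
      show F.aff (invS b (K.χ (K.c z.1))) i = _
      rw [h5]
    simp only [h7]
    rfl

end Pool.Agent.KO
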