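import Pool.Agent.KO.E.SpecL

/-!
# Project KO, block E, row L0: values of polynomials at analytic functions
-/

set_option autoImplicit false

namespace Pool.Agent.KO

open Set Filter Topology MvPolynomial

theorem l0_evQ {r : ℝ} {n : ℕ} (P : MvPolynomial (Fin n) (AnR r)) (w : Fin n → ℂ) {s : ℂ}
    (hs : ‖s‖ < r) : evQ P w s = ∑ α ∈ P.support, fe (P.coeff α) s * ∏ i, w i ^ α i := by
  unfold evQ
  rw [dif_pos hs, eval₂_eq']
  refine Finset.sum_congr rfl fun α _ => ?_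
  rw [fe_eq]

theorem l0_near {r : ℝ} {l : ℕ} {τ : (Fin l → ℂ) → ℂ} {ξ : Fin l → ℂ} (hτ : AnalyticAt ℂ τ ξ)
    (hr : ‖τ ξ‖ < r) : ∀ᶠ y in 𝓝 ξ, ‖τ y‖ < r :=
  hτ.continuousAt.norm.eventually_lt continuousAt_const hr

theorem l0_fe {r : ℝ} {l : ℕ} (f : AnR r) {τ : (Fin l → ℂ) → ℂ} {ξ : Fin l → ℂ}
    (hτ : AnalyticAt ℂ τ ξ) (hr : ‖τ ξ‖ < r) : AnalyticAt ℂ (fun y => fe f (τ y)) ξ :=
  AnalyticAt.comp (f := τ) (fe_an f _ (mem_ball_zero_iff.2 hr)) hτ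

theorem l0_prod {l n : ℕ} {a : Fin n → (Fin l → ℂ) → ℂ} {ξ : Fin l → ℂ}
    (ha : ∀ i, AnalyticAt ℂ (a i) ξ) (α : Fin n →₀ ℕ) :
    AnalyticAt ℂ (fun y => ∏ i, a i y ^ α i) ξ :=
  Finset.analyticAt_fun_prod _ fun i _ => (ha i).pow (α i)

theorem sp_L0 : SpL0 := by
  intro r P τ ξ hτ hr b a hb ha
  refine ⟨P.totalDegree, fun y => ∑ α ∈ P.support, fe (P.coeff α) (τ y) *
    (b y ^ (P.totalDegree - ∑ i, α i) * ∏ i, a i y ^ α i), ?_, ?_⟩
  · exact Finset.analyticAt_fun_sum _ fun α _ =>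
      (l0_fe _ hτ hr).mul ((hb.pow _).mul (l0_prod ha α))
  · filter_upwards [l0_near hτ hr] with y hy w hw
    rw [l0_evQ P w hy, Finset.mul_sum]
    refine Finset.sum_congr rfl fun α hα => ?_
    have h1 : ∑ i, α i ≤ P.totalDegree := by
      have h2 := le_totalDegree hα
      rwa [Finsupp.sum_fintype _ _ (fun _ => rfl)] at h2
    have h3 : ∏ i, a i y ^ α i = b y ^ (∑ i, α i) * ∏ i, w i ^ α i := by
      rw [← Finset.prod_pow_eq_pow_sum, ← Finset.prod_mul_distrib]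
      refine Finset.prod_congr rfl fun i _ => ?_
      rw [← hw i, mul_pow]
    rw [h3]
    have h4 : b y ^ P.totalDegree = b y ^ (P.totalDegree - ∑ i, α i) * b y ^ (∑ i, α i) := by
      rw [← pow_add, Nat.sub_add_cancel h1]
    rw [h4]
    ring

theorem sp_L0b : SpL0b := by
  intro r n l P τ W ξ hτ hr hW
  have h1 : AnalyticAt ℂ (fun y => ∑ α ∈ P.support, fe (P.coeff α) (τ y) * ∏ i, W i y ^ α i) ξ :=
    Finset.analyticAt_fun_sum _ fun α _ => (l0_fe _ hτ hr).mul (l0_prod hW α)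
  refine h1.congr ?_
  filter_upwards [l0_near hτ hr] with y hy
  exact (l0_evQ P (fun i => W i y) hy).symm

end Pool.Agent.KO
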