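import Pool.Agent.KO.E.SpecL
import Pool.Agent.KO.C.Iden

/-!
# Project KO, block E, row L1: the coefficient is meromorphic
-/

set_option autoImplicit false

namespace Pool.Agent.KO

open Set Filter Topology MvPolynomial

/-- The derivative of a quotient of analytic functions. -/
theorem l1_deriv {b W a : (Fin 4 → ℂ) → ℂ} {y : Fin 4 → ℂ} (hb : AnalyticAt ℂ b y)
    (hW : AnalyticAt ℂ W y) (h : ∀ᶠ z in 𝓝 y, b z * W z = a z) (k : Fin 4) :
    b y ^ 2 * pd k W y = b y * pd k a y - a y * pd k b y := by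
  have h1 : fderiv ℂ (fun z => b z * W z) y = fderiv ℂ a y := Filter.EventuallyEq.fderiv_eq h
  have h2 : HasFDerivAt (fun z => b z * W z) (b y • fderiv ℂ W y + W y • fderiv ℂ b y) y :=
    hb.differentiableAt.hasFDerivAt.mul hW.differentiableAt.hasFDerivAt
  rw [h2.fderiv] at h1
  have h3 : b y * pd k W y + W y * pd k b y = pd k a y :=
    congrArg (fun L : (Fin 4 → ℂ) →L[ℂ] ℂ => L (Pi.single k 1)) h1
  rw [← h3, ← h.self_of_nhds]
  ring

/-- The numerator of the Jacobian determinant. -/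
noncomputable def l1_J (b : (Fin 4 → ℂ) → ℂ) (a : Fin 4 → (Fin 4 → ℂ) → ℂ) (y : Fin 4 → ℂ) : ℂ :=
  Matrix.det (fun i k : Fin 3 => b y * pd k.castSucc (a i.castSucc) y -
    a i.castSucc y * pd k.castSucc b y)

theorem l1_J_an {b : (Fin 4 → ℂ) → ℂ} {a : Fin 4 → (Fin 4 → ℂ) → ℂ} {ξ : Fin 4 → ℂ}
    (hb : AnalyticAt ℂ b ξ) (ha : ∀ i, AnalyticAt ℂ (a i) ξ) : AnalyticAt ℂ (l1_J b a) ξ := by
  have h : ∀ i k : Fin 3, AnalyticAt ℂ (fun y => b y * pd k.castSucc (a i.castSucc) y -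
      a i.castSucc y * pd k.castSucc b y) ξ := fun i k =>
    (hb.mul (pd_an (ha _))).sub ((ha _).mul (pd_an hb))
  unfold l1_J
  simp only [Matrix.det_fin_three]
  have m : ∀ i k i' k' i'' k'' : Fin 3, AnalyticAt ℂ (fun y =>
      (b y * pd k.castSucc (a i.castSucc) y - a i.castSucc y * pd k.castSucc b y) *
      (b y * pd k'.castSucc (a i'.castSucc) y - a i'.castSucc y * pd k'.castSucc b y) *
      (b y * pd k''.castSucc (a i''.castSucc) y - a i''.castSucc y * pd k''.castSucc b y)) ξ :=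
    fun i k i' k' i'' k'' => ((h i k).mul (h i' k')).mul (h i'' k'')
  exact (((((m 0 0 1 1 2 2).sub (m 0 0 1 2 2 1)).sub (m 0 1 1 0 2 2)).add (m 0 1 1 2 2 0)).add
    (m 0 2 1 0 2 1)).sub (m 0 2 1 1 2 0)

theorem l1_J_eq {b : (Fin 4 → ℂ) → ℂ} {a W : Fin 4 → (Fin 4 → ℂ) → ℂ} {y : Fin 4 → ℂ}
    (hb : AnalyticAt ℂ b y) (hW : ∀ i, AnalyticAt ℂ (W i) y)
    (h : ∀ᶠ z in 𝓝 y, ∀ i, b z * W i z = a i z) : b y ^ 6 * J3 W y = l1_J b a y := by
  set M : Matrix (Fin 3) (Fin 3) ℂ :=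
    fun i k => fderiv ℂ (W i.castSucc) y (Pi.single k.castSucc 1) with hM
  have h1 : l1_J b a y = Matrix.det (b y ^ 2 • M) := by
    rw [l1_J]
    congr 1
    funext i k
    rw [← l1_deriv hb (hW i.castSucc) (h.mono fun z hz => hz _) k.castSucc]
    rfl
  rw [h1, Matrix.det_smul, Fintype.card_fin, ← pow_mul]
  rfl

theorem sp_L1 : SpL1 := by
  intro hL0 F r N S bm σ j L ξ hξ
  obtain ⟨b, a, hb, ha, hne, hmer⟩ := L.mer ξ hξ
  have hr : ‖ξ 3‖ < σ.r1 := lt_of_lt_of_le (L.small ξ hξ) σ.le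
  have hτ : AnalyticAt ℂ (fun y : Fin 4 → ℂ => y 3) ξ :=
    (ContinuousLinearMap.proj (R := ℂ) (φ := fun _ : Fin 4 => ℂ) 3).analyticAt ξ
  obtain ⟨D, h, hh, hev⟩ := hL0 σ.r1 (σ.s j) (fun y => y 3) ξ hτ hr b a hb ha
  -- the identities at the good points near `ξ`
  have hmer2 : ∀ᶠ y in 𝓝 ξ, y ∈ L.good → ∀ᶠ z in 𝓝 y, ∀ i, b z * L.W i z = a i z := by
    filter_upwards [hmer.eventually_nhds] with y hy hyg
    filter_upwards [hy, L.gopen.mem_nhds hyg] with z hz hzg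
    exact hz hzg
  have hev2 : ∀ᶠ y in 𝓝 ξ, y ∈ L.good →
      b y ^ D * evQ (σ.s j) (fun i => L.W i y) (y 3) = h y := by
    filter_upwards [hev, hmer] with y h1 h2 hyg
    exact h1 _ (h2 hyg)
  refine ⟨fun y => b y ^ (σ.m + D) * l1_J b a y ^ σ.m,
    fun y => b y ^ (6 * σ.m) * (2 * a 3 y) ^ σ.m * h y,
    (hb.pow _).mul ((l1_J_an hb ha).pow _),
    ((hb.pow _).mul ((analyticAt_const.mul (ha 3)).pow _)).mul hh, ?_, ?_⟩
  · intro hz
    have hgood : ∃ᶠ y in 𝓝 ξ, y ∈ L.good :=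
      (mem_closure_iff_frequently.1 (L.dense ξ hξ)).mono fun y hy => hy.1
    obtain ⟨x, hxg, hxz, hxb, hxm, hxe⟩ := (hgood.and_eventually (hz.eventually_nhds.and
      ((_root_.Pool.Agent.KO.C.freq_ne hb hne).and (hmer.eventually_nhds.and hev2.eventually_nhds)))).exists
    obtain ⟨y, hyb, hyz, hym, hye, hyg⟩ := (hxb.and_eventually (hxz.and (hxm.and (hxe.and
      (L.gopen.mem_nhds hxg))))).exists
    have h1 : a 3 y ≠ 0 := by
      rw [← hym hyg 3]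
      exact mul_ne_zero hyb (L.y_ne y hyg)
    have h2 : h y ≠ 0 := by
      rw [← hye hyg]
      exact mul_ne_zero (pow_ne_zero _ hyb) (L.s_ne y hyg)
    exact mul_ne_zero (mul_ne_zero (pow_ne_zero _ hyb)
      (pow_ne_zero _ (mul_ne_zero two_ne_zero h1))) h2 hyz
  · filter_upwards [hmer2, hev2, hb.eventually_analyticAt] with y h1 h2 h3 hyg
    have h4 := l1_J_eq h3 (fun i => L.an i y hyg) (h1 hyg)
    have h5 : b y * L.W 3 y = a 3 y := (h1 hyg).self_of_nhds 3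
    have h6 := L.y_ne y hyg
    have h7 := L.s_ne y hyg
    rw [← h4, ← h5, ← h2 hyg, Loc.kap, div_pow]
    field_simp
    ring

end Pool.Agent.KO
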