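import Pool.Agent.KO.E.SpecL

/-!
# Project KO, block E: the coefficient is analytic at the good points (row L1b, helper92)
-/

set_option autoImplicit false

namespace Pool.Agent.KO

open Set Filter Topology MvPolynomial

theorem l1bx_J3 {W : Fin 4 → (Fin 4 → ℂ) → ℂ} {ξ : Fin 4 → ℂ}
    (hW : ∀ i, AnalyticAt ℂ (W i) ξ) : AnalyticAt ℂ (J3 W) ξ := by
  have h : ∀ i k : Fin 3, AnalyticAt ℂ (fun y => fderiv ℂ (W i.castSucc) y (Pi.single k.castSucc 1)) ξ :=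
    fun i k => pd_an (hW _)
  have e : J3 W = fun y => Matrix.det (fun i k : Fin 3 =>
    fderiv ℂ (W i.castSucc) y (Pi.single k.castSucc 1)) := rfl
  rw [e]
  simp only [Matrix.det_fin_three]
  exact ((((((h 0 0).mul (h 1 1)).mul (h 2 2)).sub (((h 0 0).mul (h 1 2)).mul (h 2 1))).sub
    (((h 0 1).mul (h 1 0)).mul (h 2 2))).add (((h 0 1).mul (h 1 2)).mul (h 2 0))).add
    (((h 0 2).mul (h 1 0)).mul (h 2 1)) |>.sub (((h 0 2).mul (h 1 1)).mul (h 2 0))

theorem sp_L1bx : SpL1b := by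
  intro h0b F r N S b σ j L ξ hξ
  have hW := fun i => L.an i ξ hξ
  have hB := L.gsub hξ
  have hs := h0b σ.r1 4 4 (σ.s j) (fun y => y 3) L.W ξ (Flip.an_coord 3 ξ)
    ((L.small ξ hB).trans_le σ.le) hW
  have h2 : 2 * L.W 3 ξ ≠ 0 := mul_ne_zero two_ne_zero (L.y_ne ξ hξ)
  exact (((l1bx_J3 hW).div (analyticAt_const.mul (hW 3)) h2).pow _).div hs (L.s_ne ξ hξ)

end Pool.Agent.KO
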