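import Pool.Agent.KO.E.SpecL
import Pool.Agent.KO.C.Inv

/-!
# Project KO, block E, row L3: a smooth divisor is a fibre or has transversal points
-/

set_option autoImplicit false
set_option maxHeartbeats 400000

namespace Pool.Agent.KO

open Set Filter Topology MvPolynomial

/-- A linear form is determined by its values at the unit vectors. -/
theorem l3_sum (L : (Fin 4 → ℂ) →L[ℂ] ℂ) (v : Fin 4 → ℂ)
    (h : ∀ k : Fin 3, L (Pi.single k.castSucc 1) = 0) : L v = v 3 * L (Pi.single 3 1) := by
  have h1 : v = ∑ i : Fin 4, v i • (Pi.single i (1 : ℂ) : Fin 4 → ℂ) := by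
    ext j
    rw [Finset.sum_apply, Finset.sum_eq_single j]
    · simp
    · intro i _ hi
      simp [hi.symm]
    · intro hj
      exact absurd (Finset.mem_univ j) hj
  conv_lhs => rw [h1]
  rw [map_sum, Fin.sum_univ_castSucc]
  simp only [map_smul, smul_eq_mul, h, mul_zero, Finset.sum_const_zero, zero_add]
  rfl

/-- Row L3. -/
theorem sp_L3 : SpL3 := by
  intro c q hc hcq hd
  by_contra hcon
  rw [not_or] at hcon
  obtain ⟨hc1, hc2⟩ := hcon
  push Not at hc2
  obtain ⟨N, hN, hNk⟩ := hc2
  have hq0 := hNk q (mem_of_mem_nhds hN) hc hcq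
  have hq3 : fderiv ℂ c q (Pi.single 3 1) ≠ 0 := by
    intro h
    apply hd
    ext v
    rw [l3_sum _ v hq0, h, mul_zero]
    rfl
  obtain ⟨e, hqs, he, hca, hsa⟩ := C.coord hc (3 : Fin 4) hq3
  set b : Fin 4 → ℂ := Function.update q 3 0 with hb
  have heq : e q = b := by rw [he, hcq]
  have hbt : b ∈ e.target := heq ▸ e.map_source hqs
  have hsb : e.symm b = q := by rw [← heq]; exact e.left_inv hqs
  have hnh : e.target ∩ e.symm ⁻¹' N ∈ 𝓝 b := by
    refine inter_mem (e.open_target.mem_nhds hbt) ?_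
    have h1 := (hsa b hbt).continuousAt
    refine h1.preimage_mem_nhds ?_
    rw [hsb]
    exact hN
  obtain ⟨ε, hε, hball⟩ := Metric.mem_nhds_iff.1 hnh
  -- coordinates of the inverse
  have hinv : ∀ y ∈ e.target, c (e.symm y) = y 3 ∧ ∀ k : Fin 4, k ≠ 3 → e.symm y k = y k := by
    intro y hy
    have h1 := e.right_inv hy
    rw [he] at h1
    constructor
    · have h2 := congrFun h1 3
      rwa [Function.update_self] at h2
    · intro k hk
      have h2 := congrFun h1 k
      rwa [Function.update_of_ne hk] at h2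
  -- the derivative of the last coordinate vanishes along the slice
  have hder : ∀ y ∈ Metric.ball b ε, y 3 = 0 → ∀ v : Fin 4 → ℂ, v 3 = 0 →
      (fderiv ℂ e.symm y v) 3 = 0 := by
    intro y hy hy3 v hv
    have hyt := (hball hy).1
    have hyN : e.symm y ∈ N := (hball hy).2
    obtain ⟨hcy, -⟩ := hinv y hyt
    rw [hy3] at hcy
    have hcx := hca _ (e.map_target hyt)
    have hk := hNk _ hyN hcx hcy
    have hcomp : ∀ w : Fin 4 → ℂ, fderiv ℂ c (e.symm y) (fderiv ℂ e.symm y w) = w 3 := by
      intro w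
      have h1 : (c ∘ e.symm) =ᶠ[𝓝 y] (ContinuousLinearMap.proj (R := ℂ)
          (φ := fun _ : Fin 4 => ℂ) 3 : (Fin 4 → ℂ) → ℂ) := by
        filter_upwards [e.open_target.mem_nhds hyt] with z hz
        exact (hinv z hz).1
      have h2 := h1.fderiv_eq (𝕜 := ℂ)
      rw [fderiv_comp y hcx.differentiableAt (hsa y hyt).differentiableAt,
        ContinuousLinearMap.fderiv] at h2
      have h3 := congrArg (fun L : (Fin 4 → ℂ) →L[ℂ] ℂ => L w) h2
      simpa using h3
    have h3 := hcomp (Pi.single 3 1)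
    rw [l3_sum _ _ hk, Pi.single_eq_same] at h3
    have h4 : fderiv ℂ c (e.symm y) (Pi.single 3 1) ≠ 0 := by
      intro h
      rw [h, mul_zero] at h3
      exact zero_ne_one h3
    have h5 := hcomp v
    rw [l3_sum _ _ hk, hv] at h5
    exact (mul_eq_zero.1 h5).resolve_right h4
  apply hc1
  -- the slice
  have hup : ∀ᶠ x in 𝓝 q, Function.update x 3 0 ∈ Metric.ball b ε := by
    have h1 : Tendsto (fun x : Fin 4 → ℂ => Function.update x 3 (0 : ℂ)) (𝓝 q) (𝓝 b) := by
      have h2 : Continuous (fun x : Fin 4 → ℂ => Function.update x 3 (0 : ℂ)) :=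
        continuous_id.update 3 continuous_const
      exact h2.tendsto q
    exact h1.eventually (Metric.ball_mem_nhds b hε)
  filter_upwards [hup] with x hx hx3
  set y : Fin 4 → ℂ := Function.update x 3 0 with hy
  have hy3 : y 3 = 0 := by rw [hy, Function.update_self]
  have hb3 : b 3 = 0 := by rw [hb, Function.update_self]
  -- the segment
  have hseg : ∀ t ∈ Icc (0 : ℝ) 1, b + (t : ℂ) • (y - b) ∈ Metric.ball b ε := by
    intro t ht
    rw [Metric.mem_ball, dist_eq_norm, add_sub_cancel_left, norm_smul, Complex.norm_real,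
      Real.norm_eq_abs, abs_of_nonneg ht.1]
    rw [Metric.mem_ball, dist_eq_norm] at hx
    calc t * ‖y - b‖ ≤ 1 * ‖y - b‖ := by
          exact mul_le_mul_of_nonneg_right ht.2 (norm_nonneg _)
      _ < ε := by rw [one_mul]; exact hx
  have hderiv : ∀ t ∈ Icc (0 : ℝ) 1,
      HasDerivAt (fun t : ℝ => e.symm (b + (t : ℂ) • (y - b)) 3) 0 t := by
    intro t ht
    have hm := hseg t ht
    have h1 : HasFDerivAt e.symm (fderiv ℂ e.symm (b + (t : ℂ) • (y - b)))
        (b + (t : ℂ) • (y - b)) :=
      (hsa _ (hball hm).1).differentiableAt.hasFDerivAt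
    have h2 : HasDerivAt (fun t : ℝ => b + (t : ℂ) • (y - b)) (y - b) t := by
      have h3 : HasDerivAt (fun t : ℝ => (t : ℂ)) 1 t := Complex.ofRealCLM.hasDerivAt
      have h4 := (h3.smul_const (y - b)).const_add b
      rwa [one_smul] at h4
    have h5 := (h1.restrictScalars ℝ).comp_hasDerivAt t h2
    have h6 := (hasDerivAt_pi.1 h5) 3
    have h7 : (fderiv ℂ e.symm (b + (t : ℂ) • (y - b)) (y - b)) 3 = 0 := by
      refine hder _ hm ?_ _ ?_
      · simp [hb3, hy3]
      · simp [hb3, hy3]
    have h8 : ((fderiv ℂ e.symm (b + (t : ℂ) • (y - b))).restrictScalars ℝ (y - b)) 3 = 0 := h7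
    rw [h8] at h6
    exact h6
  have hconst := constant_of_has_deriv_right_zero
    (f := fun t : ℝ => e.symm (b + (t : ℂ) • (y - b)) 3) (a := 0) (b := 1)
    (fun t ht => (hderiv t ht).continuousAt.continuousWithinAt)
    (fun t ht => (hderiv t ⟨ht.1, ht.2.le⟩).hasDerivWithinAt) 1 ⟨zero_le_one, le_refl _⟩
  simp only [Complex.ofReal_one, one_smul, Complex.ofReal_zero, zero_smul, add_zero,
    add_sub_cancel, hsb] at hconst
  have hyt : y ∈ e.target := (hball hx).1
  obtain ⟨h1, h2⟩ := hinv y hyt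
  have h3 : e.symm y = x := by
    ext k
    by_cases hk : k = 3
    · rw [hk, hconst, hx3]
    · rw [h2 k hk, hy, Function.update_of_ne hk]
  rw [h3, hy3] at h1
  exact h1

end Pool.Agent.KO
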