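import Pool.Agent.KO.E.SpecL
import Pool.Agent.KO.C.Inv

/-!
# Project KO, block E: coordinates adapted to a smooth divisor (row L5a)
-/

set_option autoImplicit false

namespace Pool.Agent.KO

open Set Filter Topology

namespace L5

/-- The adapted functions. -/
def fF (c : (Fin 4 → ℂ) → ℂ) (q : Fin 4 → ℂ) (a b : Fin 4) (y : Fin 4 → ℂ) : Fin 4 → ℂ :=
  ![y a - q a, y b - q b, y 3 - q 3, c y]

theorem hasFDerivAt_coord (i : Fin 4) (y : Fin 4 → ℂ) : HasFDerivAt (fun y : Fin 4 → ℂ => y i)
    (ContinuousLinearMap.proj (R := ℂ) (φ := fun _ : Fin 4 => ℂ) i) y :=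
  (ContinuousLinearMap.proj (R := ℂ) (φ := fun _ : Fin 4 => ℂ) i).hasFDerivAt

theorem fF_hasFDerivAt {c : (Fin 4 → ℂ) → ℂ} (q : Fin 4 → ℂ) (a b : Fin 4) {y : Fin 4 → ℂ}
    (hc : AnalyticAt ℂ c y) : HasFDerivAt (fF c q a b)
      (ContinuousLinearMap.pi ![ContinuousLinearMap.proj a, ContinuousLinearMap.proj b,
        ContinuousLinearMap.proj 3, fderiv ℂ c y]) y := by
  rw [hasFDerivAt_pi']
  intro i
  fin_cases i
  · exact (hasFDerivAt_coord a y).sub_const (q a)
  · exact (hasFDerivAt_coord b y).sub_const (q b)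
  · exact (hasFDerivAt_coord 3 y).sub_const (q 3)
  · exact hc.differentiableAt.hasFDerivAt

theorem an_coord (i : Fin 4) (y : Fin 4 → ℂ) : AnalyticAt ℂ (fun y : Fin 4 → ℂ => y i) y :=
  (ContinuousLinearMap.proj (R := ℂ) (φ := fun _ : Fin 4 => ℂ) i).analyticAt y

theorem fF_an {c : (Fin 4 → ℂ) → ℂ} (q : Fin 4 → ℂ) (a b : Fin 4) {y : Fin 4 → ℂ}
    (hc : AnalyticAt ℂ c y) : AnalyticAt ℂ (fF c q a b) y := by
  rw [analyticAt_pi_iff]
  intro i
  fin_cases i
  · exact (an_coord a y).sub analyticAt_const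
  · exact (an_coord b y).sub analyticAt_const
  · exact (an_coord 3 y).sub analyticAt_const
  · exact hc

/-- The two other indices. -/
def oa (k : Fin 3) : Fin 4 := ![1, 0, 0] k

/-- The two other indices. -/
def ob (k : Fin 3) : Fin 4 := ![2, 2, 1] k

theorem cover (k : Fin 3) (i : Fin 4) (h1 : i ≠ oa k) (h2 : i ≠ ob k) (h3 : i ≠ 3) :
    i = k.castSucc := by
  revert h1 h2 h3
  revert k i
  decide

theorem det_ne {c : (Fin 4 → ℂ) → ℂ} (q : Fin 4 → ℂ) (k : Fin 3) (hc : AnalyticAt ℂ c q)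
    (hk : fderiv ℂ c q (Pi.single k.castSucc 1) ≠ 0) :
    (fderiv ℂ (fF c q (oa k) (ob k)) q).det ≠ 0 := by
  intro h0
  have h1 := LinearMap.bot_lt_ker_of_det_eq_zero (f := (fderiv ℂ (fF c q (oa k) (ob k)) q :
    (Fin 4 → ℂ) →ₗ[ℂ] (Fin 4 → ℂ))) h0
  obtain ⟨v, hv, hv0⟩ := Submodule.exists_mem_ne_zero_of_ne_bot h1.ne'
  rw [LinearMap.mem_ker] at hv
  have hv' : fderiv ℂ (fF c q (oa k) (ob k)) q v = 0 := hv
  rw [(fF_hasFDerivAt q (oa k) (ob k) hc).fderiv] at hv'
  have e0 : v (oa k) = 0 := congrFun hv' 0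
  have e1 : v (ob k) = 0 := congrFun hv' 1
  have e2 : v 3 = 0 := congrFun hv' 2
  have e3 : fderiv ℂ c q v = 0 := congrFun hv' 3
  have hs : v = v k.castSucc • (Pi.single k.castSucc 1 : Fin 4 → ℂ) := by
    funext i
    by_cases hi : i = k.castSucc
    · subst hi; simp
    · have hz : v i = 0 := by
        by_contra hne
        apply hi
        apply cover k i
        · rintro rfl; exact hne e0
        · rintro rfl; exact hne e1
        · rintro rfl; exact hne e2
      rw [hz, Pi.smul_apply, Pi.single_eq_of_ne hi]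
      simp
  rw [hs, map_smul, smul_eq_mul] at e3
  rcases mul_eq_zero.1 e3 with h4 | h4
  · apply hv0
    rw [hs, h4, zero_smul]
  · exact hk h4

theorem clm4_apply (L : (Fin 4 → ℂ) →L[ℂ] ℂ) (v : Fin 4 → ℂ) :
    L v = ∑ m : Fin 3, v m.castSucc * L (Pi.single m.castSucc 1) + v 3 * L (Pi.single 3 1) := by
  have h := LinearMap.pi_apply_eq_sum_univ (L : (Fin 4 → ℂ) →ₗ[ℂ] ℂ) v
  have e : ∀ k : Fin 4, (fun j : Fin 4 => if k = j then (1 : ℂ) else 0) = Pi.single k 1 := by
    intro k
    funext j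
    rw [Pi.single_apply]
    by_cases hk : k = j
    · rw [if_pos hk, if_pos hk.symm]
    · rw [if_neg hk, if_neg fun h => hk h.symm]
  simp only [e, smul_eq_mul] at h
  rw [Fin.sum_univ_castSucc] at h
  exact h

end L5

open L5

/-- Row L5a. -/
theorem spL5a : SpL5a := by
  intro c q k hc hq hk
  obtain ⟨R, hqs, hR, hRa, hRs⟩ := C.inv_det (fF_an q (oa k) (ob k) hc) (det_ne q k hc hk)
  -- shrink so that `c` is analytic on the source
  set T : Set (Fin 4 → ℂ) := {y | AnalyticAt ℂ c y} with hT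
  have hTo : IsOpen T := isOpen_analyticAt ℂ c
  set R' := R.restrOpen T hTo with hR'
  have hs' : R'.source = R.source ∩ T := R.restrOpen_source T hTo
  have hRx : ∀ x, R' x = fF c q (oa k) (ob k) x := hR
  have hq' : q ∈ R'.source := by
    rw [hs']
    exact ⟨hqs, hc⟩
  have h0 : R' q = 0 := by
    rw [hRx]
    funext i
    fin_cases i
    · exact sub_self _
    · exact sub_self _
    · exact sub_self _
    · exact hq
  have hsymm : ∀ x, R'.symm x = R.symm x := fun _ => rfl
  have htgt : ∀ x ∈ R'.target, x ∈ R.target := by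
    intro x hx
    have h1 := R'.map_target hx
    rw [hs'] at h1
    have h2 := R'.right_inv hx
    rw [← h2]
    exact R.map_source h1.1
  have han : AnalyticOnNhd ℂ R'.symm R'.symm.source := by
    intro x hx
    exact hRs x (htgt x hx)
  -- the relations
  have key : ∀ x ∈ R'.target, fF c q (oa k) (ob k) (R'.symm x) = x := by
    intro x hx
    rw [← hRx]
    exact R'.right_inv hx
  have hcan : ∀ x ∈ R'.target, AnalyticAt ℂ c (R'.symm x) := by
    intro x hx
    have h1 := R'.map_target hx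
    rw [hs'] at h1
    exact h1.2
  have e3 : ∀ x ∈ R'.target, R'.symm x 3 = q 3 + x 2 := by
    intro x hx
    have h1 : R'.symm x 3 - q 3 = x 2 := congrFun (key x hx) 2
    rw [← h1]; ring
  have ec : ∀ x ∈ R'.target, c (R'.symm x) = x 3 := fun x hx => congrFun (key x hx) 3
  -- the derivative of the inverse
  have hder : ∀ x ∈ R'.target, DifferentiableAt ℂ R'.symm x := fun x hx =>
    (han x hx).differentiableAt
  have hinj : ∀ x ∈ R'.target, ∀ v, fderiv ℂ R'.symm x v = 0 → v = 0 := by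
    intro x hx v hv
    have h1 : (fun y => fF c q (oa k) (ob k) (R'.symm y)) =ᶠ[𝓝 x] id := by
      filter_upwards [R'.open_target.mem_nhds hx] with y hy
      exact key y hy
    have h2 : fderiv ℂ (fun y => fF c q (oa k) (ob k) (R'.symm y)) x =
        ContinuousLinearMap.id ℂ _ := by
      rw [h1.fderiv_eq]
      exact fderiv_id
    have h3 : HasFDerivAt (fun y => fF c q (oa k) (ob k) (R'.symm y))
        ((fderiv ℂ (fF c q (oa k) (ob k)) (R'.symm x)).comp (fderiv ℂ R'.symm x)) x :=
      ((fF_hasFDerivAt q (oa k) (ob k) (hcan x hx)).differentiableAt.hasFDerivAt).comp x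
        (hder x hx).hasFDerivAt
    rw [h3.fderiv] at h2
    have h4 := congrArg (fun L : (Fin 4 → ℂ) →L[ℂ] (Fin 4 → ℂ) => L v) h2
    simp only [ContinuousLinearMap.comp_apply, ContinuousLinearMap.id_apply, hv, map_zero] at h4
    exact h4.symm
  have hthird : ∀ x ∈ R'.target, ∀ v, fderiv ℂ R'.symm x v 3 = v 2 := by
    intro x hx v
    have h1 : (fun y => R'.symm y 3) =ᶠ[𝓝 x] fun y => q 3 + y 2 := by
      filter_upwards [R'.open_target.mem_nhds hx] with y hy
      exact e3 y hy
    have h2 : fderiv ℂ (fun y => R'.symm y 3) x v = v 2 := by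
      rw [h1.fderiv_eq]
      have h3 := ((hasFDerivAt_coord 2 x).const_add (q 3)).fderiv
      rw [h3]
      rfl
    have h3 : HasFDerivAt (fun y => R'.symm y 3)
        ((ContinuousLinearMap.proj (R := ℂ) (φ := fun _ : Fin 4 => ℂ) 3).comp
          (fderiv ℂ R'.symm x)) x :=
      (hasFDerivAt_coord 3 (R'.symm x)).comp x (hder x hx).hasFDerivAt
    rw [h3.fderiv] at h2
    exact h2
  set M : (Fin 4 → ℂ) → Matrix (Fin 3) (Fin 3) ℂ := fun x m l =>
    fderiv ℂ R'.symm x (Pi.single (![0, 1, 3] l) 1) m.castSucc with hM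
  refine ⟨R'.symm, fun x => (M x).det, ?_, ?_, han, ?_, ?_⟩
  · show (0 : Fin 4 → ℂ) ∈ R'.target
    rw [← h0]
    exact R'.map_source hq'
  · rw [← h0]
    exact R'.left_inv hq'
  · intro x hx
    have hent : ∀ m l : Fin 3, AnalyticAt ℂ (fun x => M x m l) x := by
      intro m l
      have h1 : AnalyticAt ℂ (fderiv ℂ R'.symm) x := (han x hx).fderiv
      have h2 : AnalyticAt ℂ (fun x => fderiv ℂ R'.symm x (Pi.single (![0, 1, 3] l) 1)) x :=
        ((ContinuousLinearMap.apply ℂ (Fin 4 → ℂ) (Pi.single (![0, 1, 3] l) 1 : Fin 4 → ℂ)).analyticAt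
          _).comp h1
      exact (an_coord m.castSucc _).comp h2
    have h3 : (fun x => (M x).det) = fun x => M x 0 0 * M x 1 1 * M x 2 2 -
        M x 0 0 * M x 1 2 * M x 2 1 - M x 0 1 * M x 1 0 * M x 2 2 + M x 0 1 * M x 1 2 * M x 2 0 +
        M x 0 2 * M x 1 0 * M x 2 1 - M x 0 2 * M x 1 1 * M x 2 0 := by
      funext x
      exact Matrix.det_fin_three _
    rw [h3]
    exact (((((((hent 0 0).mul (hent 1 1)).mul (hent 2 2)).sub
      (((hent 0 0).mul (hent 1 2)).mul (hent 2 1))).sub
      (((hent 0 1).mul (hent 1 0)).mul (hent 2 2))).add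
      (((hent 0 1).mul (hent 1 2)).mul (hent 2 0))).add
      (((hent 0 2).mul (hent 1 0)).mul (hent 2 1))).sub
      (((hent 0 2).mul (hent 1 1)).mul (hent 2 0))
  · intro x hx
    have hx' : x ∈ R'.target := hx
    refine ⟨e3 x hx', ec x hx', ?_, ?_⟩
    · intro hdet
      obtain ⟨v, hv0, hv⟩ := Matrix.exists_mulVec_eq_zero_iff.2 hdet
      apply hv0
      have h1 : fderiv ℂ R'.symm x ![v 0, v 1, 0, v 2] = 0 := by
        have h2 : (![v 0, v 1, 0, v 2] : Fin 4 → ℂ) = ∑ l : Fin 3, v l •
            (Pi.single (![0, 1, 3] l) 1 : Fin 4 → ℂ) := by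
          funext i
          rw [Fin.sum_univ_three]
          fin_cases i <;> simp
        funext i
        refine Fin.lastCases ?_ (fun m => ?_) i
        · exact hthird x hx' _
        · rw [h2, map_sum]
          have h3 := congrFun hv m
          rw [Matrix.mulVec, dotProduct] at h3
          rw [Finset.sum_apply]
          simp only [map_smul, Pi.smul_apply, smul_eq_mul]
          rw [Pi.zero_apply] at h3 ⊢
          rw [← h3]
          refine Finset.sum_congr rfl fun l _ => ?_
          rw [mul_comm]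
      have h2 := hinj x hx' _ h1
      funext l
      fin_cases l
      · exact congrFun h2 0
      · exact congrFun h2 1
      · exact congrFun h2 3
    · intro W hW
      have hJ : J4 (fun i => W i ∘ R'.symm) x = ((Matrix.of fun i m : Fin 3 =>
          fderiv ℂ (W i.castSucc) (R'.symm x) (Pi.single m.castSucc 1)) * M x).det := by
        unfold J4
        congr 1
        funext i l
        have h1 : HasFDerivAt (W i.castSucc ∘ R'.symm)
            ((fderiv ℂ (W i.castSucc) (R'.symm x)).comp (fderiv ℂ R'.symm x)) x :=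
          ((hW i.castSucc).differentiableAt.hasFDerivAt).comp x (hder x hx').hasFDerivAt
        show fderiv ℂ (W i.castSucc ∘ R'.symm) x (Pi.single (![0, 1, 3] l) 1) = _
        rw [h1.fderiv, ContinuousLinearMap.comp_apply, clm4_apply, hthird x hx', Matrix.mul_apply]
        have h2 : (Pi.single (![0, 1, 3] l) 1 : Fin 4 → ℂ) 2 = 0 := by
          fin_cases l <;> simp
        rw [h2, zero_mul, add_zero]
        refine Finset.sum_congr rfl fun m _ => ?_
        rw [mul_comm]
        rfl
      rw [hJ, Matrix.det_mul, mul_comm]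
      rfl

end Pool.Agent.KO
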