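import Pool.Agent.KO.E.SpecL
import Pool.Agent.KO.E.Fib

/-!
# Block E, row D3: the inverse of local coordinates
-/

set_option autoImplicit false

namespace Pool.Agent.KO

open Set Filter Topology MvPolynomial

/-- Row D3. -/
theorem sp_Par : SpPar := by
  intro X _ O n c x hc V hV
  obtain ⟨U, hxU, hch⟩ := hc
  obtain ⟨s, hs, hs1, hs2⟩ := hch.exists_inv ⟨x, hxU⟩
  have hN : IsOpen (c '' U) := hch.isOpenΩ
  have hU' : IsOpen (U ∩ interior V) := hch.isOpen.inter isOpen_interior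
  have hsub : c '' (U ∩ interior V) ⊆ c '' U := image_mono inter_subset_left
  have hsU : ∀ ξ ∈ c '' (U ∩ interior V), s ξ ∈ U ∩ interior V := by
    rintro ξ ⟨y, hy, rfl⟩
    rw [hs1 y hy.1]
    exact hy
  have e : c '' (U ∩ interior V) = c '' U ∩ s ⁻¹' (U ∩ interior V) := by
    ext ξ
    constructor
    · intro h
      exact ⟨hsub h, hsU ξ h⟩
    · rintro ⟨h1, h2⟩
      exact ⟨s ξ, h2, (hs2 ξ h1).2⟩
  have hB : IsOpen (c '' (U ∩ interior V)) := by
    rw [e]
    exact hs.isOpen_inter_preimage hN hU'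
  have left : ∀ ξ ∈ c '' (U ∩ interior V), ∀ᶠ y in 𝓝 (s ξ),
      c y ∈ c '' (U ∩ interior V) ∧ s (c y) = y := by
    intro ξ hξ
    filter_upwards [hU'.mem_nhds (hsU ξ hξ)] with y hy
    exact ⟨⟨y, hy, rfl⟩, hs1 y hy.1⟩
  have right : ∀ ξ ∈ c '' (U ∩ interior V), c (s ξ) = ξ := fun ξ hξ => (hs2 ξ (hsub hξ)).2
  refine ⟨s, c '' (U ∩ interior V), ⟨hB, right, left, hs.mono hsub, ?_, ?_, ?_⟩,
    ⟨x, ⟨hxU, mem_interior_iff_mem_nhds.2 hV⟩, rfl⟩, hs1 x hxU,
    fun ξ hξ => interior_subset (hsU ξ hξ).2⟩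
  · intro W hW hWo
    have e2 : s '' W = (U ∩ interior V) ∩ c ⁻¹' W := by
      ext y
      constructor
      · rintro ⟨ξ, hξ, rfl⟩
        refine ⟨hsU ξ (hW hξ), ?_⟩
        rw [mem_preimage, right ξ (hW hξ)]
        exact hξ
      · rintro ⟨h1, h2⟩
        exact ⟨c y, h2, hs1 y h1.1⟩
    rw [e2]
    exact (hch.continuousOn.mono inter_subset_left).isOpen_inter_preimage hU' hWo
  · intro ξ hξ f
    have hcs : ContinuousAt s ξ := hs.continuousAt (hN.mem_nhds (hsub hξ))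
    rw [hch.hol (s ξ) (hsU ξ hξ).1 f, right ξ hξ]
    constructor
    · rintro ⟨F, hF, hf⟩
      refine hF.congr ?_
      filter_upwards [hcs.eventually hf, hB.mem_nhds hξ] with η h1 h2
      show F η = f (s η)
      rw [h1]
      show F η = F (c (s η))
      rw [right η h2]
    · intro hf
      refine ⟨f ∘ s, hf, ?_⟩
      filter_upwards [left ξ hξ] with y hy
      show f y = f (s (c y))
      rw [hy.2]
  · intro ξ hξ
    exact ⟨U, (hsU ξ hξ).1, hch⟩

end Pool.Agent.KO
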