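import Pool.Agent.KO.E.SpecL

/-!
# Project KO, block E, row M7: the sections are the homogeneous coordinates (helper25)
-/

set_option autoImplicit false

namespace Pool.Agent.KO

open Set Filter Topology MvPolynomial

/-- At a point with `z = 1` the homogenization is the polynomial. -/
theorem r7_evH {r : ℝ} (m : ℕ) (P : MvPolynomial (Fin 4) (AnR r)) (p : Fin 6 → ℂ)
    (h0 : p 0 = 1) : evH m P p = evQ P (affPt p) (p 5) := by
  unfold evH evQ
  by_cases h : ‖p 5‖ < r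
  · rw [dif_pos h, dif_pos h, MvPolynomial.eval₂_eq']
    refine Finset.sum_congr rfl fun a _ => ?_
    rw [h0, one_pow, one_mul]
  · rw [dif_neg h, dif_neg h]

/-- **Row M7.** -/
theorem sp_M7 : SpM7 := by
  intro F _ r N S b hI σ p hp hr2 hZ hne
  have hmem := hI.mem p hp
  set x := invS b p with hx
  set p0 : Flip.M1 := ⟨F.pt x, F.pt_mem hZ⟩ with hp0
  have hpi : F.pi1 p0 = x := F.pi1_pt hZ
  have h00 : p0.1 0 = 1 := F.pt_zero hZ
  have h05 : p0.1 5 = p.1.2 := (F.cX_five x).trans hmem.2.2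
  have haff : affPt p0.1 = F.aff x := rfl
  have hev : ∀ i, evH σ.m (σ.s i) p0.1 = evQ (σ.s i) (F.aff x) p.1.2 := by
    intro i
    rw [r7_evH _ _ _ h00, haff, h05]
  have hs : (fun i => evH σ.m (σ.s i) p0.1) ≠ 0 := by
    obtain ⟨i, hi⟩ := hne
    intro h
    apply hi
    rw [← hev i]
    exact congrFun h i
  have hxd : x ∈ {x | ‖F.g x‖ < r} \ b.A := ⟨hmem.2.1, hmem.1⟩
  have hd : F.pi1 p0 ∈ {x | ‖F.g x‖ < r} \ b.A := by rw [hpi]; exact hxd
  have h1 := σ.map p0 (by rw [h05]; exact hr2) hd hs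
  have h2 := hI.map p hp hxd
  have h3 : (⟨F.pi1 p0, hd⟩ : ({x | ‖F.g x‖ < r} \ b.A : Set F.Sp)) = ⟨x, hxd⟩ :=
    Subtype.ext hpi
  rw [h3] at h1
  have h4 : p.1.1 = Projectivization.mk ℂ (fun i => evH σ.m (σ.s i) p0.1) hs := by
    rw [← h1, ← h2]
  have h5 : Projectivization.mk ℂ (fun i => evH σ.m (σ.s i) p0.1) hs
      = Projectivization.mk ℂ p.1.1.rep p.1.1.rep_nonzero := by
    rw [Projectivization.mk_rep]
    exact h4.symm
  rw [Projectivization.mk_eq_mk_iff] at h5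
  obtain ⟨a, ha⟩ := h5
  refine ⟨(a : ℂ), a.ne_zero, fun i => ?_⟩
  rw [← hev i]
  exact (congrFun ha i).symm

end Pool.Agent.KO
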