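import Pool.Agent.KO.E.SpecL
import Pool.Agent.KO.C.Iden

/-!
# KO, block E, row L6: elements of the field of germs represented by functions
-/

set_option autoImplicit false

namespace Pool.Agent.KO

open Set Filter Topology MvPolynomial

theorem rp_closure {G : Set (Fin 4 → ℂ)} (hG : ∀ᶠ x in 𝓝 (0 : Fin 4 → ℂ), x ∈ closure G)
    {f : (Fin 4 → ℂ) → ℂ} (hf : AnalyticAt ℂ f 0)
    (h : ∀ᶠ x in 𝓝 (0 : Fin 4 → ℂ), x ∈ G → f x = 0) :
    ∀ᶠ x in 𝓝 (0 : Fin 4 → ℂ), f x = 0 := by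
  refine C.eq_of_closure (g := fun _ => (0 : ℂ))
    (hf.eventually_analyticAt.mono fun x hx => hx.continuousAt)
    (Eventually.of_forall fun _ => continuousAt_const) ?_
  filter_upwards [hG, h.eventually_nhds] with x hx hx2
  exact ((mem_closure_iff_frequently.1 hx).and_eventually hx2).mono fun y hy => hy.2 hy.1

theorem rp_one {r : ℝ} (t0 : Metric.ball (0 : ℂ) r) :
    toGE t0 (ofAn (fun _ => 1) analyticAt_const) = 1 := map_one (toGE t0)

theorem rp_mul {r : ℝ} (t0 : Metric.ball (0 : ℂ) r) {f g : (Fin 4 → ℂ) → ℂ}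
    (hf : AnalyticAt ℂ f 0) (hg : AnalyticAt ℂ g 0) :
    toGE t0 (ofAn (fun x => f x * g x) (hf.mul hg)) =
      toGE t0 (ofAn f hf) * toGE t0 (ofAn g hg) := by
  rw [← map_mul (toGE t0)]
  congr 1

theorem rp_add {r : ℝ} (t0 : Metric.ball (0 : ℂ) r) {f g : (Fin 4 → ℂ) → ℂ}
    (hf : AnalyticAt ℂ f 0) (hg : AnalyticAt ℂ g 0) :
    toGE t0 (ofAn (fun x => f x + g x) (hf.add hg)) =
      toGE t0 (ofAn f hf) + toGE t0 (ofAn g hg) := by
  rw [← map_add (toGE t0)]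
  congr 1

theorem rp_sub {r : ℝ} (t0 : Metric.ball (0 : ℂ) r) {f g : (Fin 4 → ℂ) → ℂ}
    (hf : AnalyticAt ℂ f 0) (hg : AnalyticAt ℂ g 0) :
    toGE t0 (ofAn (fun x => f x - g x) (hf.sub hg)) =
      toGE t0 (ofAn f hf) - toGE t0 (ofAn g hg) := by
  rw [← map_sub (toGE t0)]
  congr 1

theorem rp_zero {r : ℝ} (t0 : Metric.ball (0 : ℂ) r) {f : (Fin 4 → ℂ) → ℂ}
    (hf : AnalyticAt ℂ f 0) :
    toGE t0 (ofAn f hf) = 0 ↔ ∀ᶠ x in 𝓝 (0 : Fin 4 → ℂ), f x = 0 := by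
  rw [map_eq_zero_iff _ (toGE_inj t0)]
  exact ofAn_zero

theorem rp_ne {b b' : (Fin 4 → ℂ) → ℂ} (hb : AnalyticAt ℂ b 0) (hb' : AnalyticAt ℂ b' 0)
    (h : ¬ ∀ᶠ x in 𝓝 (0 : Fin 4 → ℂ), b x = 0)
    (h' : ¬ ∀ᶠ x in 𝓝 (0 : Fin 4 → ℂ), b' x = 0) :
    ¬ ∀ᶠ x in 𝓝 (0 : Fin 4 → ℂ), b x * b' x = 0 := fun hc =>
  (C.germ_mul hb hb' hc).elim h h'

/-- Row L6. -/
theorem sp_Rep6 : SpRep6 := by
  intro r t0 G _ hG
  refine ⟨?_, ?_, ?_, ?_, ?_, ?_⟩
  · intro f hf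
    refine ⟨fun _ => 1, f, analyticAt_const, hf, ?_, ?_, ?_⟩
    · intro h
      exact one_ne_zero h.self_of_nhds
    · rw [rp_one, one_mul]
    · exact Eventually.of_forall fun x _ => one_mul _
  · rintro e e' w w' ⟨b, h, hb, hh, hne, he, hw⟩ ⟨b', h', hb', hh', hne', he', hw'⟩
    refine ⟨fun x => b x * b' x, fun x => b' x * h x + b x * h' x, hb.mul hb',
      (hb'.mul hh).add (hb.mul hh'), rp_ne hb hb' hne hne', ?_, ?_⟩
    · rw [rp_mul t0 hb hb', rp_add t0 (f := fun x => b' x * h x) (g := fun x => b x * h' x)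
        (hb'.mul hh) (hb.mul hh'), rp_mul t0 hb' hh, rp_mul t0 hb hh', ← he, ← he']
      ring
    · filter_upwards [hw, hw'] with x hx hx' hxG
      rw [← hx hxG, ← hx' hxG]
      ring
  · rintro e e' w w' ⟨b, h, hb, hh, hne, he, hw⟩ ⟨b', h', hb', hh', hne', he', hw'⟩
    refine ⟨fun x => b x * b' x, fun x => b' x * h x - b x * h' x, hb.mul hb',
      (hb'.mul hh).sub (hb.mul hh'), rp_ne hb hb' hne hne', ?_, ?_⟩
    · rw [rp_mul t0 hb hb', rp_sub t0 (f := fun x => b' x * h x) (g := fun x => b x * h' x)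
        (hb'.mul hh) (hb.mul hh'), rp_mul t0 hb' hh, rp_mul t0 hb hh', ← he, ← he']
      ring
    · filter_upwards [hw, hw'] with x hx hx' hxG
      rw [← hx hxG, ← hx' hxG]
      ring
  · rintro e e' w w' ⟨b, h, hb, hh, hne, he, hw⟩ ⟨b', h', hb', hh', hne', he', hw'⟩
    refine ⟨fun x => b x * b' x, fun x => h x * h' x, hb.mul hb', hh.mul hh',
      rp_ne hb hb' hne hne', ?_, ?_⟩
    · rw [rp_mul t0 hb hb', rp_mul t0 hh hh', ← he, ← he']
      ring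
    · filter_upwards [hw, hw'] with x hx hx' hxG
      rw [← hx hxG, ← hx' hxG]
      ring
  · rintro e w ⟨b, h, hb, hh, hne, he, hw⟩ hw0
    have h1 : ∀ᶠ x in 𝓝 (0 : Fin 4 → ℂ), h x = 0 := by
      refine rp_closure hG hh ?_
      filter_upwards [hw] with x hx hxG
      rw [← hx hxG, hw0 x hxG, mul_zero]
    rw [(rp_zero t0 hh).2 h1] at he
    exact (mul_eq_zero.1 he).resolve_left fun h2 => hne ((rp_zero t0 hb).1 h2)
  · rintro e w ⟨b, h, hb, hh, hne, he, hw⟩ hw0 rfl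
    rw [mul_zero] at he
    have h1 := (rp_zero t0 hh).1 he.symm
    refine hne (rp_closure hG hb ?_)
    filter_upwards [hw, h1] with x hx hx0 hxG
    have h2 := hx hxG
    rw [hx0] at h2
    exact (mul_eq_zero.1 h2).resolve_right (hw0 x hxG)

end Pool.Agent.KO
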