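import Pool.Agent.KO.E.SpecL

/-!
# Project KO, block E, row L9: derivatives of represented functions (helper78)
-/

set_option autoImplicit false

namespace Pool.Agent.KO

open Set Filter Topology MvPolynomial

theorem rd_gen {r : ℝ} [Fact (0 < r)] (t0 : Metric.ball (0 : ℂ) r) (G : Set (Fin 4 → ℂ))
    (hG : IsOpen G) (δ : Derivation (Kr r) (GE t0) (GE t0)) (k : Fin 4) (q : (Fin 4 → ℂ) → ℂ)
    (hq : AnalyticAt ℂ q 0)
    (hδ : ∀ f (hf : AnalyticAt ℂ f 0), δ (toGE t0 (ofAn f hf)) =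
      toGE t0 (ofAn (fun x => q x * pd k f x) (hq.mul (pd_an hf))))
    (e : GE t0) (w : (Fin 4 → ℂ) → ℂ) (he : Rep t0 G e w) (hw : ∀ x ∈ G, AnalyticAt ℂ w x) :
    Rep t0 G (δ e) (fun x => q x * pd k w x) := by
  obtain ⟨b, h, hb, hh, hne, heq, hev⟩ := he
  have h1 := congrArg δ heq
  rw [Derivation.leibniz, hδ, hδ, smul_eq_mul, smul_eq_mul] at h1
  refine ⟨fun x => b x * b x,
    fun x => b x * (q x * pd k h x) - h x * (q x * pd k b x), hb.mul hb,
    (hb.mul (hq.mul (pd_an hh))).sub (hh.mul (hq.mul (pd_an hb))), ?_, ?_, ?_⟩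
  · intro hc
    exact hne (hc.mono fun x hx => mul_self_eq_zero.1 hx)
  · have e1 : toGE t0 (ofAn (fun x => b x * b x) (hb.mul hb)) =
        toGE t0 (ofAn b hb) * toGE t0 (ofAn b hb) := by
      rw [ofAn_mul, map_mul]
    have e2 : toGE t0 (ofAn (fun x => b x * (q x * pd k h x) - h x * (q x * pd k b x))
        ((hb.mul (hq.mul (pd_an hh))).sub (hh.mul (hq.mul (pd_an hb))))) =
        toGE t0 (ofAn b hb) * toGE t0 (ofAn (fun x => q x * pd k h x) (hq.mul (pd_an hh))) -
        toGE t0 (ofAn h hh) * toGE t0 (ofAn (fun x => q x * pd k b x) (hq.mul (pd_an hb))) := by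
      rw [← map_mul, ← map_mul, ← map_sub]
      rfl
    rw [e1, e2, ← h1, ← heq]
    ring
  · filter_upwards [eventually_eventually_nhds.2 hev, hb.eventually_analyticAt] with x hx hbx hxG
    have hwx := hw x hxG
    have h2 : (fun y => b y * w y) =ᶠ[𝓝 x] h := by
      filter_upwards [hx, hG.mem_nhds hxG] with y hy hyG
      exact hy hyG
    have h3 := h2.fderiv_eq (𝕜 := ℂ)
    rw [fderiv_fun_mul hbx.differentiableAt hwx.differentiableAt] at h3
    have h4 := congrArg (fun L : (Fin 4 → ℂ) →L[ℂ] ℂ => L (Pi.single k 1)) h3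
    simp only [ContinuousLinearMap.add_apply, ContinuousLinearMap.smul_apply, smul_eq_mul] at h4
    have h5 : b x * w x = h x := h2.self_of_nhds
    show b x * b x * (q x * pd k w x) = b x * (q x * pd k h x) - h x * (q x * pd k b x)
    unfold pd
    rw [← h4, ← h5]
    ring

theorem sp_RepD : SpRepD := by
  intro r _ t0 G hG _ D hD e w he hw
  have h1 : AnalyticAt ℂ (fun _ : Fin 4 → ℂ => (1 : ℂ)) 0 := analyticAt_const
  have h3 : AnalyticAt ℂ (fun x : Fin 4 → ℂ => x 3) 0 :=
    (ContinuousLinearMap.proj (R := ℂ) (φ := fun _ : Fin 4 => ℂ) 3).analyticAt 0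
  refine ⟨?_, ?_, ?_⟩
  · have h := rd_gen t0 G hG (D.δ 0) 0 _ h1 (fun f hf => by
      rw [hD.d0]
      congr 1
      rw [ofAn_eq]
      exact Eventually.of_forall fun x => (one_mul _).symm) e w he hw
    simpa only [one_mul] using h
  · have h := rd_gen t0 G hG (D.δ 1) 1 _ h1 (fun f hf => by
      rw [hD.d1]
      congr 1
      rw [ofAn_eq]
      exact Eventually.of_forall fun x => (one_mul _).symm) e w he hw
    simpa only [one_mul] using h
  · exact rd_gen t0 G hG (D.δ 2) 3 _ h3 (fun f hf => by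
      rw [hD.d2 f hf h3, ← map_mul]
      rfl) e w he hw

end Pool.Agent.KO
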