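import Pool.Agent.KO.E.SpecL

/-!
# Project KO, block E, row L10: the determinant (helper27)
-/

set_option autoImplicit false

namespace Pool.Agent.KO

open Set Filter Topology MvPolynomial

/-- The function of `Rep` may be replaced by an equal function. -/
theorem rj_congr {r : ℝ} {t0 : Metric.ball (0 : ℂ) r} {G : Set (Fin 4 → ℂ)} {e : GE t0}
    {w w' : (Fin 4 → ℂ) → ℂ} (h : Rep t0 G e w) (hw : ∀ x, w x = w' x) : Rep t0 G e w' := by
  have : w = w' := funext hw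
  rwa [← this]

theorem sp_RepJ : SpRepJ := by
  intro hRD r hr t0 G hG hF D hD a W ha hW
  have hd : ∀ i : Fin 3, Rep t0 G (D.δ 0 (a i.castSucc)) (pd 0 (W i.castSucc)) ∧
      Rep t0 G (D.δ 1 (a i.castSucc)) (pd 1 (W i.castSucc)) ∧
      Rep t0 G (D.δ 2 (a i.castSucc)) (fun x => x 3 * pd 3 (W i.castSucc) x) :=
    fun i => hRD r t0 G hG hF D hD _ _ (ha _) (hW _)
  obtain ⟨h00, h01, h02⟩ := hd 0
  obtain ⟨h10, h11, h12⟩ := hd 1
  obtain ⟨h20, h21, h22⟩ := hd 2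
  rw [Matrix.det_fin_three]
  simp only [Matrix.of_apply]
  have m1 := hF.mul _ _ _ _ (hF.mul _ _ _ _ h00 h11) h22
  have m2 := hF.mul _ _ _ _ (hF.mul _ _ _ _ h00 h12) h21
  have m3 := hF.mul _ _ _ _ (hF.mul _ _ _ _ h01 h10) h22
  have m4 := hF.mul _ _ _ _ (hF.mul _ _ _ _ h01 h12) h20
  have m5 := hF.mul _ _ _ _ (hF.mul _ _ _ _ h02 h10) h21
  have m6 := hF.mul _ _ _ _ (hF.mul _ _ _ _ h02 h11) h20
  have s := hF.sub _ _ _ _ (hF.add _ _ _ _ (hF.add _ _ _ _ (hF.sub _ _ _ _ (hF.sub _ _ _ _ m1 m2) m3) m4) m5) m6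
  refine rj_congr s ?_
  intro x
  simp only [J4, Matrix.det_fin_three, pd, Matrix.cons_val_zero, Matrix.cons_val_one,
    Matrix.cons_val]
  ring

end Pool.Agent.KO
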