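import Pool.Agent.KO.E.SpecL

/-!
# Project KO, block E, row L7: values of polynomials at represented functions
-/

set_option autoImplicit false

namespace Pool.Agent.KO

open Set Filter Topology MvPolynomial

theorem rq_congr {r : ℝ} {t0 : Metric.ball (0 : ℂ) r} {G : Set (Fin 4 → ℂ)} {e : GE t0}
    {w w' : (Fin 4 → ℂ) → ℂ} (h : Rep t0 G e w) (hw : ∀ᶠ x in 𝓝 0, w x = w' x) :
    Rep t0 G e w' := by
  obtain ⟨b, c, hb, hc, hne, he, hG⟩ := h
  refine ⟨b, c, hb, hc, hne, he, ?_⟩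
  filter_upwards [hG, hw] with x h1 h2 hx
  rw [← h2]
  exact h1 hx

theorem rq_add {r : ℝ} {σ : Type} (P Q : MvPolynomial σ (AnR r)) (x : σ → ℂ) (s : ℂ) :
    evQ (P + Q) x s = evQ P x s + evQ Q x s := by
  unfold evQ
  split_ifs
  · exact eval₂_add _ _
  · simp

theorem rq_mul {r : ℝ} {σ : Type} (P Q : MvPolynomial σ (AnR r)) (x : σ → ℂ) (s : ℂ) :
    evQ (P * Q) x s = evQ P x s * evQ Q x s := by
  unfold evQ
  split_ifs
  · exact eval₂_mul _ _
  · simp

theorem rq_C {r : ℝ} {σ : Type} (φ : AnR r) (x : σ → ℂ) (s : ℂ)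
    (hs : s ∈ Metric.ball (0 : ℂ) r) : evQ (C φ : MvPolynomial σ (AnR r)) x s = fe φ s := by
  unfold evQ
  rw [dif_pos (mem_ball_zero_iff.1 hs), eval₂_C]
  exact fe_eq φ ⟨s, hs⟩

theorem rq_X {r : ℝ} {σ : Type} (i : σ) (x : σ → ℂ) (s : ℂ)
    (hs : s ∈ Metric.ball (0 : ℂ) r) : evQ (X i : MvPolynomial σ (AnR r)) x s = x i := by
  unfold evQ
  rw [dif_pos (mem_ball_zero_iff.1 hs), eval₂_X]

theorem sp_RepQ : SpRepQ := by
  intro r _ t0 G hF n a W hW P
  induction P using MvPolynomial.induction_on with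
  | C φ =>
    rw [map_C, aeval_C, algMap_GE]
    refine rq_congr (hF.an _ (embA_an t0 φ)) ?_
    filter_upwards [ev_t0 t0] with x hx
    exact (rq_C φ _ _ hx).symm
  | add P Q hP hQ =>
    rw [map_add, map_add]
    refine rq_congr (hF.add _ _ _ _ hP hQ) (Eventually.of_forall fun x => ?_)
    exact (rq_add P Q _ _).symm
  | mul_X P i hP =>
    rw [map_mul, map_mul, map_X, aeval_X]
    refine rq_congr (hF.mul _ _ _ _ hP (hW i)) ?_
    filter_upwards [ev_t0 t0] with x hx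
    rw [rq_mul, rq_X i _ _ hx]

end Pool.Agent.KO
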