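import Pool.Agent.KO.E.SpecL
import Pool.Agent.KO.C.Ext
import Pool.Agent.KO.C.Iden

/-!
# Project KO, block E, row M1: Riemann's extension theorem in two steps
-/

set_option autoImplicit false

namespace Pool.Agent.KO

open Set Filter Topology MvPolynomial

/-- The good points are dense near a point of `B`. -/
theorem rm_dense {n : ℕ} {good : Set (Fin n → ℂ)} {ξ : Fin n → ℂ} (h : Thin2 good ξ) :
    ∃ᶠ w in 𝓝 ξ, w ∈ good := by
  obtain ⟨b, hb, hb0, hev⟩ := h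
  intro hcon
  have h1 : ∀ᶠ w in 𝓝 ξ, ∀ᶠ w' in 𝓝 w, w' ∉ good := hcon.eventually_nhds
  obtain ⟨w, hw, hw1, hw2⟩ := ((not_eventually.1 hb0).and_eventually (hev.and h1)).exists
  obtain ⟨b', -, hb0', hev'⟩ := hw1 hw
  obtain ⟨w', hw', hw1', hw2'⟩ :=
    ((not_eventually.1 hb0').and_eventually (hev'.and hw2)).exists
  exact hw2' (hw1' hw')

/-- The function `U` extends to `y`. -/
def rm_P {n : ℕ} (good : Set (Fin n → ℂ)) (U : (Fin n → ℂ) → ℂ) (y : Fin n → ℂ) : Prop :=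
  ∃ g : (Fin n → ℂ) → ℂ, AnalyticAt ℂ g y ∧ ∀ᶠ z in 𝓝 y, z ∈ good → U z = g z

/-- The first step. -/
theorem rm_one {n : ℕ} {good : Set (Fin n → ℂ)} {U : (Fin n → ℂ) → ℂ}
    (hU : ∀ ξ ∈ good, AnalyticAt ℂ U ξ) {y : Fin n → ℂ}
    (hM : ∃ M : ℝ, ∀ᶠ z in 𝓝 y, z ∈ good → ‖U z‖ ≤ M) {b : (Fin n → ℂ) → ℂ}
    (hb : AnalyticAt ℂ b y) (hb0 : ¬ ∀ᶠ z in 𝓝 y, b z = 0)
    (hev : ∀ᶠ z in 𝓝 y, b z ≠ 0 → z ∈ good) : rm_P good U y := by
  obtain ⟨M, hM⟩ := hM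
  obtain ⟨g, hg, hgU⟩ := C.riemann_loc (f := U) hb hb0
    (hev.mono fun z hz h => hU z (hz h))
    ⟨M, by filter_upwards [hev, hM] with z h1 h2 h3 using h2 (h1 h3)⟩
  refine ⟨g, hg, ?_⟩
  filter_upwards [hg.eventually_analyticAt, C.freq_ne hb hb0, hgU.eventually_nhds]
    with z h1 h2 h3 h4
  refine C.eq_of_frequently (hU z h4).continuousAt h1.continuousAt ?_
  exact (h2.and_eventually h3).mono fun w hw => (hw.2 hw.1).symm

open Classical in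
/-- The extension. -/
noncomputable def rm_V {n : ℕ} (good : Set (Fin n → ℂ)) (U : (Fin n → ℂ) → ℂ) (y : Fin n → ℂ) :
    ℂ := if h : rm_P good U y then h.choose y else 0

theorem rm_V_eq {n : ℕ} {good : Set (Fin n → ℂ)} {U : (Fin n → ℂ) → ℂ} {y : Fin n → ℂ}
    (hd : ∃ᶠ w in 𝓝 y, w ∈ good) (h : rm_P good U y) {g : (Fin n → ℂ) → ℂ}
    (hg : ContinuousAt g y) (hgU : ∀ᶠ z in 𝓝 y, z ∈ good → U z = g z) :
    rm_V good U y = g y := by
  have h1 : rm_V good U y = h.choose y := by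
    unfold rm_V
    rw [dif_pos h]
  rw [h1]
  refine C.eq_of_frequently h.choose_spec.1.continuousAt hg ?_
  exact (hd.and_eventually (h.choose_spec.2.and hgU)).mono fun w hw => by
    rw [← hw.2.1 hw.1, hw.2.2 hw.1]

theorem rm_V_an {n : ℕ} {good : Set (Fin n → ℂ)} {U : (Fin n → ℂ) → ℂ} {y : Fin n → ℂ}
    (hd : ∀ᶠ z in 𝓝 y, ∃ᶠ w in 𝓝 z, w ∈ good) (h : ∀ᶠ z in 𝓝 y, rm_P good U z) :
    AnalyticAt ℂ (rm_V good U) y := by
  obtain ⟨g, hg, hgU⟩ := h.self_of_nhds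
  refine hg.congr ?_
  filter_upwards [hd, h, hg.eventually_analyticAt, hgU.eventually_nhds] with z h1 h2 h3 h4
  exact (rm_V_eq h1 h2 h3.continuousAt h4).symm

theorem rm_V_le {n : ℕ} {good : Set (Fin n → ℂ)} {U : (Fin n → ℂ) → ℂ} {y : Fin n → ℂ}
    (hd : ∃ᶠ w in 𝓝 y, w ∈ good) (h : rm_P good U y) {M : ℝ}
    (hM : ∀ᶠ z in 𝓝 y, z ∈ good → ‖U z‖ ≤ M) : ‖rm_V good U y‖ ≤ M := by
  obtain ⟨g, hg, hgU⟩ := h
  rw [rm_V_eq hd ⟨g, hg, hgU⟩ hg.continuousAt hgU]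
  refine le_of_tendsto_of_frequently (hg.continuousAt.norm : Tendsto (fun z => ‖g z‖) (𝓝 y) _) ?_
  exact (hd.and_eventually (hM.and hgU)).mono fun w hw => by
    rw [← hw.2.2 hw.1]
    exact hw.2.1 hw.1

theorem sp_M1 : SpM1 := by
  intro n B good hB hgo hgB hthin U hU hM ξ hξ
  obtain ⟨b, hb, hb0, hev⟩ := hthin ξ hξ
  obtain ⟨M, hMξ⟩ := hM ξ hξ
  have hBξ : ∀ᶠ y in 𝓝 ξ, y ∈ B := hB.eventually_mem hξ
  -- `U` extends to the points where `b ≠ 0`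
  have hP : ∀ᶠ y in 𝓝 ξ, b y ≠ 0 → rm_P good U y := by
    filter_upwards [hev, hBξ] with y h1 h2 h3
    obtain ⟨b', hb', hb0', hev'⟩ := h1 h3
    exact rm_one hU (hM y h2) hb' hb0' hev'
  have hd : ∀ᶠ y in 𝓝 ξ, ∃ᶠ w in 𝓝 y, w ∈ good := hBξ.mono fun y hy => rm_dense (hthin y hy)
  have hVan : ∀ᶠ y in 𝓝 ξ, b y ≠ 0 → AnalyticAt ℂ (rm_V good U) y := by
    filter_upwards [hP.eventually_nhds, hd.eventually_nhds, hb.eventually_analyticAt]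
      with y h1 h2 h3 h4
    refine rm_V_an h2 ?_
    filter_upwards [h1, h3.continuousAt.eventually_ne h4] with z hz hz2 using hz hz2
  have hVle : ∀ᶠ y in 𝓝 ξ, b y ≠ 0 → ‖rm_V good U y‖ ≤ M := by
    filter_upwards [hP, hd, hMξ.eventually_nhds] with y h1 h2 h3 h4
    exact rm_V_le h2 (h1 h4) h3
  obtain ⟨h, hh, hhV⟩ := C.riemann_loc (f := rm_V good U) hb hb0 hVan ⟨M, hVle⟩
  refine ⟨h, hh, ?_⟩
  filter_upwards [hh.eventually_analyticAt, C.freq_ne hb hb0, hhV.eventually_nhds,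
    hP.eventually_nhds, hd.eventually_nhds] with y h1 h2 h3 h4 h5 hy
  refine C.eq_of_frequently (hU y hy).continuousAt h1.continuousAt ?_
  refine (h2.and_eventually (h3.and (h4.and (h5.and (hgo.eventually_mem hy))))).mono ?_
  rintro w ⟨hw0, hw3, hw4, hw5, hwg⟩
  rw [hw3 hw0]
  exact (rm_V_eq hw5 (hw4 hw0) (hU w hwg).continuousAt
    (Eventually.of_forall fun z _ => rfl)).symm

end Pool.Agent.KO
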