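import Pool.Agent.KO.E.SpecL
import Pool.Agent.KO.E.PSpace

/-!
# Project KO, block E: the structure sheaf of `ℙ^N × ℂ` (row D6, helper92)
-/

set_option autoImplicit false

namespace Pool.Agent.KO

open Set Filter Topology MvPolynomial

theorem sp_ShfPx : SpShfP := by
  intro N
  have hrep : ∀ x : PN N × ℂ, x = (Projectivization.mk ℂ x.1.rep x.1.rep_nonzero, x.2) := by
    intro x
    rw [x.1.mk_rep]
  have hev : ∀ (x : PN N × ℂ) (P : PN N × ℂ → Prop), (∀ᶠ p in 𝓝 x, P p) ↔
      ∀ᶠ q in 𝓝 (x.1.rep, x.2), ∀ h : q.1 ≠ 0, P (Projectivization.mk ℂ q.1 h, q.2) := by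
    intro x P
    conv_lhs => rw [hrep x]
    exact eventually_mk_iff
  refine ⟨?_, ?_, ?_, ?_⟩
  · rintro f f' x hff' ⟨F, hF, hf⟩
    refine ⟨F, hF, ?_⟩
    filter_upwards [hf, (hev x _).1 hff'] with q h1 h2 h
    rw [← h1 h]
    exact (h2 h).symm
  · intro f x hf
    exact stdP_cont hf
  · rintro f x ⟨F, hF, hf⟩
    rw [hev]
    filter_upwards [hF.eventually_analyticAt, hf.eventually_nhds] with q h1 h2 h
    exact stdP_iff.2 ⟨F, h1, h2⟩
  · intro n f x H hf hH
    choose F hF hfF using hf
    have hval : ∀ i, f i x = F i (x.1.rep, x.2) := by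
      intro i
      have := (hfF i).self_of_nhds x.1.rep_nonzero
      rw [← hrep x] at this
      exact this
    refine ⟨fun q => H (fun i => F i q), ?_, ?_⟩
    · refine AnalyticAt.fun_comp (f := fun q i => F i q) ?_ (AnalyticAt.pi hF)
      have : (fun i => F i (x.1.rep, x.2)) = fun i => f i x := funext fun i => (hval i).symm
      rw [this]
      exact hH
    · filter_upwards [eventually_all.2 hfF] with q hq h
      congr 1
      funext i
      exact hq i h

end Pool.Agent.KO
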