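import Pool.Agent.KO.E.SpecL

/-!
# Block E, row D4: nowhere dense analytic sets at manifold points
-/

set_option autoImplicit false

namespace Pool.Agent.KO

open Set Filter Topology MvPolynomial

/-- If a property holds near `ξ` in the chart, it holds near `χ ξ`. -/
theorem th_push {X : Type} [TopologicalSpace X] {O : Shf X} {n : ℕ} {c : X → Fin n → ℂ}
    {χ : (Fin n → ℂ) → X} {B : Set (Fin n → ℂ)} (h : IsPar O c χ B) {ξ : Fin n → ℂ} (hξ : ξ ∈ B)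
    {p : X → Prop} (hp : ∀ᶠ y in 𝓝 ξ, p (χ y)) : ∀ᶠ x in 𝓝 (χ ξ), p x := by
  obtain ⟨U, hU, hUo, hξU⟩ := eventually_nhds_iff.1 hp
  have h1 : IsOpen (χ '' (U ∩ B)) := h.opn _ inter_subset_right (hUo.inter h.isOpen)
  filter_upwards [h1.mem_nhds ⟨ξ, ⟨hξU, hξ⟩, rfl⟩] with x hx
  obtain ⟨y, hy, rfl⟩ := hx
  exact hU y hy.1

/-- Row D4. -/
theorem sp_Thin : SpThin := by
  intro X _ O _ n c χ B hpar Ω A hA ξ hξ hΩ hf
  obtain ⟨V, hV, hxV, k, Fn, hF, hAV⟩ := hA.2 (χ ξ) hΩ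
  have hcont : ContinuousAt χ ξ := hpar.cont.continuousAt (hpar.isOpen.mem_nhds hξ)
  have hV' : ∀ᶠ y in 𝓝 ξ, χ y ∈ V := hcont.eventually (hV.mem_nhds hxV)
  by_cases hall : ∀ i, ∀ᶠ y in 𝓝 ξ, Fn i (χ y) = 0
  · exfalso
    apply hf
    have h1 : ∀ᶠ y in 𝓝 ξ, ∀ i, Fn i (χ y) = 0 := eventually_all.2 hall
    have h2 : ∀ᶠ x in 𝓝 (χ ξ), ∀ i, Fn i x = 0 := th_push hpar hξ h1
    filter_upwards [h2, hV.mem_nhds hxV] with x hx hxV hxA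
    have h3 : x ∈ A ∩ V := by
      rw [hAV]
      exact ⟨hxV, hx⟩
    exact hxA h3.1
  · obtain ⟨i, hi⟩ := not_forall.1 hall
    refine ⟨Fn i ∘ χ, (hpar.hol ξ hξ (Fn i)).1 (hF i _ hxV), hi, ?_⟩
    filter_upwards [hV'] with y hy hb hyA
    have h3 : χ y ∈ A ∩ V := ⟨hyA, hy⟩
    rw [hAV] at h3
    exact hb (h3.2 i)

end Pool.Agent.KO
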