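import Pool.Agent.KO.E.SpecL
import Pool.Agent.KO.A.Ev
import Pool.Agent.KO.Xa.Basic

/-!
# Block E, row M2: a holomorphic function on `X` whose zeros are the bad points
-/

set_option autoImplicit false

namespace Pool.Agent.KO

open Set Filter Topology MvPolynomial

theorem tx_evP (F : Flip) {r : ℝ} (P : MvPolynomial (Fin 4) (AnR r)) (x : F.Sp) :
    evP P (F.pt x) = evQ P (F.aff x) (F.g x) := by
  unfold evP
  have h1 : affPt (F.pt x) = F.aff x := rfl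
  have h2 : F.pt x 5 = F.g x := F.cX_five x
  rw [h1, h2]

theorem tx_ev (F : Flip) {r : ℝ} {m : ℕ} (P : MvPolynomial (Fin 4) (AnR r))
    (hP : ∀ a ∈ P.support, Finsupp.weight wAff a ≤ m) (x : F.Sp) (hx : x ∈ F.ZX)
    (p : Fin 6 → ℂ) (hp : p 0 ≠ 0) (h : ∀ i, F.cX i x = p i / p 0 ^ wgt i) :
    evH m P p = p 0 ^ m * evQ P (F.aff x) (F.g x) := by
  have h1 : p = act (p 0) (F.pt x) := by
    funext i
    rw [Flip.act_apply, Flip.pt, h i]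
    field_simp
  have h2 : evH m P (act (p 0) (F.pt x)) = p 0 ^ m * evQ P (F.aff x) (F.g x) := by
    rw [sp_ev.actH r m P hP _ hp, sp_ev.oneH r m P _ (F.pt_zero hx), tx_evP]
  exact (congrArg (evH m P) h1).trans h2

theorem tx_iff (F : Flip) {r : ℝ} {m : ℕ} (P : MvPolynomial (Fin 4) (AnR r))
    (hP : ∀ a ∈ P.support, Finsupp.weight wAff a ≤ m) (x : F.Sp)
    (p : Fin 6 → ℂ) (hp : x ∈ F.ZX ↔ p 0 ≠ 0) (h : ∀ i, F.cX i x = p i / p 0 ^ wgt i) :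
    (p 0 ≠ 0 ∧ p 4 ≠ 0 ∧ evH m P p ≠ 0) ↔
      (x ∈ F.ZX ∧ F.cX 4 x ≠ 0 ∧ evQ P (F.aff x) (F.g x) ≠ 0) := by
  rw [hp]
  refine and_congr_right fun h0 => ?_
  rw [tx_ev F P hP x (hp.2 h0) p h0 h, h 4]
  refine and_congr ?_ ?_
  · rw [ne_eq, ne_eq, div_eq_zero_iff, not_or]
    exact ⟨fun h4 => ⟨h4, pow_ne_zero _ h0⟩, fun h4 => h4.1⟩
  · rw [ne_eq, ne_eq, mul_eq_zero, not_or]
    exact ⟨fun h4 => h4.2, fun h4 => ⟨pow_ne_zero _ h0, h4⟩⟩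

/-- The function on the cone. -/
noncomputable def tx_h1 {r : ℝ} (m : ℕ) (s : MvPolynomial (Fin 4) (AnR r)) (i : Fin 6)
    (p : Fin 6 → ℂ) : ℂ :=
  (p 0 * p 4 * evH m s p) ^ wgt i / p i ^ (34 + m)

/-- The function on the flip chart. -/
noncomputable def tx_h2 (F : Flip) {r : ℝ} (m : ℕ) (s : MvPolynomial (Fin 4) (AnR r)) (j : Fin 5)
    (q : Fin 5 → ℂ) : ℂ :=
  (F.Φ q 0 * F.Φ q 4 * evH m s (F.Φ q)) ^ (j.1 + 1) * q j ^ (34 + m)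

theorem tx_inv1 {r : ℝ} {m : ℕ} (s : MvPolynomial (Fin 4) (AnR r))
    (hs : ∀ a ∈ s.support, Finsupp.weight wAff a ≤ m) (i : Fin 6) (l : ℂ) (hl : l ≠ 0)
    (p : Fin 6 → ℂ) : tx_h1 m s i (act l p) = tx_h1 m s i p := by
  unfold tx_h1
  rw [sp_ev.actH r m s hs l hl p, act_zero', act_four', Flip.act_apply]
  have e1 : (l * p 0 * (l ^ 33 * p 4) * (l ^ m * evH m s p)) ^ wgt i =
      l ^ (wgt i * (34 + m)) * (p 0 * p 4 * evH m s p) ^ wgt i := by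
    have : l * p 0 * (l ^ 33 * p 4) * (l ^ m * evH m s p) =
        l ^ (34 + m) * (p 0 * p 4 * evH m s p) := by
      rw [pow_add]
      ring
    rw [this, mul_pow, ← pow_mul, mul_comm (34 + m)]
  have e2 : (l ^ wgt i * p i) ^ (34 + m) = l ^ (wgt i * (34 + m)) * p i ^ (34 + m) := by
    rw [mul_pow, ← pow_mul]
  rw [e1, e2, mul_div_mul_left _ _ (pow_ne_zero _ hl)]

theorem tx_wgt' (j : Fin 5) (hj : j.1 < 3) (l : ℂ) (q : Fin 5 → ℂ) :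
    act' l q j = (l ^ (j.1 + 1))⁻¹ * q j := by
  rcases j with ⟨j, hj5⟩
  have hj' : j < 3 := hj
  interval_cases j
  · rw [show (⟨0, hj5⟩ : Fin 5) = 0 from rfl, act'_zero']
    simp
  · rw [show (⟨1, hj5⟩ : Fin 5) = 1 from rfl, act'_one']
    rfl
  · rw [show (⟨2, hj5⟩ : Fin 5) = 2 from rfl, act'_two']
    rfl

theorem tx_inv2 (F : Flip) {r : ℝ} {m : ℕ} (s : MvPolynomial (Fin 4) (AnR r))
    (hs : ∀ a ∈ s.support, Finsupp.weight wAff a ≤ m) (j : Fin 5) (hj : j.1 < 3) (l : ℂ)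
    (hl : l ≠ 0) (q : Fin 5 → ℂ) (hq : q ∈ Dom F.ρ) :
    tx_h2 F m s j (act' l q) = tx_h2 F m s j q := by
  unfold tx_h2
  rw [F.Φact l hl q hq, sp_ev.actH r m s hs l hl, act_zero', act_four', tx_wgt' j hj]
  have e1 : (l * F.Φ q 0 * (l ^ 33 * F.Φ q 4) * (l ^ m * evH m s (F.Φ q))) ^ (j.1 + 1) =
      l ^ ((j.1 + 1) * (34 + m)) * (F.Φ q 0 * F.Φ q 4 * evH m s (F.Φ q)) ^ (j.1 + 1) := by
    have : l * F.Φ q 0 * (l ^ 33 * F.Φ q 4) * (l ^ m * evH m s (F.Φ q)) =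
        l ^ (34 + m) * (F.Φ q 0 * F.Φ q 4 * evH m s (F.Φ q)) := by
      rw [pow_add]
      ring
    rw [this, mul_pow, ← pow_mul, mul_comm (34 + m)]
  have e2 : ((l ^ (j.1 + 1))⁻¹ * q j) ^ (34 + m) =
      (l ^ ((j.1 + 1) * (34 + m)))⁻¹ * q j ^ (34 + m) := by
    rw [mul_pow, inv_pow, ← pow_mul]
  rw [e1, e2]
  have hne : l ^ ((j.1 + 1) * (34 + m)) ≠ 0 := pow_ne_zero _ hl
  calc l ^ ((j.1 + 1) * (34 + m)) * (F.Φ q 0 * F.Φ q 4 * evH m s (F.Φ q)) ^ (j.1 + 1) *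
        ((l ^ ((j.1 + 1) * (34 + m)))⁻¹ * q j ^ (34 + m))
      = (l ^ ((j.1 + 1) * (34 + m)) * (l ^ ((j.1 + 1) * (34 + m)))⁻¹) *
        ((F.Φ q 0 * F.Φ q 4 * evH m s (F.Φ q)) ^ (j.1 + 1) * q j ^ (34 + m)) := by ring
    _ = _ := by rw [mul_inv_cancel₀ hne, one_mul]

theorem tx_wgt_ne {i : Fin 6} (hi : i ≠ 5) : wgt i ≠ 0 := by
  fin_cases i
  · decide
  · decide
  · decide
  · decide
  · decide
  · exact absurd rfl hi

theorem sp_M2 : SpM2 := by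
  intro F hX r s m hs x hx
  have hw : wgt 4 = 33 := rfl
  rcases hX.desc.cover x with ⟨i, hi, hxi⟩ | ⟨⟨j, hj, hxj⟩, -⟩
  · refine ⟨F.desc1 (tx_h1 m s i), ?_, ?_⟩
    · obtain ⟨p, rfl, hpi⟩ := hxi
      refine hX.desc.h1 _ (fun l hl p => tx_inv1 s hs i l hl p) p ?_
      have hr : ‖p.1 5‖ < r := hx
      refine AnalyticAt.div ?_ ((Flip.an_coord i p.1).pow _) (pow_ne_zero _ hpi)
      exact (((Flip.an_coord 0 p.1).mul (Flip.an_coord 4 p.1)).mul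
        (sp_ev.anH r m s p.1 hr)).pow _
    · filter_upwards [(hX.desc.open1 i).mem_nhds hxi] with y hy
      obtain ⟨p, rfl, hpi⟩ := hy
      rw [hX.desc.v1 _ (fun l hl p => tx_inv1 s hs i l hl p) p,
        ← tx_iff F s hs (F.pi1 p) p.1 (F.mem_ZX_pi1 p) fun i => F.cX_pi1 i p]
      unfold tx_h1
      rw [ne_eq, div_eq_zero_iff, pow_eq_zero_iff (tx_wgt_ne hi), mul_eq_zero, mul_eq_zero]
      have h1 : ¬ p.1 i ^ (34 + m) = 0 := pow_ne_zero _ hpi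
      tauto
  · refine ⟨F.desc2 (tx_h2 F m s j), ?_, ?_⟩
    · obtain ⟨q, rfl, hqj⟩ := hxj
      refine hX.desc.h2 _ (fun l hl q hq => tx_inv2 F s hs j hj l hl q hq) q ?_
      have hr : ‖F.Φ q.1 5‖ < r := hx
      have hΦ : AnalyticAt ℂ F.Φ q.1 := F.an_Φ q.2.1
      refine AnalyticAt.mul ?_ ((Flip.an_coord j q.1).pow _)
      refine (((F.an 0 q.1 q.2.1).mul (F.an 4 q.1 q.2.1)).mul ?_).pow _
      exact AnalyticAt.fun_comp (f := F.Φ) (sp_ev.anH r m s (F.Φ q.1) hr) hΦ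
    · filter_upwards [(hX.desc.open2 j).mem_nhds hxj] with y hy
      obtain ⟨q, rfl, hqj⟩ := hy
      have hz : F.pi2 q ∈ F.ZX ↔ F.Φ q.1 0 ≠ 0 := by
        rw [F.Φz]
        exact F.mem_ZX_pi2 q
      rw [hX.desc.v2 _ (fun l hl q hq => tx_inv2 F s hs j hj l hl q hq) q,
        ← tx_iff F s hs (F.pi2 q) (F.Φ q.1) hz fun i => F.cX_pi2 i q]
      unfold tx_h2
      rw [ne_eq, mul_eq_zero, pow_eq_zero_iff (Nat.succ_ne_zero _), mul_eq_zero, mul_eq_zero]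
      have h1 : ¬ q.1 j ^ (34 + m) = 0 := pow_ne_zero _ hqj
      tauto

end Pool.Agent.KO
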