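import Pool.Agent.KO.E.SpecL

/-!
# Project KO, block E, row L11: the coordinate of the disc is transcendental
-/

set_option autoImplicit false

namespace Pool.Agent.KO

open Set Filter Topology MvPolynomial

theorem tR_transcendental_int (r : ℝ) [h : Fact (0 < r)] (p : Polynomial ℤ) (hp : p ≠ 0) :
    Polynomial.eval₂ (Int.castRingHom (AnR r)) (tR r) p ≠ 0 := by
  intro h0
  have h1 : ∀ s : Metric.ball (0 : ℂ) r,
      Polynomial.eval₂ (Int.castRingHom ℂ) (s : ℂ) p = 0 := by
    intro s
    have h2 := congrArg (evR s) h0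
    rw [Polynomial.hom_eval₂, map_zero] at h2
    have h3 : (evR s).comp (Int.castRingHom (AnR r)) = Int.castRingHom ℂ :=
      Subsingleton.elim _ _
    rw [h3] at h2
    exact h2
  have h2 : (p.map (Int.castRingHom ℂ)) = 0 := by
    refine Polynomial.eq_zero_of_infinite_isRoot _ ?_
    refine Set.Infinite.mono (s := Metric.ball (0 : ℂ) r) ?_
      (infinite_of_mem_nhds (0 : ℂ) (Metric.ball_mem_nhds 0 h.out))
    intro s hs
    show Polynomial.IsRoot _ _
    rw [Polynomial.IsRoot.def, Polynomial.eval_map]
    exact h1 ⟨s, hs⟩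
  exact hp ((Polynomial.map_eq_zero_iff (Int.castRingHom ℂ).injective_int).1 h2)

theorem transcendental_of_int {K : Type} [Field K] [Algebra ℚ K] (x : K)
    (h : ∀ p : Polynomial ℤ, p ≠ 0 → Polynomial.eval₂ (Int.castRingHom K) x p ≠ 0) :
    Transcendental ℚ x := by
  intro hx
  obtain ⟨p, hp, h0⟩ := (IsFractionRing.isAlgebraic_iff ℤ ℚ K).2 hx
  exact h p hp h0

/-- The coordinate of the disc is transcendental over `ℚ`. -/
theorem tK_transcendental (r : ℝ) [Fact (0 < r)] : Transcendental ℚ (tK r) := by
  refine transcendental_of_int _ fun p hp h0 => tR_transcendental_int r p hp ?_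
  apply IsFractionRing.injective (AnR r) (Kr r)
  rw [map_zero, ← h0, Polynomial.hom_eval₂]
  congr 1
  exact Subsingleton.elim _ _

/-- Row L11. -/
theorem spTrans : SpTrans := fun r _ => tK_transcendental r

end Pool.Agent.KO
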