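import Pool.Agent.KO.E.LocM
import Pool.Agent.KO.E.Kap
import Pool.Agent.KO.E.L0
import Pool.Agent.KO.E.L1
import Pool.Agent.KO.E.L1bx
import Pool.Agent.KO.E.L3
import Pool.Agent.KO.E.L5a
import Pool.Agent.KO.E.Rep
import Pool.Agent.KO.E.RepQ
import Pool.Agent.KO.E.GermF
import Pool.Agent.KO.E.RepD
import Pool.Agent.KO.E.RepJ
import Pool.Agent.KO.E.Trans
import Pool.Agent.KO.E.Hor
import Pool.Agent.KO.E.Par
import Pool.Agent.KO.E.Thin
import Pool.Agent.KO.E.ResAn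
import Pool.Agent.KO.E.ShfPx
import Pool.Agent.KO.E.CJac
import Pool.Agent.KO.E.JDet
import Pool.Agent.KO.E.Riem2
import Pool.Agent.KO.E.ThinX
import Pool.Agent.KO.E.DenG
import Pool.Agent.KO.E.DenT
import Pool.Agent.KO.E.InvF
import Pool.Agent.KO.E.RelM
import Pool.Agent.KO.E.Bdd
import Pool.Agent.KO.E.G1
import Pool.Agent.KO.E.G2
import Pool.Agent.KO.E.G3
import Pool.Agent.KO.E.G4
import Pool.Agent.KO.E.G5
import Pool.Agent.KO.E.G6
import Pool.Agent.KO.E.Mer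

/-!
# Project KO, block E: the parts L, M, D (helper92)
-/

set_option autoImplicit false

namespace Pool.Agent.KO

/-- The local theorem, from KEYM. -/
theorem spLoc_of (hk : SpKeym) : SpLoc :=
  sp_Loc sp_L0 sp_L0b sp_L1 sp_L1bx sp_L3 spL5a hk sp_Rep6 sp_RepQ spGerm sp_RepD sp_RepJ
    spTrans spHor

/-- The result of the parts L, M, D, from KEYM and the results of the blocks A and B. -/
theorem spKap_of (hk : SpKeym) (hF : SpDenF) (hD : SpDen) (hB : SpB) : SpKap :=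
  sp_Kap (spLoc_of hk) sp_Par sp_Thin sp_ResAn sp_ShfPx sp_CJac sp_JDet sp_L0b sp_M1 sp_M2 hF hD
    sp_M3 sp_M3b sp_M6 sp_M7 sp_M8 sp_G1 sp_G2 sp_G3 sp_G4 sp_G5 sp_G6 hB sp_M10

end Pool.Agent.KO
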