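import Pool.Agent.KO.E.JacSpec

/-!
# Block E, part R: the Jacobian determinant in the chart `A₁ = 1` (row R3)
-/

set_option autoImplicit false

namespace Pool.Agent.KO

open Set Filter Topology

theorem clm5_apply (L : (Fin 5 → ℂ) →L[ℂ] ℂ) (v : Fin 5 → ℂ) :
    L v = v 0 * L (Pi.single 0 1) + v 1 * L (Pi.single 1 1) + v 2 * L (Pi.single 2 1) +
      v 3 * L (Pi.single 3 1) + v 4 * L (Pi.single 4 1) := by
  have h := LinearMap.pi_apply_eq_sum_univ (L : (Fin 5 → ℂ) →ₗ[ℂ] ℂ) v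
  simp only [Fin.sum_univ_five, smul_eq_mul] at h
  have e : ∀ k : Fin 5, (fun j : Fin 5 => if k = j then (1 : ℂ) else 0) = Pi.single k 1 := by
    intro k
    funext j
    rw [Pi.single_apply]
    by_cases hk : k = j
    · rw [if_pos hk, if_pos hk.symm]
    · rw [if_neg hk, if_neg fun h => hk h.symm]
  rw [e, e, e, e, e] at h
  exact h

namespace Flip

variable (F : Flip)

/-- Euler's relations. -/
theorem euler (i : Fin 6) {q : Fin 5 → ℂ} (hq : q ∈ Dom F.ρ) :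
    fderiv ℂ (fun q => F.Φ q i) q (fun k => (wgt' k : ℂ) * q k) = wgt i * F.Φ q i := by
  have h1 : HasDerivAt (fun l : ℂ => act' l q) (fun k => (wgt' k : ℂ) * q k) 1 := by
    rw [hasDerivAt_pi]
    intro k
    have h2 : HasDerivAt (fun l : ℂ => l ^ wgt' k * q k) ((wgt' k : ℂ) * q k) 1 := by
      have h2 := (hasDerivAt_zpow (wgt' k) (1 : ℂ) (Or.inl one_ne_zero)).mul_const (q k)
      simpa using h2
    exact h2
  have h3 : act' 1 q = q := by
    funext k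
    simp [act']
  have h4 : HasDerivAt (fun l : ℂ => F.Φ (act' l q) i)
      (fderiv ℂ (fun q => F.Φ q i) q (fun k => (wgt' k : ℂ) * q k)) 1 := by
    have h5 : HasFDerivAt (fun q => F.Φ q i) (fderiv ℂ (fun q => F.Φ q i) q) (act' 1 q) := by
      rw [h3]
      exact (F.an i q hq).differentiableAt.hasFDerivAt
    exact h5.comp_hasDerivAt (1 : ℂ) h1
  have h6 : HasDerivAt (fun l : ℂ => l ^ wgt i * F.Φ q i) (wgt i * F.Φ q i) 1 := by
    have h7 := (hasDerivAt_pow (wgt i) (1 : ℂ)).mul_const (F.Φ q i)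
    simpa using h7
  have h8 : (fun l : ℂ => F.Φ (act' l q) i) =ᶠ[𝓝 1] fun l : ℂ => l ^ wgt i * F.Φ q i := by
    filter_upwards [continuousAt_id.eventually_ne (one_ne_zero (α := ℂ))] with l hl
    rw [F.Φact l hl q hq]
    rfl
  exact h4.unique (h6.congr_of_eventuallyEq h8)

/-- The chain rule along the graph of `ζ`. -/
theorem fderiv_graph (i : Fin 6) {ζ : (Fin 3 → ℂ) → ℂ} {b : Fin 3 → ℂ} (hζ : AnalyticAt ℂ ζ b)
    (hq : qB ζ b ∈ Dom F.ρ) :
    HasFDerivAt (fun b' => F.Φ (qB ζ b') i) ((fderiv ℂ (fun q => F.Φ q i) (qB ζ b)).comp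
      (ContinuousLinearMap.pi ![0, ContinuousLinearMap.proj 0, ContinuousLinearMap.proj 1,
        fderiv ℂ ζ b, ContinuousLinearMap.proj 2])) b := by
  have h1 : HasFDerivAt (qB ζ) (ContinuousLinearMap.pi ![0, ContinuousLinearMap.proj 0,
      ContinuousLinearMap.proj 1, fderiv ℂ ζ b, ContinuousLinearMap.proj 2]) b := by
    rw [hasFDerivAt_pi']
    intro k
    have e : ∀ k : Fin 3, HasFDerivAt (fun b' : Fin 3 → ℂ => b' k)
        (ContinuousLinearMap.proj (R := ℂ) (φ := fun _ : Fin 3 => ℂ) k) b := fun k =>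
      (ContinuousLinearMap.proj (R := ℂ) (φ := fun _ : Fin 3 => ℂ) k).hasFDerivAt
    fin_cases k
    · exact hasFDerivAt_const (1 : ℂ) b
    · exact e 0
    · exact e 1
    · exact hζ.differentiableAt.hasFDerivAt
    · exact e 2
  exact ((F.an i _ hq).differentiableAt.hasFDerivAt).comp b h1

theorem qB_mem {ζ : (Fin 3 → ℂ) → ℂ} {b : Fin 3 → ℂ} (k : Fin 3) :
    (ContinuousLinearMap.pi ![0, ContinuousLinearMap.proj 0, ContinuousLinearMap.proj 1,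
        fderiv ℂ ζ b, ContinuousLinearMap.proj 2] : (Fin 3 → ℂ) →L[ℂ] (Fin 5 → ℂ))
      (Pi.single k 1) = ![0, (Pi.single k 1 : Fin 3 → ℂ) 0, (Pi.single k 1 : Fin 3 → ℂ) 1,
        fderiv ℂ ζ b (Pi.single k 1), (Pi.single k 1 : Fin 3 → ℂ) 2] := by
  funext j
  fin_cases j <;> rfl

/-- The derivative of `Φ i` along the graph. -/
theorem graph_apply (i : Fin 6) {ζ : (Fin 3 → ℂ) → ℂ} {b : Fin 3 → ℂ} (hζ : AnalyticAt ℂ ζ b)
    (hq : qB ζ b ∈ Dom F.ρ) (k : Fin 3) :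
    fderiv ℂ (fun b' => F.Φ (qB ζ b') i) b (Pi.single k 1) =
      fderiv ℂ (fun q => F.Φ q i) (qB ζ b) (Pi.single (![1, 2, 4] k) 1) +
      fderiv ℂ ζ b (Pi.single k 1) *
        fderiv ℂ (fun q => F.Φ q i) (qB ζ b) (Pi.single 3 1) := by
  rw [(F.fderiv_graph i hζ hq).fderiv, ContinuousLinearMap.comp_apply, qB_mem, clm5_apply]
  fin_cases k
  · simp
  · simp
  · simp
    ring

/-- The derivative of the quotients. -/
theorem fB_apply {ζ : (Fin 3 → ℂ) → ℂ} {b : Fin 3 → ℂ} (hζ : AnalyticAt ℂ ζ b)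
    (hq : qB ζ b ∈ Dom F.ρ) (h0 : ζ b ≠ 0) (i : Fin 3) (k : Fin 3) :
    ζ b ^ (wgt (![1, 2, 3] i) + 1) * fderiv ℂ (F.fB ζ) b (Pi.single k 1) i =
      ζ b * fderiv ℂ (fun b' => F.Φ (qB ζ b') (![1, 2, 3] i)) b (Pi.single k 1) -
        wgt (![1, 2, 3] i) * F.Φ (qB ζ b) (![1, 2, 3] i) * fderiv ℂ ζ b (Pi.single k 1) := by
  have hg : ∀ j : Fin 6, DifferentiableAt ℂ (fun b' => F.Φ (qB ζ b') j) b := fun j =>
    (F.fderiv_graph j hζ hq).differentiableAt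
  have hz : (fun b' => F.Φ (qB ζ b') 0) = ζ := by
    funext b'
    rw [F.Φz]
    rfl
  have hinv : DifferentiableAt ℂ (fun b' => (ζ b')⁻¹) b :=
    (hζ.inv h0).differentiableAt
  have hcomp : ∀ j : Fin 3, DifferentiableAt ℂ (fun b' => F.fB ζ b' j) b := by
    intro j
    have e : (fun b' => F.fB ζ b' j) = fun b' => F.Φ (qB ζ b') (![1, 2, 3] j) *
        (ζ b')⁻¹ ^ wgt (![1, 2, 3] j) := by
      funext b'
      show F.Φ (qB ζ b') (![1, 2, 3] j) / F.Φ (qB ζ b') 0 ^ wgt (![1, 2, 3] j) = _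
      rw [congrFun hz b', inv_pow, div_eq_mul_inv]
    rw [e]
    exact (hg _).mul (hinv.pow _)
  have h1 : fderiv ℂ (F.fB ζ) b (Pi.single k 1) i =
      fderiv ℂ (fun b' => F.fB ζ b' i) b (Pi.single k 1) := by
    have h2 : fderiv ℂ (F.fB ζ) b =
        ContinuousLinearMap.pi fun j => fderiv ℂ (fun b' => F.fB ζ b' j) b :=
      fderiv_pi hcomp
    rw [h2]
    rfl
  rw [h1]
  set n := wgt (![1, 2, 3] i) with hn
  have h2 : (fun b' => ζ b' ^ n * F.fB ζ b' i) =ᶠ[𝓝 b] fun b' => F.Φ (qB ζ b') (![1, 2, 3] i) := by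
    filter_upwards [hζ.continuousAt.eventually_ne h0] with b' hb'
    show ζ b' ^ n * (F.Φ (qB ζ b') (![1, 2, 3] i) / F.Φ (qB ζ b') 0 ^ n) = _
    rw [congrFun hz b', mul_div_cancel₀ _ (pow_ne_zero _ hb')]
  have h3 := congrArg (fun L : (Fin 3 → ℂ) →L[ℂ] ℂ => L (Pi.single k 1)) h2.fderiv_eq
  rw [fderiv_fun_mul (hζ.differentiableAt.fun_pow n) (hcomp i)] at h3
  have h4 : fderiv ℂ (fun b' => ζ b' ^ n) b (Pi.single k 1) * ζ b =
      n * ζ b ^ n * fderiv ℂ ζ b (Pi.single k 1) := by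
    rw [fderiv_fun_pow n hζ.differentiableAt]
    simp only [_root_.smul_apply, smul_eq_mul]
    rcases Nat.eq_zero_or_pos n with hn0 | hn0
    · rw [hn0]; simp
    · obtain ⟨m, hm⟩ : ∃ m, n = m + 1 := ⟨n - 1, by omega⟩
      rw [hm]
      simp only [nsmul_eq_mul, Nat.add_sub_cancel]
      ring
  have h5 : ζ b ^ n * F.fB ζ b i = F.Φ (qB ζ b) (![1, 2, 3] i) := h2.self_of_nhds
  simp only [_root_.add_apply, _root_.smul_apply, smul_eq_mul] at h3
  rw [← h3, ← h5]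
  linear_combination (F.fB ζ b i) * h4 * (-1 : ℂ)

/-- The Jacobian determinant of `(u, w, x)` in the chart `A₁ = 1`. -/
theorem det_fB {ζ : (Fin 3 → ℂ) → ℂ} {b : Fin 3 → ℂ} (hζ : AnalyticAt ℂ ζ b)
    (hq : qB ζ b ∈ Dom F.ρ) (h0 : ζ b ≠ 0) (hT : ∀ᶠ b' in 𝓝 b, F.Φ (qB ζ b') 5 = 0) :
    (fderiv ℂ (F.fB ζ) b).det *
      (3 * ζ b ^ 34 * fderiv ℂ (fun q => F.Φ q 5) (qB ζ b) (Pi.single 3 1)) =
      - F.Φ (qB ζ b) 4 := by
  -- the matrix of the derivative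
  have hdet : (fderiv ℂ (F.fB ζ) b).det =
      Matrix.det (fun i k : Fin 3 => fderiv ℂ (F.fB ζ) b (Pi.single k 1) i) := by
    have h1 : (fderiv ℂ (F.fB ζ) b).det =
      LinearMap.det (fderiv ℂ (F.fB ζ) b : (Fin 3 → ℂ) →ₗ[ℂ] (Fin 3 → ℂ)) := rfl
    rw [h1, ← LinearMap.det_toMatrix']
    congr 1
  rw [hdet, Matrix.det_fin_three]
  -- entries
  have hB := F.fB_apply hζ hq h0
  have hG1 := F.graph_apply 1 hζ hq
  have hG3 := F.graph_apply 3 hζ hq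
  have hG5 := F.graph_apply 5 hζ hq
  have hTT : ∀ k : Fin 3, fderiv ℂ (fun b' => F.Φ (qB ζ b') 5) b (Pi.single k 1) = 0 := by
    intro k
    have h1 : (fun b' => F.Φ (qB ζ b') 5) =ᶠ[𝓝 b] fun _ => (0 : ℂ) := hT
    rw [h1.fderiv_eq]
    simp
  have e : ∀ i : Fin 6, fderiv ℂ (fun q => F.Φ q i) (qB ζ b)
      (fun k => (wgt' k : ℂ) * qB ζ b k) = wgt i * F.Φ (qB ζ b) i := fun i => F.euler i hq
  have hj := F.jacT _ hq
  rw [Matrix.det_fin_three] at hj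
  have hw : F.Φ (qB ζ b) 2 = b 2 := by rw [F.Φw]; rfl
  have g2 : ∀ k : Fin 3, fderiv ℂ (fun b' => F.Φ (qB ζ b') 2) b (Pi.single k 1) =
      (Pi.single k 1 : Fin 3 → ℂ) 2 := by
    intro k
    have h1 : (fun b' : Fin 3 → ℂ => F.Φ (qB ζ b') 2) = fun b' => b' 2 := by
      funext b'
      rw [F.Φw]; rfl
    rw [h1]
    have h2 : HasFDerivAt (fun b' : Fin 3 → ℂ => b' 2)
        (ContinuousLinearMap.proj (R := ℂ) (φ := fun _ : Fin 3 => ℂ) 2) b :=
      (ContinuousLinearMap.proj (R := ℂ) (φ := fun _ : Fin 3 => ℂ) 2).hasFDerivAt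
    rw [h2.fderiv]; rfl
  have B00 := hB 0 0
  have B01 := hB 0 1
  have B02 := hB 0 2
  have B10 := hB 1 0
  have B11 := hB 1 1
  have B12 := hB 1 2
  have B20 := hB 2 0
  have B21 := hB 2 1
  have B22 := hB 2 2
  have T0 := hTT 0
  have T1 := hTT 1
  have T2 := hTT 2
  have E5 := e 5
  have E1 := e 1
  have E3 := e 3
  rw [clm5_apply] at E5 E1 E3
  have w1 : wgt 1 = 5 := rfl
  have w2 : wgt 2 = 6 := rfl
  have w3 : wgt 3 = 22 := rfl
  have w5 : wgt 5 = 0 := rfl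
  have v0 : wgt' 0 = -1 := rfl
  have v1 : wgt' 1 = -2 := rfl
  have v2 : wgt' 2 = -3 := rfl
  have v3 : wgt' 3 = 1 := rfl
  have v4 : wgt' 4 = 6 := rfl
  have q0 : qB ζ b 0 = 1 := rfl
  have q1 : qB ζ b 1 = b 0 := rfl
  have q2 : qB ζ b 2 = b 1 := rfl
  have q3 : qB ζ b 3 = ζ b := rfl
  have q4 : qB ζ b 4 = b 2 := rfl
  have s0 : (Pi.single (0 : Fin 3) (1 : ℂ) : Fin 3 → ℂ) 2 = 0 := by simp
  have s1 : (Pi.single (1 : Fin 3) (1 : ℂ) : Fin 3 → ℂ) 2 = 0 := by simp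
  have s2 : (Pi.single (2 : Fin 3) (1 : ℂ) : Fin 3 → ℂ) 2 = 1 := by simp
  simp only [Matrix.cons_val_zero, Matrix.cons_val_one, Matrix.cons_val, hG1, hG3, hG5, g2, hw,
    w1, w2, w3, w5, v0, v1, v2, v3, v4, q0, q1, q2, q3, q4, s0, s1, s2]
    at B00 B01 B02 B10 B11 B12 B20 B21 B22 T0 T1 T2 E5 E1 E3 hj
  push_cast at B00 B01 B02 B10 B11 B12 B20 B21 B22 E5 E1 E3
  generalize fderiv ℂ (F.fB ζ) b (Pi.single 0 1) 0 = d00 at *
  generalize fderiv ℂ (F.fB ζ) b (Pi.single 1 1) 0 = d01 at *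
  generalize fderiv ℂ (F.fB ζ) b (Pi.single 2 1) 0 = d02 at *
  generalize fderiv ℂ (F.fB ζ) b (Pi.single 0 1) 1 = d10 at *
  generalize fderiv ℂ (F.fB ζ) b (Pi.single 1 1) 1 = d11 at *
  generalize fderiv ℂ (F.fB ζ) b (Pi.single 2 1) 1 = d12 at *
  generalize fderiv ℂ (F.fB ζ) b (Pi.single 0 1) 2 = d20 at *
  generalize fderiv ℂ (F.fB ζ) b (Pi.single 1 1) 2 = d21 at *
  generalize fderiv ℂ (F.fB ζ) b (Pi.single 2 1) 2 = d22 at *
  generalize fderiv ℂ (fun q => F.Φ q 1) (qB ζ b) (Pi.single 0 1) = p10 at *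
  generalize fderiv ℂ (fun q => F.Φ q 1) (qB ζ b) (Pi.single 1 1) = p11 at *
  generalize fderiv ℂ (fun q => F.Φ q 1) (qB ζ b) (Pi.single 2 1) = p12 at *
  generalize fderiv ℂ (fun q => F.Φ q 1) (qB ζ b) (Pi.single 3 1) = p13 at *
  generalize fderiv ℂ (fun q => F.Φ q 1) (qB ζ b) (Pi.single 4 1) = p14 at *
  generalize fderiv ℂ (fun q => F.Φ q 3) (qB ζ b) (Pi.single 0 1) = p30 at *
  generalize fderiv ℂ (fun q => F.Φ q 3) (qB ζ b) (Pi.single 1 1) = p31 at *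
  generalize fderiv ℂ (fun q => F.Φ q 3) (qB ζ b) (Pi.single 2 1) = p32 at *
  generalize fderiv ℂ (fun q => F.Φ q 3) (qB ζ b) (Pi.single 3 1) = p33 at *
  generalize fderiv ℂ (fun q => F.Φ q 3) (qB ζ b) (Pi.single 4 1) = p34 at *
  generalize fderiv ℂ (fun q => F.Φ q 5) (qB ζ b) (Pi.single 0 1) = p50 at *
  generalize fderiv ℂ (fun q => F.Φ q 5) (qB ζ b) (Pi.single 1 1) = p51 at *
  generalize fderiv ℂ (fun q => F.Φ q 5) (qB ζ b) (Pi.single 2 1) = p52 at *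
  generalize fderiv ℂ (fun q => F.Φ q 5) (qB ζ b) (Pi.single 3 1) = p53 at *
  generalize fderiv ℂ (fun q => F.Φ q 5) (qB ζ b) (Pi.single 4 1) = p54 at *
  generalize fderiv ℂ ζ b (Pi.single 0 1) = t0 at *
  generalize fderiv ℂ ζ b (Pi.single 1 1) = t1 at *
  generalize fderiv ℂ ζ b (Pi.single 2 1) = t2 at *
  generalize F.Φ (qB ζ b) 1 = U at *
  generalize F.Φ (qB ζ b) 3 = X at *
  generalize F.Φ (qB ζ b) 4 = Y at *
  clear hB hG1 hG3 hG5 hTT e g2 hdet hT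
  generalize ζ b = z at *
  generalize b 0 = a0 at *
  generalize b 1 = a1 at *
  generalize b 2 = w at *
  have h51 : p51 = - (t0 * p53) := by linear_combination T0
  have h52 : p52 = - (t1 * p53) := by linear_combination T1
  have h54 : p54 = - (t2 * p53) := by linear_combination T2
  have h50 : p50 = p53 * (z - 6 * w * t2 + 2 * a0 * t0 + 3 * a1 * t1) := by
    rw [h51, h52, h54] at E5
    linear_combination -E5
  have h10 : p10 = - 2 * a0 * p11 - 3 * a1 * p12 + z * p13 + 6 * w * p14 - 5 * U := by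
    linear_combination -E1
  have h30 : p30 = - 2 * a0 * p31 - 3 * a1 * p32 + z * p33 + 6 * w * p34 - 22 * X := by
    linear_combination -E3
  rw [h50, h51, h52, h10, h30] at hj
  have hM : z ^ 36 * (d00 * d11 * d22 - d00 * d12 * d21 - d01 * d10 * d22 + d01 * d12 * d20 +
      d02 * d10 * d21 - d02 * d11 * d20) =
      (z ^ 6 * d00) * (z ^ 7 * d11) * (z ^ 23 * d22) -
      (z ^ 6 * d00) * (z ^ 7 * d12) * (z ^ 23 * d21) -
      (z ^ 6 * d01) * (z ^ 7 * d10) * (z ^ 23 * d22) +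
      (z ^ 6 * d01) * (z ^ 7 * d12) * (z ^ 23 * d20) +
      (z ^ 6 * d02) * (z ^ 7 * d10) * (z ^ 23 * d21) -
      (z ^ 6 * d02) * (z ^ 7 * d11) * (z ^ 23 * d20) := by ring
  rw [B00, B01, B02, B10, B11, B12, B20, B21, B22] at hM
  apply mul_left_cancel₀ (pow_ne_zero 36 h0)
  linear_combination (3 * z ^ 34 * p53) * hM - (3 * z ^ 36) * hj

end Flip

end Pool.Agent.KO
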