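import Pool.Agent.KO.E.Tr
import Pool.Agent.KO.E.PSpace

/-!
# Block E, row R10: maps to the projective model given by vectors (helper26)
-/

set_option autoImplicit false

namespace Pool.Agent.KO

open Set Filter Topology

/-- Near a point, properties of `mk (v c)` for a continuous family of vectors. -/
theorem eventually_mk_of {N : ℕ} {n : ℕ} {v : (Fin n → ℂ) → Fin (N + 1) → ℂ} {c : Fin n → ℂ}
    (hv : ContinuousAt v c) (h0 : v c ≠ 0) {P : PN N × ℂ → Prop}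
    (hP : ∀ᶠ p in 𝓝 ((Projectivization.mk ℂ (v c) h0, (0 : ℂ)) : PN N × ℂ), P p) :
    ∀ᶠ c' in 𝓝 c, ∀ h : v c' ≠ 0, P (Projectivization.mk ℂ (v c') h, 0) := by
  have h1 := eventually_mk_iff.1 hP
  have h2 : Tendsto (fun c' => (v c', (0 : ℂ))) (𝓝 c) (𝓝 (v c, 0)) :=
    hv.prodMk_nhds tendsto_const_nhds
  exact h2.eventually h1

theorem holAt_mk {N : ℕ} {S : Set (PN N × ℂ)} {B : Set (Fin 3 → ℂ)} (hB : IsOpen B)
    {v : (Fin 3 → ℂ) → Fin (N + 1) → ℂ} (hv : ∀ c ∈ B, AnalyticAt ℂ v c)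
    (hne : ∀ c ∈ B, v c ≠ 0) {φ : (Fin 3 → ℂ) → FS S 0}
    (hφ : ∀ c (hc : c ∈ B), (φ c).1.1 = (Projectivization.mk ℂ (v c) (hne c hc), 0))
    {c : Fin 3 → ℂ} (hc : c ∈ B) :
    HolAt (stdO 3) (res (res (stdP N) S) {p : S | p.1.2 = 0}) φ c := by
  have hcont : ContinuousAt (fun c => (φ c).1.1) c := by
    intro s hs
    have hs : s ∈ 𝓝 (φ c).1.1 := hs
    rw [hφ c hc] at hs
    have h1 := eventually_mk_of (P := fun p => p ∈ s) (hv c hc).continuousAt (hne c hc) hs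
    have h2 : ∀ᶠ c' in 𝓝 c, (φ c').1.1 ∈ s := by
      filter_upwards [h1, hB.mem_nhds hc] with c' h3 h4
      rw [hφ c' h4]
      exact h3 (hne c' h4)
    exact h2
  have hcφ : ContinuousAt φ c := by
    have he : IsInducing (fun y : FS S 0 => y.1.1) :=
      IsInducing.subtypeVal.comp IsInducing.subtypeVal
    rw [he.continuousAt_iff]
    exact hcont
  refine ⟨hcφ, ?_⟩
  intro f hf
  obtain ⟨H, hH, hfH⟩ := res_res_iff.1 hf
  rw [hφ c hc] at hH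
  obtain ⟨F, hF, hFe⟩ := stdP_iff.1 hH
  have han : AnalyticAt ℂ (fun c => (v c, (0 : ℂ))) c := (hv c hc).prod analyticAt_const
  have h1 : AnalyticAt ℂ (fun c => F (v c, 0)) c :=
    AnalyticAt.comp (g := F) (f := fun c => (v c, (0 : ℂ))) hF han
  show AnalyticAt ℂ (f ∘ φ) c
  refine h1.congr ?_
  have h2 : ∀ᶠ c' in 𝓝 c, f (φ c') = H (φ c').1.1 := hcφ.eventually hfH
  have h3 : Tendsto (fun c => (v c, (0 : ℂ))) (𝓝 c) (𝓝 (v c, 0)) := han.continuousAt.tendsto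
  filter_upwards [h2, h3.eventually hFe, hB.mem_nhds hc] with c' h4 h5 h6
  show F (v c', 0) = f (φ c')
  rw [h4, hφ c' h6, h5 (hne c' h6)]

theorem mem_of_closure {r : ℝ} (hr : 0 < r) {N : ℕ} {S : Set (PN N × ℂ)}
    (hS : IsAn (stdP N) (overDisc N r) S) {B : Set (Fin 3 → ℂ)} (hB : IsOpen B)
    {v : (Fin 3 → ℂ) → Fin (N + 1) → ℂ} (hv : ∀ c ∈ B, AnalyticAt ℂ v c)
    (hne : ∀ c ∈ B, v c ≠ 0) {D : Set (Fin 3 → ℂ)} (hD : B ⊆ closure D)
    (hin : ∀ c (hc : c ∈ B), c ∈ D → (Projectivization.mk ℂ (v c) (hne c hc), (0 : ℂ)) ∈ S) :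
    ∀ c (hc : c ∈ B), (Projectivization.mk ℂ (v c) (hne c hc), (0 : ℂ)) ∈ S := by
  intro c hc
  by_contra hcon
  have hp : ((Projectivization.mk ℂ (v c) (hne c hc), (0 : ℂ)) : PN N × ℂ) ∈ overDisc N r := by
    show ‖(0 : ℂ)‖ < r
    rw [norm_zero]
    exact hr
  obtain ⟨V, hV, hpV, k, F, hF, hFV⟩ := hS.2 _ hp
  have h1 : ∃ i, F i (Projectivization.mk ℂ (v c) (hne c hc), (0 : ℂ)) ≠ 0 := by
    by_contra hall
    push Not at hall
    have h2 : ((Projectivization.mk ℂ (v c) (hne c hc), (0 : ℂ)) : PN N × ℂ) ∈ S ∩ V := by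
      rw [hFV]
      exact ⟨hpV, hall⟩
    exact hcon h2.1
  obtain ⟨i, hi⟩ := h1
  have h2 : ∀ᶠ p in 𝓝 ((Projectivization.mk ℂ (v c) (hne c hc), (0 : ℂ)) : PN N × ℂ), p ∉ S := by
    filter_upwards [(stdP_cont (hF i _ hpV)).eventually_ne hi, hV.mem_nhds hpV] with p h3 h4 h5
    have h6 : p ∈ S ∩ V := ⟨h5, h4⟩
    rw [hFV] at h6
    exact h3 (h6.2 i)
  have h3 := eventually_mk_of (hv c hc).continuousAt (hne c hc) h2
  have h4 := mem_closure_iff_frequently.1 (hD hc)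
  obtain ⟨c', h5, h6, h7⟩ := (h4.and_eventually (h3.and (hB.mem_nhds hc))).exists
  exact h6 (hne c' h7) (hin c' h7 h5)

end Pool.Agent.KO
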