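import Pool.Agent.KO.E.JacSpec
import Pool.Agent.KO.E.DensX
import Pool.Agent.KO.E.Tr
import Pool.Agent.KO.Xa.Defs

/-!
# Block E, row R5: the chart `A₁ = 1` of `X₀` near a point of `Π` (helper26)
-/

set_option autoImplicit false

namespace Pool.Agent.KO

open Set Filter Topology

/-- The affine embedding `(b, z) ↦ (1, b₀, b₁, z, b₂)`. -/
def qE (p : (Fin 3 → ℂ) × ℂ) : Fin 5 → ℂ := ![1, p.1 0, p.1 1, p.2, p.1 2]

theorem qE_an (p : (Fin 3 → ℂ) × ℂ) : AnalyticAt ℂ qE p := by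
  have hc : ∀ k : Fin 3, AnalyticAt ℂ (fun p : (Fin 3 → ℂ) × ℂ => p.1 k) p := fun k =>
    AnalyticAt.comp (g := fun v : Fin 3 → ℂ => v k) (f := fun q : (Fin 3 → ℂ) × ℂ => q.1)
      ((ContinuousLinearMap.proj (R := ℂ) (φ := fun _ : Fin 3 => ℂ) k).analyticAt _) analyticAt_fst
  rw [analyticAt_pi_iff]
  intro i
  fin_cases i
  · exact analyticAt_const
  · exact hc 0
  · exact hc 1
  · exact analyticAt_snd
  · exact hc 2

theorem qB_eq (ζ : (Fin 3 → ℂ) → ℂ) (b : Fin 3 → ℂ) : qB ζ b = qE (b, ζ b) := rfl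

theorem qB_cont {ζ : (Fin 3 → ℂ) → ℂ} {b : Fin 3 → ℂ} (h : ContinuousAt ζ b) :
    ContinuousAt (qB ζ) b := by
  have h1 : ContinuousAt (fun b => (b, ζ b)) b := continuousAt_id.prodMk h
  exact ContinuousAt.comp (g := qE) (f := fun b => (b, ζ b)) (qE_an _).continuousAt h1

theorem mem_dom_of_zero {ρ : ℝ} (hρ : 0 < ρ) {q : Fin 5 → ℂ} (h3 : q 3 = 0) (h4 : q 4 = 0) :
    q ∈ Dom ρ := by
  show nA q * nZ q < ρ
  have : nZ q = 0 := by
    unfold nZ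
    rw [h3, h4, norm_zero, Real.zero_rpow (by norm_num), max_self]
  rw [this, mul_zero]
  exact hρ

theorem Flip.exists_zeta (F : Flip) {b₀ : Fin 3 → ℂ} (h0 : b₀ 2 = 0) :
    ∃ ζ : (Fin 3 → ℂ) → ℂ, AnalyticAt ℂ ζ b₀ ∧ (∀ᶠ b in 𝓝 b₀, b 2 = 0 → ζ b = 0) ∧
      (∀ᶠ b in 𝓝 b₀, qB ζ b ∈ Dom F.ρ ∧ F.Φ (qB ζ b) 5 = 0 ∧
        fderiv ℂ (fun q => F.Φ q 5) (qB ζ b) (Pi.single 3 1) ≠ 0) ∧
      ∀ᶠ q in 𝓝 (![1, b₀ 0, b₀ 1, 0, 0] : Fin 5 → ℂ), q 0 = 1 → F.Φ q 5 = 0 →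
        q = qB ζ ![q 1, q 2, q 4] := by
  set q₀ : Fin 5 → ℂ := ![1, b₀ 0, b₀ 1, 0, 0] with hq₀
  have hE0 : qE (b₀, 0) = q₀ := by
    unfold qE
    simp only [h0]
    rfl
  have hdom : q₀ ∈ Dom F.ρ := mem_dom_of_zero F.ρ_pos rfl rfl
  have hΦan : AnalyticAt ℂ (fun q => F.Φ q 5) q₀ := F.an 5 q₀ hdom
  have hH : AnalyticAt ℂ (fun p : (Fin 3 → ℂ) × ℂ => F.Φ (qE p) 5) (b₀, 0) := by
    apply AnalyticAt.comp (g := fun q => F.Φ q 5) (f := qE) _ (qE_an _)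
    rw [hE0]
    exact hΦan
  have hz : ∀ q ∈ Dom F.ρ, q 3 = 0 → q 4 = 0 → F.Φ q 5 = 0 := by
    intro q hq h3 h4
    rw [(F.Φ0 q hq h3).2.2.2, h4]
    ring
  have hH0 : F.Φ (qE (b₀, 0)) 5 = 0 := by
    rw [hE0]
    exact hz q₀ hdom rfl rfl
  have hd := F.dT q₀ rfl rfl
  have hderiv : (fderiv ℂ (fun p : (Fin 3 → ℂ) × ℂ => F.Φ (qE p) 5) (b₀, 0)).comp
      (ContinuousLinearMap.inr ℂ (Fin 3 → ℂ) ℂ) =
      (ContinuousLinearEquiv.refl ℂ ℂ : ℂ →L[ℂ] ℂ) := by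
    have h1 : HasFDerivAt (fun z : ℂ => F.Φ (qE (b₀, z)) 5)
        ((fderiv ℂ (fun p : (Fin 3 → ℂ) × ℂ => F.Φ (qE p) 5) (b₀, 0)).comp
          (ContinuousLinearMap.inr ℂ (Fin 3 → ℂ) ℂ)) 0 := by
      have h2 : HasFDerivAt (fun z : ℂ => (b₀, z)) (ContinuousLinearMap.inr ℂ (Fin 3 → ℂ) ℂ) 0 :=
        hasFDerivAt_prodMk_right b₀ 0
      exact hH.differentiableAt.hasFDerivAt.comp (0 : ℂ) h2
    have h3 : HasFDerivAt (fun z : ℂ => qE (b₀, z))
        (ContinuousLinearMap.pi ![0, 0, 0, ContinuousLinearMap.id ℂ ℂ, 0]) 0 := by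
      rw [hasFDerivAt_pi']
      intro i
      fin_cases i
      · exact hasFDerivAt_const _ _
      · exact hasFDerivAt_const _ _
      · exact hasFDerivAt_const _ _
      · exact hasFDerivAt_id _
      · exact hasFDerivAt_const _ _
    have h5 : HasFDerivAt (fun q => F.Φ q 5)
        (q₀ 0 • ContinuousLinearMap.proj (R := ℂ) (φ := fun _ : Fin 5 => ℂ) 3 +
          (q₀ 1 ^ 3 / 27 - q₀ 2 ^ 2 / 4) •
            ContinuousLinearMap.proj (R := ℂ) (φ := fun _ : Fin 5 => ℂ) 4) (qE (b₀, 0)) := by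
      rw [hE0]
      exact hd
    have h4 := h5.comp (0 : ℂ) h3
    have h6 := h1.unique h4
    rw [h6]
    apply ContinuousLinearMap.ext
    intro z
    simp [q₀]
  obtain ⟨ζ, hζan, hζ0, hζe⟩ := C.imp hH (ContinuousLinearEquiv.refl ℂ ℂ) hderiv
  have hζe' : ∀ᶠ p in 𝓝 (b₀, (0 : ℂ)), (F.Φ (qE p) 5 = 0 ↔ p.2 = ζ p.1) := by
    filter_upwards [hζe] with p hp
    rw [← hp, hH0]
  have hgraph : Tendsto (fun b => (b, ζ b)) (𝓝 b₀) (𝓝 (b₀, 0)) := by
    have h1 : ContinuousAt (fun b => (b, ζ b)) b₀ := continuousAt_id.prodMk hζan.continuousAt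
    have h2 := h1.tendsto
    rw [hζ0] at h2
    exact h2
  have hqB : Tendsto (qB ζ) (𝓝 b₀) (𝓝 q₀) := by
    have h1 := ((qE_an (b₀, 0)).continuousAt.tendsto).comp hgraph
    rw [hE0] at h1
    exact h1
  refine ⟨ζ, hζan, ?_, ?_, ?_⟩
  · have h1 : Tendsto (fun b : Fin 3 → ℂ => (b, (0 : ℂ))) (𝓝 b₀) (𝓝 (b₀, 0)) := by
      have : Continuous (fun b : Fin 3 → ℂ => (b, (0 : ℂ))) := by fun_prop
      exact this.tendsto b₀
    filter_upwards [h1.eventually hζe'] with b hb hb2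
    have h2 : F.Φ (qE (b, 0)) 5 = 0 := by
      apply hz
      · exact mem_dom_of_zero F.ρ_pos rfl hb2
      · rfl
      · exact hb2
    exact (hb.1 h2).symm
  · have h1 : ∀ᶠ b in 𝓝 b₀, qB ζ b ∈ Dom F.ρ :=
      hqB.eventually ((dom_isOpen F.ρ).mem_nhds hdom)
    have h2 : ∀ᶠ b in 𝓝 b₀, F.Φ (qB ζ b) 5 = 0 := by
      filter_upwards [hgraph.eventually hζe'] with b hb
      exact hb.2 rfl
    have h3 : ContinuousAt (fun q => fderiv ℂ (fun q => F.Φ q 5) q (Pi.single 3 1)) q₀ := by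
      have h4 : ContinuousAt (fderiv ℂ (fun q => F.Φ q 5)) q₀ := hΦan.fderiv.continuousAt
      exact h4.clm_apply continuousAt_const
    have h5 : fderiv ℂ (fun q => F.Φ q 5) q₀ (Pi.single 3 1) ≠ 0 := by
      rw [hd.fderiv]
      simp [q₀]
    have h6 : ∀ᶠ q in 𝓝 q₀, fderiv ℂ (fun q => F.Φ q 5) q (Pi.single 3 1) ≠ 0 :=
      h3.eventually_ne h5
    filter_upwards [h1, h2, hqB.eventually h6] with b a1 a2 a3
    exact ⟨a1, a2, a3⟩
  · have h1 : Tendsto (fun q : Fin 5 → ℂ => ((![q 1, q 2, q 4] : Fin 3 → ℂ), q 3)) (𝓝 q₀)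
        (𝓝 (b₀, 0)) := by
      have h2 : Continuous (fun q : Fin 5 → ℂ => ((![q 1, q 2, q 4] : Fin 3 → ℂ), q 3)) := by
        refine Continuous.prodMk ?_ (continuous_apply 3)
        refine continuous_pi fun i => ?_
        fin_cases i
        · exact continuous_apply 1
        · exact continuous_apply 2
        · exact continuous_apply 4
      have h3 := h2.tendsto q₀
      have h4 : (![q₀ 1, q₀ 2, q₀ 4] : Fin 3 → ℂ) = b₀ := by
        funext i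
        fin_cases i
        · rfl
        · rfl
        · exact h0.symm
      rw [h4] at h3
      exact h3
    filter_upwards [h1.eventually hζe'] with q hq hq0 hqΦ
    have h5 : qE ((![q 1, q 2, q 4] : Fin 3 → ℂ), q 3) = q := by
      funext i
      fin_cases i
      · exact hq0.symm
      · rfl
      · rfl
      · rfl
      · rfl
    rw [h5] at hq
    have h6 := hq.1 hqΦ
    rw [qB_eq, ← h6]
    exact h5.symm

theorem act'_cont {l : (Fin 5 → ℂ) → ℂ} {q : Fin 5 → ℂ} (hl : ContinuousAt l q) (h : l q ≠ 0) :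
    ContinuousAt (fun q => act' (l q) q) q := by
  rw [continuousAt_pi]
  intro i
  show ContinuousAt (fun q => l q ^ wgt' i * q i) q
  exact (hl.zpow₀ _ (Or.inl h)).mul (continuous_apply i).continuousAt

theorem Flip.exists_chartB (F : Flip) (hT : F.TopFacts) {b₀ : Fin 3 → ℂ} (h0 : b₀ 2 = 0) :
    ∃ (ζ : (Fin 3 → ℂ) → ℂ) (B : Set (Fin 3 → ℂ)) (xB : (Fin 3 → ℂ) → FX F 0),
      IsOpen B ∧ b₀ ∈ B ∧
      (∀ b ∈ B, AnalyticAt ℂ ζ b ∧ qB ζ b ∈ Dom F.ρ ∧ F.Φ (qB ζ b) 5 = 0 ∧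
        fderiv ℂ (fun q => F.Φ q 5) (qB ζ b) (Pi.single 3 1) ≠ 0 ∧ (b 2 = 0 → ζ b = 0)) ∧
      (∀ b ∈ B, ∃ h : qB ζ b ∈ Dom F.ρ ∧ (qB ζ b 0 ≠ 0 ∨ qB ζ b 1 ≠ 0 ∨ qB ζ b 2 ≠ 0),
        (xB b).1 = F.pi2 ⟨qB ζ b, h⟩) ∧
      ContinuousOn xB B ∧ ∀ V ⊆ B, IsOpen V → IsOpen (xB '' V) := by
  classical
  obtain ⟨ζ, hζ, hζ0, hζB, hζu⟩ := F.exists_zeta h0
  have hζb₀ : ζ b₀ = 0 := hζ0.self_of_nhds h0
  have hq₀ : qB ζ b₀ = (![1, b₀ 0, b₀ 1, 0, 0] : Fin 5 → ℂ) := by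
    unfold qB
    rw [hζb₀, h0]
  obtain ⟨W, hWsub, hW, hqW⟩ := mem_nhds_iff.1 hζu
  have hcW : ∀ᶠ b in 𝓝 b₀, qB ζ b ∈ W := by
    have h1 := qB_cont hζ.continuousAt
    rw [ContinuousAt, hq₀] at h1
    exact h1.eventually (hW.mem_nhds hqW)
  obtain ⟨B, hBsub, hB, hbB⟩ := mem_nhds_iff.1
    (hζ.eventually_analyticAt.and (hζ0.and (hζB.and hcW)))
  have hne : ∀ b, qB ζ b 0 ≠ 0 := fun b => one_ne_zero
  have hM2 : ∀ b ∈ B, qB ζ b ∈ Dom F.ρ ∧ (qB ζ b 0 ≠ 0 ∨ qB ζ b 1 ≠ 0 ∨ qB ζ b 2 ≠ 0) :=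
    fun b hb => ⟨(hBsub hb).2.2.1.1, Or.inl (hne b)⟩
  have hΦ : ∀ b ∈ B, F.Φ (qB ζ b) 5 = 0 := fun b hb => (hBsub hb).2.2.1.2.1
  let y : (Fin 3 → ℂ) → F.M2 := fun b => if h : b ∈ B then ⟨qB ζ b, hM2 b h⟩ else
    ⟨qB ζ b₀, hM2 b₀ hbB⟩
  have hy : ∀ b, F.g (F.pi2 (y b)) = 0 := by
    intro b
    rw [F.g_pi2]
    by_cases hb : b ∈ B
    · simp only [y, dif_pos hb]
      exact hΦ b hb
    · simp only [y, dif_neg hb]
      exact hΦ b₀ hbB
  have hyB : ∀ b (hb : b ∈ B), y b = ⟨qB ζ b, hM2 b hb⟩ := fun b hb => by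
    simp only [y, dif_pos hb]
  refine ⟨ζ, B, fun b => ⟨F.pi2 (y b), hy b⟩, hB, hbB, ?_, ?_, ?_, ?_⟩
  · intro b hb
    obtain ⟨h1, h2, ⟨h3, h4, h5⟩, -⟩ := hBsub hb
    exact ⟨h1, h3, h4, h5, h2⟩
  · intro b hb
    exact ⟨hM2 b hb, congrArg F.pi2 (hyB b hb)⟩
  · rw [continuousOn_iff_continuous_domRestrict]
    apply Continuous.subtype_mk
    apply hT.cont2.comp
    have h1 : Continuous (fun b : B => (⟨qB ζ b, hM2 b b.2⟩ : F.M2)) := by
      apply Continuous.subtype_mk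
      have h2 : ContinuousOn (qB ζ) B := fun b hb =>
        (qB_cont (hBsub hb).1.continuousAt).continuousWithinAt
      exact continuousOn_iff_continuous_domRestrict.1 h2
    convert! h1 using 1
    funext b
    exact hyB b b.2
  · intro V hVB hV
    -- the open set of the normalised points
    set Nn : Set (Fin 5 → ℂ) := {q | q ∈ W ∧ (![q 1, q 2, q 4] : Fin 3 → ℂ) ∈ V} with hNn
    have hNo : IsOpen Nn := by
      apply hW.inter
      apply hV.preimage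
      refine continuous_pi fun i => ?_
      fin_cases i
      · exact continuous_apply 1
      · exact continuous_apply 2
      · exact continuous_apply 4
    set M : Set F.M2 := {q | q.1 0 ≠ 0 ∧ act' (q.1 0) q.1 ∈ Nn} with hMdef
    have hMo : IsOpen M := by
      rw [isOpen_iff_mem_nhds]
      rintro q ⟨hq0, hqN⟩
      have h1 : ContinuousAt (fun q : F.M2 => q.1 0) q :=
        ((continuous_apply 0).comp continuous_subtype_val).continuousAt
      have h2 : ContinuousAt (fun q : F.M2 => act' (q.1 0) q.1) q :=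
        ContinuousAt.comp (g := fun q : Fin 5 → ℂ => act' (q 0) q) (f := fun q : F.M2 => q.1)
          (act'_cont (continuous_apply 0).continuousAt hq0) continuous_subtype_val.continuousAt
      exact inter_mem (h1.eventually_ne hq0) (h2.eventually (hNo.mem_nhds hqN))
    have h3 : IsOpen (F.pi2 '' M) := hT.open2 _ hMo
    have h4 : (fun b => (⟨F.pi2 (y b), hy b⟩ : FX F 0)) '' V =
        (fun x : FX F 0 => x.1) ⁻¹' (F.pi2 '' M) := by
      ext x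
      constructor
      · rintro ⟨b, hb, rfl⟩
        refine ⟨y b, ?_, rfl⟩
        have h5 := hyB b (hVB hb)
        have h6 : act' 1 (qB ζ b) = qB ζ b := by
          funext i
          simp [act']
        refine ⟨?_, ?_⟩
        · rw [h5]
          exact hne b
        · rw [h5]
          show act' (qB ζ b 0) (qB ζ b) ∈ Nn
          have h7 : qB ζ b 0 = 1 := rfl
          rw [h7, h6]
          refine ⟨(hBsub (hVB hb)).2.2.2, ?_⟩
          have h8 : (![qB ζ b 1, qB ζ b 2, qB ζ b 4] : Fin 3 → ℂ) = b := by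
            funext i
            fin_cases i <;> rfl
          rw [h8]
          exact hb
      · rintro ⟨q, ⟨hq0, hqW, hqV⟩, hqx⟩
        set q' := act' (q.1 0) q.1 with hq'
        have h5 : q' 0 = 1 := by
          show (q.1 0) ^ (wgt' 0) * q.1 0 = 1
          have : wgt' 0 = -1 := rfl
          rw [this, zpow_neg_one, inv_mul_cancel₀ hq0]
        have h6 : F.Φ q' 5 = 0 := by
          rw [hq', F.Φact _ hq0 _ q.2.1, Flip.act_five]
          have h7 : F.g (F.pi2 q) = 0 := by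
            rw [hqx]
            exact x.2
          rw [F.g_pi2] at h7
          exact h7
        have h8 := hWsub hqW h5 h6
        refine ⟨![q' 1, q' 2, q' 4], hqV, ?_⟩
        apply Subtype.ext
        have h9 : F.pi2 q = x.1 := hqx
        show F.pi2 (y ![q' 1, q' 2, q' 4]) = x.1
        rw [← h9, hyB _ (hVB hqV)]
        symm
        apply Quot.sound
        show ∃ l : ℂ, l ≠ 0 ∧ qB ζ ![q' 1, q' 2, q' 4] = act' l q.1
        exact ⟨q.1 0, hq0, h8.symm⟩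
    rw [h4]
    exact h3.preimage continuous_subtype_val

end Pool.Agent.KO
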