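import Pool.Agent.KO.E.R9
import Pool.Agent.KO.E.R5
import Pool.Agent.KO.E.R10

/-!
# Block E, part R: the contradiction (helper52)
-/

set_option autoImplicit false

namespace Pool.Agent.KO

open Set Filter Topology MvPolynomial

/-- The statement of row R3. -/
def SpDetB : Prop := ∀ (F : Flip) {ζ : (Fin 3 → ℂ) → ℂ} {b : Fin 3 → ℂ}, AnalyticAt ℂ ζ b →
  qB ζ b ∈ Dom F.ρ → ζ b ≠ 0 → (∀ᶠ b' in 𝓝 b, F.Φ (qB ζ b') 5 = 0) →
  (fderiv ℂ (F.fB ζ) b).det * (3 * ζ b ^ 34 *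
    fderiv ℂ (fun q => F.Φ q 5) (qB ζ b) (Pi.single 3 1)) = - F.Φ (qB ζ b) 4

section

variable {F : Flip} {r : ℝ} {N : ℕ} {S : Set (PN N × ℂ)} {b : Bimer F.O F.g r S} {σ : Sec F b}

theorem ChB.ne (D : ChB σ) : ∀ c ∈ D.B, (fun i => D.τ i c) ≠ 0 := fun c hc h =>
  D.τj c hc (congrFun h D.j)

theorem ChB.an_v (D : ChB σ) : ∀ c ∈ D.B, AnalyticAt ℂ (fun c => fun i => D.τ i c) c :=
  fun c hc => AnalyticAt.pi fun i => D.τan i c hc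

/-- The good points of the chart. -/
def ChB.G (D : ChB σ) : Set (Fin 3 → ℂ) :=
  {c | c ∈ D.B ∧ (D.xB c).1 ∉ b.A ∧ (D.xB c).1 ∈ F.ZX ∧ F.cX 4 (D.xB c).1 ≠ 0}

theorem ChB.dense (hE : EvFacts) (hDen : SpDenF) (hT : TopA b) (D : ChB σ) :
    D.B ⊆ closure D.G := by
  intro c hc
  rw [mem_closure_iff]
  intro W hW hcW
  have h1 := D.opn (D.B ∩ W) inter_subset_left (D.isOpen.inter hW)
  have h2 : IsOpen ({x : FX F 0 | x.1 ∉ b.A} ∩ D.xB '' (D.B ∩ W)) := hT.openV.inter h1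
  -- first a point off `A`
  obtain ⟨W1, hW1, hW1e⟩ := isOpen_induced_iff.1 h1
  have hxc : (D.xB c).1 ∈ W1 := by
    have : D.xB c ∈ D.xB '' (D.B ∩ W) := ⟨c, ⟨hc, hcW⟩, rfl⟩
    rw [← hW1e] at this
    exact this
  obtain ⟨x1, hx1, hg1, hA1⟩ := hT.denseX W1 hW1 _ hxc (D.xB c).2
  obtain ⟨W2, hW2, hW2e⟩ := isOpen_induced_iff.1 h2
  have hx1' : x1 ∈ W2 := by
    have : (⟨x1, hg1⟩ : FX F 0) ∈ {x : FX F 0 | x.1 ∉ b.A} ∩ D.xB '' (D.B ∩ W) :=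
      ⟨hA1, by rw [← hW1e]; exact hx1⟩
    rw [← hW2e] at this
    exact this
  obtain ⟨i0, a0, ha0⟩ := σ.nz ⟨0, by simpa using σ.pos1.out⟩ (by simpa using σ.pos)
  obtain ⟨x2, hx2, hg2, hZ, hY, -⟩ := F.dens_good hE hDen (σ.s i0) (σ.nf i0)
    (s := 0) (by simpa using σ.pos1.out) ⟨a0, ha0⟩ hW2 hg1 hx1'
  have h3 : (⟨x2, hg2⟩ : FX F 0) ∈ {x : FX F 0 | x.1 ∉ b.A} ∩ D.xB '' (D.B ∩ W) := by
    rw [← hW2e]; exact hx2
  obtain ⟨hA2, c', ⟨hc'B, hc'W⟩, hc'⟩ := h3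
  have hc'1 : (D.xB c').1 = x2 := by rw [hc']
  exact ⟨c', hc'W, hc'B, by rw [hc'1]; exact hA2, by rw [hc'1]; exact hZ,
    by rw [hc'1]; exact hY⟩

/-- The value of the map at a good point of the chart. -/
theorem ChB.map_eq (D : ChB σ) {c : Fin 3 → ℂ} (hc : c ∈ D.B) (hA : (D.xB c).1 ∉ b.A)
    (hZ : (D.xB c).1 ∈ F.ZX) (hr : 0 < r) (y₀ : FS S 0) :
    (mapF b 0 (by simpa using hr) y₀ (D.xB c)).1.1 =
      (Projectivization.mk ℂ (fun i => D.τ i c) (D.ne c hc), 0) := by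
  have h0 : ‖(0 : ℂ)‖ < r := by simpa using hr
  obtain ⟨hq, hx⟩ := D.x_eq c hc
  have hm : (D.xB c).1 ∈ {x | ‖F.g x‖ < r} \ b.A := ⟨by
    rw [mem_ofPred_eq, (D.xB c).2.out]; exact h0, hA⟩
  have hz : qB D.ζ c 3 ≠ 0 := by
    rw [hx] at hZ
    exact (F.mem_ZX_pi2 ⟨qB D.ζ c, hq⟩).1 hZ
  have hc2 : c 2 ≠ 0 := fun h => hz (D.z0 c hc h)
  have hs : (fun i => evH σ.m (σ.s i) (F.Φ (qB D.ζ c))) ≠ 0 := by
    intro h
    have h1 := congrFun h D.j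
    rw [D.τeq _ c hc] at h1
    exact mul_ne_zero (pow_ne_zero _ hc2) (D.τj c hc) h1
  have hm' : F.pi2 ⟨qB D.ζ c, hq⟩ ∈ {x | ‖F.g x‖ < r} \ b.A := by rw [← hx]; exact hm
  have h5 : ‖F.Φ (qB D.ζ c) 5‖ < σ.r2 := by rw [D.T0 c hc]; simpa using σ.pos
  have h1 := σ.map_pi2 ⟨qB D.ζ c, hq⟩ (Or.inl hz) h5 hm' hs
  have h2 : (⟨F.pi2 ⟨qB D.ζ c, hq⟩, hm'⟩ : ↥({x | ‖F.g x‖ < r} \ b.A)) =
      ⟨(D.xB c).1, hm⟩ := Subtype.ext hx.symm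
  rw [h2] at h1
  have h3 : Projectivization.mk ℂ (fun i => evH σ.m (σ.s i) (F.Φ (qB D.ζ c))) hs =
      Projectivization.mk ℂ (fun i => D.τ i c) (D.ne c hc) := by
    rw [Projectivization.mk_eq_mk_iff]
    refine ⟨Units.mk0 (c 2 ^ D.k) (pow_ne_zero _ hc2), ?_⟩
    funext i
    rw [D.τeq i c hc]
    rfl
  rw [mapF_of b h0 y₀ (D.xB c) hA]
  refine Prod.ext ?_ ?_
  · show (b.e.toFun ⟨(D.xB c).1, hm⟩).1.1 = _
    rw [h1, h3]
  · show (b.e.toFun ⟨(D.xB c).1, hm⟩).1.2 = _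
    rw [b.base]
    exact (D.xB c).2

/-- The functions `u, w, x` in the chart. -/
theorem ChB.c3_eq (D : ChB σ) {c : Fin 3 → ℂ} (hc : c ∈ D.B) :
    c3 F 0 (D.xB c) = F.fB D.ζ c := by
  obtain ⟨hq, hx⟩ := D.x_eq c hc
  funext i
  unfold c3 Flip.c4 Flip.fB
  rw [hx]
  simp only [F.cX_pi2]
  fin_cases i <;> rfl

end

/-- The product that is `1` at the good points and `0` at `b₁`. -/
theorem good_eq {m R k : ℕ} {Y s det z Tz sig tau w P h th Φ4 : ℂ} (hY : Y ≠ 0) (hz : z ≠ 0)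
    (hTz : Tz ≠ 0) (hs : s ≠ 0) (hth : th ≠ 0) (hP : P = (((2 * Y) ^ m * s) ^ R * th ^ m)⁻¹)
    (hh : h = th * det ^ R) (hdet : det * (3 * z ^ 34 * Tz) = -Φ4) (hΦ : Φ4 = z ^ 33 * Y)
    (hsig : sig = z ^ m * s) (htau : sig = w ^ k * tau) :
    P * (w ^ k * tau) ^ R * h ^ m * (-6 * Tz) ^ (m * R) = 1 := by
  have h1 : det * (-6 * z * Tz) = 2 * Y := by
    have h2 : z ^ 33 * (det * (-6 * z * Tz)) = z ^ 33 * (2 * Y) := by
      rw [hΦ] at hdet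
      linear_combination (-2) * hdet
    exact mul_left_cancel₀ (pow_ne_zero _ hz) h2
  rw [← htau, hsig, hP, hh]
  have h3 : ((2 * Y) ^ m * s) ^ R * th ^ m ≠ 0 :=
    mul_ne_zero (pow_ne_zero _ (mul_ne_zero (pow_ne_zero _ (mul_ne_zero two_ne_zero hY)) hs))
      (pow_ne_zero _ hth)
  rw [inv_mul_eq_div, div_mul_eq_mul_div, div_mul_eq_mul_div, div_eq_one_iff_eq h3, ← h1]
  have e1 : (z ^ m * s) ^ R * (th * det ^ R) ^ m * (-6 * Tz) ^ (m * R) =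
      (z ^ m) ^ R * s ^ R * (th ^ m * (det ^ R) ^ m) * ((-6 * Tz) ^ m) ^ R := by
    rw [mul_pow, mul_pow, pow_mul]
  have e2 : (det ^ R) ^ m = (det ^ m) ^ R := by rw [← pow_mul, ← pow_mul, mul_comm]
  rw [e1, e2]
  have e3 : (det * (-6 * z * Tz)) ^ m = det ^ m * (z ^ m * (-6 * Tz) ^ m) := by
    rw [← mul_pow, ← mul_pow]; congr 1; ring
  rw [e3]
  ring

/-- The contradiction. -/
theorem partR (hE : EvFacts) (hDen : SpDenF) (hDet : SpDetB) (F : Flip) (hX : F.XaFacts) {r : ℝ}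
    (hr : 0 < r) {N : ℕ} {S : Set (PN N × ℂ)} (hS : IsAn (stdP N) (overDisc N r) S)
    (hcan : CanonFib (res (stdP N) S) (fun p : S => p.1.2) 0 3) (b : Bimer F.O F.g r S)
    (hb : b.Fiberwise) (σ : Sec F b) (hK : ∀ x₀ : FX F 0, KapR σ x₀) : False := by
  classical
  have hT := topA hX hr hb
  have hr0 : ‖(0 : ℂ)‖ < r := by simpa using hr
  obtain ⟨D⟩ := exists_chB hE hDen (fun F hF _ h0 => Flip.exists_chartB F hF h0) hX σ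
  set x₀ : FX F 0 := D.xB D.b₁ with hx₀
  have hsh : ShfFacts (OS S 0) := ((isSpace_res hS).shfFacts).res _
  -- the map `φ`
  have hdense := D.dense hE hDen hT
  obtain ⟨x1, -, hg1, hA1⟩ := hT.denseX univ isOpen_univ x₀.1 (mem_univ _) x₀.2
  have hx1 : x1 ∈ {x | ‖F.g x‖ < r} \ b.A := ⟨by rw [mem_ofPred_eq, hg1]; exact hr0, hA1⟩
  set y₀ : FS S 0 := ⟨⟨(b.e.toFun ⟨x1, hx1⟩).1, (b.e.toFun ⟨x1, hx1⟩).2.1⟩, by
    show (b.e.toFun _).1.2 = 0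
    rw [b.base]
    exact hg1⟩ with hy₀
  have hmapG : ∀ c ∈ D.G, ∃ hc : c ∈ D.B, (mapF b 0 hr0 y₀ (D.xB c)).1.1 =
      (Projectivization.mk ℂ (fun i => D.τ i c) (D.ne c hc), 0) := by
    rintro c ⟨hc, h1, h2, -⟩
    exact ⟨hc, D.map_eq hc h1 h2 hr y₀⟩
  have hinS : ∀ c (hc : c ∈ D.B),
      (Projectivization.mk ℂ (fun i => D.τ i c) (D.ne c hc), (0 : ℂ)) ∈ S := by
    refine mem_of_closure hr hS D.isOpen D.an_v D.ne hdense ?_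
    intro c hc hcG
    obtain ⟨_, h1⟩ := hmapG c hcG
    rw [← h1]
    exact (mapF b 0 hr0 y₀ (D.xB c)).1.2
  set φ : (Fin 3 → ℂ) → FS S 0 := fun c => if hc : c ∈ D.B then
    ⟨⟨(Projectivization.mk ℂ (fun i => D.τ i c) (D.ne c hc), (0 : ℂ)), hinS c hc⟩, rfl⟩
    else y₀ with hφdef
  have hφ : ∀ c (hc : c ∈ D.B), (φ c).1.1 =
      (Projectivization.mk ℂ (fun i => D.τ i c) (D.ne c hc), (0 : ℂ)) := by
    intro c hc
    simp only [hφdef, dif_pos hc]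
  have hφG : ∀ c ∈ D.G, φ c = mapF b 0 hr0 y₀ (D.xB c) := by
    intro c hc
    obtain ⟨hcB, h1⟩ := hmapG c hc
    apply Subtype.ext
    apply Subtype.ext
    rw [h1, hφ c hcB]
  have hφh : ∀ c ∈ D.B, HolAt (stdO 3) (OS S 0) φ c := fun c hc =>
    holAt_mk D.isOpen D.an_v D.ne hφ hc
  have hφc : ContinuousOn φ D.B := fun c hc => (hφh c hc).1.continuousWithinAt
  have hφj : ∀ c ∈ D.B, (φ c).1.1.1.rep D.j ≠ 0 := by
    intro c hc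
    rw [hφ c hc]
    exact (rep_ne_iff D.j _ (D.ne c hc)).2 (D.τj c hc)
  -- the canonical form
  obtain ⟨R, V, hR, hVo, hVb, θ, hθ, hpull⟩ := hcan.2.2 (φ D.b₁)
  obtain ⟨P, hP1, hP2⟩ := exists_psi hE hDen hT σ x₀ (hK x₀) hsh hcan.2.1 D.j hVo θ hθ
  set B₁ : Set (Fin 3 → ℂ) := D.B ∩ φ ⁻¹' V with hB₁
  have hB₁o : IsOpen B₁ := hφc.isOpen_inter_preimage D.isOpen hVo
  have hb₁ : D.b₁ ∈ B₁ := ⟨D.mem, hVb⟩
  -- good points are open in the chart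
  have hGgood : ∀ c ∈ D.G, φ c ∈ goodF σ x₀ D.j := by
    intro c hc
    obtain ⟨hcB, hcA, hcZ, hcY⟩ := hc
    have h1 := mapF_inv b hr0 y₀ x₀ (D.xB c) hcA
    rw [hφG c ⟨hcB, hcA, hcZ, hcY⟩]
    refine ⟨h1.1, by rw [h1.2]; exact hcZ, by rw [h1.2]; exact hcY, ?_⟩
    rw [h1.2]
    obtain ⟨hq, hx⟩ := D.x_eq c hcB
    have hz : qB D.ζ c 3 ≠ 0 := by
      rw [hx] at hcZ
      exact (F.mem_ZX_pi2 ⟨qB D.ζ c, hq⟩).1 hcZ
    have hc2 : c 2 ≠ 0 := fun h => hz (D.z0 c hcB h)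
    have h2 := F.evH_Φ hE (σ.s D.j) (σ.deg D.j) ⟨qB D.ζ c, hq⟩ hz
    rw [← hx, (D.xB c).2.out] at h2
    intro h0
    rw [h0, mul_zero] at h2
    have h3 := D.τeq D.j c hcB
    rw [h3] at h2
    exact mul_ne_zero (pow_ne_zero _ hc2) (D.τj c hcB) h2
  have hGev : ∀ c ∈ D.G, ∀ᶠ c' in 𝓝 c, c' ∈ D.G := by
    rintro c ⟨hcB, hcA, hcZ, hcY⟩
    have h1 : ContinuousAt D.xB c := D.cont.continuousAt (D.isOpen.mem_nhds hcB)
    have h2 : ContinuousAt (fun c => (D.xB c).1) c :=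
      continuousAt_subtype_val.comp (f := D.xB) h1
    have h3 : ContinuousAt (fun c => F.cX 4 (D.xB c).1) c :=
      ContinuousAt.comp (g := F.cX 4) (f := fun c => (D.xB c).1) (F.contAt_cX 4 hcZ) h2
    filter_upwards [D.isOpen.mem_nhds hcB, h1.preimage_mem_nhds (hT.openV.mem_nhds hcA),
      h2.preimage_mem_nhds (F.isOpen_ZX.mem_nhds hcZ), h3.eventually_ne hcY] with c' a1 a2 a3 a4
    exact ⟨a1, a2, a3, a4⟩
  have hreg : ∀ c ∈ D.G, IsCoord (OS S 0) (cG b 0 x₀) (φ c) := fun c hc =>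
    isCoord_cG hT σ x₀ D.j (hGgood c hc)
  obtain ⟨h, hh, hval⟩ := hpull B₁ φ hB₁o (fun c hc => ⟨hc.2, hφh c hc.1⟩) (by
    intro c hc
    rw [mem_closure_iff]
    intro W hW hcW
    obtain ⟨c', hc'W, hc'G⟩ := mem_closure_iff.1 (hdense hc.1) (W ∩ B₁) (hW.inter hB₁o)
      ⟨hcW, hc⟩
    exact ⟨c', hc'W.1, hc'W.2, ⟨_, hreg c' hc'G⟩⟩)
  -- the function `L`
  set Tz : (Fin 3 → ℂ) → ℂ := fun c =>
    fderiv ℂ (fun q => F.Φ q 5) (qB D.ζ c) (Pi.single 3 1) with hTz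
  set L : (Fin 3 → ℂ) → ℂ := fun c =>
    P (φ c) * (c 2 ^ D.k * D.τ D.j c) ^ R * h c ^ σ.m * (-6 * Tz c) ^ (σ.m * R) with hL
  have hLc : ContinuousAt L D.b₁ := by
    have c1 : ContinuousAt (fun c => P (φ c)) D.b₁ := by
      have h1 := hsh.cont _ _ (hP1 (φ D.b₁) ⟨hVb, hφj _ D.mem⟩)
      exact ContinuousAt.comp (g := P) (f := φ) h1 (hφh _ D.mem).1
    have c2 : ContinuousAt (fun c : Fin 3 → ℂ => c 2) D.b₁ := (continuous_apply 2).continuousAt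
    have c3 : ContinuousAt (D.τ D.j) D.b₁ := (D.τan _ _ D.mem).continuousAt
    have c4 : ContinuousAt h D.b₁ := (hh _ hb₁).continuousAt
    have c5 : ContinuousAt Tz D.b₁ := by
      have h1 : AnalyticAt ℂ (fderiv ℂ (fun q => F.Φ q 5)) (qB D.ζ D.b₁) :=
        (F.an 5 _ (D.dom _ D.mem)).fderiv
      have h2 := h1.continuousAt
      have h3 : ContinuousAt (qB D.ζ) D.b₁ := (an_qB (D.an _ D.mem)).continuousAt
      have h4 := ContinuousAt.comp (g := fderiv ℂ (fun q => F.Φ q 5)) (f := qB D.ζ) h2 h3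
      exact h4.clm_apply continuousAt_const
    exact ((c1.mul (((c2.pow _).mul c3).pow _)).mul (c4.pow _)).mul
      ((continuousAt_const.mul c5).pow _)
  have hL0 : L D.b₁ = 0 := by
    have h1 : (D.b₁ 2 : ℂ) ^ D.k = 0 := by
      rw [D.b₁2]
      exact zero_pow (by have := D.k_pos; omega)
    have hR0 : R ≠ 0 := by omega
    simp only [hL, h1, zero_mul, zero_pow hR0, mul_zero, zero_mul]
  have hL1 : ∀ c ∈ D.G ∩ B₁, L c = 1 := by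
    rintro c ⟨hcG, hcB⟩
    have hcG' := hcG
    obtain ⟨hcD, hcA, hcZ, hcY⟩ := hcG
    obtain ⟨hq, hx⟩ := D.x_eq c hcD
    have hz : qB D.ζ c 3 ≠ 0 := by
      rw [hx] at hcZ
      exact (F.mem_ZX_pi2 ⟨qB D.ζ c, hq⟩).1 hcZ
    have hz' : D.ζ c ≠ 0 := hz
    have hinv : invF b 0 x₀ (φ c) = D.xB c := by
      rw [hφG c hcG']
      exact (mapF_inv b hr0 y₀ x₀ (D.xB c) hcA).2
    have hgood := hGgood c hcG'
    have hPc := hP2 (φ c) hcB.2 hgood (hφj c hcD)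
    have hvc := hval c hcB (cG b 0 x₀) (hreg c hcG')
    have hcomp : cG b 0 x₀ ∘ φ =ᶠ[𝓝 c] F.fB D.ζ := by
      filter_upwards [hGev c hcG'] with c' hc'
      show c3 F 0 (invF b 0 x₀ (φ c')) = _
      rw [hφG c' hc', (mapF_inv b hr0 y₀ x₀ (D.xB c') hc'.2.1).2]
      exact D.c3_eq hc'.1
    rw [hcomp.fderiv_eq] at hvc
    have hdet := hDet F (D.an c hcD) (D.dom c hcD) hz' (by
      filter_upwards [D.isOpen.mem_nhds hcD] with c' hc'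
      exact D.T0 c' hc')
    have hsig := F.evH_Φ hE (σ.s D.j) (σ.deg D.j) ⟨qB D.ζ c, hq⟩ hz
    rw [← hx, (D.xB c).2.out] at hsig
    have hgd := hgood.2.2.2
    rw [hinv] at hgd
    unfold psiG at hPc
    rw [hinv] at hPc
    refine good_eq (Y := F.cX 4 (D.xB c).1) (s := evQ (σ.s D.j) (F.aff (D.xB c).1) 0)
      (z := D.ζ c) hcY hz' (D.Tz c hcD) hgd (hθ _ _ hcB.2 (hreg c hcG')) hPc hvc hdet ?_
      hsig (D.τeq D.j c hcD)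
    rw [hx, F.cX_pi2, F.Φz]
    show F.Φ (qB D.ζ c) 4 = D.ζ c ^ 33 * (F.Φ (qB D.ζ c) 4 / D.ζ c ^ 33)
    field_simp
  -- the contradiction
  have hcl : D.b₁ ∈ closure (D.G ∩ B₁) := by
    rw [mem_closure_iff]
    intro W hW hbW
    obtain ⟨c', hc'W, hc'G⟩ := mem_closure_iff.1 (hdense D.mem) (W ∩ B₁) (hW.inter hB₁o)
      ⟨hbW, hb₁⟩
    exact ⟨c', hc'W.1, hc'G, hc'W.2⟩
  have hne : ∀ᶠ c in 𝓝 D.b₁, L c ≠ 1 := by
    have : L D.b₁ ≠ 1 := by rw [hL0]; exact zero_ne_one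
    exact hLc.eventually_ne this
  obtain ⟨c, hc, hc'⟩ := ((mem_closure_iff_frequently.1 hcl).and_eventually hne).exists
  exact hc' (hL1 c hc)

end Pool.Agent.KO
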