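import Pool.Agent.KO.E.SpecL
import Pool.Agent.KO.E.RMain
import Pool.Agent.KO.E.R3
import Pool.Agent.KO.A.Main

/-!
# Block E: from the output of parts L, M, D to part R; the end (helper52)
-/

set_option autoImplicit false

namespace Pool.Agent.KO

open Set Filter Topology MvPolynomial

section

variable {F : Flip} {r : ℝ} {N : ℕ} {S : Set (PN N × ℂ)} {b : Bimer F.O F.g r S}

theorem invS_eq [Nonempty F.Sp] (x₀ : FX F 0) (y : FS S 0) (h : y.1.1 ∉ b.A') :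
    (invF b 0 x₀ y).1 = invS b y.1 := by
  rw [invF_of b x₀ y h, invS, dif_pos (show (y.1 : PN N × ℂ) ∈ S \ b.A' from ⟨y.1.2, h⟩)]
  rfl

theorem kapR_of [Nonempty F.Sp] (hK : SpKap) (hM : HypM F b)
    (hflat : IsFlat (res (stdP N) S) (fun p => p.1.2))
    (hred : RedFib (res (stdP N) S) (fun p => p.1.2) 0) (σ : Sec F b) (x₀ : FX F 0) :
    KapR σ x₀ := by
  have hT := topA hM.xa hM.pos hM.fib
  intro j y hy c0 hc0
  obtain ⟨h, hh, hev⟩ := hK F r N S b hM hflat hred σ j y hy c0 hc0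
  obtain ⟨U, hyU, hch⟩ := hc0
  refine ⟨h ∘ c0, (hch.hol y hyU _).2 ⟨h, hh, Eventually.of_forall fun z => rfl⟩, ?_⟩
  filter_upwards [hev] with z hz hzg Ψ hΨ hΨe
  obtain ⟨h1, h2, h3, h4⟩ := hzg
  have e := invS_eq (b := b) x₀ z h1
  have hg : F.g (invS b z.1) = 0 := by rw [← e]; exact (invF b 0 x₀ z).2
  rw [e] at h2 h3 h4 ⊢
  have hgood : z.1 ∈ goodS σ j := by
    refine ⟨h1, ?_, ?_, h2, h3, ?_⟩
    · rw [← e]
      exact (invF_map b (by simpa using hM.pos) y x₀ z h1).1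
    · rw [hg]; simpa using σ.pos
    · rw [hg]; exact h4
  have hΨe' : (fun z : FS S 0 => ![F.cX 1 (invS b z.1), F.cX 2 (invS b z.1),
      F.cX 3 (invS b z.1)]) =ᶠ[𝓝 z] Ψ ∘ c0 := by
    filter_upwards [hΨe, hT.openW.mem_nhds h1] with w hw hwA
    rw [← hw]
    unfold cG c3 Flip.c4
    rw [invS_eq (b := b) x₀ w hwA]
    funext i
    fin_cases i <;> rfl
  have h5 := hz hgood Ψ hΨ hΨe'
  have h6 : (2 * F.cX 4 (invS b z.1)) ≠ 0 := mul_ne_zero two_ne_zero h3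
  show h (c0 z) * ((2 * F.cX 4 (invS b z.1)) ^ σ.m *
    evQ (σ.s j) (F.aff (invS b z.1)) 0) = _
  rw [← h5, div_pow, div_div, div_mul_cancel₀]
  exact mul_ne_zero (pow_ne_zero _ h6) h4

end

/-- The end: no good model is fiberwise bimeromorphic to `X`. -/
theorem no_model (hE : EvFacts) (hDen : SpDenF) (hK : SpKap) (hSec : SpSec)
    (F : Flip) (hX : F.XaFacts) (r : ℝ) (hr : 0 < r) (hr1 : r ≤ 1) (N : ℕ)
    (S : Set (PN N × ℂ)) (hS : IsGoodModel r S 3) (b : Bimer F.O F.g r S) : ¬ b.Fiberwise := by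
  intro hb
  obtain ⟨σ⟩ := hSec F r N S b hr hr1
  have hM : HypM F b := ⟨hr, hr1, hX, hS.an, hb⟩
  refine partR hE hDen (fun F _ _ h1 h2 h3 h4 => F.det_fB h1 h2 h3 h4) F hX hr hS.an hS.canon b hb σ fun x₀ => ?_
  have : Nonempty F.Sp := ⟨x₀.1⟩
  exact kapR_of hK hM hS.flat hS.canon.1 σ x₀

end Pool.Agent.KO
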