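import Pool.Agent.KO.U.Defs

/-!
# KO, block E: the ring of analytic functions on a disc is a domain (helper92)
-/

set_option autoImplicit false

namespace Pool.Agent.KO

open Set Filter Topology

theorem anR_zero {r : ℝ} {f : AnR r} : f = 0 ↔ ∀ s : Metric.ball (0 : ℂ) r, evR s f = 0 := by
  constructor
  · rintro rfl s
    exact map_zero _
  · intro h
    exact Subtype.ext (funext fun s => h s)

instance nontrivial_AnR (r : ℝ) [hr : Fact (0 < r)] : Nontrivial (AnR r) := by
  refine ⟨⟨0, 1, fun h => ?_⟩⟩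
  have h1 := congrArg (evR ⟨0, Metric.mem_ball_self hr.out⟩) h
  rw [map_zero, map_one] at h1
  exact zero_ne_one h1

instance noZeroDivisors_AnR (r : ℝ) : NoZeroDivisors (AnR r) where
  eq_zero_or_eq_zero_of_mul_eq_zero := by
    intro f g h
    obtain ⟨Ff, hFf, hf⟩ := f.2
    obtain ⟨Fg, hFg, hg⟩ := g.2
    have h1 : ∀ z ∈ Metric.ball (0 : ℂ) r, Ff z * Fg z = 0 := by
      intro z hz
      have h2 := congrArg (evR ⟨z, hz⟩) h
      rw [map_mul, map_zero] at h2
      rw [← hf ⟨z, hz⟩, ← hg ⟨z, hz⟩]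
      exact h2
    have hpre : IsPreconnected (Metric.ball (0 : ℂ) r) := (convex_ball (0 : ℂ) r).isPreconnected
    have h2 : (∀ z ∈ Metric.ball (0 : ℂ) r, Ff z = 0) ∨ ∀ z ∈ Metric.ball (0 : ℂ) r, Fg z = 0 := by
      by_contra hcon
      push Not at hcon
      obtain ⟨⟨z, hz, hz0⟩, ⟨z', hz', hz0'⟩⟩ := hcon
      have hev : ∀ᶠ y in 𝓝 z, Ff y ≠ 0 := (hFf z hz).continuousAt.eventually_ne hz0
      have hev2 : ∀ᶠ y in 𝓝 z, Fg y = 0 := by
        filter_upwards [hev, Metric.isOpen_ball.mem_nhds hz] with y hy hy2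
        exact (mul_eq_zero.1 (h1 y hy2)).resolve_left hy
      have h3 := hFg.eqOn_zero_of_preconnected_of_eventuallyEq_zero hpre hz hev2
      exact hz0' (h3 hz')
    rcases h2 with h2 | h2
    · left
      exact anR_zero.2 fun s => (hf s).trans (h2 s s.2)
    · right
      exact anR_zero.2 fun s => (hg s).trans (h2 s s.2)

instance isDomain_AnR (r : ℝ) [Fact (0 < r)] : IsDomain (AnR r) := NoZeroDivisors.to_isDomain _

end Pool.Agent.KO
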