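import Pool.Agent.KO.E.Defs
import Pool.Agent.KO.E.Dom

/-!
# KO, block E: the field of germs (helper92)

Coordinates at `0 : Fin 4 → ℂ`: `x 2 = t - t0`, and the divisor is `x 3 = 0`.
-/

set_option autoImplicit false

namespace Pool.Agent.KO

open Set Filter Topology MvPolynomial

/-- The ring of germs of analytic functions at `0 : Fin 4 → ℂ`. -/
def AnG : Subring (Germ (𝓝 (0 : Fin 4 → ℂ)) ℂ) where
  carrier := {f | ∃ F : (Fin 4 → ℂ) → ℂ, AnalyticAt ℂ F 0 ∧ f = (F : Germ (𝓝 (0 : Fin 4 → ℂ)) ℂ)}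
  mul_mem' := by
    rintro _ _ ⟨F, hF, rfl⟩ ⟨G, hG, rfl⟩
    exact ⟨F * G, hF.mul hG, rfl⟩
  one_mem' := ⟨fun _ => 1, analyticAt_const, rfl⟩
  add_mem' := by
    rintro _ _ ⟨F, hF, rfl⟩ ⟨G, hG, rfl⟩
    exact ⟨F + G, hF.add hG, rfl⟩
  zero_mem' := ⟨fun _ => 0, analyticAt_const, rfl⟩
  neg_mem' := by
    rintro _ ⟨F, hF, rfl⟩
    exact ⟨-F, hF.neg, rfl⟩

/-- The germ of an analytic function. -/
noncomputable def ofAn (F : (Fin 4 → ℂ) → ℂ) (hF : AnalyticAt ℂ F 0) : AnG :=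
  ⟨(F : Germ (𝓝 (0 : Fin 4 → ℂ)) ℂ), F, hF, rfl⟩

theorem ofAn_eq {F G : (Fin 4 → ℂ) → ℂ} {hF : AnalyticAt ℂ F 0} {hG : AnalyticAt ℂ G 0} :
    ofAn F hF = ofAn G hG ↔ F =ᶠ[𝓝 0] G := by
  rw [Subtype.ext_iff]
  exact Germ.coe_eq

theorem ofAn_zero {F : (Fin 4 → ℂ) → ℂ} {hF : AnalyticAt ℂ F 0} :
    ofAn F hF = 0 ↔ ∀ᶠ x in 𝓝 0, F x = 0 :=
  ofAn_eq (hG := analyticAt_const (v := (0 : ℂ)))

theorem ofAn_add {F G : (Fin 4 → ℂ) → ℂ} (hF : AnalyticAt ℂ F 0) (hG : AnalyticAt ℂ G 0) :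
    ofAn (fun x => F x + G x) (hF.add hG) = ofAn F hF + ofAn G hG := rfl

theorem ofAn_mul {F G : (Fin 4 → ℂ) → ℂ} (hF : AnalyticAt ℂ F 0) (hG : AnalyticAt ℂ G 0) :
    ofAn (fun x => F x * G x) (hF.mul hG) = ofAn F hF * ofAn G hG := rfl

theorem exists_ofAn (f : AnG) : ∃ F, ∃ hF : AnalyticAt ℂ F 0, f = ofAn F hF := by
  obtain ⟨_, F, hF, rfl⟩ := f
  exact ⟨F, hF, rfl⟩

instance isDomain_AnG : IsDomain AnG := by
  have : Nontrivial AnG := ⟨⟨0, 1, fun h => by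
    have h1 : ofAn (fun _ => 0) analyticAt_const = ofAn (fun _ => 1) analyticAt_const := h
    rw [ofAn_eq] at h1
    exact zero_ne_one (h1.self_of_nhds)⟩⟩
  have : NoZeroDivisors AnG := ⟨by
    intro f g h
    obtain ⟨F, hF, rfl⟩ := exists_ofAn f
    obtain ⟨G, hG, rfl⟩ := exists_ofAn g
    have h1 : ofAn (fun x => F x * G x) (hF.mul hG) = ofAn (fun _ => 0) analyticAt_const := h
    rw [ofAn_eq] at h1
    by_contra hcon
    push Not at hcon
    obtain ⟨hF0, hG0⟩ := hcon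
    have hF0' : ¬ ∀ᶠ x in 𝓝 (0 : Fin 4 → ℂ), F x = 0 := fun h2 => hF0 (ofAn_zero.2 h2)
    obtain ⟨ε, hε, hε2⟩ := Metric.eventually_nhds_iff_ball.1
      ((hF.eventually_analyticAt.and hG.eventually_analyticAt).and h1)
    have hpre : IsPreconnected (Metric.ball (0 : Fin 4 → ℂ) ε) :=
      (convex_ball (0 : Fin 4 → ℂ) ε).isPreconnected
    have hFa : AnalyticOnNhd ℂ F (Metric.ball 0 ε) := fun x hx => (hε2 x hx).1.1
    have hGa : AnalyticOnNhd ℂ G (Metric.ball 0 ε) := fun x hx => (hε2 x hx).1.2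
    have hFne : ∃ x ∈ Metric.ball (0 : Fin 4 → ℂ) ε, F x ≠ 0 := by
      by_contra hc
      push Not at hc
      exact hF0' (Metric.eventually_nhds_iff_ball.2 ⟨ε, hε, hc⟩)
    obtain ⟨x, hx, hFx⟩ := hFne
    have h3 : ∀ᶠ y in 𝓝 x, G y = 0 := by
      filter_upwards [(hFa x hx).continuousAt.eventually_ne hFx,
        Metric.isOpen_ball.mem_nhds hx] with y hy hy2
      exact (mul_eq_zero.1 (hε2 y hy2).2).resolve_left hy
    have h4 := hGa.eqOn_zero_of_preconnected_of_eventuallyEq_zero hpre hx h3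
    exact hG0 (ofAn_zero.2 (Metric.eventually_nhds_iff_ball.2 ⟨ε, hε, fun y hy => h4 hy⟩))⟩
  exact NoZeroDivisors.to_isDomain _

/-- The function of `t`, as a function on `ℂ`. -/
noncomputable def fe {r : ℝ} (f : AnR r) : ℂ → ℂ := (AnR.exists_fun f).choose

theorem fe_an {r : ℝ} (f : AnR r) : AnalyticOnNhd ℂ (fe f) (Metric.ball 0 r) :=
  (AnR.exists_fun f).choose_spec.1

theorem fe_eq {r : ℝ} (f : AnR r) (s : Metric.ball (0 : ℂ) r) : evR s f = fe f s :=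
  (AnR.exists_fun f).choose_spec.2 s

theorem embA_an {r : ℝ} (t0 : Metric.ball (0 : ℂ) r) (f : AnR r) :
    AnalyticAt ℂ (fun x : Fin 4 → ℂ => fe f (t0 + x 2)) 0 := by
  refine AnalyticAt.comp (f := fun x : Fin 4 → ℂ => (t0 : ℂ) + x 2) (fe_an f _ ?_) ?_
  · simp
  · exact analyticAt_const.add
      ((ContinuousLinearMap.proj (R := ℂ) (φ := fun _ : Fin 4 => ℂ) 2).analyticAt 0)

theorem ev_t0 {r : ℝ} (t0 : Metric.ball (0 : ℂ) r) :
    ∀ᶠ x in 𝓝 (0 : Fin 4 → ℂ), (t0 : ℂ) + x 2 ∈ Metric.ball (0 : ℂ) r := by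
  have hc : Continuous fun x : Fin 4 → ℂ => (t0 : ℂ) + x 2 :=
    continuous_const.add (continuous_apply (2 : Fin 4))
  exact (Metric.isOpen_ball.preimage hc).mem_nhds (by simp)

/-- An analytic function of `t` as a germ: `t = t0 + x 2`. -/
noncomputable def embA {r : ℝ} (t0 : Metric.ball (0 : ℂ) r) : AnR r →+* AnG where
  toFun f := ofAn (fun x => fe f (t0 + x 2)) (embA_an t0 f)
  map_one' := by
    show ofAn (fun x => fe (1 : AnR r) (t0 + x 2)) (embA_an t0 1) =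
      ofAn (fun _ => 1) analyticAt_const
    rw [ofAn_eq]
    filter_upwards [ev_t0 t0] with x hx
    exact (fe_eq 1 ⟨_, hx⟩).symm.trans (map_one _)
  map_zero' := by
    show ofAn (fun x => fe (0 : AnR r) (t0 + x 2)) (embA_an t0 0) =
      ofAn (fun _ => 0) analyticAt_const
    rw [ofAn_eq]
    filter_upwards [ev_t0 t0] with x hx
    exact (fe_eq 0 ⟨_, hx⟩).symm.trans (map_zero _)
  map_mul' f g := by
    show ofAn (fun x => fe (f * g) (t0 + x 2)) (embA_an t0 _) =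
      ofAn (fun x => fe f (t0 + x 2) * fe g (t0 + x 2))
        ((embA_an t0 f).mul (embA_an t0 g))
    rw [ofAn_eq]
    filter_upwards [ev_t0 t0] with x hx
    have h1 := fe_eq (f * g) ⟨_, hx⟩
    rw [map_mul, fe_eq f, fe_eq g] at h1
    exact h1.symm
  map_add' f g := by
    show ofAn (fun x => fe (f + g) (t0 + x 2)) (embA_an t0 _) =
      ofAn (fun x => fe f (t0 + x 2) + fe g (t0 + x 2))
        ((embA_an t0 f).add (embA_an t0 g))
    rw [ofAn_eq]
    filter_upwards [ev_t0 t0] with x hx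
    have h1 := fe_eq (f + g) ⟨_, hx⟩
    rw [map_add, fe_eq f, fe_eq g] at h1
    exact h1.symm

theorem embA_eq {r : ℝ} (t0 : Metric.ball (0 : ℂ) r) (f : AnR r) {F : (Fin 4 → ℂ) → ℂ}
    {hF : AnalyticAt ℂ F 0}
    (h : ∀ᶠ x in 𝓝 (0 : Fin 4 → ℂ), ∀ hx : (t0 : ℂ) + x 2 ∈ Metric.ball (0 : ℂ) r,
      evR ⟨_, hx⟩ f = F x) : embA t0 f = ofAn F hF := by
  show ofAn (fun x => fe f (t0 + x 2)) (embA_an t0 f) = ofAn F hF
  rw [ofAn_eq]
  filter_upwards [h, ev_t0 t0] with x hx hx2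
  rw [← hx hx2]
  exact (fe_eq f ⟨_, hx2⟩).symm

theorem embA_inj {r : ℝ} (t0 : Metric.ball (0 : ℂ) r) : Function.Injective (embA t0) := by
  rw [injective_iff_map_eq_zero]
  intro f hf
  have hf' : ofAn (fun x => fe f (t0 + x 2)) (embA_an t0 f) =
      ofAn (fun _ => 0) analyticAt_const := hf
  have h1 : ∀ᶠ x in 𝓝 (0 : Fin 4 → ℂ), fe f (t0 + x 2) = 0 := ofAn_eq.1 hf'
  have h2 : ∀ᶠ s in 𝓝 (t0 : ℂ), fe f s = 0 := by
    have hc : Tendsto (fun s : ℂ => (Pi.single (2 : Fin 4) (s - t0) : Fin 4 → ℂ)) (𝓝 (t0 : ℂ))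
        (𝓝 0) := by
      have : Continuous fun s : ℂ => (Pi.single (2 : Fin 4) (s - t0) : Fin 4 → ℂ) :=
        (continuous_single (A := fun _ : Fin 4 => ℂ) 2).comp (continuous_id.sub continuous_const)
      have h3 := this.tendsto (t0 : ℂ)
      simpa using h3
    filter_upwards [hc.eventually h1] with s hs
    simpa using hs
  have h3 := (fe_an f).eqOn_zero_of_preconnected_of_eventuallyEq_zero
    (convex_ball (0 : ℂ) r).isPreconnected t0.2 h2
  exact anR_zero.2 fun s => (fe_eq f s).trans (h3 s.2)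

/-- The field of germs of meromorphic functions at `0`. -/
abbrev GF : Type := FractionRing AnG

/-- The field of germs as an extension of the field of functions of `t` at `t0`. -/
def GE {r : ℝ} (_ : Metric.ball (0 : ℂ) r) : Type := GF

noncomputable instance {r : ℝ} (t0 : Metric.ball (0 : ℂ) r) : Field (GE t0) :=
  inferInstanceAs (Field GF)

/-- The germs in the field. -/
noncomputable def toGE {r : ℝ} (t0 : Metric.ball (0 : ℂ) r) : AnG →+* GE t0 :=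
  algebraMap AnG GF

theorem toGE_inj {r : ℝ} (t0 : Metric.ball (0 : ℂ) r) : Function.Injective (toGE t0) :=
  IsFractionRing.injective AnG GF

noncomputable instance {r : ℝ} [Fact (0 < r)] (t0 : Metric.ball (0 : ℂ) r) :
    Algebra (Kr r) (GE t0) :=
  (IsFractionRing.lift (A := AnR r) (K := Kr r) (g := (toGE t0).comp (embA t0))
    ((toGE_inj t0).comp (embA_inj t0))).toAlgebra

theorem algMap_GE {r : ℝ} [Fact (0 < r)] (t0 : Metric.ball (0 : ℂ) r) (f : AnR r) :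
    algebraMap (Kr r) (GE t0) (algebraMap (AnR r) (Kr r) f) = toGE t0 (embA t0 f) :=
  IsFractionRing.lift_algebraMap _ f

/-- The partial derivative of a germ in the direction `k`. -/
noncomputable def pd (k : Fin 4) (F : (Fin 4 → ℂ) → ℂ) : (Fin 4 → ℂ) → ℂ :=
  fun x => fderiv ℂ F x (Pi.single k 1)

theorem pd_an {k : Fin 4} {F : (Fin 4 → ℂ) → ℂ} {p : Fin 4 → ℂ} (hF : AnalyticAt ℂ F p) :
    AnalyticAt ℂ (pd k F) p := by
  have h1 : AnalyticAt ℂ (fderiv ℂ F) p := hF.fderiv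
  exact (ContinuousLinearMap.apply ℂ ℂ (Pi.single k 1 : Fin 4 → ℂ)).analyticAt _ |>.comp h1

end Pool.Agent.KO
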