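import Pool.Agent.KO.E.Tr

/-!
# Block E: gluing over the manifold points and extension by normality (helper52)
-/

set_option autoImplicit false

namespace Pool.Agent.KO

open Set Filter Topology

/-- The facts for restricted sheaves. -/
theorem ShfFacts.res {X : Type} [TopologicalSpace X] {O : Shf X} (h : ShfFacts O) (S : Set X) :
    ShfFacts (res O S) where
  congr := fun _ _ _ he hf => (res_congr he).1 hf
  cont := by
    rintro f x ⟨H, hH, h1⟩
    have h2 : ContinuousAt (fun y : S => H y.1) x :=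
      ContinuousAt.comp (g := H) (f := fun y : S => y.1) (h.cont _ _ hH) continuousAt_subtype_val
    exact h2.congr (h1.mono fun y hy => hy.symm)
  opn := by
    rintro f x ⟨H, hH, h1⟩
    filter_upwards [continuousAt_subtype_val.eventually (h.opn _ _ hH), h1.eventually_nhds]
      with y h2 h3
    exact ⟨H, h2, h3⟩
  comp := by
    intro n f x H hf hH
    choose K hK h1 using hf
    have hx : ∀ i, f i x = K i x.1 := fun i => (h1 i).self_of_nhds
    refine ⟨fun y => H fun i => K i y, h.comp n K x.1 H hK ?_, ?_⟩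
    · have : (fun i => K i x.1) = fun i => f i x := funext fun i => (hx i).symm
      rw [this]; exact hH
    · filter_upwards [eventually_all.2 h1] with y hy
      have : (fun i => f i y) = fun i => K i y.1 := funext fun i => hy i
      rw [this]

theorem IsCoord.eventually {X : Type} [TopologicalSpace X] {O : Shf X} {n : ℕ}
    {c : X → Fin n → ℂ} {x : X} (h : IsCoord O c x) : ∀ᶠ y in 𝓝 x, IsCoord O c y := by
  obtain ⟨U, hxU, hc⟩ := h
  filter_upwards [hc.isOpen.mem_nhds hxU] with y hy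
  exact ⟨U, hy, hc⟩

theorem IsReg.eventually {X : Type} [TopologicalSpace X] {O : Shf X} {n : ℕ} {x : X}
    (h : IsReg O n x) : ∀ᶠ y in 𝓝 x, IsReg O n y := by
  obtain ⟨c, hc⟩ := h
  exact hc.eventually.mono fun y hy => ⟨c, hy⟩

/-- Gluing of local holomorphic functions that agree with `ψ` at the good points. -/
theorem exists_glue {Y : Type} [TopologicalSpace Y] {O : Shf Y} {n : ℕ} (hN : IsNormal O n)
    (hO : ShfFacts O) {V : Set Y} (hV : IsOpen V) {Gd : Set Y} (hd : V ⊆ closure Gd) {ψ : Y → ℂ}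
    (h : ∀ y ∈ V, IsReg O n y → ∃ k : Y → ℂ, O k y ∧ ∀ᶠ z in 𝓝 y, z ∈ Gd → k z = ψ z) :
    ∃ Ψ : Y → ℂ, (∀ y ∈ V, O Ψ y) ∧ ∀ y ∈ V, IsReg O n y → y ∈ Gd → Ψ y = ψ y := by
  classical
  set f : Y → ℂ := fun y => if hy : y ∈ V ∧ IsReg O n y then (h y hy.1 hy.2).choose y else 0
    with hf
  have hfy : ∀ y (hy : y ∈ V ∧ IsReg O n y), f y = (h y hy.1 hy.2).choose y := fun y hy => by
    simp only [hf, dif_pos hy]
  have hloc : ∀ y ∈ V, IsReg O n y → O f y := by
    intro y hy hr
    obtain ⟨h1, h2⟩ := (h y hy hr).choose_spec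
    set k := (h y hy hr).choose with hk
    refine hO.congr k f y ?_ h1
    filter_upwards [hV.mem_nhds hy, hr.eventually, h2.eventually_nhds, hO.opn _ _ h1]
      with z hz hzr h3 h4
    rw [hfy z ⟨hz, hzr⟩]
    obtain ⟨h5, h6⟩ := (h z hz hzr).choose_spec
    set k' := (h z hz hzr).choose with hk'
    -- `k` and `k'` agree at the good points near `z`
    have hfreq : ∃ᶠ w in 𝓝 z, w ∈ Gd := mem_closure_iff_frequently.1 (hd hz)
    have h7 : ∃ᶠ w in 𝓝 z, k w = k' w :=
      (hfreq.and_eventually (h3.and h6)).mono fun w hw => by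
        rw [hw.2.1 hw.1, hw.2.2 hw.1]
    by_contra hne
    have h8 : ∀ᶠ w in 𝓝 z, k w ≠ k' w := by
      have c1 := hO.cont _ _ h4
      have c2 := hO.cont _ _ h5
      exact (c1.ne_iff_eventually_ne c2).1 hne
    exact h7 h8
  obtain ⟨Ψ, h1, h2⟩ := hN.2.2 V hV f hloc
  refine ⟨Ψ, h1, fun y hy hr hg => ?_⟩
  rw [h2 y hy hr, hfy y ⟨hy, hr⟩]
  exact (h y hy hr).choose_spec.2.self_of_nhds hg

end Pool.Agent.KO
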