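import Pool.Agent.KO.E.Crd

/-!
# Block E, part R: the chart `A₁ = 1` near `Π` (statements of rows R3, R6)
-/

set_option autoImplicit false

namespace Pool.Agent.KO

open Set Filter Topology

/-- The point of the flip chart with `A₁ = 1`, `b = (A₂, A₃, w)`. -/
def qB (ζ : (Fin 3 → ℂ) → ℂ) (b : Fin 3 → ℂ) : Fin 5 → ℂ := ![1, b 0, b 1, ζ b, b 2]

namespace Flip

variable (F : Flip)

/-- The functions `u, w, x` in the chart `A₁ = 1` of `X₀`. -/
noncomputable def fB (ζ : (Fin 3 → ℂ) → ℂ) (b : Fin 3 → ℂ) : Fin 3 → ℂ :=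
  fun i => F.Φ (qB ζ b) (![1, 2, 3] i) / F.Φ (qB ζ b) 0 ^ wgt (![1, 2, 3] i)

end Flip

end Pool.Agent.KO
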