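import Pool.Agent.KO.E.SpecL
import Pool.Agent.KO.C.Pole
import Pool.Agent.KO.C.Iden
import Pool.Agent.KO.E.Div

/-!
# Project KO, block E: the form is holomorphic near the manifold points (row L13, helper92)
-/

set_option autoImplicit false

namespace Pool.Agent.KO

open Set Filter Topology MvPolynomial

/-- An identity of functions that are continuous at the points of an open set, outside of the zeros
of an analytic function. -/
theorem lm_cancel {n : ℕ} {G : Set (Fin n → ℂ)} (hG : IsOpen G) {b f g : (Fin n → ℂ) → ℂ}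
    {y : Fin n → ℂ} (hy : y ∈ G) (hb : ∃ᶠ z in 𝓝 y, b z ≠ 0) (hf : ContinuousAt f y)
    (hg : ContinuousAt g y) (h : ∀ᶠ z in 𝓝 y, z ∈ G → b z * f z = b z * g z) : f y = g y := by
  refine C.eq_of_frequently hf hg ?_
  refine (hb.and_eventually (h.and (hG.mem_nhds hy))).mono ?_
  rintro z ⟨h1, h2, h3⟩
  exact mul_left_cancel₀ h1 (h2 h3)

section

variable {F : Flip} {r : ℝ} {N : ℕ} {S : Set (PN N × ℂ)} {b : Bimer F.O F.g r S}
  {σ : Sec F b} {j : Fin (N + 1)}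

theorem lm_dense (L : Loc σ j) {q : Fin 4 → ℂ} (hq : q ∈ L.B) : q ∈ closure L.good :=
  closure_mono inter_subset_left (L.dense q hq)

/-- The horizontal case, in general coordinates. -/
theorem lm_hor (hk : SpKeym) (h6 : SpRep6) (hQ : SpRepQ) (hG : SpGerm) (hD : SpRepD)
    (hJ : SpRepJ) (hT : SpTrans) (hH : SpHor) (h5 : SpL5a) (L : Loc σ j) {q : Fin 4 → ℂ}
    (hq : q ∈ L.B) {c u : (Fin 4 → ℂ) → ℂ} {e : ℕ} (he : 1 ≤ e) (hc : AnalyticAt ℂ c q)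
    (hc0 : c q = 0) {k : Fin 3} (hck : fderiv ℂ c q (Pi.single k.castSucc 1) ≠ 0)
    (hu : AnalyticAt ℂ u q) (hu0 : u q ≠ 0)
    (hkap : ∀ᶠ y in 𝓝 q, y ∈ L.good → c y ^ e * L.kap y = u y) : False := by
  obtain ⟨E, d, h0, hE0, hEa, hda, hE⟩ := h5 c q k hc hc0 hck
  have := σ.pos1
  obtain ⟨O, hO1, hO, hqO⟩ := eventually_nhds_iff.1 hkap
  have hEc : ContinuousAt E 0 := (hEa 0 h0).continuousAt
  have hmap : Filter.map E (𝓝 0) = 𝓝 q := by rw [← hE0]; exact E.map_nhds_eq h0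
  set G : Set (Fin 4 → ℂ) := (E.source ∩ E ⁻¹' (L.good ∩ O)) ∩ {x | x 3 ≠ 0} with hGdef
  have hG1 : IsOpen (E.source ∩ E ⁻¹' (L.good ∩ O)) := E.isOpen_inter_preimage (L.gopen.inter hO)
  have hGo : IsOpen G := hG1.inter (isOpen_ne_fun (continuous_apply 3) continuous_const)
  have hq3 : ‖q 3‖ < σ.r1 := (L.small q hq).trans_le σ.le
  have hdense : ∀ᶠ x in 𝓝 (0 : Fin 4 → ℂ), x ∈ closure G := by
    have h1 : ∀ᶠ x in 𝓝 (0 : Fin 4 → ℂ), E x ∈ L.B ∩ O := by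
      have := (L.isOpen.inter hO).mem_nhds ⟨hq, hqO⟩
      rw [← hmap] at this
      exact this
    filter_upwards [h1, E.open_source.mem_nhds h0] with x hx hxs
    rw [mem_closure_iff]
    intro V hV hxV
    have h2 : E '' (V ∩ E.source) ∈ 𝓝 (E x) := by
      rw [← E.map_nhds_eq hxs]
      exact image_mem_map (inter_mem (hV.mem_nhds hxV) (E.open_source.mem_nhds hxs))
    obtain ⟨y, ⟨hy1, hy2⟩, hy3⟩ := mem_closure_iff_nhds.1 (lm_dense L hx.1) _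
      (inter_mem h2 (hO.mem_nhds hx.2))
    obtain ⟨x', ⟨hx'V, hx's⟩, rfl⟩ := hy1
    have h3 : V ∩ (E.source ∩ E ⁻¹' (L.good ∩ O)) ∈ 𝓝 x' :=
      (hV.inter hG1).mem_nhds ⟨hx'V, hx's, hy3, hy2⟩
    obtain ⟨x'', h4, h5⟩ := ((C.coord_freq 3 x').and_eventually h3).exists
    exact ⟨x'', h5.1, h5.2, h4⟩
  obtain ⟨b₀, a₀, hb₀, ha₀, hb₀0, hab₀⟩ := L.mer q hq
  rw [← hE0] at hb₀ ha₀
  have hEa0 := hEa 0 h0
  refine hH hk h6 hQ hG hD hJ hT σ.r1 N σ.s σ.m σ.nf σ.deg σ.top σ.cop j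
    ⟨q 3, by simpa using hq3⟩ G hGo hdense (fun i => L.W i ∘ E) ?_
    ⟨b₀ ∘ E, fun i => a₀ i ∘ E, hb₀.comp hEa0, fun i => (ha₀ i).comp hEa0, ?_, ?_⟩ ?_
    (fun i => L.f i ∘ E) ?_ ?_ e (fun x => d x ^ σ.m * u (E x)) he ?_ ?_ ?_
  · intro i x hx
    exact (L.an i _ hx.1.2.1).comp (hEa x hx.1.1)
  · intro h
    apply hb₀0
    have : ∀ᶠ y in Filter.map E (𝓝 0), b₀ y = 0 := h
    rwa [hmap] at this
  · have : ∀ᶠ y in Filter.map E (𝓝 0), y ∈ L.good → ∀ i, b₀ y * L.W i y = a₀ i y := by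
      rw [hmap]; exact hab₀
    filter_upwards [this] with x hx hxG i
    exact hx hxG.1.2.1 i
  · rintro x ⟨⟨hxs, hxg, hxO⟩, hx3⟩
    obtain ⟨e1, e2, e3, e4⟩ := hE x hxs
    have e5 : q 3 + x 2 = E x 3 := e1.symm
    simp only [Function.comp_def]
    rw [e5]
    refine ⟨(L.small _ (L.gsub hxg)).trans_le σ.le, L.eq _ hxg, L.y_ne _ hxg, ?_, hx3,
      L.s_ne _ hxg⟩
    have := e4 L.W fun i => L.an i _ hxg
    have e6 : J4 (fun i x => L.W i (E x)) x = d x * J3 L.W (E x) := this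
    rw [e6]
    exact mul_ne_zero e3 (L.J_ne _ hxg)
  · intro i
    have := L.fan i q hq
    rw [← hE0] at this
    exact this.comp hEa0
  · rintro i x ⟨⟨hxs, hxg, hxO⟩, hx3⟩
    obtain ⟨e1, e2, e3, e4⟩ := hE x hxs
    have e5 : q 3 + x 2 = E x 3 := e1.symm
    simp only [Function.comp_def]
    rw [e5]
    exact L.rel i _ hxg
  · refine ((hda 0 h0).pow _).mul ?_
    rw [← hE0] at hu
    exact hu.comp hEa0
  · simp only [hE0]
    exact mul_ne_zero (pow_ne_zero _ (hE 0 h0).2.2.1) hu0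
  · rintro x ⟨⟨hxs, hxg, hxO⟩, hx3⟩
    obtain ⟨e1, e2, e3, e4⟩ := hE x hxs
    have e5 : q 3 + x 2 = E x 3 := e1.symm
    have e6 : J4 (fun i x => L.W i (E x)) x = d x * J3 L.W (E x) := e4 L.W fun i => L.an i _ hxg
    have e7 := hO1 _ hxO hxg
    simp only [Function.comp_def]
    rw [e5, ← e7, ← e2]
    rw [e6, Loc.kap]
    ring

/-- The local theorem. -/
theorem sp_Loc (h0 : SpL0) (h0b : SpL0b) (h1 : SpL1) (h1b : SpL1b) (h3 : SpL3) (h5 : SpL5a)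
    (hk : SpKeym) (h6 : SpRep6) (hQ : SpRepQ) (hG : SpGerm) (hD : SpRepD)
    (hJ : SpRepJ) (hT : SpTrans) (hH : SpHor) : SpLoc := by
  intro F r N S b σ j L ξ hξ
  obtain ⟨a, b', ha, hb, hb0, hab⟩ := h1 h0 F r N S b σ j L ξ hξ
  have hfr := C.freq_ne hb hb0
  by_cases hex : ∃ h, AnalyticAt ℂ h ξ ∧ ∀ᶠ x in 𝓝 ξ, b' x * h x = a x
  · obtain ⟨h, hh, hbh⟩ := hex
    refine ⟨h, hh, ?_⟩
    filter_upwards [hfr, hab.eventually_nhds, hbh.eventually_nhds, hh.eventually_analyticAt]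
      with y e1 e2 e3 e4 hy
    refine lm_cancel L.gopen hy e1 (h1b h0b F r N S b σ j L y hy).continuousAt e4.continuousAt ?_
    filter_upwards [e2, e3] with z e5 e6 hz
    rw [e5 hz, e6]
  · exfalso
    have hN : ∀ᶠ x in 𝓝 ξ, x ∈ L.B ∧ (∀ᶠ y in 𝓝 x, ∃ᶠ z in 𝓝 y, b' z ≠ 0) ∧
        ∀ᶠ y in 𝓝 x, y ∈ L.good → b' y * L.kap y = a y := by
      filter_upwards [L.isOpen.mem_nhds hξ, hfr.eventually_nhds, hab.eventually_nhds]
        with x e1 e2 e3
      exact ⟨e1, e2, e3⟩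
    obtain ⟨q, ⟨hqB, hqf', hqk⟩, c, u, e, he, hc, hu, hc0, hdc, hu0, hcu⟩ := C.pole ha hb
      (not_eventually.1 hb0) hex hN
    have hcl : ∀ᶠ y in 𝓝 q, y ∈ L.good → c y ^ e * L.kap y = u y := by
      filter_upwards [hqf', hqk.eventually_nhds, hcu.eventually_nhds, hc.eventually_analyticAt,
        hu.eventually_analyticAt] with y e1 e2 e3 e4 e5 hy
      refine lm_cancel (f := fun y => c y ^ e * L.kap y) L.gopen hy e1
        ((e4.continuousAt.pow _).mul (h1b h0b F r N S b σ j L y hy).continuousAt)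
        e5.continuousAt ?_
      filter_upwards [e2, e3] with z e6 e7 hz
      have e8 := e6 hz
      calc b' z * (c z ^ e * L.kap z) = c z ^ e * (b' z * L.kap z) := by ring
        _ = c z ^ e * a z := by rw [e8]
        _ = u z * b' z := e7
        _ = b' z * u z := mul_comm _ _
    rcases h3 c q hc hc0 hdc with hfib | hhor
    · have e1 : ∃ᶠ y in 𝓝 q, y ∈ L.good ∩ {ξ' | ξ' 3 = q 3} :=
        mem_closure_iff_frequently.1 (L.dense q hqB)
      obtain ⟨y, ⟨hy1, hy2⟩, hy3, hy4, hy5⟩ := (e1.and_eventually (hcl.and (hfib.and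
        (hu.continuousAt.eventually_ne hu0)))).exists
      apply hy5
      rw [← hy3 hy1, hy4 hy2, zero_pow (by omega), zero_mul]
    · have hN' : ∀ᶠ x in 𝓝 q, x ∈ L.B ∧ AnalyticAt ℂ u x ∧ u x ≠ 0 ∧
          ∀ᶠ y in 𝓝 x, y ∈ L.good → c y ^ e * L.kap y = u y := by
        filter_upwards [L.isOpen.mem_nhds hqB, hu.eventually_analyticAt,
          hu.continuousAt.eventually_ne hu0, hcl.eventually_nhds] with x e1 e2 e3 e4
        exact ⟨e1, e2, e3, e4⟩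
      obtain ⟨q', ⟨hq1, hq2, hq3, hq4⟩, hq5, hq6, k, hq7⟩ := hhor _ hN'
      exact lm_hor hk h6 hQ hG hD hJ hT hH h5 L hq1 he hq5 hq6 hq7 hq2 hq3 hq4

end

end Pool.Agent.KO
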