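import Pool.Agent.KO.E.SpecL
import Pool.Agent.KO.A.Ev
import Pool.Agent.KO.C.Iden

/-!
# Project KO, block E, row M10: the affine coordinates are meromorphic (helper14)
-/

set_option autoImplicit false

namespace Pool.Agent.KO

open Set Filter Topology MvPolynomial

/-- Values of homogeneous polynomials. -/
theorem me_homog {r : ℝ} {n D : ℕ} {C : MvPolynomial (Fin n) (AnR r)} (hC : C.IsHomogeneous D)
    (l : ℂ) (x : Fin n → ℂ) (s : ℂ) :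
    evQ C (fun i => x i * l) s = l ^ D * evQ C x s := by
  rw [A3.evQ_eq, A3.evQ_eq, Finset.mul_sum]
  refine Finset.sum_congr rfl fun a ha => ?_
  have h1 : ∑ i, a i = D := by
    have h2 := hC (mem_support_iff.1 ha)
    rw [Finsupp.weight_apply, Finsupp.sum_fintype _ _ (by simp)] at h2
    simpa using h2
  have h3 : ∏ i, (x i * l) ^ a i = l ^ D * ∏ i, x i ^ a i := by
    simp only [mul_pow]
    rw [Finset.prod_mul_distrib, Finset.prod_pow_eq_pow_sum, h1, mul_comm]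
  rw [h3]
  ring

/-- A product of germs that are not zero is not zero. -/
theorem me_prod {n : ℕ} (ξ : Fin n → ℂ) (c : ℕ → (Fin n → ℂ) → ℂ)
    (hc : ∀ i, AnalyticAt ℂ (c i) ξ) (hne : ∀ i, ¬ ∀ᶠ y in 𝓝 ξ, c i y = 0) (k : ℕ) :
    ¬ ∀ᶠ y in 𝓝 ξ, ∏ i ∈ Finset.range k, c i y = 0 := by
  induction k with
  | zero =>
    intro h
    have h1 := h.self_of_nhds
    simp at h1
  | succ k ih =>
    intro h
    simp only [Finset.prod_range_succ] at h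
    rcases C.germ_mul (Finset.analyticAt_fun_prod _ fun i _ => hc i) (hc k) h with h1 | h1
    · exact ih h1
    · exact hne k h1

/-- The same for a family with four members. -/
theorem me_prod4 {n : ℕ} (ξ : Fin n → ℂ) (c : Fin 4 → (Fin n → ℂ) → ℂ)
    (hc : ∀ i, AnalyticAt ℂ (c i) ξ) (hne : ∀ i, ¬ ∀ᶠ y in 𝓝 ξ, c i y = 0) :
    ¬ ∀ᶠ y in 𝓝 ξ, ∏ i, c i y = 0 := by
  intro h
  have h1 := me_prod ξ (fun i => c (Fin.ofNat 4 i)) (fun i => hc _) (fun i => hne _) 4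
  refine h1 (h.mono fun y hy => ?_)
  rw [Finset.prod_range]
  rw [← hy]
  refine Finset.prod_congr rfl fun i _ => ?_
  have h2 : Fin.ofNat 4 (i : ℕ) = i := by
    fin_cases i <;> rfl
  rw [h2]

section

variable {F : Flip} {r : ℝ} {N : ℕ} {S : Set (PN N × ℂ)} {b : Bimer F.O F.g r S}

/-- The inverse map respects the projections to the disc. -/
theorem me_base [Nonempty F.Sp] (p : S) (hp : (p : PN N × ℂ) ∉ b.A') :
    F.g (invS b p) = p.1.2 := by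
  have h : (p : PN N × ℂ) ∈ S \ b.A' := ⟨p.2, hp⟩
  have h1 : invS b p = (b.e.symm ⟨p, h⟩).1 := dif_pos h
  rw [h1, ← b.base (b.e.symm ⟨p, h⟩)]
  have h2 : b.e.toFun (b.e.symm ⟨p, h⟩) = ⟨p, h⟩ := b.e.toHomeomorph.apply_symm_apply ⟨p, h⟩
  rw [h2]

variable {σ : Sec F b} {j : Fin (N + 1)} [Nonempty F.Sp]

/-- The point of the affine part. -/
theorem me_pt (K : Crd σ j) (hG : GoodFacts K) {ξ : Fin 4 → ℂ} (hξ : ξ ∈ K.good) :
    ∃ p ∈ Vaff σ.r1, p 5 = ξ 3 ∧ ∀ i, affPt p i = K.W i ξ := by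
  obtain ⟨hB, hA, -, hr, hZ, -, -⟩ := hξ
  have hg : F.g (invS b (K.χ ξ)) = ξ 3 := by
    rw [me_base _ hA, hG.third ξ hB]
  have h5 : F.pt (invS b (K.χ ξ)) 5 = ξ 3 := (F.cX_five _).trans hg
  refine ⟨F.pt (invS b (K.χ ξ)), ⟨F.G_pt hZ, F.pt_zero hZ, ?_⟩, h5, fun i => rfl⟩
  rw [h5, ← hg]
  exact hr.trans_le σ.le

/-- The algebraic equation in the coordinates. -/
theorem me_eq (K : Crd σ j) (hG : GoodFacts K) {D δ : ℕ} {C : ℕ → MvPolynomial (Fin (N + 1)) (AnR σ.r1)}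
    (hD : ∀ n, (C n).IsHomogeneous D) {i : Fin 4}
    (h : ∀ p ∈ Vaff σ.r1, ∑ n ∈ Finset.range (δ + 1),
      evQ (C n) (fun i => evP (σ.s i) p) (p 5) * affPt p i ^ n = 0)
    {ξ : Fin 4 → ℂ} (hξ : ξ ∈ K.good) :
    ∑ n ∈ Finset.range (δ + 1), evQ (C n) (fun i => K.f i ξ) (ξ 3) * K.W i ξ ^ n = 0 := by
  obtain ⟨p, hp, h5, haff⟩ := me_pt K hG hξ
  have h1 := h p hp
  have hev : ∀ i, evP (σ.s i) p = K.f i ξ * evQ (σ.s j) (fun i => K.W i ξ) (ξ 3) := by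
    intro i
    rw [← hG.rel i ξ hξ]
    unfold evP
    rw [h5]
    congr 1
    exact funext haff
  simp only [hev, h5, haff, me_homog (hD _)] at h1
  have h2 : (evQ (σ.s j) (fun i => K.W i ξ) (ξ 3)) ^ D ≠ 0 := pow_ne_zero _ (hG.s_ne ξ hξ)
  have h3 : (evQ (σ.s j) (fun i => K.W i ξ) (ξ 3)) ^ D *
      ∑ n ∈ Finset.range (δ + 1), evQ (C n) (fun i => K.f i ξ) (ξ 3) * K.W i ξ ^ n = 0 := by
    rw [← h1, Finset.mul_sum]
    refine Finset.sum_congr rfl fun n _ => ?_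
    ring
  exact (mul_eq_zero.1 h3).resolve_left h2

/-- The leading coefficient in the coordinates. -/
theorem me_lead (K : Crd σ j) (hG : GoodFacts K) {D : ℕ} {C : MvPolynomial (Fin (N + 1)) (AnR σ.r1)}
    (hD : C.IsHomogeneous D) (hC : @cls σ.r1 σ.pos1 (bind₁ σ.s C) ≠ 0)
    {ξ : Fin 4 → ℂ} (hξ : ξ ∈ K.B) : ¬ ∀ᶠ y in 𝓝 ξ, evQ C (fun i => K.f i y) (y 3) = 0 := by
  intro hcon
  obtain ⟨y, ⟨hy, hne⟩, hy0⟩ := ((hG.g6 _ hC ξ hξ).and_eventually hcon).exists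
  apply hne
  obtain ⟨p, hp, h5, haff⟩ := me_pt K hG hy
  have h1 := sp_ev.bind _ _ C σ.s p
  have hev : ∀ P : MvPolynomial (Fin 4) (AnR σ.r1), evP P p = evQ P (fun i => K.W i y) (y 3) := by
    intro P
    unfold evP
    rw [h5]
    congr 1
    exact funext haff
  have hev2 : ∀ i, evP (σ.s i) p = K.f i y * evQ (σ.s j) (fun i => K.W i y) (y 3) := by
    intro i
    rw [hev, hG.rel i y hy]
  simp only [hev2] at h1
  rw [hev, me_homog hD, h5, hy0, mul_zero] at h1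
  exact h1

theorem me_an (hL : SpL0b) (K : Crd σ j) (hG : GoodFacts K)
    (C : MvPolynomial (Fin (N + 1)) (AnR σ.r1)) {ξ : Fin 4 → ℂ} (hξ : ξ ∈ K.B) :
    AnalyticAt ℂ (fun y => evQ C (fun i => K.f i y) (y 3)) ξ := by
  refine hL _ _ _ C (fun y => y 3) K.f ξ (A3.coord_an 3 ξ) ?_ (fun i => hG.fan i ξ hξ)
  show ‖ξ 3‖ < σ.r1
  rw [hG.third ξ hξ]
  exact (K.small ξ hξ).trans_le σ.le

/-- One of the coordinates. -/
theorem me_one (hB : SpB) (h1 : SpM1) (h8 : SpM8) (hL : SpL0b) (hM : HypM F b) (K : Crd σ j)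
    (hG : GoodFacts K) {ξ : Fin 4 → ℂ} (hξ : ξ ∈ K.B) (i : Fin 4) :
    ∃ c h : (Fin 4 → ℂ) → ℂ, AnalyticAt ℂ c ξ ∧ AnalyticAt ℂ h ξ ∧ (¬ ∀ᶠ y in 𝓝 ξ, c y = 0) ∧
      ∀ᶠ y in 𝓝 ξ, y ∈ K.good → c y * K.W i y = h y := by
  obtain ⟨D, δ, C, hD, heq, hne⟩ := hB F r N S b hM.pos hM.le σ i
  have hbd : ∀ ξ ∈ K.B, ∃ M : ℝ, ∀ᶠ y in 𝓝 ξ, y ∈ K.good →
      ‖evQ (C δ) (fun i => K.f i y) (y 3) * K.W i y‖ ≤ M := by
    intro ξ hξ
    have hc : ∀ n, ContinuousAt (fun y => ‖evQ (C n) (fun i => K.f i y) (y 3)‖) ξ := fun n =>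
      (me_an hL K hG (C n) hξ).continuousAt.norm
    have hc2 : ContinuousAt (fun y => 1 + ∑ n ∈ Finset.range δ,
        ‖evQ (C n) (fun i => K.f i y) (y 3)‖ *
          ‖evQ (C δ) (fun i => K.f i y) (y 3)‖ ^ (δ - 1 - n)) ξ := by
      refine continuousAt_const.add ?_
      exact tendsto_finsetSum _ fun n _ => (hc n).mul ((hc δ).pow _)
    obtain ⟨M, hM⟩ := exists_gt (1 + ∑ n ∈ Finset.range δ,
        ‖evQ (C n) (fun i => K.f i ξ) (ξ 3)‖ *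
          ‖evQ (C δ) (fun i => K.f i ξ) (ξ 3)‖ ^ (δ - 1 - n))
    refine ⟨M, (hc2.eventually (isOpen_Iio.mem_nhds hM)).mono fun y hy hyg => ?_⟩
    exact (h8 δ (fun n => evQ (C n) (fun i => K.f i y) (y 3)) (K.W i y)
      (me_eq K hG hD heq hyg)).trans hy.le
  obtain ⟨h, hh, hU⟩ := h1 4 K.B K.good K.par.isOpen hG.opn (fun y hy => hy.1) hG.g4
    (fun y => evQ (C δ) (fun i => K.f i y) (y 3) * K.W i y)
    (fun y hy => (me_an hL K hG (C δ) hy.1).mul (hG.an i y hy)) hbd ξ hξ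
  exact ⟨_, h, me_an hL K hG (C δ) hξ, hh, me_lead K hG (hD δ) hne hξ, hU⟩

end

/-- **Row M10.** -/
theorem sp_M10 : SpM10 := by
  intro hB h1 h8 hL F _ r N S b hM σ j K hG ξ hξ
  choose c h hc hh hne hU using me_one hB h1 h8 hL hM K hG hξ
  refine ⟨fun y => ∏ i, c i y, fun i y => h i y * ∏ k ∈ Finset.univ.erase i, c k y,
    Finset.analyticAt_fun_prod _ fun i _ => hc i,
    fun i => (hh i).mul (Finset.analyticAt_fun_prod _ fun i _ => hc i),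
    me_prod4 ξ c hc hne, ?_⟩
  filter_upwards [eventually_all.2 hU] with y hy hyg i
  rw [← hy i hyg, ← Finset.mul_prod_erase Finset.univ (fun k => c k y) (Finset.mem_univ i)]
  ring

end Pool.Agent.KO
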