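import Pool.Agent.KO.E.Div

/-!
# Project KO, block E: division by the coordinate `b 2` (row R6)
-/

set_option autoImplicit false

namespace Pool.Agent.KO

open Set Filter Topology

/-- Division of finitely many analytic functions by the largest common power of `b 2`. -/
theorem exists_div {ι : Type} [Fintype ι] (σ : ι → (Fin 3 → ℂ) → ℂ) {b₀ : Fin 3 → ℂ}
    (h0 : b₀ 2 = 0) (hσ : ∀ i, AnalyticAt ℂ (σ i) b₀)
    (hne : ∃ i, ¬ ∀ᶠ b in 𝓝 b₀, σ i b = 0) :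
    ∃ (k : ℕ) (τ : ι → (Fin 3 → ℂ) → ℂ), (∀ i, AnalyticAt ℂ (τ i) b₀) ∧
      (∀ i, ∀ᶠ b in 𝓝 b₀, σ i b = b 2 ^ k * τ i b) ∧
      ∃ i, ¬ ∀ᶠ b in 𝓝 b₀, b 2 = 0 → τ i b = 0 :=
  C.exists_div_gen 2 σ h0 hσ hne

end Pool.Agent.KO
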