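import Pool.Agent.KO.E.DensF
import Pool.Agent.KO.E.Glue
import Pool.Agent.KO.E.JacSpec
import Pool.Agent.KO.E.R6
import Pool.Agent.KO.E.PSpace

/-!
# Block E, part R: the map `φ` in the chart `A₁ = 1` (helper52)
-/

set_option autoImplicit false

namespace Pool.Agent.KO

open Set Filter Topology MvPolynomial

namespace Flip

variable (F : Flip)

/-- The value of the homogenization at `Φ q`. -/
theorem evH_Φ (hE : EvFacts) {r : ℝ} {m : ℕ} (P : MvPolynomial (Fin 4) (AnR r))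
    (hP : ∀ a ∈ P.support, Finsupp.weight wAff a ≤ m) (q : F.M2) (hq : q.1 3 ≠ 0) :
    evH m P (F.Φ q.1) = q.1 3 ^ m * evQ P (F.aff (F.pi2 q)) (F.g (F.pi2 q)) := by
  have h0 : F.Φ q.1 0 = q.1 3 := F.Φz q.1
  have hZ : F.pi2 q ∈ F.ZX := (F.mem_ZX_pi2 q).2 hq
  have h1 : F.Φ q.1 = act (q.1 3) (F.pt (F.pi2 q)) := by
    funext i
    rw [act_apply, pt, F.cX_pi2, h0]
    field_simp
  rw [h1, hE.actH r m P hP _ hq, hE.oneH r m P _ (F.pt_zero hZ), F.evP_pt]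

end Flip

section

variable {F : Flip} {r : ℝ} {N : ℕ} {S : Set (PN N × ℂ)} {b : Bimer F.O F.g r S}

/-- The coordinates of the image of a point of the flip chart. -/
theorem Sec.map_pi2 (σ : Sec F b) (q : F.M2) (hq : q.1 3 ≠ 0 ∨ q.1 4 ≠ 0)
    (h5 : ‖F.Φ q.1 5‖ < σ.r2) (h : F.pi2 q ∈ {x | ‖F.g x‖ < r} \ b.A)
    (hs : (fun i => evH σ.m (σ.s i) (F.Φ q.1)) ≠ 0) :
    (b.e.toFun ⟨F.pi2 q, h⟩).1.1 =
      Projectivization.mk ℂ (fun i => evH σ.m (σ.s i) (F.Φ q.1)) hs := by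
  have h1 : F.pi1 (F.ofq q hq) ∈ {x | ‖F.g x‖ < r} \ b.A := by rw [F.pi1_ofq]; exact h
  have h2 := σ.map (F.ofq q hq) h5 h1 hs
  have h3 : (⟨F.pi1 (F.ofq q hq), h1⟩ : ↥({x | ‖F.g x‖ < r} \ b.A)) = ⟨F.pi2 q, h⟩ :=
    Subtype.ext (F.pi1_ofq q hq)
  rw [h3] at h2
  exact h2

/-- The data in the chart `A₁ = 1`. -/
structure ChB (σ : Sec F b) where
  ζ : (Fin 3 → ℂ) → ℂ
  B : Set (Fin 3 → ℂ)
  xB : (Fin 3 → ℂ) → FX F 0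
  isOpen : IsOpen B
  an : ∀ c ∈ B, AnalyticAt ℂ ζ c
  dom : ∀ c ∈ B, qB ζ c ∈ Dom F.ρ
  T0 : ∀ c ∈ B, F.Φ (qB ζ c) 5 = 0
  Tz : ∀ c ∈ B, fderiv ℂ (fun q => F.Φ q 5) (qB ζ c) (Pi.single 3 1) ≠ 0
  z0 : ∀ c ∈ B, c 2 = 0 → ζ c = 0
  x_eq : ∀ c ∈ B, ∃ h : qB ζ c ∈ Dom F.ρ ∧ (qB ζ c 0 ≠ 0 ∨ qB ζ c 1 ≠ 0 ∨ qB ζ c 2 ≠ 0),
    (xB c).1 = F.pi2 ⟨qB ζ c, h⟩
  cont : ContinuousOn xB B
  opn : ∀ V ⊆ B, IsOpen V → IsOpen (xB '' V)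
  k : ℕ
  k_pos : 1 ≤ k
  τ : Fin (N + 1) → (Fin 3 → ℂ) → ℂ
  τan : ∀ i, ∀ c ∈ B, AnalyticAt ℂ (τ i) c
  τeq : ∀ i, ∀ c ∈ B, evH σ.m (σ.s i) (F.Φ (qB ζ c)) = c 2 ^ k * τ i c
  j : Fin (N + 1)
  τj : ∀ c ∈ B, τ j c ≠ 0
  b₁ : Fin 3 → ℂ
  mem : b₁ ∈ B
  b₁2 : b₁ 2 = 0

/-- The statement of row R5. -/
def SpChartB : Prop := ∀ (F : Flip), F.TopFacts → ∀ {b₀ : Fin 3 → ℂ}, b₀ 2 = 0 →
  ∃ (ζ : (Fin 3 → ℂ) → ℂ) (B : Set (Fin 3 → ℂ)) (xB : (Fin 3 → ℂ) → FX F 0), IsOpen B ∧ b₀ ∈ B ∧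
    (∀ b ∈ B, AnalyticAt ℂ ζ b ∧ qB ζ b ∈ Dom F.ρ ∧ F.Φ (qB ζ b) 5 = 0 ∧
      fderiv ℂ (fun q => F.Φ q 5) (qB ζ b) (Pi.single 3 1) ≠ 0 ∧ (b 2 = 0 → ζ b = 0)) ∧
    (∀ b ∈ B, ∃ h : qB ζ b ∈ Dom F.ρ ∧ (qB ζ b 0 ≠ 0 ∨ qB ζ b 1 ≠ 0 ∨ qB ζ b 2 ≠ 0),
      (xB b).1 = F.pi2 ⟨qB ζ b, h⟩) ∧ ContinuousOn xB B ∧ ∀ V ⊆ B, IsOpen V → IsOpen (xB '' V)

theorem an_qB {ζ : (Fin 3 → ℂ) → ℂ} {c : Fin 3 → ℂ} (h : AnalyticAt ℂ ζ c) :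
    AnalyticAt ℂ (qB ζ) c := by
  apply AnalyticAt.pi
  intro i
  have hc := fun i => Flip.an_coord (n := 3) i c
  fin_cases i
  · exact analyticAt_const
  · exact hc 0
  · exact hc 1
  · exact h
  · exact hc 2

/-- The functions `σ_i` are analytic. -/
theorem an_sig (hE : EvFacts) (σ : Sec F b) {ζ : (Fin 3 → ℂ) → ℂ} {c : Fin 3 → ℂ}
    (h : AnalyticAt ℂ ζ c) (hD : qB ζ c ∈ Dom F.ρ) (h0 : F.Φ (qB ζ c) 5 = 0)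
    (i : Fin (N + 1)) : AnalyticAt ℂ (fun c => evH σ.m (σ.s i) (F.Φ (qB ζ c))) c := by
  have h1 : AnalyticAt ℂ (evH σ.m (σ.s i)) (F.Φ (qB ζ c)) := by
    apply hE.anH
    rw [h0, norm_zero]
    exact σ.pos1.out
  have h2 : AnalyticAt ℂ (fun c => F.Φ (qB ζ c)) c :=
    AnalyticAt.fun_comp (f := qB ζ) (F.an_Φ hD) (an_qB h)
  exact AnalyticAt.fun_comp (f := fun c => F.Φ (qB ζ c)) h1 h2

/-- Existence of the data. -/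
theorem exists_chB (hE : EvFacts) (hDen : SpDenF) (hCh : SpChartB) (hX : F.XaFacts)
    (σ : Sec F b) : Nonempty (ChB σ) := by
  obtain ⟨ζ, B, xB, hB, h0B, hb, hx, hcont, hopn⟩ := hCh F hX.top (b₀ := 0) rfl
  -- not all `σ_i` vanish near `0`
  obtain ⟨i0, a0, ha0⟩ := σ.nz ⟨0, by simpa using σ.pos1.out⟩ (by simpa using σ.pos)
  have hne : ¬ ∀ᶠ c in 𝓝 (0 : Fin 3 → ℂ), evH σ.m (σ.s i0) (F.Φ (qB ζ c)) = 0 := by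
    intro hcon
    obtain ⟨V, hV, hVo, h0V⟩ := eventually_nhds_iff.1 (hcon.and (hB.mem_nhds h0B))
    have h1 := hopn V (fun c hc => (hV c hc).2) hVo
    obtain ⟨W, hW, hWe⟩ := isOpen_induced_iff.1 h1
    have h2 : (xB 0).1 ∈ W := by
      have : xB 0 ∈ xB '' V := ⟨0, h0V, rfl⟩
      rw [← hWe] at this
      exact this
    obtain ⟨x', hxW, hg, hZ, hy, hP⟩ := F.dens_good hE hDen (σ.s i0) (σ.nf i0)
      (s := 0) (by simpa using σ.pos1.out) ⟨a0, ha0⟩ hW (xB 0).2.out h2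
    have h3 : (⟨x', hg⟩ : FX F 0) ∈ xB '' V := by rw [← hWe]; exact hxW
    obtain ⟨c, hc, hcx⟩ := h3
    obtain ⟨hc0, hcB⟩ := hV c hc
    obtain ⟨hq, hxc⟩ := hx c hcB
    rw [hcx] at hxc
    have hxc : x' = F.pi2 ⟨qB ζ c, hq⟩ := hxc
    have hz : qB ζ c 3 ≠ 0 := by
      have := hxc ▸ hZ
      exact (F.mem_ZX_pi2 ⟨qB ζ c, hq⟩).1 this
    have h4 := F.evH_Φ hE (σ.s i0) (σ.deg i0) ⟨qB ζ c, hq⟩ hz
    rw [← hxc, hg] at h4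
    have h4 : evH σ.m (σ.s i0) (F.Φ (qB ζ c)) = qB ζ c 3 ^ σ.m * evQ (σ.s i0) (F.aff x') 0 := h4
    rw [hc0] at h4
    exact mul_ne_zero (pow_ne_zero _ hz) hP h4.symm
  obtain ⟨k, τ, hτ, hτe, i1, hi1⟩ := exists_div (b₀ := (0 : Fin 3 → ℂ))
    (fun i c => evH σ.m (σ.s i) (F.Φ (qB ζ c))) rfl
    (fun i => an_sig hE σ (hb 0 h0B).1 (hb 0 h0B).2.1 (hb 0 h0B).2.2.1 i) ⟨i0, hne⟩
  -- shrink
  have hall : ∀ᶠ c in 𝓝 (0 : Fin 3 → ℂ), c ∈ B ∧ (∀ i, AnalyticAt ℂ (τ i) c) ∧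
      ∀ i, evH σ.m (σ.s i) (F.Φ (qB ζ c)) = c 2 ^ k * τ i c := by
    have e1 : ∀ᶠ c in 𝓝 (0 : Fin 3 → ℂ), c ∈ B := hB.mem_nhds h0B
    exact e1.and
      ((eventually_all.2 fun i => (hτ i).eventually_analyticAt).and (eventually_all.2 hτe))
  obtain ⟨V, hV, hVo, h0V⟩ := eventually_nhds_iff.1 hall
  rw [not_eventually] at hi1
  obtain ⟨b₁, hb1, hb1V⟩ := (hi1.and_eventually (hVo.mem_nhds h0V)).exists
  push Not at hb1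
  obtain ⟨hb12, hb1τ⟩ := hb1
  have hzero : ∀ c ∈ B, c 2 = 0 → ∀ i, evH σ.m (σ.s i) (F.Φ (qB ζ c)) = 0 := by
    intro c hc h2 i
    apply hE.zeroH _ _ _ σ.one_le (σ.deg i)
    intro l _
    exact hX.rel.zero _ (hb c hc).2.1 ((hb c hc).2.2.2.2 h2) h2 l
  have hk : 1 ≤ k := by
    by_contra hk
    have hk0 : k = 0 := by omega
    have h1 := (hV b₁ hb1V).2.2 i1
    rw [hzero b₁ (hV b₁ hb1V).1 hb12, hk0, pow_zero, one_mul] at h1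
    exact hb1τ h1.symm
  have hτc : ∀ᶠ c in 𝓝 b₁, τ i1 c ≠ 0 :=
    ((hV b₁ hb1V).2.1 i1).continuousAt.eventually_ne hb1τ
  obtain ⟨V', hV', hV'o, hb1V'⟩ := eventually_nhds_iff.1 (hτc.and (hVo.mem_nhds hb1V))
  refine ⟨⟨ζ, V', xB, hV'o, ?_, ?_, ?_, ?_, ?_, ?_, ?_, ?_, k, hk, τ, ?_, ?_, i1, ?_, b₁, hb1V',
    hb12⟩⟩
  · exact fun c hc => (hb c (hV c (hV' c hc).2).1).1
  · exact fun c hc => (hb c (hV c (hV' c hc).2).1).2.1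
  · exact fun c hc => (hb c (hV c (hV' c hc).2).1).2.2.1
  · exact fun c hc => (hb c (hV c (hV' c hc).2).1).2.2.2.1
  · exact fun c hc => (hb c (hV c (hV' c hc).2).1).2.2.2.2
  · exact fun c hc => hx c (hV c (hV' c hc).2).1
  · exact hcont.mono fun c hc => (hV c (hV' c hc).2).1
  · exact fun W hW => hopn W fun c hc => (hV c (hV' c (hW hc)).2).1
  · exact fun i c hc => (hV c (hV' c hc).2).2.1 i
  · exact fun i c hc => (hV c (hV' c hc).2).2.2 i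
  · exact fun c hc => (hV' c hc).1

end

end Pool.Agent.KO
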