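import Pool.Agent.KO.E.R7
import Pool.Agent.KO.Xa.Shf

/-!
# Block E, part R: good points of the central fibre of `S`, the function `ψ` (helper52)
-/

set_option autoImplicit false

namespace Pool.Agent.KO

open Set Filter Topology MvPolynomial

/-- The structure sheaf of the fibre of `S`. -/
abbrev OS {N : ℕ} (S : Set (PN N × ℂ)) (s : ℂ) : Shf (FS S s) :=
  res (res (stdP N) S) {p : S | p.1.2 = s}

/-- The coordinates `u, w, x` of the fibre of `X`. -/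
noncomputable def c3 (F : Flip) (s : ℂ) (x : FX F s) : Fin 3 → ℂ := fun i => F.c4 x.1 i.castSucc

theorem isCoord_c3 (F : Flip) {s : ℂ} (x : FX F s) (hZ : x.1 ∈ F.ZX) (hy : F.cX 4 x.1 ≠ 0) :
    IsCoord (res F.O {x : F.Sp | F.g x = s}) (c3 F s) x :=
  IsCoord.fib (g := F.g) (fun y => F.cX_five y) x.2 (F.isCoord_c4 hZ hy)

section

variable {F : Flip} {r : ℝ} {N : ℕ} {S : Set (PN N × ℂ)} {b : Bimer F.O F.g r S}

/-- The coordinates `u, w, x` on the fibre of `S`, off `A'`. -/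
noncomputable def cG (b : Bimer F.O F.g r S) (s : ℂ) (x₀ : FX F s) (y : FS S s) : Fin 3 → ℂ :=
  c3 F s (invF b s x₀ y)

/-- The good points of the central fibre of `S`. -/
def goodF (σ : Sec F b) (x₀ : FX F 0) (j : Fin (N + 1)) : Set (FS S 0) :=
  {y | y.1.1 ∉ b.A' ∧ (invF b 0 x₀ y).1 ∈ F.ZX ∧ F.cX 4 (invF b 0 x₀ y).1 ≠ 0 ∧
    evQ (σ.s j) (F.aff (invF b 0 x₀ y).1) 0 ≠ 0}

/-- The coefficient of the form extends to all manifold points of the central fibre of `S`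
(the output of parts (L), (M), (D)). -/
def KapR (σ : Sec F b) (x₀ : FX F 0) : Prop :=
  ∀ (j : Fin (N + 1)) (y : FS S 0), y.1.1.1.rep j ≠ 0 → ∀ c0 : FS S 0 → Fin 3 → ℂ,
    IsCoord (OS S 0) c0 y → ∃ h : FS S 0 → ℂ, OS S 0 h y ∧ ∀ᶠ z in 𝓝 y, z ∈ goodF σ x₀ j →
      ∀ Ψ : (Fin 3 → ℂ) → (Fin 3 → ℂ), AnalyticAt ℂ Ψ (c0 z) → cG b 0 x₀ =ᶠ[𝓝 z] Ψ ∘ c0 →
        h z * ((2 * F.cX 4 (invF b 0 x₀ z).1) ^ σ.m * evQ (σ.s j) (F.aff (invF b 0 x₀ z).1) 0) =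
          (fderiv ℂ Ψ (c0 z)).det ^ σ.m

/-- Topological facts on `A`, `A'`. -/
structure TopA (b : Bimer F.O F.g r S) : Prop where
  r_pos : 0 < r
  openV : IsOpen {x : FX F 0 | x.1 ∉ b.A}
  openW : IsOpen {y : FS S 0 | y.1.1 ∉ b.A'}
  denseX : ∀ W : Set F.Sp, IsOpen W → ∀ x ∈ W, F.g x = 0 → ∃ x' ∈ W, F.g x' = 0 ∧ x' ∉ b.A
  denseS : ∀ W : Set (FS S 0), IsOpen W → ∀ y ∈ W, ∃ y' ∈ W, y'.1.1 ∉ b.A'

theorem topA (hX : F.XaFacts) (hr : 0 < r) (hb : b.Fiberwise) : TopA b := by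
  have h0 : ‖(0 : ℂ)‖ < r := by simpa using hr
  have hgc : Continuous F.g := continuous_iff_continuousAt.2 fun x => hX.shf.cont _ _ (hX.hol x)
  have hgo : IsOpen {x | ‖F.g x‖ < r} := isOpen_lt hgc.norm continuous_const
  have hdo : IsOpen (overDisc N r) := isOpen_lt continuous_snd.norm continuous_const
  have e1 := IsAn.isOpen_diff (fun f x h => hX.shf.cont f x h) hgo b.anA
  have e2 := IsAn.isOpen_diff (fun f x h => stdP_cont h) hdo b.anA'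
  refine ⟨hr, ?_, ?_, ?_, ?_⟩
  · have : {x : FX F 0 | x.1 ∉ b.A} = (fun x : FX F 0 => x.1) ⁻¹' ({x | ‖F.g x‖ < r} \ b.A) := by
      ext x
      simp only [mem_ofPred_eq, mem_preimage, mem_diff]
      rw [x.2.out]
      exact ⟨fun h => ⟨h0, h⟩, fun h => h.2⟩
    rw [this]
    exact e1.preimage continuous_subtype_val
  · have : {y : FS S 0 | y.1.1 ∉ b.A'} = (fun y : FS S 0 => y.1.1) ⁻¹' (overDisc N r \ b.A') := by
      ext y
      simp only [mem_ofPred_eq, mem_preimage, mem_diff, overDisc]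
      have : y.1.1.2 = 0 := y.2
      rw [this]
      exact ⟨fun h => ⟨h0, h⟩, fun h => h.2⟩
    rw [this]
    exact e2.preimage (continuous_subtype_val.comp continuous_subtype_val)
  · intro W hW x hx hg
    obtain ⟨x', h1, h2, h3⟩ := mem_closure_iff.1 ((hb 0 h0).1 hg) W hW hx
    exact ⟨x', h1, h2, h3⟩
  · intro W hW y hy
    obtain ⟨W1, hW1, rfl⟩ := isOpen_induced_iff.1 hW
    obtain ⟨W2, hW2, rfl⟩ := isOpen_induced_iff.1 hW1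
    have h1 : y.1.1 ∈ {p | p ∈ S ∧ p.2 = 0} := ⟨y.1.2, y.2⟩
    obtain ⟨p, h1, h2, h3⟩ := mem_closure_iff.1 ((hb 0 h0).2 h1) W2 hW2 hy
    exact ⟨⟨⟨p, h2.1⟩, h2.2⟩, h1, h3⟩

/-- The value of the map at a point with `z ≠ 0`. -/
theorem Sec.map_ZX (hE : EvFacts) (σ : Sec F b) {x : F.Sp} (hZ : x ∈ F.ZX) (hg : ‖F.g x‖ < σ.r2)
    (h : x ∈ {x | ‖F.g x‖ < r} \ b.A) (hs : (fun i => evQ (σ.s i) (F.aff x) (F.g x)) ≠ 0) :
    (b.e.toFun ⟨x, h⟩).1.1 =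
      Projectivization.mk ℂ (fun i => evQ (σ.s i) (F.aff x) (F.g x)) hs := by
  have h1 := F.pi1_pt hZ
  have hm : F.pi1 ⟨F.pt x, F.pt_mem hZ⟩ ∈ {x | ‖F.g x‖ < r} \ b.A := by rw [h1]; exact h
  have h5 : F.pt x 5 = F.g x := F.cX_five x
  have he : (fun i => evH σ.m (σ.s i) (F.pt x)) = fun i => evQ (σ.s i) (F.aff x) (F.g x) := by
    funext i
    rw [hE.oneH _ _ _ _ (F.pt_zero hZ), F.evP_pt]
  have hs' : (fun i => evH σ.m (σ.s i) (F.pt x)) ≠ 0 := by rw [he]; exact hs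
  have hg' : ‖F.pt x 5‖ < σ.r2 := by rw [h5]; exact hg
  have h2 := σ.map ⟨F.pt x, F.pt_mem hZ⟩ hg' hm hs'
  have h3 : (⟨F.pi1 ⟨F.pt x, F.pt_mem hZ⟩, hm⟩ : ↥({x | ‖F.g x‖ < r} \ b.A)) = ⟨x, h⟩ :=
    Subtype.ext h1
  rw [h3] at h2
  rw [h2]
  congr 1

/-- The good points are dense where `x_j ≠ 0`. -/
theorem dense_goodF (hE : EvFacts) (hDen : SpDenF) (hT : TopA b) (σ : Sec F b) (x₀ : FX F 0)
    (j : Fin (N + 1)) : {y : FS S 0 | y.1.1.1.rep j ≠ 0} ⊆ closure (goodF σ x₀ j) := by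
  intro y hy
  have h0 : ‖(0 : ℂ)‖ < r := by simpa using hT.r_pos
  rw [mem_closure_iff]
  intro W hW hyW
  have hjo : IsOpen {y : FS S 0 | y.1.1.1.rep j ≠ 0} :=
    (affU_open j).preimage (continuous_subtype_val.comp continuous_subtype_val)
  obtain ⟨y1, ⟨hy1W, hy1j⟩, hy1A⟩ := hT.denseS (W ∩ {y : FS S 0 | y.1.1.1.rep j ≠ 0})
    (hW.inter hjo) y ⟨hyW, hy⟩
  have hx1 := invF_map b h0 y x₀ y1 hy1A
  -- the open set of `X₀`
  have hopen : IsOpen ({x : FX F 0 | x.1 ∉ b.A} ∩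
      mapF b 0 h0 y ⁻¹' (W ∩ {y : FS S 0 | y.1.1.1.rep j ≠ 0})) :=
    (contOn_mapF b h0 y).isOpen_inter_preimage hT.openV (hW.inter hjo)
  obtain ⟨W', hW', hWe⟩ := isOpen_induced_iff.1 hopen
  have hmem : (invF b 0 x₀ y1).1 ∈ W' := by
    have : invF b 0 x₀ y1 ∈ {x : FX F 0 | x.1 ∉ b.A} ∩
      mapF b 0 h0 y ⁻¹' (W ∩ {y : FS S 0 | y.1.1.1.rep j ≠ 0}) :=
      ⟨hx1.1, by rw [mem_preimage, hx1.2]; exact ⟨hy1W, hy1j⟩⟩
    rw [← hWe] at this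
    exact this
  obtain ⟨i0, a0, ha0⟩ := σ.nz ⟨0, by simpa using σ.pos1.out⟩ (by simpa using σ.pos)
  obtain ⟨x', hxW, hg, hZ, hY, hP⟩ := F.dens_good hE hDen (σ.s i0) (σ.nf i0)
    (s := 0) (by simpa using σ.pos1.out) ⟨a0, ha0⟩ hW' (invF b 0 x₀ y1).2.out hmem
  have hx' : (⟨x', hg⟩ : FX F 0) ∈ {x : FX F 0 | x.1 ∉ b.A} ∩
      mapF b 0 h0 y ⁻¹' (W ∩ {y : FS S 0 | y.1.1.1.rep j ≠ 0}) := by
    rw [← hWe]; exact hxW
  obtain ⟨hxA, hxW2, hxj⟩ := hx'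
  set x2 : FX F 0 := ⟨x', hg⟩ with hx2
  have hinv := mapF_inv b h0 y x₀ x2 hxA
  refine ⟨mapF b 0 h0 y x2, hxW2, hinv.1, ?_, ?_, ?_⟩
  · rw [hinv.2]; exact hZ
  · rw [hinv.2]; exact hY
  · rw [hinv.2]
    have hm : x' ∈ {x | ‖F.g x‖ < r} \ b.A := ⟨by rw [mem_ofPred_eq, hg]; exact h0, hxA⟩
    have hs : (fun i => evQ (σ.s i) (F.aff x') (F.g x')) ≠ 0 := by
      intro h
      apply hP
      have := congrFun h i0
      rw [hg] at this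
      exact this
    have h1 := σ.map_ZX hE hZ (by rw [hg]; simpa using σ.pos) hm hs
    have h2 : (mapF b 0 h0 y x2).1.1.1.rep j ≠ 0 := hxj
    rw [mapF_of b h0 y x2 hxA] at h2
    have h3 : (b.e.toFun ⟨x2.1, show ‖F.g x2.1‖ < r by rw [x2.2.out]; exact h0, hxA⟩).1.1 =
      (b.e.toFun ⟨x', hm⟩).1.1 := rfl
    rw [h3, h1, rep_ne_iff] at h2
    rw [hg] at h2
    exact h2

end

end Pool.Agent.KO
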