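import Pool.Agent.KO.E.R8

/-!
# Block E, part R: the function `ψ` on the central fibre of `S` (helper52)
-/

set_option autoImplicit false

namespace Pool.Agent.KO

open Set Filter Topology MvPolynomial

/-- Two systems of coordinates. -/
theorem exists_trans {Y : Type} [TopologicalSpace Y] {O : Shf Y} (hO : ShfFacts O) {n : ℕ}
    {c c' : Y → Fin n → ℂ} {y : Y} (h : IsCoord O c y) (h' : IsCoord O c' y) :
    ∃ Ψ : (Fin n → ℂ) → (Fin n → ℂ), AnalyticAt ℂ Ψ (c y) ∧ c' =ᶠ[𝓝 y] Ψ ∘ c := by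
  obtain ⟨U, hyU, hc⟩ := h
  obtain ⟨U', hyU', hc'⟩ := h'
  have h1 : ∀ i : Fin n, O (fun z => c' z i) y := fun i =>
    (hc'.hol y hyU' _).2 ⟨fun v => v i, Flip.an_coord i _, Eventually.of_forall fun z => rfl⟩
  have h2 := fun i => (hc.hol y hyU _).1 (h1 i)
  choose K hK hKe using h2
  refine ⟨fun v i => K i v, AnalyticAt.pi hK, ?_⟩
  filter_upwards [eventually_all.2 hKe] with z hz
  funext i
  exact hz i

section

variable {F : Flip} {r : ℝ} {N : ℕ} {S : Set (PN N × ℂ)} {b : Bimer F.O F.g r S}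

/-- The coordinates `u, w, x` are coordinates at the good points. -/
theorem isCoord_cG (hT : TopA b) (σ : Sec F b) (x₀ : FX F 0) (j : Fin (N + 1)) {y : FS S 0}
    (hy : y ∈ goodF σ x₀ j) : IsCoord (OS S 0) (cG b 0 x₀) y := by
  have h0 : ‖(0 : ℂ)‖ < r := by simpa using hT.r_pos
  obtain ⟨h1, h2, h3, -⟩ := hy
  have h4 := invF_map b h0 y x₀ y h1
  have h5 := isCoord_invF b h0 y x₀ hT.openV hT.openW h4.1
    (isCoord_c3 F (invF b 0 x₀ y) h2 h3)
  rw [h4.2] at h5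
  exact h5

/-- The function `ψ` on the good points. -/
noncomputable def psiG (σ : Sec F b) (x₀ : FX F 0) (j : Fin (N + 1)) {R : ℕ}
    {V : Set (FS S 0)} (θ : CForm (OS S 0) 3 R V) (z : FS S 0) : ℂ :=
  (((2 * F.cX 4 (invF b 0 x₀ z).1) ^ σ.m * evQ (σ.s j) (F.aff (invF b 0 x₀ z).1) 0) ^ R *
    θ.val (cG b 0 x₀) z ^ σ.m)⁻¹

/-- Extension of `ψ`. -/
theorem exists_psi (hE : EvFacts) (hDen : SpDenF) (hT : TopA b) (σ : Sec F b) (x₀ : FX F 0)
    (hK : KapR σ x₀) (hsh : ShfFacts (OS S 0)) (hN : IsNormal (OS S 0) 3) (j : Fin (N + 1))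
    {R : ℕ} {V : Set (FS S 0)} (hV : IsOpen V) (θ : CForm (OS S 0) 3 R V) (hθ : θ.IsGen) :
    ∃ P : FS S 0 → ℂ, (∀ y ∈ V ∩ {y : FS S 0 | y.1.1.1.rep j ≠ 0}, OS S 0 P y) ∧
      ∀ y ∈ V, y ∈ goodF σ x₀ j → y.1.1.1.rep j ≠ 0 → P y = psiG σ x₀ j θ y := by
  have hjo : IsOpen {y : FS S 0 | y.1.1.1.rep j ≠ 0} :=
    (affU_open j).preimage (continuous_subtype_val.comp continuous_subtype_val)
  obtain ⟨P, hP1, hP2⟩ := exists_glue hN hsh (hV.inter hjo)
    (Gd := goodF σ x₀ j) (ψ := psiG σ x₀ j θ)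
    (fun y hy => dense_goodF hE hDen hT σ x₀ j hy.2) (by
      rintro y ⟨hyV, hyj⟩ ⟨c0, hc0⟩
      obtain ⟨h, hh, hev⟩ := hK j y hyj c0 hc0
      have hval := θ.hol c0 y hyV hc0
      have hne := hθ c0 y hyV hc0
      refine ⟨h ^ R / θ.val c0 ^ σ.m, ?_, ?_⟩
      · exact hsh.div (hsh.pow hh R) (hsh.pow hval σ.m) (pow_ne_zero _ hne)
      · filter_upwards [hev, hc0.eventually, hV.mem_nhds hyV] with z hz hcz hzV hzg
        have hcG := isCoord_cG hT σ x₀ j hzg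
        obtain ⟨Ψ, hΨ, hΨe⟩ := exists_trans hsh hcz hcG
        have h1 := hz hzg Ψ hΨ hΨe
        have h2 := θ.tr c0 (cG b 0 x₀) z hzV hcz hcG Ψ hΨ hΨe
        have h3 := hθ c0 z hzV hcz
        have h4 := hθ (cG b 0 x₀) z hzV hcG
        have h5 : (fderiv ℂ Ψ (c0 z)).det ^ R ≠ 0 := by
          intro h0
          rw [h0, mul_zero] at h2
          exact h3 h2
        have hYs : (2 * F.cX 4 (invF b 0 x₀ z).1) ^ σ.m *
            evQ (σ.s j) (F.aff (invF b 0 x₀ z).1) 0 ≠ 0 :=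
          mul_ne_zero (pow_ne_zero _ (mul_ne_zero two_ne_zero hzg.2.2.1)) hzg.2.2.2
        show h z ^ R / θ.val c0 z ^ σ.m = psiG σ x₀ j θ z
        unfold psiG
        set D := (fderiv ℂ Ψ (c0 z)).det with hD
        set A := (2 * F.cX 4 (invF b 0 x₀ z).1) ^ σ.m *
            evQ (σ.s j) (F.aff (invF b 0 x₀ z).1) 0 with hA
        have h6 : D ^ R ≠ 0 := h5
        rw [h2, div_eq_iff (pow_ne_zero _ (mul_ne_zero h4 h6))]
        have h7 : h z ^ R * A ^ R = (D ^ σ.m) ^ R := by rw [← mul_pow, h1]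
        have h8 : h z ^ R = (D ^ σ.m) ^ R / A ^ R := by
          rw [eq_div_iff (pow_ne_zero _ hYs)]; exact h7
        rw [h8]
        field_simp
        ring)
  refine ⟨P, hP1, fun y hy hg hj => ?_⟩
  exact hP2 y ⟨hy, hj⟩ ⟨_, isCoord_cG hT σ x₀ j hg⟩ hg

end

end Pool.Agent.KO
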