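import Pool.Agent.KO.E.SpecL

/-!
# Project KO, block E, row D5: restriction of a sheaf to a subset
-/

set_option autoImplicit false

namespace Pool.Agent.KO

open Set Filter Topology MvPolynomial

theorem ra_shf {X : Type} [TopologicalSpace X] {O : Shf X} (hO : ShfFacts O) (S : Set X) :
    ShfFacts (res O S) where
  congr := by
    rintro f f' x h ⟨F, hF, hf⟩
    refine ⟨F, hF, ?_⟩
    filter_upwards [h, hf] with y h1 h2
    rw [← h1, h2]
  cont := by
    rintro f x ⟨F, hF, hf⟩
    have h1 : ContinuousAt (fun y : S => F y) x :=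
      (hO.cont F x hF).comp continuousAt_subtype_val
    exact h1.congr (hf.mono fun y hy => hy.symm)
  opn := by
    rintro f x ⟨F, hF, hf⟩
    have h1 : ∀ᶠ y : S in 𝓝 x, O F y :=
      (continuousAt_subtype_val (p := fun y => y ∈ S) (x := x)).eventually (hO.opn F x hF)
    filter_upwards [h1, eventually_eventually_nhds.2 hf] with y h2 h3
    exact ⟨F, h2, h3⟩
  comp := by
    intro n f x H hf hH
    choose G hG hfG using hf
    have h1 : ∀ i, f i x = G i x := fun i => (hfG i).self_of_nhds
    refine ⟨fun y => H (fun i => G i y), hO.comp n G x H hG ?_, ?_⟩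
    · rwa [← funext h1]
    · filter_upwards [eventually_all.2 hfG] with y hy
      rw [funext hy]

theorem sp_ResAn : SpResAn := by
  intro X _ O hO S
  refine ⟨ra_shf hO S, ?_⟩
  rintro Ω A ⟨hA, h⟩
  refine ⟨preimage_mono hA, fun x hx => ?_⟩
  obtain ⟨V, hV, hxV, k, F, hF, hAV⟩ := h x hx
  refine ⟨Subtype.val ⁻¹' V, hV.preimage continuous_subtype_val, hxV, k,
    fun i y => F i y, fun i y hy => ⟨F i, hF i y hy, Eventually.of_forall fun _ => rfl⟩, ?_⟩
  ext y
  have h1 := Set.ext_iff.1 hAV y
  exact h1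

end Pool.Agent.KO
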