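import Pool.Agent.KO.E.ShfPx

/-!
# Project KO, block E, row D6: the structure sheaf of `ℙ^N × ℂ`
-/

set_option autoImplicit false

namespace Pool.Agent.KO

theorem sp_ShfP : SpShfP := sp_ShfPx

end Pool.Agent.KO
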