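import Pool.Agent.KO.E.Defs
import Pool.Agent.KO.E.GerA
import Pool.Agent.KO.E.Tr
import Pool.Agent.KO.A.Spec

/-!
# Project KO, block E, parts L, M, D: the statements of the rows (helper92)
-/

set_option autoImplicit false

namespace Pool.Agent.KO

open Set Filter Topology MvPolynomial

/-! ## Part L: the form is holomorphic near the manifold points -/

/-- Row L0 (file `E/L0.lean`). Values of polynomials at quotients of analytic functions. -/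
def SpL0 : Prop := ∀ (r : ℝ) (P : MvPolynomial (Fin 4) (AnR r)) (τ : (Fin 4 → ℂ) → ℂ)
  (ξ : Fin 4 → ℂ), AnalyticAt ℂ τ ξ → ‖τ ξ‖ < r →
  ∀ (b : (Fin 4 → ℂ) → ℂ) (a : Fin 4 → (Fin 4 → ℂ) → ℂ), AnalyticAt ℂ b ξ →
  (∀ i, AnalyticAt ℂ (a i) ξ) → ∃ (D : ℕ) (h : (Fin 4 → ℂ) → ℂ), AnalyticAt ℂ h ξ ∧
    ∀ᶠ y in 𝓝 ξ, ∀ w : Fin 4 → ℂ, (∀ i, b y * w i = a i y) → b y ^ D * evQ P w (τ y) = h y

/-- Row L0b (file `E/L0.lean`). Compositions with polynomials are analytic. -/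
def SpL0b : Prop := ∀ (r : ℝ) (n l : ℕ) (P : MvPolynomial (Fin n) (AnR r)) (τ : (Fin l → ℂ) → ℂ)
  (W : Fin n → (Fin l → ℂ) → ℂ) (ξ : Fin l → ℂ), AnalyticAt ℂ τ ξ → ‖τ ξ‖ < r →
  (∀ i, AnalyticAt ℂ (W i) ξ) → AnalyticAt ℂ (fun y => evQ P (fun i => W i y) (τ y)) ξ

/-- Row L1 (file `E/L1.lean`). The coefficient is meromorphic. -/
def SpL1 : Prop := SpL0 → ∀ (F : Flip) (r : ℝ) (N : ℕ) (S : Set (PN N × ℂ)) (b : Bimer F.O F.g r S)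
  (σ : Sec F b) (j : Fin (N + 1)) (L : Loc σ j), ∀ ξ ∈ L.B, ∃ a b : (Fin 4 → ℂ) → ℂ,
    AnalyticAt ℂ a ξ ∧ AnalyticAt ℂ b ξ ∧ (¬ ∀ᶠ y in 𝓝 ξ, b y = 0) ∧
      ∀ᶠ y in 𝓝 ξ, y ∈ L.good → b y * L.kap y = a y

/-- Row L1b (file `E/L1b.lean`). The coefficient is analytic at the good points. -/
def SpL1b : Prop := SpL0b → ∀ (F : Flip) (r : ℝ) (N : ℕ) (S : Set (PN N × ℂ)) (b : Bimer F.O F.g r S)
  (σ : Sec F b) (j : Fin (N + 1)) (L : Loc σ j), ∀ ξ ∈ L.good, AnalyticAt ℂ L.kap ξ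

/-- Row L3 (file `E/L3.lean`). A smooth divisor is a fibre of `ξ 3` or has points where it is
transversal to the fibre. -/
def SpL3 : Prop := ∀ (c : (Fin 4 → ℂ) → ℂ) (q : Fin 4 → ℂ), AnalyticAt ℂ c q → c q = 0 →
  fderiv ℂ c q ≠ 0 → (∀ᶠ x in 𝓝 q, x 3 = q 3 → c x = 0) ∨
    ∀ N ∈ 𝓝 q, ∃ q' ∈ N, AnalyticAt ℂ c q' ∧ c q' = 0 ∧
      ∃ k : Fin 3, fderiv ℂ c q' (Pi.single k.castSucc 1) ≠ 0

/-- The Jacobian determinant of the first three functions in the variables `0, 1, 3`. -/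
noncomputable def J4 (W : Fin 4 → (Fin 4 → ℂ) → ℂ) (y : Fin 4 → ℂ) : ℂ :=
  Matrix.det (fun i k : Fin 3 => fderiv ℂ (W i.castSucc) y (Pi.single (![0, 1, 3] k) 1))

/-- Row L5a (file `E/L5a.lean`). Coordinates `x` near `q` with `x 2 = ξ 3 - q 3`, `x 3 = c`. -/
def SpL5a : Prop := ∀ (c : (Fin 4 → ℂ) → ℂ) (q : Fin 4 → ℂ) (k : Fin 3), AnalyticAt ℂ c q →
  c q = 0 → fderiv ℂ c q (Pi.single k.castSucc 1) ≠ 0 →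
  ∃ (e : OpenPartialHomeomorph (Fin 4 → ℂ) (Fin 4 → ℂ)) (d : (Fin 4 → ℂ) → ℂ), 0 ∈ e.source ∧
    e 0 = q ∧ AnalyticOnNhd ℂ e e.source ∧ AnalyticOnNhd ℂ d e.source ∧
    ∀ x ∈ e.source, e x 3 = q 3 + x 2 ∧ c (e x) = x 3 ∧ d x ≠ 0 ∧
      ∀ W : Fin 4 → (Fin 4 → ℂ) → ℂ, (∀ i, AnalyticAt ℂ (W i) (e x)) →
        J4 (fun i => W i ∘ e) x = d x * J3 W (e x)

/-- The element `e` of the field of germs is the germ at `0` of the function `w` on `G`. -/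
def Rep {r : ℝ} (t0 : Metric.ball (0 : ℂ) r) (G : Set (Fin 4 → ℂ)) (e : GE t0)
    (w : (Fin 4 → ℂ) → ℂ) : Prop :=
  ∃ (b h : (Fin 4 → ℂ) → ℂ) (hb : AnalyticAt ℂ b 0) (hh : AnalyticAt ℂ h 0),
    (¬ ∀ᶠ x in 𝓝 0, b x = 0) ∧ toGE t0 (ofAn b hb) * e = toGE t0 (ofAn h hh) ∧
      ∀ᶠ x in 𝓝 0, x ∈ G → b x * w x = h x

/-- Row L6 (file `E/Rep.lean`). -/
structure RepFacts {r : ℝ} (t0 : Metric.ball (0 : ℂ) r) (G : Set (Fin 4 → ℂ)) : Prop where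
  an : ∀ f hf, Rep t0 G (toGE t0 (ofAn f hf)) f
  add : ∀ e e' w w', Rep t0 G e w → Rep t0 G e' w' → Rep t0 G (e + e') (fun x => w x + w' x)
  sub : ∀ e e' w w', Rep t0 G e w → Rep t0 G e' w' → Rep t0 G (e - e') (fun x => w x - w' x)
  mul : ∀ e e' w w', Rep t0 G e w → Rep t0 G e' w' → Rep t0 G (e * e') (fun x => w x * w' x)
  zero : ∀ e w, Rep t0 G e w → (∀ x ∈ G, w x = 0) → e = 0
  ne : ∀ e w, Rep t0 G e w → (∀ x ∈ G, w x ≠ 0) → e ≠ 0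

/-- Row L6 (file `E/Rep.lean`). -/
def SpRep6 : Prop := ∀ (r : ℝ) (t0 : Metric.ball (0 : ℂ) r) (G : Set (Fin 4 → ℂ)), IsOpen G →
  (∀ᶠ x in 𝓝 0, x ∈ closure G) → RepFacts t0 G

/-- Row L7 (file `E/RepQ.lean`). Values of polynomials. -/
def SpRepQ : Prop := ∀ (r : ℝ) [Fact (0 < r)] (t0 : Metric.ball (0 : ℂ) r) (G : Set (Fin 4 → ℂ)),
  RepFacts t0 G → ∀ (n : ℕ) (a : Fin n → GE t0) (W : Fin n → (Fin 4 → ℂ) → ℂ),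
  (∀ i, Rep t0 G (a i) (W i)) → ∀ P : MvPolynomial (Fin n) (AnR r),
    Rep t0 G (aeval a (P.map (algebraMap (AnR r) (Kr r)))) (fun x => evQ P (fun i => W i x) (t0 + x 2))

/-- Row L8 (`E/Germ.lean`, helper4). The valuation and the derivations of the field of germs. -/
structure GermLV (r : ℝ) [Fact (0 < r)] (t0 : Metric.ball (0 : ℂ) r) (D : LogVal (Kr r) (GE t0)) :
    Prop where
  d0 : ∀ f (hf : AnalyticAt ℂ f 0), D.δ 0 (toGE t0 (ofAn f hf)) = toGE t0 (ofAn (pd 0 f) (pd_an hf))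
  d1 : ∀ f (hf : AnalyticAt ℂ f 0), D.δ 1 (toGE t0 (ofAn f hf)) = toGE t0 (ofAn (pd 1 f) (pd_an hf))
  d2 : ∀ f (hf : AnalyticAt ℂ f 0) (h3 : AnalyticAt ℂ (fun x : Fin 4 → ℂ => x 3) 0),
    D.δ 2 (toGE t0 (ofAn f hf)) = toGE t0 (ofAn _ h3) * toGE t0 (ofAn (pd 3 f) (pd_an hf))
  nonneg : ∀ f (hf : AnalyticAt ℂ f 0), 0 ≤ D.v (toGE t0 (ofAn f hf))
  unit : ∀ f (hf : AnalyticAt ℂ f 0), f 0 ≠ 0 → D.v (toGE t0 (ofAn f hf)) = 0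
  coord : ∀ h3 : AnalyticAt ℂ (fun x : Fin 4 → ℂ => x 3) 0, D.v (toGE t0 (ofAn _ h3)) = 1

/-- Row L8 (`E/Germ.lean`, helper4). -/
def SpGerm : Prop := ∀ (r : ℝ) [Fact (0 < r)] (t0 : Metric.ball (0 : ℂ) r),
  ∃ D : LogVal (Kr r) (GE t0), GermLV r t0 D

/-- Row L9 (file `E/RepD.lean`). Derivatives. -/
def SpRepD : Prop := ∀ (r : ℝ) [Fact (0 < r)] (t0 : Metric.ball (0 : ℂ) r) (G : Set (Fin 4 → ℂ)),
  IsOpen G → RepFacts t0 G → ∀ D : LogVal (Kr r) (GE t0), GermLV r t0 D → ∀ e w, Rep t0 G e w →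
  (∀ x ∈ G, AnalyticAt ℂ w x) → Rep t0 G (D.δ 0 e) (pd 0 w) ∧ Rep t0 G (D.δ 1 e) (pd 1 w) ∧
    Rep t0 G (D.δ 2 e) (fun x => x 3 * pd 3 w x)

/-- Row L10 (file `E/RepJ.lean`). The determinant. -/
def SpRepJ : Prop := SpRepD → ∀ (r : ℝ) [Fact (0 < r)] (t0 : Metric.ball (0 : ℂ) r) (G : Set (Fin 4 → ℂ)),
  IsOpen G → RepFacts t0 G → ∀ D : LogVal (Kr r) (GE t0), GermLV r t0 D →
  ∀ (a : Fin 4 → GE t0) (W : Fin 4 → (Fin 4 → ℂ) → ℂ), (∀ i, Rep t0 G (a i) (W i)) →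
  (∀ i, ∀ x ∈ G, AnalyticAt ℂ (W i) x) →
    Rep t0 G (Matrix.of fun i j : Fin 3 => D.δ j (a i.castSucc)).det (fun x => x 3 * J4 W x)

/-- KEYM (`M/KeymNf.lean`, `keym_end`, helper5). -/
def SpKeym : Prop := ∀ (k : Type) [Field k] [CharZero k] (E : Type) [Field E] [Algebra k E]
  (D : LogVal k E) (t : k), Transcendental ℚ t → ∀ W : Fin 4 → E, aeval W (gAff t) = 0 →
  (Matrix.of fun i j : Fin 3 => D.δ j (W i.castSucc)).det ≠ 0 →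
  ∀ (N : ℕ) (s : Fin (N + 1) → MvPolynomial (Fin 4) k) (m : ℕ), (∀ i, NF (s i)) →
  (∀ i, ∀ c ∈ (s i).support, Finsupp.weight wAff c ≤ m) →
  (∃ i, ∃ c ∈ (s i).support, Finsupp.weight wAff c = m) →
  (∀ p : Raff t, (∀ i, p ∣ Ideal.Quotient.mk _ (s i)) → IsUnit p) →
  ∀ j : Fin (N + 1), aeval W (s j) ≠ 0 → ∀ f : Fin (N + 1) → E, (∀ i, f i = 0 ∨ 0 ≤ D.v (f i)) →
  (∀ i, aeval W (s i) = f i * aeval W (s j)) → D.v (aeval W (s j)) ≤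
    m * (D.v (Matrix.of fun i j : Fin 3 => D.δ j (W i.castSucc)).det - D.v (W 3) - 1)

instance charZero_AnR (r : ℝ) [h : Fact (0 < r)] : CharZero (AnR r) := by
  refine ⟨fun m n hmn => ?_⟩
  have h1 := congrArg (evR (⟨0, by simpa using h.out⟩ : Metric.ball (0 : ℂ) r)) hmn
  rw [map_natCast, map_natCast] at h1
  exact_mod_cast h1

instance charZero_Kr (r : ℝ) [Fact (0 < r)] : CharZero (Kr r) :=
  charZero_of_injective_algebraMap (IsFractionRing.injective (AnR r) (Kr r))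

/-- Row L11 (file `E/Trans.lean`). The element `t` is transcendental over `ℚ`. -/
def SpTrans : Prop := ∀ (r : ℝ) [Fact (0 < r)], Transcendental ℚ (tK r)

/-- Row L12 (file `E/Hor.lean`). The horizontal case. -/
def SpHor : Prop := SpKeym → SpRep6 → SpRepQ → SpGerm → SpRepD → SpRepJ →
  SpTrans → ∀ (r : ℝ) [Fact (0 < r)] (N : ℕ)
  (s : Fin (N + 1) → MvPolynomial (Fin 4) (AnR r)) (m : ℕ), (∀ i, NF (s i)) →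
  (∀ i, ∀ a ∈ (s i).support, Finsupp.weight wAff a ≤ m) →
  (∃ i, ∃ a ∈ (s i).support, Finsupp.weight wAff a = m) →
  (∀ d : Raff (tK r), (∀ i, d ∣ cls (s i)) → IsUnit d) → ∀ (j : Fin (N + 1))
  (t0 : Metric.ball (0 : ℂ) r) (G : Set (Fin 4 → ℂ)), IsOpen G →
  (∀ᶠ x in 𝓝 0, x ∈ closure G) → ∀ W : Fin 4 → (Fin 4 → ℂ) → ℂ,
  (∀ i, ∀ x ∈ G, AnalyticAt ℂ (W i) x) →
  (∃ (b : (Fin 4 → ℂ) → ℂ) (a : Fin 4 → (Fin 4 → ℂ) → ℂ), AnalyticAt ℂ b 0 ∧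
    (∀ i, AnalyticAt ℂ (a i) 0) ∧ (¬ ∀ᶠ x in 𝓝 0, b x = 0) ∧
      ∀ᶠ x in 𝓝 0, x ∈ G → ∀ i, b x * W i x = a i x) →
  (∀ x ∈ G, ‖(t0 : ℂ) + x 2‖ < r ∧ gA (t0 + x 2) (fun i => W i x) = 0 ∧ W 3 x ≠ 0 ∧ J4 W x ≠ 0 ∧
    x 3 ≠ 0 ∧ evQ (s j) (fun i => W i x) (t0 + x 2) ≠ 0) →
  ∀ f : Fin (N + 1) → (Fin 4 → ℂ) → ℂ, (∀ i, AnalyticAt ℂ (f i) 0) →
  (∀ i, ∀ x ∈ G, evQ (s i) (fun i => W i x) (t0 + x 2) =
    f i x * evQ (s j) (fun i => W i x) (t0 + x 2)) →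
  ∀ (e : ℕ) (u : (Fin 4 → ℂ) → ℂ), 1 ≤ e → AnalyticAt ℂ u 0 → u 0 ≠ 0 →
  (∀ x ∈ G, x 3 ^ e * ((J4 W x / (2 * W 3 x)) ^ m / evQ (s j) (fun i => W i x) (t0 + x 2)) = u x) →
  False

/-- Row L13 (file `E/LocM.lean`, from all rows L). -/
def SpLoc : Prop := ∀ (F : Flip) (r : ℝ) (N : ℕ) (S : Set (PN N × ℂ)) (b : Bimer F.O F.g r S)
  (σ : Sec F b) (j : Fin (N + 1)) (L : Loc σ j), ∀ ξ ∈ L.B, ∃ h : (Fin 4 → ℂ) → ℂ,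
    AnalyticAt ℂ h ξ ∧ ∀ᶠ y in 𝓝 ξ, y ∈ L.good → L.kap y = h y

/-! ## Part D: charts -/

/-- Row D3 (file `E/Par.lean`). -/
def SpPar : Prop := ∀ (X : Type) [TopologicalSpace X] (O : Shf X) (n : ℕ) (c : X → Fin n → ℂ)
  (x : X), IsCoord O c x → ∀ V ∈ 𝓝 x, ∃ (χ : (Fin n → ℂ) → X) (B : Set (Fin n → ℂ)),
    IsPar O c χ B ∧ c x ∈ B ∧ χ (c x) = x ∧ ∀ ξ ∈ B, χ ξ ∈ V

/-- Row D4 (file `E/Thin.lean`). Nowhere dense analytic sets at manifold points. -/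
def SpThin : Prop := ∀ (X : Type) [TopologicalSpace X] (O : Shf X), ShfFacts O → ∀ (n : ℕ)
  (c : X → Fin n → ℂ) (χ : (Fin n → ℂ) → X) (B : Set (Fin n → ℂ)), IsPar O c χ B →
  ∀ Ω A : Set X, IsAn O Ω A → ∀ ξ ∈ B, χ ξ ∈ Ω → (∃ᶠ x in 𝓝 (χ ξ), x ∉ A) →
    ∃ b : (Fin n → ℂ) → ℂ, AnalyticAt ℂ b ξ ∧ (¬ ∀ᶠ y in 𝓝 ξ, b y = 0) ∧
      ∀ᶠ y in 𝓝 ξ, b y ≠ 0 → χ y ∉ A

/-- Row D5 (file `E/ResAn.lean`). -/
def SpResAn : Prop := ∀ (X : Type) [TopologicalSpace X] (O : Shf X), ShfFacts O →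
  ∀ S : Set X, ShfFacts (res O S) ∧ ∀ Ω A : Set X, IsAn O Ω A →
    IsAn (res O S) (Subtype.val ⁻¹' Ω) (Subtype.val ⁻¹' A)

/-- Row D6 (file `E/ShfP.lean`). -/
def SpShfP : Prop := ∀ N : ℕ, ShfFacts (stdP N)

/-- Row D7 (file `E/CJac.lean`). Changes of coordinates. -/
def SpCJac : Prop := ∀ (X : Type) [TopologicalSpace X] (O : Shf X) (n : ℕ)
  (c c' : X → Fin n → ℂ) (χ : (Fin n → ℂ) → X) (B : Set (Fin n → ℂ)), IsPar O c χ B →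
  ∀ ξ ∈ B, IsCoord O c' (χ ξ) → AnalyticAt ℂ (c' ∘ χ) ξ ∧ (fderiv ℂ (c' ∘ χ) ξ).det ≠ 0

/-- Row D8 (file `E/JDet.lean`). The determinant of a map that keeps the last coordinate. -/
def SpJDet : Prop := ∀ (W : Fin 4 → (Fin 4 → ℂ) → ℂ) (V : (Fin 4 → ℂ) → (Fin 4 → ℂ))
  (ξ : Fin 4 → ℂ), AnalyticAt ℂ V ξ → (∀ᶠ y in 𝓝 ξ, V y 3 = y 3) →
  (∀ i : Fin 3, ∀ᶠ y in 𝓝 ξ, V y i.castSucc = W i.castSucc y) →
    (fderiv ℂ V ξ).det = J3 W ξ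

/-! ## Part M: the local data of the projective model -/

/-- The set is open and dense near `ξ`, the complement is thin in two steps. -/
def Thin2 {n : ℕ} (good : Set (Fin n → ℂ)) (ξ : Fin n → ℂ) : Prop :=
  ∃ b : (Fin n → ℂ) → ℂ, AnalyticAt ℂ b ξ ∧ (¬ ∀ᶠ y in 𝓝 ξ, b y = 0) ∧
    ∀ᶠ y in 𝓝 ξ, b y ≠ 0 → ∃ b' : (Fin n → ℂ) → ℂ, AnalyticAt ℂ b' y ∧
      (¬ ∀ᶠ z in 𝓝 y, b' z = 0) ∧ ∀ᶠ z in 𝓝 y, b' z ≠ 0 → z ∈ good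

/-- Row M1 (file `E/Riem2.lean`). Riemann's extension theorem in two steps. -/
def SpM1 : Prop := ∀ (n : ℕ) (B good : Set (Fin n → ℂ)), IsOpen B → IsOpen good → good ⊆ B →
  (∀ ξ ∈ B, Thin2 good ξ) → ∀ U : (Fin n → ℂ) → ℂ, (∀ ξ ∈ good, AnalyticAt ℂ U ξ) →
  (∀ ξ ∈ B, ∃ M : ℝ, ∀ᶠ y in 𝓝 ξ, y ∈ good → ‖U y‖ ≤ M) →
    ∀ ξ ∈ B, ∃ h : (Fin n → ℂ) → ℂ, AnalyticAt ℂ h ξ ∧ ∀ᶠ y in 𝓝 ξ, y ∈ good → U y = h y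

/-- Row M2 (file `E/ThinX.lean`). A holomorphic function on `X` whose zeros are the bad points. -/
def SpM2 : Prop := ∀ F : Flip, F.XaFacts → ∀ (r : ℝ) (s : MvPolynomial (Fin 4) (AnR r)) (m : ℕ),
  (∀ a ∈ s.support, Finsupp.weight wAff a ≤ m) → ∀ x : F.Sp, ‖F.g x‖ < r →
    ∃ h : F.Sp → ℂ, F.O h x ∧ ∀ᶠ y in 𝓝 x,
      (h y ≠ 0 ↔ y ∈ F.ZX ∧ F.cX 4 y ≠ 0 ∧ evQ s (F.aff y) (F.g y) ≠ 0)

/-- Row M3 (file `E/DenG.lean`, with `Flip.dens_ZX`). -/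
def SpM3 : Prop := SpDenF → ∀ F : Flip, F.XaFacts → ∀ (r : ℝ), r ≤ 1 →
  ∀ s : MvPolynomial (Fin 4) (AnR r), NF s → ∀ c : Metric.ball (0 : ℂ) r,
  (∃ a, evR c (s.coeff a) ≠ 0) → ∀ x : F.Sp, F.g x = c →
    x ∈ closure {y | F.g y = c ∧ y ∈ F.ZX ∧ F.cX 4 y ≠ 0 ∧ evQ s (F.aff y) c ≠ 0}

/-- Row M3b (file `E/DenT.lean`). The same in the total space. -/
def SpM3b : Prop := SpDen → ∀ F : Flip, F.XaFacts → ∀ (r : ℝ) [Fact (0 < r)], r ≤ 1 →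
  ∀ P : MvPolynomial (Fin 4) (AnR r), cls P ≠ 0 → ∀ x : F.Sp, x ∈ F.ZX → ‖F.g x‖ < r →
    ∃ᶠ y in 𝓝 x, evQ P (F.aff y) (F.g y) ≠ 0

/-- Row M6 (file `E/InvF.lean`). The inverse of the bimeromorphic map. -/
structure InvFacts {F : Flip} {r : ℝ} {N : ℕ} {S : Set (PN N × ℂ)} [Nonempty F.Sp]
    (b : Bimer F.O F.g r S) : Prop where
  opn : IsOpen {p : S | p.1 ∉ b.A'}
  opnX : IsOpen ({x | ‖F.g x‖ < r} \ b.A)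
  mem : ∀ p : S, p.1 ∉ b.A' → invS b p ∉ b.A ∧ ‖F.g (invS b p)‖ < r ∧ F.g (invS b p) = p.1.2
  map : ∀ p : S, p.1 ∉ b.A' → ∀ h, (b.e.toFun ⟨invS b p, h⟩).1 = p.1
  inv : ∀ x, ‖F.g x‖ < r → x ∉ b.A → ∃ p : S, p.1 ∉ b.A' ∧ invS b p = x
  cont : ∀ p : S, p.1 ∉ b.A' → ContinuousAt (invS b) p
  opnMap : ∀ p : S, p.1 ∉ b.A' → Filter.map (invS b) (𝓝 p) = 𝓝 (invS b p)
  inj : ∀ p p' : S, p.1 ∉ b.A' → p'.1 ∉ b.A' → invS b p = invS b p' → p = p'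
  hol : ∀ p : S, p.1 ∉ b.A' → ∀ f : F.Sp → ℂ,
    F.O f (invS b p) ↔ res (stdP N) S (f ∘ invS b) p
  coord : ∀ p : S, p.1 ∉ b.A' → ∀ (n : ℕ) (c : F.Sp → Fin n → ℂ),
    IsCoord F.O c (invS b p) → IsCoord (res (stdP N) S) (c ∘ invS b) p

/-- Row M6 (file `E/InvF.lean`). -/
def SpM6 : Prop := ∀ (F : Flip), F.XaFacts → ∀ [Nonempty F.Sp] (r : ℝ) (N : ℕ)
  (S : Set (PN N × ℂ)) (b : Bimer F.O F.g r S), IsAn (stdP N) (overDisc N r) S → InvFacts b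

/-- Row M7 (file `E/RelM.lean`). The sections are the homogeneous coordinates. -/
def SpM7 : Prop := ∀ (F : Flip) [Nonempty F.Sp] (r : ℝ) (N : ℕ)
  (S : Set (PN N × ℂ)) (b : Bimer F.O F.g r S), InvFacts b → ∀ σ : Sec F b, ∀ p : S,
  p.1 ∉ b.A' → ‖p.1.2‖ < σ.r2 → invS b p ∈ F.ZX →
  (∃ i, evQ (σ.s i) (F.aff (invS b p)) p.1.2 ≠ 0) → ∃ l : ℂ, l ≠ 0 ∧
    ∀ i, evQ (σ.s i) (F.aff (invS b p)) p.1.2 = l * p.1.1.rep i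

/-- Row M8 (file `E/Bdd.lean`). -/
def SpM8 : Prop := ∀ (δ : ℕ) (c : ℕ → ℂ) (w : ℂ), ∑ n ∈ Finset.range (δ + 1), c n * w ^ n = 0 →
  ‖c δ * w‖ ≤ 1 + ∑ n ∈ Finset.range δ, ‖c n‖ * ‖c δ‖ ^ (δ - 1 - n)

/-- Coordinates near a manifold point of `S` over the disc of radius `r₂`, with `x_j ≠ 0`. -/
structure Crd {F : Flip} {r : ℝ} {N : ℕ} {S : Set (PN N × ℂ)} {b : Bimer F.O F.g r S}
    (σ : Sec F b) (j : Fin (N + 1)) where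
  c : S → Fin 4 → ℂ
  χ : (Fin 4 → ℂ) → S
  B : Set (Fin 4 → ℂ)
  par : IsPar (res (stdP N) S) c χ B
  last : ∀ p, c p 3 = p.1.2
  small : ∀ ξ ∈ B, ‖(χ ξ).1.2‖ < σ.r2
  ne : ∀ ξ ∈ B, (χ ξ).1.1.rep j ≠ 0

/-- The functions `u, w, x, y` in the coordinates. -/
noncomputable def Crd.W {F : Flip} {r : ℝ} {N : ℕ} {S : Set (PN N × ℂ)} {b : Bimer F.O F.g r S}
    {σ : Sec F b} {j : Fin (N + 1)} [Nonempty F.Sp] (K : Crd σ j) (i : Fin 4) (ξ : Fin 4 → ℂ) : ℂ :=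
  F.aff (invS b (K.χ ξ)) i

/-- The good points in the coordinates. -/
def Crd.good {F : Flip} {r : ℝ} {N : ℕ} {S : Set (PN N × ℂ)} {b : Bimer F.O F.g r S}
    {σ : Sec F b} {j : Fin (N + 1)} [Nonempty F.Sp] (K : Crd σ j) : Set (Fin 4 → ℂ) :=
  {ξ | ξ ∈ K.B ∧ K.χ ξ ∈ goodS σ j}

/-- The hypotheses on the family. -/
structure HypM (F : Flip) {r : ℝ} {N : ℕ} {S : Set (PN N × ℂ)} (b : Bimer F.O F.g r S) : Prop where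
  pos : 0 < r
  le : r ≤ 1
  xa : F.XaFacts
  an : IsAn (stdP N) (overDisc N r) S
  fib : b.Fiberwise

section

variable {F : Flip} {r : ℝ} {N : ℕ} {S : Set (PN N × ℂ)} {b : Bimer F.O F.g r S}
  {σ : Sec F b} {j : Fin (N + 1)} [Nonempty F.Sp]

/-- Row G1 (file `E/G1.lean`). -/
structure Good1 (K : Crd σ j) : Prop where
  third : ∀ ξ ∈ K.B, ξ 3 = (K.χ ξ).1.2
  opn : IsOpen K.good
  an : ∀ i, ∀ ξ ∈ K.good, AnalyticAt ℂ (K.W i) ξ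
  eq : ∀ ξ ∈ K.good, gA (ξ 3) (fun i => K.W i ξ) = 0
  y_ne : ∀ ξ ∈ K.good, K.W 3 ξ ≠ 0
  s_ne : ∀ ξ ∈ K.good, evQ (σ.s j) (fun i => K.W i ξ) (ξ 3) ≠ 0

/-- Row G2 (file `E/G2.lean`). -/
def Good2 (K : Crd σ j) : Prop := ∀ ξ ∈ K.good, J3 K.W ξ ≠ 0

/-- Row G3 (file `E/G3.lean`). -/
def Good3 (K : Crd σ j) : Prop := ∀ ξ ∈ K.B, ξ ∈ closure (K.good ∩ {ξ' | ξ' 3 = ξ 3})

/-- Row G4 (file `E/G4.lean`). -/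
def Good4 (K : Crd σ j) : Prop := ∀ ξ ∈ K.B, Thin2 K.good ξ

/-- The functions `x_i / x_j`. -/
noncomputable def Crd.f (K : Crd σ j) (i : Fin (N + 1)) (ξ : Fin 4 → ℂ) : ℂ :=
  (K.χ ξ).1.1.rep i / (K.χ ξ).1.1.rep j

/-- Row G5 (file `E/G5.lean`). -/
structure Good5 (K : Crd σ j) : Prop where
  fan : ∀ i, ∀ ξ ∈ K.B, AnalyticAt ℂ (K.f i) ξ
  rel : ∀ i, ∀ ξ ∈ K.good, evQ (σ.s i) (fun i => K.W i ξ) (ξ 3) =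
    K.f i ξ * evQ (σ.s j) (fun i => K.W i ξ) (ξ 3)

/-- Row G6 (file `E/G6.lean`). -/
def Good6 (K : Crd σ j) : Prop := ∀ P : MvPolynomial (Fin 4) (AnR σ.r1),
  @cls σ.r1 σ.pos1 P ≠ 0 → ∀ ξ ∈ K.B,
    ∃ᶠ y in 𝓝 ξ, y ∈ K.good ∧ evQ P (fun i => K.W i y) (y 3) ≠ 0

/-- The good points: all facts. -/
structure GoodFacts (K : Crd σ j) : Prop extends Good1 K, Good5 K where
  g2 : Good2 K
  g3 : Good3 K
  g4 : Good4 K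
  g6 : Good6 K

end

/-- Row G1. -/
def SpG1 : Prop := SpL0b → ∀ (F : Flip) [Nonempty F.Sp] (r : ℝ) (N : ℕ) (S : Set (PN N × ℂ))
  (b : Bimer F.O F.g r S), HypM F b → InvFacts b → ∀ (σ : Sec F b) (j : Fin (N + 1))
  (K : Crd σ j), Good1 K

/-- Row G2. -/
def SpG2 : Prop := SpCJac → SpJDet → ∀ (F : Flip) [Nonempty F.Sp] (r : ℝ) (N : ℕ)
  (S : Set (PN N × ℂ)) (b : Bimer F.O F.g r S), HypM F b → InvFacts b → ∀ (σ : Sec F b)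
  (j : Fin (N + 1)) (K : Crd σ j), Good1 K → Good2 K

/-- Row G3. -/
def SpG3 : Prop := SpDenF → SpM3 → SpM7 → ∀ (F : Flip) [Nonempty F.Sp] (r : ℝ) (N : ℕ)
  (S : Set (PN N × ℂ)) (b : Bimer F.O F.g r S), HypM F b → InvFacts b → ∀ (σ : Sec F b)
  (j : Fin (N + 1)) (K : Crd σ j), Good1 K → Good3 K

/-- Row G4. -/
def SpG4 : Prop := SpThin → SpResAn → SpShfP → SpM2 → ∀ (F : Flip) [Nonempty F.Sp] (r : ℝ) (N : ℕ)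
  (S : Set (PN N × ℂ)) (b : Bimer F.O F.g r S), HypM F b → InvFacts b → ∀ (σ : Sec F b)
  (j : Fin (N + 1)) (K : Crd σ j), Good1 K → Good3 K → Good4 K

/-- Row G5. -/
def SpG5 : Prop := SpM7 → ∀ (F : Flip) [Nonempty F.Sp] (r : ℝ) (N : ℕ)
  (S : Set (PN N × ℂ)) (b : Bimer F.O F.g r S), HypM F b → InvFacts b → ∀ (σ : Sec F b)
  (j : Fin (N + 1)) (K : Crd σ j), Good1 K → Good5 K

/-- Row G6. -/
def SpG6 : Prop := SpDen → SpM3b → ∀ (F : Flip) [Nonempty F.Sp] (r : ℝ) (N : ℕ)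
  (S : Set (PN N × ℂ)) (b : Bimer F.O F.g r S), HypM F b → InvFacts b → ∀ (σ : Sec F b)
  (j : Fin (N + 1)) (K : Crd σ j), Good1 K → Good3 K → Good6 K

/-- Row M10 (file `E/Mer.lean`). -/
def SpM10 : Prop := SpB → SpM1 → SpM8 → SpL0b → ∀ (F : Flip) [Nonempty F.Sp] (r : ℝ) (N : ℕ) (S : Set (PN N × ℂ))
  (b : Bimer F.O F.g r S), HypM F b → ∀ (σ : Sec F b) (j : Fin (N + 1)) (K : Crd σ j),
  GoodFacts K → ∀ ξ ∈ K.B, ∃ (b : (Fin 4 → ℂ) → ℂ) (a : Fin 4 → (Fin 4 → ℂ) → ℂ),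
    AnalyticAt ℂ b ξ ∧ (∀ i, AnalyticAt ℂ (a i) ξ) ∧ (¬ ∀ᶠ y in 𝓝 ξ, b y = 0) ∧
      ∀ᶠ y in 𝓝 ξ, y ∈ K.good → ∀ i, b y * K.W i y = a i y

/-- Row M11 (file `E/Kap.lean`, from all rows of L, M, D). The result of the parts L, M, D. -/
def SpKap : Prop := ∀ (F : Flip) [Nonempty F.Sp] (r : ℝ) (N : ℕ) (S : Set (PN N × ℂ))
  (b : Bimer F.O F.g r S), HypM F b → IsFlat (res (stdP N) S) (fun p => p.1.2) →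
  RedFib (res (stdP N) S) (fun p => p.1.2) 0 → ∀ (σ : Sec F b) (j : Fin (N + 1)) (y : FS S 0),
  y.1.1.1.rep j ≠ 0 → ∀ c₀ : FS S 0 → Fin 3 → ℂ,
  IsCoord (res (res (stdP N) S) {p : S | p.1.2 = 0}) c₀ y →
  ∃ h : (Fin 3 → ℂ) → ℂ, AnalyticAt ℂ h (c₀ y) ∧ ∀ᶠ y' in 𝓝 y, y'.1 ∈ goodS σ j →
    ∀ Ψ : (Fin 3 → ℂ) → (Fin 3 → ℂ), AnalyticAt ℂ Ψ (c₀ y') →
    (fun z : FS S 0 => ![F.cX 1 (invS b z.1), F.cX 2 (invS b z.1), F.cX 3 (invS b z.1)])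
      =ᶠ[𝓝 y'] Ψ ∘ c₀ →
    ((fderiv ℂ Ψ (c₀ y')).det / (2 * F.cX 4 (invS b y'.1))) ^ σ.m /
      evQ (σ.s j) (F.aff (invS b y'.1)) 0 = h (c₀ y')

end Pool.Agent.KO
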